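import Pool.Agent.FG.Defs

/-! Project FG: the last arithmetic step (helper39). -/

set_option autoImplicit false

open Filter Topology

namespace Pool.Agent.FG

/-- a positive real that can be approximated by integral powers of 3 is a power of 3 -/
theorem pow_three_of_approx {t : ℝ} (ht : 0 < t)
    (h : ∀ c : ℝ, 0 < c → ∃ j : ℤ, |t - 3 ^ j| < c) : ∃ m : ℤ, t = 3 ^ m := by
  obtain ⟨n, hn1, hn2⟩ := exists_mem_Ico_zpow ht (by norm_num : (1 : ℝ) < 3)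
  rcases hn1.eq_or_lt with h1 | h1
  · exact ⟨n, h1.symm⟩
  · exfalso
    obtain ⟨j, hj⟩ := h (min (t - 3 ^ n) (3 ^ (n + 1) - t)) (lt_min (by linarith) (by linarith))
    rcases le_or_gt j n with h2 | h2
    · have h3 : (3 : ℝ) ^ j ≤ 3 ^ n := zpow_le_zpow_right₀ (by norm_num) h2
      have h4 := hj.trans_le (min_le_left _ _)
      rw [abs_lt] at h4
      linarith [h4.2]
    · have h3 : (3 : ℝ) ^ (n + 1) ≤ 3 ^ j := zpow_le_zpow_right₀ (by norm_num) (by omega)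
      have h4 := hj.trans_le (min_le_right _ _)
      rw [abs_lt] at h4
      linarith [h4.1]

theorem card_YY (a : ℕ) : Fintype.card (Y a × Y a) = 9 ^ (a + 1) := by
  simp only [Fintype.card_prod, Y, Fintype.card_fun, Fintype.card_fin, ZMod.card]
  rw [← mul_pow]
  norm_num

/-- the final step -/
theorem final_step {I : Type} {W : Ultrafilter I} {a k : I → ℕ} {t : ℝ} (ht : 0 < t)
    (hkt : Tendsto (fun i => (k i : ℝ) / Fintype.card (Y (a i) × Y (a i))) W (𝓝 t))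
    (key : ∀ η : ℝ, 0 < η → ∀ᶠ i in (W : Filter I), ∃ m : ℕ, |(k i : ℝ) - 3 ^ m| ≤ η * k i) :
    ∃ m : ℤ, t = 3 ^ m := by
  refine pow_three_of_approx ht fun c hc => ?_
  have hη : 0 < c / (2 * (t + 1 + 1)) := by positivity
  set η := min (c / (2 * (t + 1 + 1))) 1 with hηdef
  have hη0 : 0 < η := lt_min hη one_pos
  have h1 := (Metric.tendsto_nhds.mp hkt) η hη0
  obtain ⟨i, hi1, m, hm⟩ := (h1.and (key η hη0)).exists
  rw [Real.dist_eq, card_YY] at hi1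
  push_cast at hi1
  refine ⟨(m : ℤ) - 2 * ((a i : ℤ) + 1), ?_⟩
  have h9 : (0 : ℝ) < 9 ^ (a i + 1) := by positivity
  have e1 : (3 : ℝ) ^ ((m : ℤ) - 2 * ((a i : ℤ) + 1)) = 3 ^ m / 9 ^ (a i + 1) := by
    rw [zpow_sub₀ (by norm_num), zpow_natCast, zpow_mul]
    congr 1
    have : (3 : ℝ) ^ (2 : ℤ) = 9 := by norm_num
    rw [this]
    exact_mod_cast zpow_natCast (9 : ℝ) (a i + 1)
  rw [e1]
  have h2 : |(k i : ℝ) / 9 ^ (a i + 1) - 3 ^ m / 9 ^ (a i + 1)| ≤ η * ((k i : ℝ) / 9 ^ (a i + 1)) := by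
    rw [← sub_div, abs_div, abs_of_pos h9, ← mul_div_assoc]
    exact div_le_div_of_nonneg_right hm h9.le
  have h3 : (k i : ℝ) / 9 ^ (a i + 1) ≤ t + 1 := by
    have := (abs_lt.mp hi1).2
    have h5 : η ≤ 1 := min_le_right _ _
    linarith
  have h4 : |t - 3 ^ m / 9 ^ (a i + 1)|
      ≤ |(k i : ℝ) / 9 ^ (a i + 1) - t| + |(k i : ℝ) / 9 ^ (a i + 1) - 3 ^ m / 9 ^ (a i + 1)| := by
    have := abs_sub_le t ((k i : ℝ) / 9 ^ (a i + 1)) (3 ^ m / 9 ^ (a i + 1))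
    rwa [abs_sub_comm t ((k i : ℝ) / 9 ^ (a i + 1))] at this
  have h6 : η * ((k i : ℝ) / 9 ^ (a i + 1)) ≤ η * (t + 1) :=
    mul_le_mul_of_nonneg_left h3 hη0.le
  have h7 : η * (t + 1 + 1) ≤ c / 2 := by
    have h8 : η ≤ c / (2 * (t + 1 + 1)) := min_le_left _ _
    have h10 : 0 < t + 1 + 1 := by linarith
    calc η * (t + 1 + 1) ≤ c / (2 * (t + 1 + 1)) * (t + 1 + 1) :=
          mul_le_mul_of_nonneg_right h8 h10.le
      _ = c / 2 := by field_simp
  calc |t - 3 ^ m / 9 ^ (a i + 1)| ≤ _ := h4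
    _ < η + η * (t + 1) := add_lt_add_of_lt_of_le hi1 (h2.trans h6)
    _ = η * (t + 1 + 1) := by ring
    _ ≤ c / 2 := h7
    _ < c := by linarith

end Pool.Agent.FG
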