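import Pool.Agent.FG.UDefs

/-!
Project FG, row ISO3a (FG-AX1): the finite precision properties `AxT` hold for good parameters,
and `AxT` in a matrix algebra gives the axioms `Ax` (helper53).
-/

set_option autoImplicit false

open Filter Topology

namespace Pool.Agent.FG

theorem ax1_norm_om : ‖om‖ = 1 := by
  unfold om chi
  rw [ZMod.stdAddChar_apply]
  exact Circle.norm_coe _

theorem ax1_om_cube : om ^ 3 = 1 := by
  unfold om chi
  rw [← AddChar.map_nsmul_eq_pow]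
  have : (3 : ℕ) • (1 : ZMod 3) = 0 := by decide
  rw [this]
  exact AddChar.map_zero_eq_one _

section General

variable {M : Type*} [Ring M] [StarRing M] [Algebra ℂ M] [StarModule ℂ M] {τ : M →ₗ[ℂ] ℂ}

/-- products of unitaries close to each other -/
theorem ax1_mul_le (hτ : IsTr τ) {u v p q : M} (hv : v ∈ unitary M) (hp : p ∈ unitary M) :
    n2 τ (u * v - p * q) ≤ n2 τ (u - p) + n2 τ (v - q) := by
  have h1 : u * v - p * q = (u - p) * v + p * (v - q) := by noncomm_ring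
  rw [h1]
  refine (n2_add_le hτ _ _).trans ?_
  rw [n2_mul_unitary hτ hv, n2_unitary_mul τ hp]

theorem ax1_om_smul (hτ : IsTr τ) (s : ℕ) (x : M) : n2 τ (om ^ s • x) = n2 τ x := by
  rw [n2_smul hτ, norm_pow, ax1_norm_om, one_pow, one_mul]

theorem good_axT (hτ : IsTr τ) {b : Par M} (hb : Good τ b) {ε : ℝ} (hε : 0 < ε)
    (hε' : ε ≤ 1 / 8) : ∃ δ₂ : ℝ, 0 < δ₂ ∧ ∀ δ₁ : ℝ, 0 < δ₁ → AxT τ b ε δ₁ δ₂ := by
  obtain ⟨δ₂, hδ, hnear⟩ := hb.near (ε / 16) (by positivity)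
  refine ⟨δ₂, hδ, fun δ₁ hδ₁ => ⟨hb.unitary_c, hb.unitary_U, ?_, ?_, ?_, ?_, ?_, ?_⟩⟩
  · intro j u hu v hv h1 h2
    obtain ⟨p, hp, hp0, hpu⟩ := hnear j u hu h1
    obtain ⟨q, hq, hq0, hqv⟩ := hnear j v hv h2
    refine ⟨p * q, mul_mem hp hq, ?_, ?_⟩
    · rw [hb.mul j p hp q hq hp0 hq0]
      exact hδ₁
    · have h3 := ax1_mul_le hτ (u := u) (q := q) hv hp
      linarith
  · intro j u hu v hv h1 h2
    obtain ⟨p, hp, hp0, hpu⟩ := hnear j u hu h1
    obtain ⟨q, hq, hq0, hqv⟩ := hnear j v hv h2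
    rcases hb.sep j p hp q hq hp0 hq0 with h3 | h3
    · left
      have h4 := n2_sub_le_add hτ u p v
      have h5 := n2_sub_le_add hτ p q v
      rw [n2_sub_comm τ q v] at h5
      linarith
    · right
      have h4 := n2_sub_le_add hτ p u q
      have h5 := n2_sub_le_add hτ u v q
      rw [n2_sub_comm τ p u] at h4
      linarith
  · intro j u hu v hv h1 h2
    obtain ⟨p, hp, hp0, hpu⟩ := hnear j u hu h1
    obtain ⟨q, hq, hq0, hqv⟩ := hnear j v hv h2
    obtain ⟨s, hs⟩ := hb.comm j p hp q hq hp0 hq0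
    refine ⟨s, ?_⟩
    have h3 := ax1_mul_le hτ (u := u) (q := q) hv hp
    have h4 := ax1_mul_le hτ (u := q) (p := v) (v := p) (q := u) hp hv
    rw [n2_sub_comm τ q v, n2_sub_comm τ p u] at h4
    have h5 := n2_sub_le_add hτ (u * v) (p * q) (om ^ (s : ℕ) • (v * u))
    have h6 := n2_sub_le_add hτ (p * q) (om ^ (s : ℕ) • (q * p)) (om ^ (s : ℕ) • (v * u))
    rw [← smul_sub, ax1_om_smul hτ] at h6
    linarith
  · intro j u hu h1
    obtain ⟨p, hp, hp0, hpu⟩ := hnear j u hu h1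
    rcases hb.nondeg j p hp hp0 with ⟨s, hs⟩ | ⟨v, hv, hv0, hpv⟩
    · left
      refine ⟨s, ?_⟩
      have h3 := n2_sub_le_add hτ u p (om ^ (s : ℕ) • 1)
      linarith
    · right
      refine ⟨v, hv, by rw [hv0]; exact hδ₁, ?_⟩
      have h3 : n2 τ (u * v - p * v) ≤ ε / 16 := by
        rw [← sub_mul, n2_mul_unitary hτ hv]
        exact hpu
      have h4 : n2 τ (v * u - v * p) ≤ ε / 16 := by
        rw [← mul_sub, n2_unitary_mul τ hv]
        exact hpu
      have h5 := n2_sub_le_add hτ (p * v) (u * v) (v * p)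
      have h6 := n2_sub_le_add hτ (u * v) (v * u) (v * p)
      rw [n2_sub_comm τ (p * v) (u * v)] at h5
      linarith
  · intro u hu v hv h1 h2
    obtain ⟨p, hp, hp0, hpu⟩ := hnear 0 u hu h1
    obtain ⟨q, hq, hq0, hqv⟩ := hnear 1 v hv h2
    have h0 := hb.cross p hp q hq hp0 hq0
    have h3 := ax1_mul_le hτ (u := u) (q := q) hv hp
    have h4 := ax1_mul_le hτ (u := q) (p := v) (v := p) (q := u) hp hv
    rw [n2_sub_comm τ q v, n2_sub_comm τ p u] at h4
    have h5 := n2_sub_le_add hτ (u * v) (p * q) (v * u)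
    have h6 := n2_sub_le_add hτ (p * q) (q * p) (v * u)
    linarith
  · intro x hx h
    have h1 := hb.irr x hx (fun j p hp hp0 => by
      have := h j p hp (by rw [hp0]; exact hδ₁)
      linarith)
    linarith

end General

section Mat

variable {n : Type*} [Fintype n] [DecidableEq n] [Nonempty n]

omit [Fintype n] [DecidableEq n] [Nonempty n] in
theorem ax1_zed_om {M : Type*} [Ring M] [StarRing M] [Algebra ℂ M] [StarModule ℂ M] (b : Par M)
    (i : Fin 2) (u : M) : zed b i (om • u) = zed b i u := by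
  have h1 : om * star om = 1 := by
    rw [RCLike.star_def, Complex.mul_conj, Complex.normSq_eq_norm_sq, ax1_norm_om]
    norm_num
  have h2 : star om * om = 1 := by rw [mul_comm, h1]
  unfold zed
  simp only [star_smul, mul_smul_comm, smul_mul_assoc, smul_smul, h2, one_smul]

omit [Fintype n] [DecidableEq n] [Nonempty n] in
theorem ax1_Phi_om {M : Type*} [Ring M] [StarRing M] [Algebra ℂ M] [StarModule ℂ M]
    {τ : M →ₗ[ℂ] ℂ} (hτ : IsTr τ) (b : Par M) (j : Fin 2) (u : M) :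
    Phi τ b j (om • u) = Phi τ b j u := by
  have h1 : ∀ c : M, n2 τ (c * (om • u) - (om • u) * c) = n2 τ (c * u - u * c) := by
    intro c
    rw [mul_smul_comm, smul_mul_assoc, ← smul_sub, n2_smul hτ, ax1_norm_om, one_mul]
  unfold Phi
  simp only [ax1_zed_om, h1]
  rw [smul_pow, ax1_om_cube, one_smul]

omit [Fintype n] [DecidableEq n] [Nonempty n] in
theorem ax1_Phi_one {M : Type*} [Ring M] [StarRing M] [Algebra ℂ M] [StarModule ℂ M]
    {τ : M →ₗ[ℂ] ℂ} (b : Par M) (hb : ∀ i, b.U i ∈ unitary M) (j : Fin 2) :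
    Phi τ b j 1 = 0 := by
  have h1 : ∀ i, zed b i 1 = 1 := by
    intro i
    unfold zed
    rw [mul_one, star_one, mul_one, (Unitary.mem_iff.mp (hb i)).1]
  unfold Phi
  simp only [h1, mul_one, one_mul, sub_self, one_pow, n2_zero, Finset.sum_const_zero, add_zero]

theorem axT_ax {b : Par (Matrix n n ℂ)}
    {ε₀ ε δ₁ δ₂ : ℝ} (h0 : 0 < ε₀) (h01 : ε₀ ≤ ε) (h0' : ε₀ ≤ 1 / 10) (hε' : ε ≤ 1 / 8)
    (h1 : 0 < δ₂) (h2 : δ₁ ≤ δ₂) (h : AxT (mtr n) b ε₀ δ₁ δ₂) :
    Ax ε (fun j => {u | u ∈ Matrix.unitaryGroup n ℂ ∧ Phi (mtr n) b j u < δ₂}) := by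
  have hτ := isTr_mtr n
  refine ⟨fun j u hu => hu.1, fun j => ⟨1, ⟨one_mem _, ?_⟩, ?_⟩, fun j u hu => ⟨?_, ?_⟩, ?_, ?_,
    ?_, ?_, ?_, ?_⟩
  · rw [ax1_Phi_one b h.unitary_U]
    exact h1
  · rw [sub_self, n2_zero]
    linarith
  · have hu1 : u ∈ unitary (Matrix n n ℂ) := hu.1
    have h3 : star om * om = 1 := by
      rw [mul_comm, RCLike.star_def, Complex.mul_conj, Complex.normSq_eq_norm_sq, ax1_norm_om]
      norm_num
    have h4 : om • u ∈ unitary (Matrix n n ℂ) := by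
      rw [Unitary.mem_iff, star_smul, smul_mul_smul_comm, smul_mul_smul_comm, h3,
        mul_comm om, h3, (Unitary.mem_iff.mp hu1).1, (Unitary.mem_iff.mp hu1).2, one_smul]
      exact ⟨rfl, rfl⟩
    exact h4
  · rw [ax1_Phi_om hτ]
    exact hu.2
  · intro j u hu v hv
    obtain ⟨w, hw, hw1, hw2⟩ := h.mul j u hu.1 v hv.1 hu.2 hv.2
    exact ⟨w, ⟨hw, hw1.trans_le h2⟩, hw2.trans h01⟩
  · intro j u hu v hv
    rcases h.sep j u hu.1 v hv.1 hu.2 hv.2 with h3 | h3
    · exact Or.inl (h3.trans h01)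
    · right
      linarith
  · intro j u hu v hv
    obtain ⟨s, hs⟩ := h.comm j u hu.1 v hv.1 hu.2 hv.2
    exact ⟨s, hs.trans h01⟩
  · intro j u hu
    rcases h.nondeg j u hu.1 hu.2 with ⟨s, hs⟩ | ⟨v, hv, hv1, hv2⟩
    · exact Or.inl ⟨s, hs.trans h01⟩
    · right
      refine ⟨v, ⟨hv, hv1.trans_le h2⟩, ?_⟩
      linarith
  · intro u hu v hv
    exact (h.cross u hu.1 v hv.1 hu.2 hv.2).trans h01
  · intro x hx hxu
    have h3 := h.irr x hx (fun j p hp hp1 => by
      have := hxu j p ⟨hp, hp1.trans_le h2⟩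
      linarith)
    linarith

end Mat

end Pool.Agent.FG
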