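import Pool.Agent.FG.Defs

/-! Project FG, block T: general lemmas on tracial states and 2-norms (helper39). -/

set_option autoImplicit false

open Filter Topology
open scoped ComplexOrder

namespace Pool.Agent.FG

section T
variable {M : Type*} [Ring M] [StarRing M] [Algebra ℂ M]

theorem n2_nonneg (τ : M →ₗ[ℂ] ℂ) (x : M) : 0 ≤ n2 τ x := Real.sqrt_nonneg _

theorem n2_zero (τ : M →ₗ[ℂ] ℂ) : n2 τ (0 : M) = 0 := by simp [n2]

theorem n2_neg (τ : M →ₗ[ℂ] ℂ) (x : M) : n2 τ (-x) = n2 τ x := by simp [n2]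

theorem n2_sub_comm (τ : M →ₗ[ℂ] ℂ) (x y : M) : n2 τ (x - y) = n2 τ (y - x) := by
  rw [← neg_sub, n2_neg]

theorem n2_unitary_mul (τ : M →ₗ[ℂ] ℂ) {u : M} (hu : u ∈ unitary M) (x : M) :
    n2 τ (u * x) = n2 τ x := by
  unfold n2
  have h : star (u * x) * (u * x) = star x * x := by
    rw [star_mul, mul_assoc, ← mul_assoc (star u) u x, (Unitary.mem_iff.mp hu).1, one_mul]
  rw [h]

theorem n2_star_unitary_mul (τ : M →ₗ[ℂ] ℂ) {u : M} (hu : u ∈ unitary M) (x : M) :
    n2 τ (star u * x) = n2 τ x :=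
  n2_unitary_mul τ (Unitary.star_mem hu) x

variable {τ : M →ₗ[ℂ] ℂ}

theorem n2_star (h : IsTr τ) (x : M) : n2 τ (star x) = n2 τ x := by
  unfold n2
  rw [star_star, h.comm]

theorem n2_mul_unitary (h : IsTr τ) {u : M} (hu : u ∈ unitary M) (x : M) :
    n2 τ (x * u) = n2 τ x := by
  rw [← n2_star h, star_mul, n2_star_unitary_mul τ hu, n2_star h]

theorem n2_mul_star_unitary (h : IsTr τ) {u : M} (hu : u ∈ unitary M) (x : M) :
    n2 τ (x * star u) = n2 τ x :=
  n2_mul_unitary h (Unitary.star_mem hu) x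

theorem n2_one (h : IsTr τ) : n2 τ (1 : M) = 1 := by
  simp [n2, h.one]

theorem n2_unitary (h : IsTr τ) {u : M} (hu : u ∈ unitary M) : n2 τ u = 1 := by
  rw [← mul_one u, n2_unitary_mul τ hu, n2_one h]

theorem n2_sq (h : IsTr τ) (x : M) : ((n2 τ x ^ 2 : ℝ) : ℂ) = τ (star x * x) := by
  have h1 := Complex.nonneg_iff.mp (h.pos x)
  unfold n2
  rw [Real.sq_sqrt h1.1]
  exact Complex.ext (by simp) (by simpa using h1.2)

theorem n2_sq_re (h : IsTr τ) (x : M) : n2 τ x ^ 2 = (τ (star x * x)).re := by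
  have h1 := Complex.nonneg_iff.mp (h.pos x)
  unfold n2
  rw [Real.sq_sqrt h1.1]

variable [StarModule ℂ M]

theorem tr_star (h : IsTr τ) (x : M) : τ (star x) = star (τ x) := by
  have h0 := (Complex.nonneg_iff.mp (h.pos x)).2
  have h1 := (Complex.nonneg_iff.mp (h.pos (x + 1))).2
  have h2 := (Complex.nonneg_iff.mp (h.pos (x + Complex.I • 1))).2
  have e1 : star (x + 1) * (x + 1) = star x * x + star x + x + 1 := by
    rw [star_add, star_one]; noncomm_ring
  have e2 : star (x + Complex.I • (1 : M)) * (x + Complex.I • (1 : M))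
      = star x * x + Complex.I • star x - Complex.I • x + 1 := by
    rw [star_add, star_smul, star_one, add_mul, mul_add, mul_add, mul_smul_comm, mul_one,
      smul_mul_assoc, one_mul, smul_mul_smul_comm, one_mul]
    have : star Complex.I = -Complex.I := by simp
    rw [this, neg_mul, Complex.I_mul_I, neg_neg, one_smul, neg_smul]
    abel
  rw [e1] at h1
  rw [e2] at h2
  simp only [map_add, map_sub, map_smul, h.one, Complex.add_im, Complex.sub_im, smul_eq_mul,
    Complex.mul_im, Complex.I_re, Complex.I_im, zero_mul, one_mul, zero_add, Complex.one_im]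
    at h1 h2
  apply Complex.ext
  · simp only [RCLike.star_def, Complex.conj_re]
    linarith
  · simp only [RCLike.star_def, Complex.conj_im]
    linarith

/-- the semi-inner product of a trace -/
@[reducible] noncomputable def trCore (h : IsTr τ) : PreInnerProductSpace.Core ℂ M where
  inner x y := τ (star x * y)
  conj_inner_symm x y := by
    have h1 := tr_star h (star y * x)
    rw [star_mul, star_star] at h1
    show (starRingEnd ℂ) (τ (star y * x)) = τ (star x * y)
    rw [h1]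
    rfl
  re_inner_nonneg x := (Complex.nonneg_iff.mp (h.pos x)).1
  add_left x y z := by
    show τ (star (x + y) * z) = τ (star x * z) + τ (star y * z)
    rw [star_add, add_mul, map_add]
  smul_left x y r := by
    show τ (star (r • x) * y) = (starRingEnd ℂ) r * τ (star x * y)
    rw [star_smul, smul_mul_assoc, map_smul]
    rfl

theorem norm_tr_star_mul_le (h : IsTr τ) (x y : M) :
    ‖τ (star x * y)‖ ≤ n2 τ x * n2 τ y := by
  let _ := InnerProductSpace.Core.toSeminormedAddCommGroup (c := trCore h)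
  exact @InnerProductSpace.Core.norm_inner_le_norm ℂ M _ _ _ (trCore h) x y

theorem n2_add_le (h : IsTr τ) (x y : M) : n2 τ (x + y) ≤ n2 τ x + n2 τ y := by
  let _ := InnerProductSpace.Core.toSeminormedAddCommGroup (c := trCore h)
  exact norm_add_le x y

theorem n2_sub_le (h : IsTr τ) (x y : M) : n2 τ (x - y) ≤ n2 τ x + n2 τ y := by
  rw [sub_eq_add_neg, ← n2_neg τ y]
  exact n2_add_le h x (-y)

theorem n2_sub_le_add (h : IsTr τ) (x y z : M) : n2 τ (x - z) ≤ n2 τ (x - y) + n2 τ (y - z) := by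
  have := n2_add_le h (x - y) (y - z)
  rwa [sub_add_sub_cancel] at this

theorem n2_smul (h : IsTr τ) (c : ℂ) (x : M) : n2 τ (c • x) = ‖c‖ * n2 τ x := by
  have h1 : n2 τ (c • x) ^ 2 = (‖c‖ * n2 τ x) ^ 2 := by
    rw [n2_sq_re h, mul_pow, n2_sq_re h, star_smul, smul_mul_smul_comm, map_smul, smul_eq_mul]
    have h2 : star c * c = ((‖c‖ ^ 2 : ℝ) : ℂ) := by
      rw [RCLike.star_def, ← Complex.normSq_eq_conj_mul_self, Complex.normSq_eq_norm_sq]
    rw [h2, Complex.re_ofReal_mul]
  exact (sq_eq_sq₀ (n2_nonneg _ _) (mul_nonneg (norm_nonneg _) (n2_nonneg _ _))).mp h1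

theorem norm_tr_le (h : IsTr τ) (x : M) : ‖τ x‖ ≤ n2 τ x := by
  have := norm_tr_star_mul_le h 1 x
  rwa [star_one, one_mul, n2_one h, one_mul] at this

theorem n2_sub_smul_sq (h : IsTr τ) (x y : M) (c : ℂ) :
    n2 τ (x - c • y) ^ 2
      = n2 τ x ^ 2 - 2 * (c * τ (star x * y)).re + ‖c‖ ^ 2 * n2 τ y ^ 2 := by
  have h3 := n2_sq_re h (c • y)
  rw [n2_smul h, mul_pow] at h3
  rw [n2_sq_re h, h3, n2_sq_re h x]
  have e : star (x - c • y) * (x - c • y)
      = star x * x - c • (star x * y) - star (c • (star x * y)) + star (c • y) * (c • y) := by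
    rw [star_sub, sub_mul, mul_sub, mul_sub, mul_smul_comm, star_smul c (star x * y), star_mul,
      star_star, star_smul, smul_mul_assoc]
    abel
  rw [e, map_add, map_sub, map_sub, tr_star h, map_smul]
  simp only [Complex.add_re, Complex.sub_re, RCLike.star_def, Complex.conj_re, smul_eq_mul]
  ring

theorem n2_sub_tr_sq (h : IsTr τ) (x : M) :
    n2 τ (x - τ x • 1) ^ 2 = n2 τ x ^ 2 - ‖τ x‖ ^ 2 := by
  rw [n2_sub_smul_sq h, mul_one, tr_star h, n2_one h]
  have h2 : τ x * star (τ x) = ((‖τ x‖ ^ 2 : ℝ) : ℂ) := by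
    rw [mul_comm, RCLike.star_def, ← Complex.normSq_eq_conj_mul_self, Complex.normSq_eq_norm_sq]
  rw [h2, Complex.ofReal_re]
  ring

end T

theorem isTr_mtr (n : Type*) [Fintype n] [DecidableEq n] [Nonempty n] : IsTr (mtr n) where
  one := by
    simp [mtr, Matrix.trace_one]
  comm x y := by
    simp [mtr, Matrix.trace_mul_comm x y]
  pos x := by
    have h : mtr n (star x * x) = (((Fintype.card n : ℝ)⁻¹ * ∑ i, ∑ j, ‖x i j‖ ^ 2 : ℝ) : ℂ) := by
      have h1 : Matrix.trace (star x * x) = ((∑ i, ∑ j, ‖x i j‖ ^ 2 : ℝ) : ℂ) := by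
        rw [Finset.sum_comm]
        simp only [Matrix.trace, Matrix.diag, Matrix.mul_apply, Matrix.star_apply]
        push_cast
        refine Finset.sum_congr rfl fun i _ => Finset.sum_congr rfl fun j _ => ?_
        rw [RCLike.star_def, ← Complex.normSq_eq_conj_mul_self, Complex.normSq_eq_norm_sq]
        push_cast
        rfl
      simp only [mtr, LinearMap.smul_apply, Matrix.traceLinearMap_apply, h1, smul_eq_mul]
      push_cast
      rfl
    rw [h]
    exact_mod_cast (by positivity : (0 : ℝ) ≤ (Fintype.card n : ℝ)⁻¹ * ∑ i, ∑ j, ‖x i j‖ ^ 2)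

theorem n2_mtr_sq (n : Type*) [Fintype n] [DecidableEq n] (A : Matrix n n ℂ) :
    n2 (mtr n) A ^ 2 = (∑ i, ∑ j, ‖A i j‖ ^ 2) / Fintype.card n := by
  have h : mtr n (star A * A) = (((∑ i, ∑ j, ‖A i j‖ ^ 2) / Fintype.card n : ℝ) : ℂ) := by
    have h1 : Matrix.trace (star A * A) = ((∑ i, ∑ j, ‖A i j‖ ^ 2 : ℝ) : ℂ) := by
      rw [Finset.sum_comm]
      simp only [Matrix.trace, Matrix.diag, Matrix.mul_apply, Matrix.star_apply]
      push_cast
      refine Finset.sum_congr rfl fun i _ => Finset.sum_congr rfl fun j _ => ?_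
      rw [RCLike.star_def, ← Complex.normSq_eq_conj_mul_self, Complex.normSq_eq_norm_sq]
      push_cast
      rfl
    simp only [mtr, LinearMap.smul_apply, Matrix.traceLinearMap_apply, h1, smul_eq_mul]
    push_cast
    rw [div_eq_inv_mul]
  unfold n2
  rw [h, Complex.ofReal_re, Real.sq_sqrt (by positivity)]

end Pool.Agent.FG
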