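import Pool.Agent.FG.FDDefs
import Pool.Agent.FG.Tr

/-!
Project FG, block FD, row FD-02: the character `chi` of `ZMod 3`, the pairing `pr`, orthogonality
of characters, the nearest third root of unity.
-/

set_option autoImplicit false

open Finset

namespace Pool.Agent.FG

theorem chi_zero : chi 0 = 1 := by
  unfold chi
  exact AddChar.map_zero_eq_one _

theorem chi_add (x y : ZMod 3) : chi (x + y) = chi x * chi y := by
  unfold chi
  exact AddChar.map_add_eq_mul _ _ _

theorem norm_chi (x : ZMod 3) : ‖chi x‖ = 1 := by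
  unfold chi
  rw [ZMod.stdAddChar_apply]
  exact Circle.norm_coe _

theorem chi_mul_star (x : ZMod 3) : chi x * star (chi x) = 1 := by
  rw [RCLike.star_def, Complex.mul_conj, Complex.normSq_eq_norm_sq, norm_chi]
  norm_num

theorem star_mul_chi (x : ZMod 3) : star (chi x) * chi x = 1 := by
  rw [mul_comm, chi_mul_star]

theorem chi_neg (x : ZMod 3) : chi (-x) = star (chi x) := by
  have h1 : chi (-x) * chi x = 1 := by rw [← chi_add, neg_add_cancel, chi_zero]
  calc chi (-x) = chi (-x) * (chi x * star (chi x)) := by rw [chi_mul_star, mul_one]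
    _ = star (chi x) := by rw [← mul_assoc, h1, one_mul]

theorem chi_injective : Function.Injective chi := fun _ _ h => ZMod.injective_stdAddChar h

private theorem chi_ne_one {x : ZMod 3} (hx : x ≠ 0) : chi x ≠ 1 := by
  intro h
  rw [← chi_zero] at h
  exact hx (chi_injective h)

private theorem three_zero : ∀ x : ZMod 3, x + x + x = 0 := by
  decide

private theorem three_cases : ∀ x : ZMod 3, x = 0 ∨ x = 1 ∨ x = 2 := by
  decide

private theorem chi_cube (x : ZMod 3) : chi x ^ 3 = 1 := by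
  have : chi x ^ 3 = chi (x + x + x) := by
    rw [chi_add, chi_add]
    ring
  rw [this, three_zero, chi_zero]

private theorem chi_sq {x : ZMod 3} (hx : x ≠ 0) : chi x ^ 2 + chi x + 1 = 0 := by
  have h1 : (chi x - 1) * (chi x ^ 2 + chi x + 1) = 0 := by
    have := chi_cube x
    linear_combination this
  rcases mul_eq_zero.1 h1 with h | h
  · exact absurd (sub_eq_zero.1 h) (chi_ne_one hx)
  · exact h

theorem norm_chi_sub_one (x : ZMod 3) (hx : x ≠ 0) : ‖chi x - 1‖ ^ 2 = 3 := by
  have h1 : star (chi x) = chi x ^ 2 := by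
    calc star (chi x) = star (chi x) * (chi x ^ 3) := by rw [chi_cube, mul_one]
      _ = (star (chi x) * chi x) * chi x ^ 2 := by ring
      _ = chi x ^ 2 := by rw [star_mul_chi, one_mul]
  have h2 : ((‖chi x - 1‖ ^ 2 : ℝ) : ℂ) = 3 := by
    rw [← Complex.normSq_eq_norm_sq, Complex.normSq_eq_conj_mul_self, map_sub, map_one,
      ← RCLike.star_def, h1]
    have h3 := chi_sq hx
    have h4 := chi_cube x
    linear_combination h4 - h3
  exact_mod_cast h2

theorem norm_chi_sub (x y : ZMod 3) (h : x ≠ y) : ‖chi x - chi y‖ ^ 2 = 3 := by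
  have h1 : chi x - chi y = (chi (x - y) - 1) * chi y := by
    rw [sub_mul, one_mul, ← chi_add, sub_add_cancel]
  rw [h1, norm_mul, norm_chi, mul_one, norm_chi_sub_one _ (sub_ne_zero.2 h)]

theorem om_pow (k : ℕ) : om ^ k = chi (k : ZMod 3) := by
  induction k with
  | zero => simp [chi_zero]
  | succ k ih => rw [pow_succ, ih, om, ← chi_add, Nat.cast_succ]

theorem exists_om_pow (k : ZMod 3) : ∃ s : Fin 3, chi k = om ^ (s : ℕ) := by
  refine ⟨⟨k.val, ZMod.val_lt k⟩, ?_⟩
  rw [om_pow]
  simp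

private theorem cube_sub (y : ℂ) : y ^ 3 - 1 = (y - chi 0) * (y - chi 1) * (y - chi 2) := by
  have h1 := chi_sq (x := 1) (by decide)
  have h2 : chi 2 = chi 1 ^ 2 := by
    have : (2 : ZMod 3) = 1 + 1 := by decide
    rw [this, chi_add]
    ring
  have h3 := chi_cube 1
  rw [chi_zero, h2]
  linear_combination (-y) * h1 + (y ^ 2) * h1 - (h3) * y + h3

/-- nearest third root of unity -/
theorem exists_root (y : ℂ) : ∃ k : ZMod 3, ‖y - chi k‖ ≤ 4 / 3 * ‖y ^ 3 - 1‖ := by
  obtain ⟨k, hk⟩ := Finite.exists_min fun k : ZMod 3 => ‖y - chi k‖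
  refine ⟨k, ?_⟩
  have hfar : ∀ j, j ≠ k → 3 / 4 ≤ ‖y - chi j‖ ^ 2 := by
    intro j hj
    have h1 := norm_chi_sub j k hj
    have h2 : ‖chi j - chi k‖ ≤ ‖y - chi j‖ + ‖y - chi k‖ := by
      have : chi j - chi k = (y - chi k) - (y - chi j) := by ring
      rw [this, add_comm]
      exact norm_sub_le _ _
    have h3 := hk j
    have h4 : ‖chi j - chi k‖ ≤ 2 * ‖y - chi j‖ := by linarith
    have h5 : ‖chi j - chi k‖ ^ 2 ≤ (2 * ‖y - chi j‖) ^ 2 :=
      pow_le_pow_left₀ (norm_nonneg _) h4 2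
    rw [h1, mul_pow] at h5
    linarith
  have hprod : ‖y ^ 3 - 1‖ = ‖y - chi 0‖ * ‖y - chi 1‖ * ‖y - chi 2‖ := by
    rw [cube_sub, norm_mul, norm_mul]
  have key : ∀ p q r : ℝ, 0 ≤ p → 0 ≤ q → 0 ≤ r → 3 / 4 ≤ q ^ 2 → 3 / 4 ≤ r ^ 2 →
      p ≤ 4 / 3 * (p * (q * r)) := by
    intro p q r hp hq hr h1 h2
    have h3 : 3 / 4 ≤ q * r := by
      have h4 : (3 / 4 : ℝ) ^ 2 ≤ (q * r) ^ 2 := by
        rw [mul_pow]
        nlinarith
      exact (pow_le_pow_iff_left₀ (by norm_num) (mul_nonneg hq hr) two_ne_zero).1 h4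
    nlinarith
  rw [hprod]
  rcases three_cases k with rfl | rfl | rfl
  · have := key _ _ _ (norm_nonneg (y - chi 0)) (norm_nonneg (y - chi 1)) (norm_nonneg (y - chi 2))
      (hfar 1 (by decide)) (hfar 2 (by decide))
    linarith
  · have := key _ _ _ (norm_nonneg (y - chi 1)) (norm_nonneg (y - chi 0)) (norm_nonneg (y - chi 2))
      (hfar 0 (by decide)) (hfar 2 (by decide))
    linarith
  · have := key _ _ _ (norm_nonneg (y - chi 2)) (norm_nonneg (y - chi 0)) (norm_nonneg (y - chi 1))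
      (hfar 0 (by decide)) (hfar 1 (by decide))
    linarith

section
variable {a : ℕ}

theorem pr_add_left (u v w : Y a) : pr (u + v) w = pr u w + pr v w := by
  simp [pr, add_mul, sum_add_distrib]

theorem pr_add_right (u v w : Y a) : pr u (v + w) = pr u v + pr u w := by
  simp [pr, mul_add, sum_add_distrib]

theorem pr_sub_left (u v w : Y a) : pr (u - v) w = pr u w - pr v w := by
  simp [pr, sub_mul, sum_sub_distrib]

theorem pr_sub_right (u v w : Y a) : pr u (v - w) = pr u v - pr u w := by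
  simp [pr, mul_sub, sum_sub_distrib]

theorem pr_neg_left (u v : Y a) : pr (-u) v = -pr u v := by
  simp [pr, sum_neg_distrib]

theorem pr_neg_right (u v : Y a) : pr u (-v) = -pr u v := by
  simp [pr, sum_neg_distrib]

theorem pr_zero_left (v : Y a) : pr 0 v = 0 := by
  simp [pr]

theorem pr_zero_right (v : Y a) : pr v 0 = 0 := by
  simp [pr]

theorem pr_comm (u v : Y a) : pr u v = pr v u := by
  simp [pr, mul_comm]

private theorem inv_mul_three (t : ZMod 3) (ht : t ≠ 0) : t⁻¹ * t = 1 := by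
  have : Fact (Nat.Prime 3) := ⟨Nat.prime_three⟩
  exact inv_mul_cancel₀ ht

theorem exists_pr (u : Y a) (hu : u ≠ 0) : ∃ v : Y a, pr v u = 1 := by
  obtain ⟨i, hi⟩ := Function.ne_iff.1 hu
  refine ⟨Pi.single i (u i)⁻¹, ?_⟩
  unfold pr
  rw [sum_eq_single i]
  · rw [Pi.single_eq_same]
    exact inv_mul_three _ hi
  · intro j _ hj
    rw [Pi.single_eq_of_ne hj, zero_mul]
  · intro h
    exact absurd (mem_univ i) h

theorem card_Y (a : ℕ) : Fintype.card (Y a) = 3 ^ (a + 1) := by
  simp [Y, ZMod.card]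

/-- orthogonality of characters -/
theorem sum_chi (u : Y a) :
    ∑ y : Y a, chi (pr u y) = if u = 0 then (3 : ℂ) ^ (a + 1) else 0 := by
  split_ifs with hu
  · subst hu
    simp only [pr_zero_left, chi_zero, sum_const, card_univ, card_Y, nsmul_eq_mul, mul_one]
    push_cast
    rfl
  · obtain ⟨v, hv⟩ := exists_pr u hu
    have h1 : ∑ y : Y a, chi (pr u y) = ∑ y : Y a, chi (pr u (v + y)) :=
      (Equiv.sum_comp (Equiv.addLeft v) fun y => chi (pr u y)).symm
    have h2 : ∑ y : Y a, chi (pr u (v + y)) = chi 1 * ∑ y : Y a, chi (pr u y) := by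
      rw [mul_sum]
      refine sum_congr rfl fun y _ => ?_
      rw [pr_add_right, chi_add, pr_comm u v, hv]
    have h3 : (1 - chi 1) * ∑ y : Y a, chi (pr u y) = 0 := by
      rw [sub_mul, one_mul, ← h2, ← h1, sub_self]
    rcases mul_eq_zero.1 h3 with h | h
    · exact absurd (sub_eq_zero.1 h).symm (chi_ne_one (by decide))
    · exact h

end

end Pool.Agent.FG
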