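import Pool.Agent.FG.FDDefs

/-!
Project FG (MP_0c7c15_an), FD-05: the combinatorial expander lemma.
-/

set_option autoImplicit false

namespace Pool.Agent.FG

open Finset

/-- Minkowski on a set and its image under an injective map. -/
private theorem comb_mink {P : Type*} [Fintype P] (μ : P → ℝ) (δ : ℝ)
    (hδ : 0 ≤ δ) (T : P → P) (hT : Function.Injective T)
    (h : ∑ w, (μ (T w) - μ w) ^ 2 ≤ δ ^ 2) (S S' : Finset P) (hS : ∀ w ∈ S, T w ∈ S') :
    √(∑ w ∈ S, μ w ^ 2) ≤ √(∑ w ∈ S', μ w ^ 2) + δ := by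
  classical
  have h1 : ∑ w ∈ S, μ (T w) ^ 2 ≤ ∑ w ∈ S', μ w ^ 2 := by
    have e1 : ∑ w ∈ S, μ (T w) ^ 2 = ∑ w ∈ S.image T, μ w ^ 2 :=
      (sum_image (f := fun w => μ w ^ 2) (fun x _ y _ hxy => hT hxy)).symm
    rw [e1]
    refine sum_le_sum_of_subset_of_nonneg ?_ fun w _ _ => sq_nonneg _
    intro w hw
    obtain ⟨x, hx, rfl⟩ := mem_image.1 hw
    exact hS x hx
  have h2 : ∑ w ∈ S, (μ (T w) - μ w) ^ 2 ≤ δ ^ 2 :=
    (sum_le_sum_of_subset_of_nonneg (subset_univ S) fun w _ _ => sq_nonneg _).trans h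
  have h3 : √(∑ w ∈ S, μ (T w) ^ 2) ≤ √(∑ w ∈ S', μ w ^ 2) := Real.sqrt_le_sqrt h1
  have h4 : √(∑ w ∈ S, (μ (T w) - μ w) ^ 2) ≤ δ := by
    rw [← Real.sqrt_sq hδ]
    exact Real.sqrt_le_sqrt h2
  have h5 := Real.sum_mul_le_sqrt_mul_sqrt S (fun w => μ (T w)) (fun w => -(μ (T w) - μ w))
  have h6 : ∑ w ∈ S, (-(μ (T w) - μ w)) ^ 2 = ∑ w ∈ S, (μ (T w) - μ w) ^ 2 :=
    sum_congr rfl fun w _ => by ring
  rw [h6] at h5
  have h7 : ∑ w ∈ S, μ w ^ 2 = ∑ w ∈ S, μ (T w) ^ 2 +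
      2 * ∑ w ∈ S, μ (T w) * -(μ (T w) - μ w) + ∑ w ∈ S, (μ (T w) - μ w) ^ 2 := by
    rw [mul_sum, ← sum_add_distrib, ← sum_add_distrib]
    exact sum_congr rfl fun w _ => by ring
  have h8 : √(∑ w ∈ S, μ (T w) ^ 2) * √(∑ w ∈ S, (μ (T w) - μ w) ^ 2) ≤
      √(∑ w ∈ S', μ w ^ 2) * δ :=
    mul_le_mul h3 h4 (Real.sqrt_nonneg _) (Real.sqrt_nonneg _)
  have h9 : √(∑ w ∈ S', μ w ^ 2) ^ 2 = ∑ w ∈ S', μ w ^ 2 :=
    Real.sq_sqrt (sum_nonneg fun w _ => sq_nonneg _)
  refine Real.sqrt_le_iff.2 ⟨by positivity, ?_⟩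
  rw [h7]
  nlinarith

/-- the arithmetic at the end. -/
private theorem comb_arith (a b c x y z δ : ℝ) (hδ : 0 ≤ δ) (ha : 0 ≤ a) (hb : 0 ≤ b)
    (hc : 0 ≤ c) (hx : 0 ≤ x) (hy : 0 ≤ y) (hz : 0 ≤ z)
    (hx2 : 3 * x ^ 2 ≤ δ ^ 2) (hyx : y ≤ x + δ) (hba : b ≤ a + δ) (hac : a ≤ c + δ)
    (hzb : z ≤ b + δ) (hsum : a ^ 2 + c ^ 2 ≤ z ^ 2 + y ^ 2) :
    a ^ 2 + b ^ 2 + c ^ 2 ≤ (12 * δ) ^ 2 := by
  have hx3 : x ≤ 0.5774 * δ := by
    by_contra hcon
    push Not at hcon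
    nlinarith
  have hy2 : y ≤ 1.5774 * δ := by linarith
  have hy3 : y ^ 2 ≤ 2.5 * δ ^ 2 := by
    have : y ^ 2 ≤ (1.5774 * δ) ^ 2 := pow_le_pow_left₀ hy hy2 2
    nlinarith
  have hz2 : z ^ 2 ≤ (a + 2 * δ) ^ 2 := pow_le_pow_left₀ hz (by linarith) 2
  have hc2 : c ^ 2 ≤ 4 * c * δ + 10.5 * δ ^ 2 := by nlinarith
  have hc3 : c ≤ 5.81 * δ := by
    by_contra hcon
    push Not at hcon
    nlinarith
  have ha3 : a ≤ 6.81 * δ := by linarith
  have hb3 : b ≤ 7.81 * δ := by linarith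
  have e1 : a ^ 2 ≤ (6.81 * δ) ^ 2 := pow_le_pow_left₀ ha ha3 2
  have e2 : b ^ 2 ≤ (7.81 * δ) ^ 2 := pow_le_pow_left₀ hb hb3 2
  have e3 : c ^ 2 ≤ (5.81 * δ) ^ 2 := pow_le_pow_left₀ hc hc3 2
  nlinarith

theorem comb {a : ℕ} (μ : Y a → Y a → ℝ) (hμ : ∀ u v, 0 ≤ μ u v) (δ : ℝ) (hδ : 0 ≤ δ)
    (hX : ∑ u, ∑ v, (if v 0 ≠ 0 then 3 * μ u v ^ 2 else 0) ≤ δ ^ 2)
    (hF : ∑ u, ∑ v, (μ (-v) u - μ u v) ^ 2 ≤ δ ^ 2)
    (hD : ∑ u, ∑ v, (μ u (v + 2 • u) - μ u v) ^ 2 ≤ δ ^ 2)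
    (hE : ∑ u, ∑ v, (μ u (v + SS u) - μ u v) ^ 2 ≤ δ ^ 2) :
    ∑ u, ∑ v, (if u = 0 ∧ v = 0 then 0 else μ u v ^ 2) ≤ (12 * δ) ^ 2 := by
  classical
  set ν : Y a × Y a → ℝ := fun w => μ w.1 w.2 with hν
  rw [← Fintype.sum_prod_type'] at hX hF hD hE ⊢
  -- the sets
  let A : Finset (Y a × Y a) := univ.filter fun w =>
    ∃ k : Fin (a + 1), w.1 k ≠ 0 ∧ (∀ j, j < k → w.1 j = 0) ∧ ∀ j, j ≤ k → w.2 j = 0
  let B : Finset (Y a × Y a) := univ.filter fun w =>
    ∃ k : Fin (a + 1), w.2 k ≠ 0 ∧ (∀ j, j < k → w.2 j = 0) ∧ ∀ j, j ≤ k → w.1 j = 0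
  let C : Finset (Y a × Y a) := univ.filter fun w =>
    ∃ k : Fin (a + 1), w.1 k ≠ 0 ∧ w.2 k ≠ 0 ∧ (∀ j, j < k → w.1 j = 0) ∧ ∀ j, j < k → w.2 j = 0
  let X : Finset (Y a × Y a) := univ.filter fun w => w.2 0 ≠ 0
  let U : Finset (Y a × Y a) := univ.filter fun w => w.1 0 ≠ 0
  let Z : Finset (Y a × Y a) := (A ∪ C).filter fun w => w.1 0 = 0
  let m : Finset (Y a × Y a) → ℝ := fun S => √(∑ w ∈ S, ν w ^ 2)
  have hm2 : ∀ S, m S ^ 2 = ∑ w ∈ S, ν w ^ 2 := fun S =>
    Real.sq_sqrt (sum_nonneg fun w _ => sq_nonneg _)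
  have hm0 : ∀ S, 0 ≤ m S := fun S => Real.sqrt_nonneg _
  have hAC : Disjoint A C := by
    rw [disjoint_left]
    intro w h1 h2
    obtain ⟨k, hk1, hk2, hk3⟩ := (mem_filter.1 h1).2
    obtain ⟨l, hl1, hl2, hl3, hl4⟩ := (mem_filter.1 h2).2
    rcases le_or_gt l k with h | h
    · exact hl2 (hk3 l h)
    · exact hk1 (hl3 k h)
  have c1 : m U ≤ m X + δ := by
    refine comb_mink ν δ hδ (fun w => (-w.2, w.1)) ?_ hF U X ?_
    · intro w w' h
      have h1 := congrArg Prod.fst h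
      have h2 := congrArg Prod.snd h
      exact Prod.ext h2 (neg_injective h1)
    · intro w hw
      exact mem_filter.2 ⟨mem_univ _, (mem_filter.1 hw).2⟩
  have c2 : m B ≤ m A + δ := by
    refine comb_mink ν δ hδ (fun w => (-w.2, w.1)) ?_ hF B A ?_
    · intro w w' h
      have h1 := congrArg Prod.fst h
      have h2 := congrArg Prod.snd h
      exact Prod.ext h2 (neg_injective h1)
    · intro w hw
      obtain ⟨k, h1, h2, h3⟩ := (mem_filter.1 hw).2
      refine mem_filter.2 ⟨mem_univ _, k, ?_, ?_, h3⟩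
      · simpa using h1
      · intro j hj
        simpa using h2 j hj
  have c3 : m A ≤ m C + δ := by
    refine comb_mink ν δ hδ (fun w => (w.1, w.2 + 2 • w.1)) ?_ hD A C ?_
    · intro w w' h
      obtain ⟨h1, h2⟩ := Prod.ext_iff.1 h
      simp only at h1 h2
      rw [h1] at h2
      exact Prod.ext h1 (add_right_cancel h2)
    · intro w hw
      obtain ⟨k, h1, h2, h3⟩ := (mem_filter.1 hw).2
      refine mem_filter.2 ⟨mem_univ _, k, h1, ?_, h2, ?_⟩
      · change w.2 k + (2 • w.1) k ≠ 0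
        rw [h3 k le_rfl, zero_add, Pi.smul_apply]
        intro h
        apply h1
        have h4 : ∀ x : ZMod 3, 2 • x = 0 → x = 0 := by decide
        exact h4 _ h
      · intro j hj
        change w.2 j + (2 • w.1) j = 0
        rw [h3 j hj.le, zero_add, Pi.smul_apply, h2 j hj, smul_zero]
  have c4 : m Z ≤ m B + δ := by
    refine comb_mink ν δ hδ (fun w => (w.1, w.2 + SS w.1)) ?_ hE Z B ?_
    · intro w w' h
      obtain ⟨h1, h2⟩ := Prod.ext_iff.1 h
      simp only at h1 h2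
      rw [h1] at h2
      exact Prod.ext h1 (add_right_cancel h2)
    · intro w hw
      obtain ⟨hw1, hw0⟩ := mem_filter.1 hw
      obtain ⟨k, h1, h2, h3⟩ : ∃ k : Fin (a + 1), w.1 k ≠ 0 ∧ (∀ j, j < k → w.1 j = 0) ∧
          ∀ j, j < k → w.2 j = 0 := by
        rcases mem_union.1 hw1 with h | h
        · obtain ⟨k, h1, h2, h3⟩ := (mem_filter.1 h).2
          exact ⟨k, h1, h2, fun j hj => h3 j hj.le⟩
        · obtain ⟨k, h1, h2, h3, h4⟩ := (mem_filter.1 h).2
          exact ⟨k, h1, h3, h4⟩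
      have hk0 : 0 < k.val := by
        rcases Nat.eq_zero_or_pos k.val with h | h
        · have : k = 0 := Fin.ext h
          rw [this] at h1
          exact absurd hw0 h1
        · exact h
      have hlt := k.2
      refine mem_filter.2 ⟨mem_univ _, ⟨k.val - 1, by omega⟩, ?_, ?_, ?_⟩
      · change w.2 _ + SS w.1 _ ≠ 0
        rw [h3 _ (show k.val - 1 < k.val by omega), zero_add]
        unfold SS
        have e1 : (⟨(k.val - 1) + 1, by omega⟩ : Fin (a + 1)) = k :=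
          Fin.ext (by simp; omega)
        have e2 : (if h : 0 < (⟨k.val - 1, by omega⟩ : Fin (a + 1)).val then
            w.1 ⟨(⟨k.val - 1, by omega⟩ : Fin (a + 1)).val - 1, by omega⟩ else 0) = 0 := by
          split_ifs with h
          · exact h2 _ (by rw [Fin.lt_def]; simp; omega)
          · rfl
        rw [e2, zero_add, dif_pos (by simp; omega)]
        simp only
        rw [e1]
        exact h1
      · intro j hj
        rw [Fin.lt_def] at hj
        simp only at hj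
        change w.2 j + SS w.1 j = 0
        rw [h3 j (by rw [Fin.lt_def]; omega), zero_add]
        unfold SS
        have e1 : (if h : 0 < j.val then w.1 ⟨j.val - 1, by omega⟩ else 0) = 0 := by
          split_ifs with h
          · exact h2 _ (by rw [Fin.lt_def]; simp; omega)
          · rfl
        have e2 : (if h : j.val < a then w.1 ⟨j.val + 1, by omega⟩ else 0) = 0 := by
          split_ifs with h
          · exact h2 _ (by rw [Fin.lt_def]; simp; omega)
          · rfl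
        rw [e1, e2, zero_add]
      · intro j hj
        rw [Fin.le_def] at hj
        simp only at hj
        exact h2 j (by rw [Fin.lt_def]; omega)
  have c5 : 3 * m X ^ 2 ≤ δ ^ 2 := by
    rw [hm2, mul_sum]
    refine le_trans (le_of_eq ?_) hX
    rw [sum_filter]
  have c6 : m A ^ 2 + m C ^ 2 ≤ m Z ^ 2 + m U ^ 2 := by
    rw [hm2, hm2, hm2, hm2, ← sum_union hAC]
    have e1 : ∑ w ∈ A ∪ C, ν w ^ 2 = ∑ w ∈ Z, ν w ^ 2 +
        ∑ w ∈ (A ∪ C).filter (fun w => ¬ w.1 0 = 0), ν w ^ 2 :=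
      (sum_filter_add_sum_filter_not _ _ _).symm
    rw [e1]
    gcongr
    intro w hw
    exact mem_filter.2 ⟨mem_univ _, (mem_filter.1 hw).2⟩
  have c7 : ∑ w : Y a × Y a, (if w.1 = 0 ∧ w.2 = 0 then 0 else μ w.1 w.2 ^ 2) ≤
      m A ^ 2 + m B ^ 2 + m C ^ 2 := by
    have e1 : ∀ w : Y a × Y a, (if w.1 = 0 ∧ w.2 = 0 then 0 else μ w.1 w.2 ^ 2) ≤
        (if w ∈ A then ν w ^ 2 else 0) + (if w ∈ B then ν w ^ 2 else 0) +
          (if w ∈ C then ν w ^ 2 else 0) := by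
      intro w
      have hq : 0 ≤ ν w ^ 2 := sq_nonneg _
      by_cases hw : w.1 = 0 ∧ w.2 = 0
      · rw [if_pos hw]
        positivity
      · rw [if_neg hw]
        have hex : ∃ n : ℕ, ∃ h : n < a + 1, w.1 ⟨n, h⟩ ≠ 0 ∨ w.2 ⟨n, h⟩ ≠ 0 := by
          by_contra hcon
          push Not at hcon
          apply hw
          constructor
          · funext j
            exact (hcon j.1 j.2).1
          · funext j
            exact (hcon j.1 j.2).2
        obtain ⟨hlt, hk⟩ := Nat.find_spec hex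
        have hmin : ∀ j : Fin (a + 1), j < (⟨Nat.find hex, hlt⟩ : Fin (a + 1)) →
            w.1 j = 0 ∧ w.2 j = 0 := by
          intro j hj
          have := Nat.find_min hex (show j.val < Nat.find hex from hj)
          push Not at this
          exact this j.2
        generalize hkk : (⟨Nat.find hex, hlt⟩ : Fin (a + 1)) = k at hk hmin
        by_cases h1 : w.1 k = 0
        · have h2 : w.2 k ≠ 0 := hk.resolve_left (not_not.2 h1)
          have hB : w ∈ B := mem_filter.2 ⟨mem_univ _, k, h2, fun j hj => (hmin j hj).2,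
            fun j hj => by
              rcases hj.eq_or_lt with h | h
              · rw [h]; exact h1
              · exact (hmin j h).1⟩
          rw [if_pos hB]
          have e1 : 0 ≤ (if w ∈ A then ν w ^ 2 else 0) := by positivity
          have e2 : 0 ≤ (if w ∈ C then ν w ^ 2 else 0) := by positivity
          linarith
        · by_cases h2 : w.2 k = 0
          · have hA : w ∈ A := mem_filter.2 ⟨mem_univ _, k, h1, fun j hj => (hmin j hj).1,
              fun j hj => by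
                rcases hj.eq_or_lt with h | h
                · rw [h]; exact h2
                · exact (hmin j h).2⟩
            rw [if_pos hA]
            have e1 : 0 ≤ (if w ∈ B then ν w ^ 2 else 0) := by positivity
            have e2 : 0 ≤ (if w ∈ C then ν w ^ 2 else 0) := by positivity
            linarith
          · have hC : w ∈ C := mem_filter.2 ⟨mem_univ _, k, h1, h2,
              fun j hj => (hmin j hj).1, fun j hj => (hmin j hj).2⟩
            rw [if_pos hC]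
            have e1 : 0 ≤ (if w ∈ A then ν w ^ 2 else 0) := by positivity
            have e2 : 0 ≤ (if w ∈ B then ν w ^ 2 else 0) := by positivity
            linarith
    refine (sum_le_sum fun w _ => e1 w).trans (le_of_eq ?_)
    rw [sum_add_distrib, sum_add_distrib, hm2, hm2, hm2, sum_ite_mem, sum_ite_mem, sum_ite_mem,
      univ_inter, univ_inter, univ_inter]
  exact c7.trans (comb_arith _ _ _ _ _ _ δ hδ (hm0 A) (hm0 B) (hm0 C) (hm0 X) (hm0 U) (hm0 Z)
    c5 c1 c2 c3 c4 c6)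

end Pool.Agent.FG
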