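import Pool.Agent.FG.Tr
import Mathlib.Analysis.CStarAlgebra.Matrix
import Mathlib.Analysis.Matrix.Spectrum
import Mathlib.GroupTheory.Perm.List

/-! Project FG, block ISO4: a trace-zero hermitian matrix is a commutator with norm control. -/

set_option autoImplicit false

namespace Pool.Agent.FG

theorem iso4_sum_nonpos {α : Type*} (f : α → ℝ) (l : List α) (h : ∀ a ∈ l, f a ≤ 0) :
    (l.map f).sum ≤ 0 := by
  induction l with
  | nil => simp
  | cons b t ih =>
    have h1 := h b List.mem_cons_self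
    have h2 := ih (fun a ha => h a (List.mem_cons_of_mem _ ha))
    rw [List.map_cons, List.sum_cons]
    linarith

theorem iso4_greedy {α : Type*} (f : α → ℝ) (M : ℝ) :
    ∀ (m : ℕ) (l : List α) (c : ℝ), l.length = m → |c| ≤ M → (∀ a ∈ l, |f a| ≤ M) →
      c + (l.map f).sum = 0 →
      ∃ l' : List α, l'.Perm l ∧ ∀ k, |c + ((l'.take k).map f).sum| ≤ M := by
  intro m
  induction m with
  | zero =>
    intro l c hl hc _ _
    have : l = [] := List.length_eq_zero_iff.mp hl
    subst this
    exact ⟨[], List.Perm.refl _, fun k => by simpa using hc⟩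
  | succ m ih =>
    intro l c hl hc hf hs
    have hex : ∃ a ∈ l, |c + f a| ≤ M := by
      rcases lt_or_ge 0 c with h | h
      · by_cases hcon : ∃ a ∈ l, f a < 0
        · obtain ⟨a, ha, hfa⟩ := hcon
          refine ⟨a, ha, ?_⟩
          have h1 := hf a ha
          rw [abs_le] at h1 hc ⊢
          constructor <;> linarith [h1.1, h1.2, hc.1, hc.2]
        · exfalso
          push Not at hcon
          have : 0 ≤ (l.map f).sum := by
            apply List.sum_nonneg
            intro x hx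
            rw [List.mem_map] at hx
            obtain ⟨a, ha, rfl⟩ := hx
            exact hcon a ha
          linarith
      · by_cases hcon : ∃ a ∈ l, 0 ≤ f a
        · obtain ⟨a, ha, hfa⟩ := hcon
          refine ⟨a, ha, ?_⟩
          have h1 := hf a ha
          rw [abs_le] at h1 hc ⊢
          constructor <;> linarith [h1.1, h1.2, hc.1, hc.2]
        · exfalso
          push Not at hcon
          cases l with
          | nil => simp at hl
          | cons b t =>
            have h2 : (t.map f).sum ≤ 0 :=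
              iso4_sum_nonpos f t (fun a ha => (hcon a (List.mem_cons_of_mem _ ha)).le)
            have h3 := hcon b List.mem_cons_self
            rw [List.map_cons, List.sum_cons] at hs
            linarith
    obtain ⟨a, ha, hca⟩ := hex
    obtain ⟨s, t, rfl⟩ := List.append_of_mem ha
    have hl2 : (s ++ t).length = m := by
      simp only [List.length_append, List.length_cons] at hl ⊢
      omega
    have hf2 : ∀ x ∈ s ++ t, |f x| ≤ M := by
      intro x hx
      apply hf x
      rw [List.mem_append] at hx ⊢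
      rcases hx with hx | hx
      · exact Or.inl hx
      · exact Or.inr (List.mem_cons_of_mem _ hx)
    have hs2 : c + f a + ((s ++ t).map f).sum = 0 := by
      rw [← hs]
      simp only [List.map_append, List.map_cons, List.sum_append, List.sum_cons]
      ring
    obtain ⟨l', hp, hk⟩ := ih (s ++ t) (c + f a) hl2 hca hf2 hs2
    refine ⟨a :: l', (hp.cons a).trans List.perm_middle.symm, ?_⟩
    intro k
    cases k with
    | zero => simpa using hc
    | succ k =>
      have := hk k
      rw [List.take_succ_cons, List.map_cons, List.sum_cons, ← add_assoc]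
      exact this

theorem iso4_perm {α : Type*} [Fintype α] [DecidableEq α] (f : α → ℝ) (M : ℝ) (hM : 0 ≤ M)
    (hf : ∀ a, |f a| ≤ M) (hs : ∑ a, f a = 0) :
    ∃ (σ : Equiv.Perm α) (s : α → ℝ), (∀ a, |s a| ≤ M) ∧ ∀ a, f a = s a - s (σ a) := by
  obtain ⟨l, hp, hk⟩ := iso4_greedy f M _ (Finset.univ.toList : List α) 0 rfl (by simpa using hM)
    (fun a _ => hf a) (by
      rw [zero_add, Finset.sum_map_toList]
      exact hs)
  have hnd : l.Nodup := hp.nodup_iff.mpr (Finset.nodup_toList _)
  have hmem : ∀ a, a ∈ l := fun a => hp.mem_iff.mpr (by simp)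
  have hsum : (l.map f).sum = 0 := by
    rw [(hp.map f).sum_eq, Finset.sum_map_toList]
    exact hs
  refine ⟨l.formPerm, fun a => -((l.take (l.idxOf a)).map f).sum, ?_, ?_⟩
  · intro a
    rw [abs_neg]
    have := hk (l.idxOf a)
    rwa [zero_add] at this
  · intro a
    have hlt : l.idxOf a < l.length := List.idxOf_lt_length_iff.mpr (hmem a)
    have ha : l[l.idxOf a] = a := List.getElem_idxOf hlt
    have hσ := List.formPerm_apply_getElem l hnd (l.idxOf a) hlt
    rw [ha] at hσ
    have hstep : ((l.take (l.idxOf a + 1)).map f).sum = ((l.take (l.idxOf a)).map f).sum + f a := by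
      rw [List.take_add_one, List.getElem?_eq_getElem hlt, ha]
      simp
    have hidx : l.idxOf (l.formPerm a) = (l.idxOf a + 1) % l.length := by
      rw [hσ]
      exact hnd.idxOf_getElem _ _
    simp only [hidx]
    rcases Nat.lt_or_ge (l.idxOf a + 1) l.length with h | h
    · rw [Nat.mod_eq_of_lt h, hstep]
      ring
    · have h2 : l.idxOf a + 1 = l.length := by omega
      rw [h2, Nat.mod_self]
      rw [h2, List.take_length, hsum] at hstep
      simp only [List.take_zero, List.map_nil, List.sum_nil]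
      linarith

open scoped Matrix.Norms.L2Operator Matrix

theorem iso4_norm_le_one {n : Type*} [Fintype n] [DecidableEq n] (P : Matrix n n ℂ)
    (h : Pᴴ * P = 1) : ‖P‖ ≤ 1 := by
  have h1 : ‖Pᴴ * P‖ = ‖P‖ * ‖P‖ := Matrix.l2_opNorm_conjTranspose_mul_self P
  have h2 : ‖(1 : Matrix n n ℂ)‖ ≤ 1 := by
    rw [← Matrix.diagonal_one, Matrix.l2_opNorm_diagonal]
    exact (pi_norm_le_iff_of_nonneg zero_le_one).mpr (fun i => by simp)
  rw [h] at h1
  nlinarith [norm_nonneg P]

theorem iso4_diag {n : Type*} [Fintype n] [DecidableEq n] (f : n → ℝ) (M : ℝ) (hM : 0 ≤ M)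
    (hf : ∀ a, |f a| ≤ M) (hs : ∑ a, f a = 0) :
    ∃ Y Z : Matrix n n ℂ, Matrix.diagonal (fun i => (f i : ℂ)) = Y * Z - Z * Y ∧
      ‖Y‖ ≤ M ∧ ‖Z‖ ≤ 1 := by
  obtain ⟨σ, s, hsM, hfs⟩ := iso4_perm f M hM hf hs
  set P : Matrix n n ℂ := σ.permMatrix ℂ with hP
  have hPP : Pᴴ * P = 1 := by
    rw [hP, Matrix.conjTranspose_permMatrix, ← Matrix.permMatrix_mul]
    simp
  have hPP' : P * Pᴴ = 1 := by
    rw [hP, Matrix.conjTranspose_permMatrix, ← Matrix.permMatrix_mul]
    simp
  have hconj : P * Matrix.diagonal (fun i => (s i : ℂ)) =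
      Matrix.diagonal (fun i => (s (σ i) : ℂ)) * P := by
    ext i j
    rw [Matrix.mul_diagonal, Matrix.diagonal_mul, hP]
    simp only [Equiv.Perm.permMatrix, PEquiv.toMatrix_apply, Equiv.toPEquiv_apply,
      Option.mem_some_iff]
    by_cases h : σ i = j
    · subst h; simp
    · simp [h]
  refine ⟨Matrix.diagonal (fun i => (s i : ℂ)) * Pᴴ, P, ?_, ?_, iso4_norm_le_one P hPP⟩
  · rw [Matrix.mul_assoc, hPP, ← Matrix.mul_assoc, hconj, Matrix.mul_assoc, hPP', mul_one, mul_one,
      Matrix.diagonal_sub]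
    congr 1
    funext i
    rw [hfs i]
    push_cast
    ring
  · calc ‖Matrix.diagonal (fun i => (s i : ℂ)) * Pᴴ‖
        ≤ ‖Matrix.diagonal (fun i => (s i : ℂ))‖ * ‖Pᴴ‖ := Matrix.l2_opNorm_mul _ _
      _ ≤ M * 1 := by
          apply mul_le_mul _ _ (norm_nonneg _) hM
          · rw [Matrix.l2_opNorm_diagonal]
            refine (pi_norm_le_iff_of_nonneg hM).mpr (fun i => ?_)
            simpa using hsM i
          · rw [Matrix.l2_opNorm_conjTranspose]
            exact iso4_norm_le_one P hPP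
      _ = M := mul_one M

theorem exists_commutator {n : Type*} [Fintype n] [DecidableEq n] (A : Matrix n n ℂ)
    (hA : A.IsHermitian) (htr : A.trace = 0) :
    ∃ Y Z : Matrix n n ℂ, A = Y * Z - Z * Y ∧ ‖Y‖ ≤ 2 * ‖A‖ ∧ ‖Z‖ ≤ 1 := by
  set U : Matrix n n ℂ := (hA.eigenvectorUnitary : Matrix n n ℂ) with hU
  have hU1 : Uᴴ * U = 1 := by
    have := Unitary.coe_star_mul_self hA.eigenvectorUnitary
    exact this
  have hU2 : U * Uᴴ = 1 := by
    have := Unitary.coe_mul_star_self hA.eigenvectorUnitary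
    exact this
  set D : Matrix n n ℂ := Matrix.diagonal (fun i => (hA.eigenvalues i : ℂ)) with hD
  have hAD : A = U * D * Uᴴ := by
    have h := hA.spectral_theorem
    rw [Unitary.conjStarAlgAut_apply] at h
    exact h
  have hDA : D = Uᴴ * A * U := by
    calc D = (Uᴴ * U) * D * (Uᴴ * U) := by rw [hU1, one_mul, mul_one]
      _ = Uᴴ * (U * D * Uᴴ) * U := by simp only [Matrix.mul_assoc]
      _ = Uᴴ * A * U := by rw [← hAD]
  have hnU : ‖U‖ ≤ 1 := iso4_norm_le_one U hU1
  have hnU' : ‖Uᴴ‖ ≤ 1 := by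
    rw [Matrix.l2_opNorm_conjTranspose]; exact hnU
  have key : ∀ (X Y Z : Matrix n n ℂ), ‖X‖ ≤ 1 → ‖Z‖ ≤ 1 → ‖X * Y * Z‖ ≤ ‖Y‖ := by
    intro X Y Z hX hZ
    calc ‖X * Y * Z‖ ≤ ‖X * Y‖ * ‖Z‖ := Matrix.l2_opNorm_mul _ _
      _ ≤ (‖X‖ * ‖Y‖) * ‖Z‖ := by
          apply mul_le_mul_of_nonneg_right (Matrix.l2_opNorm_mul _ _) (norm_nonneg _)
      _ ≤ (1 * ‖Y‖) * 1 := by
          apply mul_le_mul _ hZ (norm_nonneg _) (by positivity)
          exact mul_le_mul_of_nonneg_right hX (norm_nonneg _)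
      _ = ‖Y‖ := by ring
  have hnD : ‖D‖ ≤ ‖A‖ := by
    rw [hDA]
    exact key _ _ _ hnU' hnU
  have hev : ∀ i, |hA.eigenvalues i| ≤ ‖A‖ := by
    intro i
    refine le_trans ?_ hnD
    rw [hD, Matrix.l2_opNorm_diagonal]
    have := norm_le_pi_norm (fun i => (hA.eigenvalues i : ℂ)) i
    simpa using this
  have hsum : ∑ i, hA.eigenvalues i = 0 := by
    have h := hA.trace_eq_sum_eigenvalues
    rw [htr] at h
    have h2 : ((∑ i, hA.eigenvalues i : ℝ) : ℂ) = 0 := by
      rw [h]; push_cast; rfl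
    exact_mod_cast h2
  obtain ⟨Y, Z, hYZ, hY, hZ⟩ := iso4_diag hA.eigenvalues ‖A‖ (norm_nonneg _) hev hsum
  refine ⟨U * Y * Uᴴ, U * Z * Uᴴ, ?_, ?_, ?_⟩
  · have e1 : ∀ P Q : Matrix n n ℂ, (U * P * Uᴴ) * (U * Q * Uᴴ) = U * (P * Q) * Uᴴ := by
      intro P Q
      calc (U * P * Uᴴ) * (U * Q * Uᴴ) = U * P * (Uᴴ * U) * (Q * Uᴴ) := by
            simp only [Matrix.mul_assoc]
        _ = U * (P * Q) * Uᴴ := by rw [hU1, mul_one]; simp only [Matrix.mul_assoc]
    rw [e1, e1, ← sub_mul, ← mul_sub, ← hYZ]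
    exact hAD
  · refine le_trans (key _ _ _ hnU hnU') (hY.trans ?_)
    linarith [norm_nonneg A]
  · exact (key _ _ _ hnU hnU').trans hZ

end Pool.Agent.FG
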