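import Mathlib

/-!
MP_0c7c15_an: the definitions of the statement.  II_1 factors (von Neumann algebras on a Hilbert
space), tracial ultrapowers, fundamental groups.
-/

set_option autoImplicit false

open Filter Topology
open scoped ComplexOrder InnerProductSpace

namespace Pool.Agent.FG

/-! ### II_1 factors -/

/-- A II_1 factor: a von Neumann algebra `N` on the Hilbert space `H` with trivial centre, of
infinite dimension, with a faithful normal tracial state `τ`. (Such a state is unique.) -/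
structure IIOneFactor (H : Type) [NormedAddCommGroup H] [InnerProductSpace ℂ H]
    [CompleteSpace H] where
  /-- the von Neumann algebra -/
  N : VonNeumannAlgebra H
  /-- the centre is trivial -/
  factor : ∀ x ∈ N, x ∈ N.commutant → ∃ c : ℂ, x = c • (1 : H →L[ℂ] H)
  /-- the dimension is infinite -/
  infinite : ¬ FiniteDimensional ℂ N.toStarSubalgebra
  /-- the trace -/
  τ : N.toStarSubalgebra →ₗ[ℂ] ℂ
  τ_one : τ 1 = 1
  τ_comm : ∀ x y, τ (x * y) = τ (y * x)
  τ_pos : ∀ x, 0 ≤ τ (star x * x)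
  τ_faithful : ∀ x, τ (star x * x) = 0 → x = 0
  /-- normality: `τ` is given by a square summable sequence of vectors -/
  τ_normal : ∃ ξ : ℕ → H, Summable (fun i => ‖ξ i‖ ^ 2) ∧
    ∀ x : N.toStarSubalgebra, HasSum (fun i => ⟪ξ i, (x : H →L[ℂ] H) (ξ i)⟫_ℂ) (τ x)

namespace IIOneFactor

variable {H : Type} [NormedAddCommGroup H] [InnerProductSpace ℂ H] [CompleteSpace H]
variable (F : IIOneFactor H)

/-- the underlying *-algebra of a II_1 factor -/
abbrev Alg : Type := F.N.toStarSubalgebra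

/-- `‖x y‖_2 ≤ ‖x‖ ‖y‖_2` -/
theorem tau_mul_le (x y : F.Alg) :
    (F.τ (star (x * y) * (x * y))).re ≤ ‖x‖ ^ 2 * (F.τ (star y * y)).re := by
  obtain ⟨ξ, hξ, hs⟩ := F.τ_normal
  have key : ∀ (z : F.Alg) (i : ℕ),
      ⟪ξ i, ((star z * z : F.Alg) : H →L[ℂ] H) (ξ i)⟫_ℂ
        = ((‖(z : H →L[ℂ] H) (ξ i)‖ ^ 2 : ℝ) : ℂ) := by
    intro z i
    have h1 : ((star z * z : F.Alg) : H →L[ℂ] H) (ξ i)
        = (ContinuousLinearMap.adjoint (z : H →L[ℂ] H)) ((z : H →L[ℂ] H) (ξ i)) := rfl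
    rw [h1, ContinuousLinearMap.adjoint_inner_right, inner_self_eq_norm_sq_to_K]
    push_cast
    rfl
  have h1 := (hs (star (x * y) * (x * y)))
  have h2 := (hs (star y * y))
  simp only [key] at h1 h2
  have h1' := Complex.hasSum_re h1
  have h2' := (Complex.hasSum_re h2).mul_left (‖x‖ ^ 2)
  simp only [Complex.ofReal_re] at h1' h2'
  refine hasSum_le (fun i => ?_) h1' h2'
  have h3 : ((x * y : F.Alg) : H →L[ℂ] H) (ξ i)
      = (x : H →L[ℂ] H) ((y : H →L[ℂ] H) (ξ i)) := rfl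
  rw [h3, ← mul_pow]
  have h4 := (x : H →L[ℂ] H).le_opNorm ((y : H →L[ℂ] H) (ξ i))
  have h5 : ‖(x : H →L[ℂ] H)‖ = ‖x‖ := rfl
  rw [h5] at h4
  exact pow_le_pow_left₀ (norm_nonneg _) h4 2

/-- the *-algebra of norm-bounded sequences -/
def BddSeq : StarSubalgebra ℂ (ℕ → F.Alg) where
  carrier := {x | ∃ C : ℝ, ∀ n, ‖x n‖ ≤ C}
  mul_mem' := by
    rintro x y ⟨C, hC⟩ ⟨D, hD⟩
    refine ⟨C * D, fun i => (norm_mul_le (x i) (y i)).trans ?_⟩
    exact mul_le_mul (hC i) (hD i) (norm_nonneg _) ((norm_nonneg _).trans (hC i))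
  add_mem' := by
    rintro x y ⟨C, hC⟩ ⟨D, hD⟩
    exact ⟨C + D, fun i => (norm_add_le (x i) (y i)).trans (add_le_add (hC i) (hD i))⟩
  algebraMap_mem' := by
    intro r
    exact ⟨‖algebraMap ℂ F.Alg r‖, fun i => le_rfl⟩
  star_mem' := by
    rintro x ⟨C, hC⟩
    refine ⟨C, fun i => ?_⟩
    show ‖star (x i)‖ ≤ C
    rw [norm_star]
    exact hC i

theorem tau_star (x : F.Alg) : F.τ (star x) = (starRingEnd ℂ) (F.τ x) := by
  obtain ⟨ξ, hξ, hs⟩ := F.τ_normal
  have h1 := hs (star x)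
  have h2 : HasSum (fun i => (starRingEnd ℂ) (⟪ξ i, (x : H →L[ℂ] H) (ξ i)⟫_ℂ))
      ((starRingEnd ℂ) (F.τ x)) := (Complex.hasSum_conj'.mpr (by
        simpa using hs x))
  have h3 : (fun i => ⟪ξ i, ((star x : F.Alg) : H →L[ℂ] H) (ξ i)⟫_ℂ)
      = fun i => (starRingEnd ℂ) (⟪ξ i, (x : H →L[ℂ] H) (ξ i)⟫_ℂ) := by
    funext i
    have h4 : ((star x : F.Alg) : H →L[ℂ] H) (ξ i)
        = (ContinuousLinearMap.adjoint (x : H →L[ℂ] H)) (ξ i) := rfl
    rw [h4, ContinuousLinearMap.adjoint_inner_right, inner_conj_symm]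
  rw [h3] at h1
  exact h1.unique h2

/-- the square of the 2-norm `‖x‖_2^2 = τ(x^* x)` -/
noncomputable def sq2 (x : F.Alg) : ℝ := (F.τ (star x * x)).re

theorem sq2_nonneg (x : F.Alg) : 0 ≤ F.sq2 x := (Complex.nonneg_iff.mp (F.τ_pos x)).1

theorem sq2_add_le (x y : F.Alg) : F.sq2 (x + y) ≤ 2 * F.sq2 x + 2 * F.sq2 y := by
  have h := F.sq2_nonneg (x - y)
  have e : F.sq2 (x + y) + F.sq2 (x - y) = 2 * F.sq2 x + 2 * F.sq2 y := by
    simp only [sq2, star_add, star_sub, add_mul, mul_add, sub_mul, mul_sub, map_add, map_sub,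
      Complex.add_re, Complex.sub_re]
    ring
  linarith

theorem sq2_star (x : F.Alg) : F.sq2 (star x) = F.sq2 x := by
  unfold sq2
  rw [F.τ_comm, star_star]

theorem sq2_mul_le (x y : F.Alg) : F.sq2 (x * y) ≤ ‖x‖ ^ 2 * F.sq2 y := F.tau_mul_le x y

theorem sq2_mul_le' (x y : F.Alg) : F.sq2 (x * y) ≤ ‖y‖ ^ 2 * F.sq2 x := by
  have h := F.sq2_mul_le (star y) (star x)
  rwa [← star_mul, F.sq2_star, norm_star, F.sq2_star] at h

/-- the ideal of bounded sequences with `lim ‖x_k‖_2 = 0` along `U` -/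
def nullIdeal (U : Ultrafilter ℕ) : Ideal F.BddSeq where
  carrier := {x | Tendsto (fun k => F.sq2 (x.1 k)) U (𝓝 0)}
  zero_mem' := by
    show Tendsto (fun k => F.sq2 ((0 : ℕ → F.Alg) k)) U (𝓝 0)
    simp [sq2]
  add_mem' := by
    intro x y hx hy
    have h : Tendsto (fun k => 2 * F.sq2 (x.1 k) + 2 * F.sq2 (y.1 k)) U (𝓝 0) := by
      simpa using (Tendsto.const_mul 2 hx).add (Tendsto.const_mul 2 hy)
    exact squeeze_zero (fun k => F.sq2_nonneg _) (fun k => F.sq2_add_le _ _) h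
  smul_mem' := by
    intro c x hx
    obtain ⟨C, hC⟩ := c.2
    have h : Tendsto (fun k => C ^ 2 * F.sq2 (x.1 k)) U (𝓝 0) := by
      simpa using Tendsto.const_mul (C ^ 2) hx
    refine squeeze_zero (fun k => F.sq2_nonneg _) (fun k => ?_) h
    refine (F.sq2_mul_le _ _).trans (mul_le_mul_of_nonneg_right ?_ (F.sq2_nonneg _))
    exact pow_le_pow_left₀ (norm_nonneg _) (hC k) 2

theorem mem_nullIdeal {U : Ultrafilter ℕ} {x : F.BddSeq} :
    x ∈ F.nullIdeal U ↔ Tendsto (fun k => F.sq2 (x.1 k)) U (𝓝 0) := Iff.rfl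

instance (U : Ultrafilter ℕ) : (F.nullIdeal U).IsTwoSided where
  mul_mem_of_left := by
    intro x c hx
    obtain ⟨C, hC⟩ := c.2
    have h : Tendsto (fun k => C ^ 2 * F.sq2 (x.1 k)) U (𝓝 0) := by
      simpa using Tendsto.const_mul (C ^ 2) hx
    refine squeeze_zero (fun k => F.sq2_nonneg _) (fun k => ?_) h
    refine (F.sq2_mul_le' _ _).trans (mul_le_mul_of_nonneg_right ?_ (F.sq2_nonneg _))
    exact pow_le_pow_left₀ (norm_nonneg _) (hC k) 2

/-- the tracial ultrapower `N^U`, as a ring -/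
abbrev Ultrapower (U : Ultrafilter ℕ) : Type := F.BddSeq ⧸ F.nullIdeal U

theorem star_mem_nullIdeal {U : Ultrafilter ℕ} {x : F.BddSeq} (hx : x ∈ F.nullIdeal U) :
    star x ∈ F.nullIdeal U := by
  rw [mem_nullIdeal] at hx ⊢
  have : (fun k => F.sq2 ((star x).1 k)) = fun k => F.sq2 (x.1 k) := by
    funext k
    exact F.sq2_star (x.1 k)
  rw [this]
  exact hx

/-- the involution of the ultrapower -/
noncomputable instance ultraStar (U : Ultrafilter ℕ) : Star (F.Ultrapower U) where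
  star := Quotient.map' (fun x => star x) (by
    intro x y h
    rw [Submodule.quotientRel_def] at h ⊢
    have h2 : star x - star y = star (x - y) := (star_sub x y).symm
    rw [h2]
    exact F.star_mem_nullIdeal h)

theorem star_mk (U : Ultrafilter ℕ) (x : F.BddSeq) :
    star (Ideal.Quotient.mk (F.nullIdeal U) x) = Ideal.Quotient.mk (F.nullIdeal U) (star x) := rfl

noncomputable instance (U : Ultrafilter ℕ) : StarRing (F.Ultrapower U) where
  star_involutive := by
    intro x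
    obtain ⟨x, rfl⟩ := Ideal.Quotient.mk_surjective x
    rw [star_mk, star_mk, star_star]
  star_mul := by
    intro x y
    obtain ⟨x, rfl⟩ := Ideal.Quotient.mk_surjective x
    obtain ⟨y, rfl⟩ := Ideal.Quotient.mk_surjective y
    exact congrArg (Ideal.Quotient.mk (F.nullIdeal U)) (star_mul x y)
  star_add := by
    intro x y
    obtain ⟨x, rfl⟩ := Ideal.Quotient.mk_surjective x
    obtain ⟨y, rfl⟩ := Ideal.Quotient.mk_surjective y
    exact congrArg (Ideal.Quotient.mk (F.nullIdeal U)) (star_add x y)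

/-! ### the trace of the ultrapower -/

theorem norm_tau_sq_le (x : F.Alg) : ‖F.τ x‖ ^ 2 ≤ F.sq2 x := by
  have h := F.sq2_nonneg (x - (F.τ x) • 1)
  have e : F.sq2 (x - (F.τ x) • 1) = F.sq2 x - ‖F.τ x‖ ^ 2 := by
    have h1 : star (x - (F.τ x) • (1 : F.Alg)) * (x - (F.τ x) • (1 : F.Alg))
        = star x * x - (F.τ x) • star x - (starRingEnd ℂ (F.τ x)) • x
          + ((starRingEnd ℂ (F.τ x)) * (F.τ x)) • (1 : F.Alg) := by
      rw [star_sub, star_smul, star_one, sub_mul, mul_sub, mul_sub, mul_smul_comm, mul_one,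
        smul_mul_assoc, one_mul, smul_mul_smul_comm, one_mul]
      simp only [RCLike.star_def]
      abel
    unfold sq2
    rw [h1]
    simp only [map_add, map_sub, map_smul, F.τ_one, F.tau_star, smul_eq_mul, mul_one]
    have h2 : (starRingEnd ℂ) (F.τ x) * F.τ x = ((‖F.τ x‖ ^ 2 : ℝ) : ℂ) := by
      rw [← Complex.normSq_eq_conj_mul_self, Complex.normSq_eq_norm_sq]
    have h3 : F.τ x * (starRingEnd ℂ) (F.τ x) = ((‖F.τ x‖ ^ 2 : ℝ) : ℂ) := by
      rw [mul_comm, h2]
    rw [h2, h3]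
    simp only [Complex.add_re, Complex.sub_re, Complex.ofReal_re]
    ring
  rw [e] at h
  linarith

theorem tendsto_tau (U : Ultrafilter ℕ) (x : F.BddSeq) :
    Tendsto (fun k => F.τ (x.1 k)) U (𝓝 (limUnder (U : Filter ℕ) fun k => F.τ (x.1 k))) := by
  obtain ⟨C, hC⟩ := x.2
  apply tendsto_nhds_limUnder
  have hb : ∀ k, F.τ (x.1 k) ∈ Metric.closedBall (0 : ℂ) C := by
    intro k
    rw [mem_closedBall_zero_iff]
    have h1 := F.norm_tau_sq_le (x.1 k)
    have h2 := F.sq2_mul_le (x.1 k) 1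
    rw [mul_one] at h2
    have h3 : F.sq2 1 = 1 := by simp [sq2, F.τ_one]
    rw [h3, mul_one] at h2
    have h4 : ‖F.τ (x.1 k)‖ ≤ ‖x.1 k‖ := by
      exact le_of_sq_le_sq (h1.trans h2) (norm_nonneg _)
    exact h4.trans (hC k)
  obtain ⟨z, -, hz⟩ := (isCompact_closedBall (0 : ℂ) C).ultrafilter_le_nhds
    (U.map (fun k => F.τ (x.1 k))) (by
      rw [Filter.le_principal_iff, Ultrafilter.coe_map]
      exact Filter.mem_map.mpr (Filter.univ_mem' hb))
  exact ⟨z, hz⟩

/-- the trace of the ultrapower, `τ_U ((x_k)) = lim τ (x_k)` -/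
noncomputable def ultraTrace (U : Ultrafilter ℕ) : F.Ultrapower U →ₗ[ℂ] ℂ where
  toFun x := Quotient.liftOn' x (fun x => limUnder (U : Filter ℕ) fun k => F.τ (x.1 k)) (by
    intro x y h
    rw [Submodule.quotientRel_def] at h
    have h1 : Tendsto (fun k => F.τ (x.1 k) - F.τ (y.1 k)) U (𝓝 0) := by
      rw [tendsto_zero_iff_norm_tendsto_zero]
      have h2 : Tendsto (fun k => Real.sqrt (F.sq2 ((x - y).1 k))) U (𝓝 0) := by
        have := (Real.continuous_sqrt.tendsto 0).comp h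
        rw [Real.sqrt_zero] at this
        exact this
      refine squeeze_zero (fun k => norm_nonneg _) (fun k => ?_) h2
      have h3 := F.norm_tau_sq_le (x.1 k - y.1 k)
      rw [map_sub] at h3
      exact Real.le_sqrt_of_sq_le h3
    have h4 := (F.tendsto_tau U x).sub (F.tendsto_tau U y)
    have h5 := tendsto_nhds_unique h1 h4
    exact (sub_eq_zero.mp h5.symm))
  map_add' := by
    intro x y
    obtain ⟨x, rfl⟩ := Ideal.Quotient.mk_surjective x
    obtain ⟨y, rfl⟩ := Ideal.Quotient.mk_surjective y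
    have h1 := F.tendsto_tau U (x + y)
    have h2 := (F.tendsto_tau U x).add (F.tendsto_tau U y)
    have h3 : (fun k => F.τ ((x + y).1 k)) = fun k => F.τ (x.1 k) + F.τ (y.1 k) :=
      funext fun k => F.τ.map_add (x.1 k) (y.1 k)
    rw [h3] at h1
    have h4 := tendsto_nhds_unique h1 h2
    show (limUnder (U : Filter ℕ) fun k => F.τ ((x + y).1 k)) = _
    rw [h3]
    exact h4
  map_smul' := by
    intro c x
    obtain ⟨x, rfl⟩ := Ideal.Quotient.mk_surjective x
    have h1 := F.tendsto_tau U (c • x)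
    have h2 := (F.tendsto_tau U x).const_mul c
    have h3 : (fun k => F.τ ((c • x).1 k)) = fun k => c * F.τ (x.1 k) :=
      funext fun k => F.τ.map_smul c (x.1 k)
    rw [h3] at h1
    have h4 := tendsto_nhds_unique h1 h2
    show (limUnder (U : Filter ℕ) fun k => F.τ ((c • x).1 k)) = _
    rw [h3]
    exact h4

end IIOneFactor

/-! ### the fundamental group -/

/-- The fundamental group of a *-algebra `M` with trace `tr` (used for II_1 factors): all `t > 0`
such that `M` is *-isomorphic to an amplification `M^t = p (M_k(C) ⊗ M) p`, where `p` is a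
projection in `M_k(C) ⊗ M = M_k(M)` with `(tr_k ⊗ tr) (p) = t / k`, that is
`∑ i, tr (p i i) = t`.  The isomorphism is written as an injective *-homomorphism
`θ : M → M_k(M)` with image `p M_k(M) p`. -/
def fundamentalGroup {M : Type} [Ring M] [StarRing M] [Algebra ℂ M] (tr : M →ₗ[ℂ] ℂ) : Set ℝ :=
  {t | 0 < t ∧ ∃ (k : ℕ) (p : Matrix (Fin k) (Fin k) M), p * p = p ∧ star p = p ∧
    ∑ i, tr (p i i) = (t : ℂ) ∧
    ∃ θ : M →⋆ₙₐ[ℂ] Matrix (Fin k) (Fin k) M,
      Function.Injective θ ∧ Set.range θ = {x | p * x * p = x}}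

end Pool.Agent.FG
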