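import Pool.Agent.FG.Tr
import Pool.Agent.FG.Statement

/-!
Project FG (MP_0c7c15_an), block ISO, row ISO7: a projection of a tracial ultraproduct of matrix
algebras lifts to a family of projections `V i * (V i)ᴴ`, `V i` isometries (helper49).
-/

set_option autoImplicit false

open Filter Topology
open scoped ComplexOrder Matrix

namespace Pool.Agent.FG

/-- a matrix with columns of a unitary matrix -/
theorem iso7_cols {m : Type} [Fintype m] [DecidableEq m] (U : Matrix m m ℂ) (hU : Uᴴ * U = 1)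
    (S : Finset m) :
    ∃ V : Matrix m (Fin S.card) ℂ, Vᴴ * V = 1 ∧
      V * Vᴴ = U * Matrix.diagonal (fun j => if j ∈ S then (1 : ℂ) else 0) * Uᴴ := by
  classical
  let e : Fin S.card ≃ S := S.equivFin.symm
  let f : Fin S.card → m := fun j => (e j : m)
  have hf : Function.Injective f := fun a b h => e.injective (Subtype.ext h)
  refine ⟨U.submatrix id f, ?_, ?_⟩
  · ext a b
    have h1 : ((U.submatrix id f)ᴴ * U.submatrix id f) a b = (Uᴴ * U) (f a) (f b) := by
      simp only [Matrix.mul_apply, Matrix.conjTranspose_apply, Matrix.submatrix_apply, id]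
    rw [h1, hU, Matrix.one_apply, Matrix.one_apply]
    by_cases hab : a = b
    · rw [if_pos hab, if_pos (by rw [hab])]
    · rw [if_neg hab, if_neg (fun h => hab (hf h))]
  · ext a b
    have h1 : (U.submatrix id f * (U.submatrix id f)ᴴ) a b
        = ∑ j : Fin S.card, U a (f j) * star (U b (f j)) := by
      simp only [Matrix.mul_apply, Matrix.conjTranspose_apply, Matrix.submatrix_apply, id]
    have h2 : ∑ j : Fin S.card, U a (f j) * star (U b (f j))
        = ∑ x : S, U a x * star (U b x) :=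
      Fintype.sum_equiv e _ _ fun j => rfl
    have h3 : ∑ x : S, U a x * star (U b x) = ∑ x ∈ S, U a x * star (U b x) :=
      Finset.sum_coe_sort S (fun x => U a x * star (U b x))
    rw [h1, h2, h3, Matrix.mul_apply]
    simp only [Matrix.mul_diagonal, Matrix.conjTranspose_apply, mul_ite, mul_one, mul_zero,
      ite_mul, zero_mul]
    rw [Finset.sum_ite_mem, Finset.univ_inter]

/-- spectral projection of a hermitian matrix at `1/2` -/
theorem iso7_mat {m : Type} [Fintype m] [DecidableEq m] [Nonempty m] (X : Matrix m m ℂ)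
    (hX : X.IsHermitian) :
    ∃ (k : ℕ) (V : Matrix m (Fin k) ℂ), Vᴴ * V = 1 ∧
      n2 (mtr m) (V * Vᴴ - X) ≤ 2 * n2 (mtr m) (X * X - X) := by
  classical
  set U : Matrix m m ℂ := (hX.eigenvectorUnitary : Matrix m m ℂ) with hUdef
  have hUu : U ∈ unitary (Matrix m m ℂ) := hX.eigenvectorUnitary.2
  have hU : Uᴴ * U = 1 := (Unitary.mem_iff.mp hUu).1
  set l : m → ℝ := hX.eigenvalues with hl
  have hs : X = U * Matrix.diagonal (fun j => (l j : ℂ)) * Uᴴ := by
    have := hX.spectral_theorem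
    rw [Unitary.conjStarAlgAut_apply] at this
    exact this
  obtain ⟨V, hV, hVV⟩ := iso7_cols U hU (Finset.univ.filter fun j => 1 / 2 ≤ l j)
  refine ⟨_, V, hV, ?_⟩
  have hdiag : ∀ d : m → ℂ, n2 (mtr m) (U * Matrix.diagonal d * Uᴴ) ^ 2
      = (∑ j, ‖d j‖ ^ 2) / Fintype.card m := by
    intro d
    have e1 : n2 (mtr m) (U * Matrix.diagonal d * Uᴴ) = n2 (mtr m) (Matrix.diagonal d) := by
      have e2 := n2_mul_star_unitary (isTr_mtr m) hUu (U * Matrix.diagonal d)
      rw [n2_unitary_mul (mtr m) hUu] at e2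
      exact e2
    rw [e1, n2_mtr_sq]
    congr 1
    refine Finset.sum_congr rfl fun i _ => ?_
    rw [Finset.sum_eq_single i]
    · rw [Matrix.diagonal_apply_eq]
    · intro j _ hj
      rw [Matrix.diagonal_apply_ne _ (Ne.symm hj)]
      simp
    · intro h
      exact absurd (Finset.mem_univ i) h
  have h1 : V * Vᴴ - X = U * Matrix.diagonal (fun j =>
      (if 1 / 2 ≤ l j then (1 : ℂ) else 0) - (l j : ℂ)) * Uᴴ := by
    have e1 : Matrix.diagonal (fun j => (if 1 / 2 ≤ l j then (1 : ℂ) else 0) - (l j : ℂ))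
        = Matrix.diagonal (fun j => if 1 / 2 ≤ l j then (1 : ℂ) else 0)
          - Matrix.diagonal (fun j => (l j : ℂ)) := (Matrix.diagonal_sub _ _).symm
    rw [e1, mul_sub, sub_mul, ← hs, hVV]
    simp only [Finset.mem_filter, Finset.mem_univ, true_and]
  have h2 : X * X - X = U * Matrix.diagonal (fun j => (l j : ℂ) * (l j : ℂ) - (l j : ℂ)) * Uᴴ := by
    have e1 : Matrix.diagonal (fun j => (l j : ℂ) * (l j : ℂ) - (l j : ℂ))
        = Matrix.diagonal (fun j => (l j : ℂ)) * Matrix.diagonal (fun j => (l j : ℂ))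
          - Matrix.diagonal (fun j => (l j : ℂ)) := by
      rw [Matrix.diagonal_mul_diagonal]
      exact (Matrix.diagonal_sub _ _).symm
    rw [e1, mul_sub, sub_mul, ← hs]
    congr 1
    nth_rewrite 1 [hs]
    nth_rewrite 1 [hs]
    calc U * Matrix.diagonal (fun j => (l j : ℂ)) * Uᴴ * (U * Matrix.diagonal (fun j => (l j : ℂ)) * Uᴴ)
        = U * Matrix.diagonal (fun j => (l j : ℂ)) * (Uᴴ * U) * Matrix.diagonal (fun j => (l j : ℂ)) * Uᴴ := by
          simp only [Matrix.mul_assoc]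
      _ = U * (Matrix.diagonal (fun j => (l j : ℂ)) * Matrix.diagonal (fun j => (l j : ℂ))) * Uᴴ := by
          rw [hU, Matrix.mul_one]
          simp only [Matrix.mul_assoc]
  have h3 : n2 (mtr m) (V * Vᴴ - X) ^ 2 ≤ (2 * n2 (mtr m) (X * X - X)) ^ 2 := by
    rw [mul_pow, h1, h2, hdiag, hdiag, ← mul_div_assoc]
    apply div_le_div_of_nonneg_right _ (Nat.cast_nonneg _)
    rw [Finset.mul_sum]
    apply Finset.sum_le_sum
    intro j _
    have e2 : (l j : ℂ) * (l j : ℂ) - (l j : ℂ) = ((l j * l j - l j : ℝ) : ℂ) := by push_cast; ring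
    rw [e2, Complex.norm_real, Real.norm_eq_abs, sq_abs]
    by_cases hj : 1 / 2 ≤ l j
    · have e1 : (if 1 / 2 ≤ l j then (1 : ℂ) else 0) - (l j : ℂ) = ((1 - l j : ℝ) : ℂ) := by
        rw [if_pos hj]; push_cast; ring
      rw [e1, Complex.norm_real, Real.norm_eq_abs, sq_abs]
      have : l j * l j - l j = (1 - l j) * (- l j) := by ring
      rw [this, mul_pow]
      nlinarith [sq_nonneg (1 - l j), mul_nonneg (sq_nonneg (1 - l j)) (by nlinarith : (0 : ℝ) ≤ 4 * (- l j) ^ 2 - 1)]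
    · have e1 : (if 1 / 2 ≤ l j then (1 : ℂ) else 0) - (l j : ℂ) = ((- l j : ℝ) : ℂ) := by
        rw [if_neg hj]; push_cast; ring
      rw [e1, Complex.norm_real, Real.norm_eq_abs, sq_abs]
      have : l j * l j - l j = (1 - l j) * (- l j) := by ring
      rw [this, mul_pow]
      push Not at hj
      nlinarith [sq_nonneg (l j), mul_nonneg (sq_nonneg (l j)) (by nlinarith : (0 : ℝ) ≤ 4 * (1 - l j) ^ 2 - 1)]
  exact (sq_le_sq₀ (n2_nonneg _ _) (mul_nonneg zero_le_two (n2_nonneg _ _))).1 h3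

open scoped Matrix.Norms.L2Operator in
/-- a projection has norm at most one -/
theorem iso7_norm {m : Type} [Fintype m] [DecidableEq m] {k : ℕ} (V : Matrix m (Fin k) ℂ)
    (hV : V = 0 ∨ Vᴴ * V = 1) : ‖V * Vᴴ‖ ≤ 1 := by
  rcases hV with hV | hV
  · rw [hV, Matrix.zero_mul, norm_zero]
    exact zero_le_one
  · have h1 : star (V * Vᴴ) * (V * Vᴴ) = V * Vᴴ := by
      have e1 : star (V * Vᴴ) = V * Vᴴ := by
        rw [Matrix.star_eq_conjTranspose, Matrix.conjTranspose_mul, Matrix.conjTranspose_conjTranspose]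
      rw [e1]
      calc V * Vᴴ * (V * Vᴴ) = V * (Vᴴ * V) * Vᴴ := by simp only [Matrix.mul_assoc]
        _ = V * Vᴴ := by rw [hV, Matrix.mul_one]
    have h2 := CStarRing.norm_star_mul_self (x := V * Vᴴ)
    rw [h1] at h2
    by_contra hcon
    push Not at hcon
    nlinarith

open scoped Matrix.Norms.L2Operator in
theorem proj_lift {I : Type} {n : I → Type} [∀ i, Fintype (n i)] [∀ i, DecidableEq (n i)]
    [∀ i, Nonempty (n i)] {A : Type*} [Ring A] [StarRing A] [Algebra ℂ A] [StarModule ℂ A]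
    {σ : A →ₗ[ℂ] ℂ} (hσ : IsTr σ) {W : Ultrafilter I} (mod : Model n σ W) {p : A}
    (hp : p * p = p) (hps : star p = p) {s : ℝ} (hs : 0 < s) (hsp : σ p = (s : ℂ)) :
    ∃ (k : I → ℕ) (V : ∀ i, Matrix (n i) (Fin (k i)) ℂ), (∀ i, 0 < k i) ∧
      (∀ i, V i = 0 ∨ (V i)ᴴ * V i = 1) ∧
      (∀ᶠ i in (W : Filter I), (V i)ᴴ * V i = 1) ∧
      Tendsto (fun i => (k i : ℝ) / Fintype.card (n i)) W (𝓝 s) ∧
      ∃ y : BF n, (∀ i, y.1 i = V i * (V i)ᴴ) ∧ mod.pi y = p := by
  classical
  -- a selfadjoint lift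
  obtain ⟨x, hxs, hx⟩ : ∃ x : BF n, star x = x ∧ mod.pi x = p := by
    obtain ⟨x0, hx0⟩ := mod.surj p
    refine ⟨(1 / 2 : ℂ) • (x0 + star x0), ?_, ?_⟩
    · rw [star_smul, star_add, star_star, add_comm (star x0)]
      congr 1
      simp
    · rw [map_smul, map_add, map_star, hx0, hps, ← two_smul ℂ p, smul_smul]
      norm_num
  have hxh : ∀ i, (x.1 i).IsHermitian := by
    intro i
    have h1 : (star x).1 i = x.1 i := by rw [hxs]
    exact h1
  have hker : Tendsto (fun i => n2 (mtr (n i)) (x.1 i * x.1 i - x.1 i)) W (𝓝 0) := by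
    have h1 : mod.pi (x * x - x) = 0 := by
      rw [map_sub, map_mul, hx, hp, sub_self]
    have h2 := (mod.ker (x * x - x)).1 h1
    have h3 : ∀ i, (x * x - x).1 i = x.1 i * x.1 i - x.1 i := fun i => rfl
    simp only [h3] at h2
    exact h2
  -- spectral projections
  choose r V1 hV1 hn using fun i => iso7_mat (x.1 i) (hxh i)
  -- correct the rank zero case
  have key : ∀ i, ∃ (k : ℕ) (V : Matrix (n i) (Fin k) ℂ), 0 < k ∧ (V = 0 ∨ Vᴴ * V = 1) ∧
      V * Vᴴ = V1 i * (V1 i)ᴴ ∧ (0 < r i → Vᴴ * V = 1 ∧ k = r i) := by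
    intro i
    rcases Nat.eq_zero_or_pos (r i) with h | h
    · refine ⟨1, 0, one_pos, Or.inl rfl, ?_, fun h' => absurd h (Nat.pos_iff_ne_zero.1 h')⟩
      have : IsEmpty (Fin (r i)) := by rw [h]; infer_instance
      rw [Matrix.zero_mul]
      ext a b
      rw [Matrix.mul_apply, Finset.univ_eq_empty, Finset.sum_empty]
      rfl
    · exact ⟨r i, V1 i, h, Or.inr (hV1 i), rfl, fun _ => ⟨hV1 i, rfl⟩⟩
  choose k V hk hV hVV hkr using key
  let y : BF n := ⟨fun i => V i * (V i)ᴴ, 1, fun i => iso7_norm (V i) (hV i)⟩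
  have hy : mod.pi y = p := by
    rw [← hx, ← sub_eq_zero, ← map_sub, mod.ker]
    refine squeeze_zero (fun i => n2_nonneg _ _) (fun i => ?_)
      (by simpa using hker.const_mul 2 : Tendsto (fun i => 2 * n2 (mtr (n i)) (x.1 i * x.1 i - x.1 i)) W (𝓝 0))
    have : (y - x).1 i = V1 i * (V1 i)ᴴ - x.1 i := by
      rw [← hVV i]
      rfl
    rw [this]
    exact hn i
  -- ranks
  have htr : ∀ i, mtr (n i) (y.1 i) = ((r i : ℝ) / Fintype.card (n i) : ℝ) := by
    intro i
    have h1 : y.1 i = V1 i * (V1 i)ᴴ := hVV i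
    rw [h1]
    simp only [mtr, LinearMap.smul_apply, Matrix.traceLinearMap_apply, smul_eq_mul]
    rw [Matrix.trace_mul_comm, hV1 i, Matrix.trace_one, Fintype.card_fin]
    push_cast
    rw [div_eq_inv_mul]
  have hlim : Tendsto (fun i => (r i : ℝ) / Fintype.card (n i)) W (𝓝 s) := by
    have h1 := mod.tr y
    rw [hy, hsp] at h1
    have h2 := (Complex.continuous_re.tendsto _).comp h1
    rw [Complex.ofReal_re] at h2
    refine h2.congr fun i => ?_
    rw [Function.comp_apply, htr i, Complex.ofReal_re]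
  have hpos : ∀ᶠ i in (W : Filter I), 0 < r i := by
    filter_upwards [hlim.eventually (lt_mem_nhds hs)] with i hi
    by_contra hcon
    have h0 : r i = 0 := by omega
    rw [h0, Nat.cast_zero, zero_div] at hi
    exact lt_irrefl _ hi
  refine ⟨k, V, hk, hV, ?_, ?_, y, fun i => rfl, hy⟩
  · filter_upwards [hpos] with i hi
    exact (hkr i hi).1
  · refine hlim.congr' ?_
    filter_upwards [hpos] with i hi
    rw [(hkr i hi).2]

end Pool.Agent.FG
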