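import Mathlib

/-!
# Ultraproducts of tracial C*-algebras (block UP of project FG)

Internal tool of the block UP (MP_0c7c15_an); the definitions of the final statement are in
`Pool.Agent.FG.Statement`.

* `TracialState A`: a faithful tracial state on the unital C*-algebra `A`.
* `nrm2 x = τ(x* x)^(1/2)`.
* `Ultraproduct A U`: bounded families modulo the families that tend to `0` in the 2-norm
  along the ultrafilter `U`.
* `UnitBallComplete A`: the operator norm unit ball is complete for the 2-norm, that is,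
  `(A, τ)` is a tracial von Neumann algebra.
* `IsII1Factor A`: infinite-dimensional tracial von Neumann algebra with trivial centre.
* `fundamentalGroup A`: all `t > 0` for which the amplification `A^t` is isomorphic to `A`.
-/

set_option autoImplicit false

open scoped ENNReal ComplexOrder Topology

namespace Pool.Agent.FG.UP

/-- A faithful tracial state on a unital C*-algebra. -/
class TracialState (A : Type*) [CStarAlgebra A] where
  /-- the trace -/
  tau : A →ₗ[ℂ] ℂ
  tau_one : tau 1 = 1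
  tau_mul_comm : ∀ x y : A, tau (x * y) = tau (y * x)
  tau_nonneg : ∀ x : A, 0 ≤ tau (star x * x)
  tau_faithful : ∀ x : A, tau (star x * x) = 0 → x = 0

section Basic

variable {A : Type*} [CStarAlgebra A] [TracialState A]

/-- The trace. -/
noncomputable def tau : A →ₗ[ℂ] ℂ := TracialState.tau

/-- The 2-norm `‖x‖₂ = τ(x* x)^(1/2)`. -/
noncomputable def nrm2 (x : A) : ℝ := Real.sqrt (tau (star x * x)).re

theorem tau_one : tau (1 : A) = 1 := TracialState.tau_one

theorem tau_mul_comm (x y : A) : tau (x * y) = tau (y * x) := TracialState.tau_mul_comm x y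

theorem tau_star_mul_self_nonneg (x : A) : 0 ≤ tau (star x * x) := TracialState.tau_nonneg x

theorem tau_star_mul_self_re_nonneg (x : A) : 0 ≤ (tau (star x * x)).re :=
  (Complex.le_def.1 (tau_star_mul_self_nonneg x)).1

theorem tau_star_mul_self_im (x : A) : (tau (star x * x)).im = 0 :=
  (Complex.le_def.1 (tau_star_mul_self_nonneg x)).2.symm

theorem nontrivial_of_tracialState (A : Type*) [CStarAlgebra A] [TracialState A] :
    Nontrivial A := by
  refine ⟨⟨0, 1, fun h => ?_⟩⟩
  have h1 : tau (1 : A) = 1 := tau_one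
  rw [← h, map_zero] at h1
  exact zero_ne_one h1

/-- A C*-algebra with a state is not the zero algebra. -/
instance (priority := 50) instNontrivialTracial (A : Type*) [CStarAlgebra A] [TracialState A] :
    Nontrivial A := nontrivial_of_tracialState A

theorem nrm2_nonneg (x : A) : 0 ≤ nrm2 x := Real.sqrt_nonneg _

theorem nrm2_sq (x : A) : nrm2 x ^ 2 = (tau (star x * x)).re :=
  Real.sq_sqrt (tau_star_mul_self_re_nonneg x)

theorem tau_star_mul_self_eq (x : A) : tau (star x * x) = ((nrm2 x ^ 2 : ℝ) : ℂ) := by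
  rw [nrm2_sq]
  apply Complex.ext
  · simp
  · simp [tau_star_mul_self_im]

theorem nrm2_zero : nrm2 (0 : A) = 0 := by simp [nrm2]

theorem nrm2_eq_zero_iff (x : A) : nrm2 x = 0 ↔ x = 0 := by
  constructor
  · intro h
    apply TracialState.tau_faithful
    have h2 : tau (star x * x) = 0 := by rw [tau_star_mul_self_eq, h]; simp
    exact h2
  · rintro rfl
    exact nrm2_zero

theorem tau_star (x : A) : tau (star x) = star (tau x) := by
  -- polarisation: expand `τ((1 + c x)* (1 + c x))` for `c = 1, i`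
  have h1 := tau_star_mul_self_im (1 + x)
  have h2 := tau_star_mul_self_im ((1 : A) + Complex.I • x)
  have h0 := tau_star_mul_self_im x
  have hone : tau (1 : A) = 1 := tau_one
  simp only [star_add, star_one, star_smul, add_mul, mul_add, one_mul, mul_one, map_add,
    smul_mul_assoc, mul_smul_comm, map_smul, hone, smul_eq_mul] at h1 h2
  simp only [Complex.add_im, Complex.mul_im, Complex.mul_re, Complex.one_im, Complex.I_re,
    Complex.I_im, Complex.star_def, Complex.conj_re, Complex.conj_im, h0] at h1 h2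
  apply Complex.ext
  · simp only [Complex.star_def, Complex.conj_re]
    linarith
  · simp only [Complex.star_def, Complex.conj_im]
    linarith

theorem nrm2_star (x : A) : nrm2 (star x) = nrm2 x := by
  unfold nrm2
  rw [star_star, tau_mul_comm]

theorem nrm2_neg (x : A) : nrm2 (-x) = nrm2 x := by
  unfold nrm2
  simp

theorem nrm2_smul (c : ℂ) (x : A) : nrm2 (c • x) = ‖c‖ * nrm2 x := by
  unfold nrm2
  have h : tau (star (c • x) * (c • x)) = ((‖c‖ ^ 2 : ℝ) : ℂ) * tau (star x * x) := by
    rw [star_smul, smul_mul_assoc, mul_smul_comm, map_smul, map_smul, smul_eq_mul, smul_eq_mul,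
      ← mul_assoc]
    congr 1
    rw [Complex.star_def, ← Complex.normSq_eq_conj_mul_self, Complex.normSq_eq_norm_sq]
  rw [h, Complex.re_ofReal_mul, Real.sqrt_mul (by positivity), Real.sqrt_sq (norm_nonneg c)]

/-- Cauchy-Schwarz. -/
theorem norm_tau_star_mul_le (x y : A) : ‖tau (star x * y)‖ ≤ nrm2 x * nrm2 y := by
  by_cases hy : nrm2 y = 0
  · rw [nrm2_eq_zero_iff] at hy
    subst hy
    simp [nrm2_zero]
  have hy' : 0 < nrm2 y := lt_of_le_of_ne (nrm2_nonneg y) (Ne.symm hy)
  set a : ℂ := tau (star y * x) with ha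
  have hyx : tau (star x * y) = star a := by
    rw [ha, ← tau_star, star_mul, star_star]
  set s : ℝ := nrm2 y ^ 2 with hs
  have hs0 : 0 < s := by positivity
  -- positivity of `z = s • x - a • y`
  have hpos := tau_star_mul_self_re_nonneg ((s : ℂ) • x - a • y)
  have hexp : tau (star ((s : ℂ) • x - a • y) * ((s : ℂ) • x - a • y))
      = ((s ^ 2 * nrm2 x ^ 2 - s * ‖a‖ ^ 2 : ℝ) : ℂ) := by
    have e1 : tau (star x * x) = ((nrm2 x ^ 2 : ℝ) : ℂ) := tau_star_mul_self_eq x
    have e2 : tau (star y * y) = ((s : ℝ) : ℂ) := tau_star_mul_self_eq y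
    have e3 : a * star a = ((‖a‖ ^ 2 : ℝ) : ℂ) := by
      rw [Complex.star_def, Complex.mul_conj, Complex.normSq_eq_norm_sq]
    simp only [star_sub, star_smul, sub_mul, mul_sub, smul_mul_assoc, mul_smul_comm, map_sub,
      map_smul, smul_eq_mul, e1, e2, hyx, ← ha]
    have hss : star (s : ℂ) = (s : ℂ) := by simp
    rw [hss]
    push_cast at e3 ⊢
    linear_combination (-(s : ℂ)) * e3
  rw [hexp, Complex.ofReal_re] at hpos
  have h3 : ‖a‖ ^ 2 ≤ s * nrm2 x ^ 2 := by
    by_contra hcon
    push Not at hcon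
    have : s * (s * nrm2 x ^ 2) < s * ‖a‖ ^ 2 := mul_lt_mul_of_pos_left hcon hs0
    nlinarith
  rw [hyx, norm_star]
  have h4 : ‖a‖ ^ 2 ≤ (nrm2 x * nrm2 y) ^ 2 := by
    rw [mul_pow, mul_comm, ← hs]
    exact h3
  exact (sq_le_sq₀ (norm_nonneg a) (mul_nonneg (nrm2_nonneg x) (nrm2_nonneg y))).1 h4

theorem norm_tau_le (x : A) : ‖tau x‖ ≤ nrm2 x := by
  have h := norm_tau_star_mul_le (1 : A) x
  have h1 : nrm2 (1 : A) = 1 := by
    unfold nrm2
    simp [tau_one]
  rw [star_one, one_mul, h1, one_mul] at h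
  exact h

theorem nrm2_one : nrm2 (1 : A) = 1 := by
  unfold nrm2
  simp [tau_one]

theorem nrm2_add_le (x y : A) : nrm2 (x + y) ≤ nrm2 x + nrm2 y := by
  have h : nrm2 (x + y) ^ 2 ≤ (nrm2 x + nrm2 y) ^ 2 := by
    have e : tau (star (x + y) * (x + y)) = tau (star x * x) + tau (star x * y)
        + (tau (star y * x) + tau (star y * y)) := by
      simp only [star_add, add_mul, mul_add, map_add]
      ring
    rw [nrm2_sq, e]
    simp only [Complex.add_re]
    have h1 : (tau (star x * y)).re ≤ nrm2 x * nrm2 y :=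
      (Complex.re_le_norm _).trans (norm_tau_star_mul_le x y)
    have h2 : (tau (star y * x)).re ≤ nrm2 y * nrm2 x :=
      (Complex.re_le_norm _).trans (norm_tau_star_mul_le y x)
    rw [← nrm2_sq, ← nrm2_sq]
    nlinarith
  exact (sq_le_sq₀ (nrm2_nonneg _) (add_nonneg (nrm2_nonneg x) (nrm2_nonneg y))).1 h

theorem nrm2_sub_le (x y : A) : nrm2 (x - y) ≤ nrm2 x + nrm2 y := by
  rw [sub_eq_add_neg, ← nrm2_neg y]
  exact nrm2_add_le x (-y)

theorem nrm2_sub_comm (x y : A) : nrm2 (x - y) = nrm2 (y - x) := by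
  rw [← nrm2_neg, neg_sub]

theorem nrm2_mul_le_left (a x : A) : nrm2 (a * x) ≤ ‖a‖ * nrm2 x := by
  let _ := CStarAlgebra.spectralOrder A
  let _ := CStarAlgebra.spectralOrderedRing A
  have h : 0 ≤ algebraMap ℝ A (‖a‖ ^ 2) - star a * a :=
    sub_nonneg.2 CStarAlgebra.star_mul_le_algebraMap_norm_sq
  obtain ⟨b, hb⟩ := CStarAlgebra.nonneg_iff_eq_star_mul_self.1 h
  have hpos := tau_star_mul_self_re_nonneg (b * x)
  have e : star (b * x) * (b * x) = ((‖a‖ ^ 2 : ℝ) : ℂ) • (star x * x)
      - star (a * x) * (a * x) := by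
    have : star (b * x) * (b * x) = star x * (star b * b) * x := by
      rw [star_mul]; noncomm_ring
    rw [this, ← hb, mul_sub, sub_mul, star_mul]
    congr 1
    · rw [Algebra.algebraMap_eq_smul_one, mul_smul_comm, mul_one, smul_mul_assoc,
        Complex.coe_smul]
    · noncomm_ring
  rw [e, map_sub, map_smul, smul_eq_mul, Complex.sub_re, Complex.re_ofReal_mul, ← nrm2_sq,
    ← nrm2_sq] at hpos
  have h4 : nrm2 (a * x) ^ 2 ≤ (‖a‖ * nrm2 x) ^ 2 := by
    rw [mul_pow]; linarith
  exact (sq_le_sq₀ (nrm2_nonneg _) (mul_nonneg (norm_nonneg a) (nrm2_nonneg x))).1 h4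

theorem nrm2_mul_le_right (x a : A) : nrm2 (x * a) ≤ nrm2 x * ‖a‖ := by
  rw [← nrm2_star (x * a), star_mul, ← nrm2_star x, ← norm_star a, mul_comm (nrm2 (star x))]
  exact nrm2_mul_le_left _ _

theorem nrm2_le_norm (x : A) : nrm2 x ≤ ‖x‖ := by
  have h := nrm2_mul_le_left x 1
  rwa [mul_one, nrm2_one, mul_one] at h

theorem nrm2_cut_le {B : Type*} [CStarAlgebra B] [TracialState B] (y z : B)
    (hy : IsSelfAdjoint y) (c : ℝ) (hz : ‖z‖ ≤ c) :
    nrm2 (cfc (fun t : ℝ => max (t - c) 0) y) ≤ nrm2 (y - z) := by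
  set h : B := cfc (fun t : ℝ => max (t - c) 0) y with hh
  set k : B := cfc (fun t : ℝ => Real.sqrt (max (t - c) 0)) y with hk
  have hks : star k = k := (cfc_predicate (fun t : ℝ => Real.sqrt (max (t - c) 0)) y)
  have hhs : star h = h := (cfc_predicate (fun t : ℝ => max (t - c) 0) y)
  have hkk : h = k * k := by
    rw [hh, hk, ← cfc_mul (fun t : ℝ => Real.sqrt (max (t - c) 0))
      (fun t : ℝ => Real.sqrt (max (t - c) 0)) y (by fun_prop) (by fun_prop)]
    refine cfc_congr fun t _ => ?_
    exact (Real.mul_self_sqrt (le_max_right _ _)).symm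
  have hhy : h * h = h * y - (c : ℂ) • h := by
    have e1 : h * y = cfc (fun t : ℝ => max (t - c) 0 * t) y := by
      rw [cfc_mul (fun t : ℝ => max (t - c) 0) (fun t : ℝ => t) y (by fun_prop) (by fun_prop),
        cfc_id' ℝ y]
    have e2 : h * h = cfc (fun t : ℝ => max (t - c) 0 * max (t - c) 0) y := by
      rw [cfc_mul (fun t : ℝ => max (t - c) 0) (fun t : ℝ => max (t - c) 0) y (by fun_prop)
        (by fun_prop)]
    have e3 : (c : ℂ) • h = cfc (fun t : ℝ => c * max (t - c) 0) y := by
      rw [Complex.coe_smul, cfc_const_mul c (fun t : ℝ => max (t - c) 0) y (by fun_prop)]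
    rw [e1, e2, e3, ← cfc_sub (fun t : ℝ => max (t - c) 0 * t) (fun t : ℝ => c * max (t - c) 0) y
      (by fun_prop) (by fun_prop)]
    refine cfc_congr fun t _ => ?_
    rcases le_total (t - c) 0 with ht | ht
    · simp [max_eq_right ht]
    · simp only [max_eq_left ht]; ring
  have h1 : ‖tau (h * (y - z))‖ ≤ nrm2 h * nrm2 (y - z) := by
    have := norm_tau_star_mul_le h (y - z)
    rwa [hhs] at this
  have h2 : ‖tau (h * z)‖ ≤ c * nrm2 k ^ 2 := by
    have e := norm_tau_star_mul_le k (k * z)
    rw [hks, ← mul_assoc, ← hkk] at e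
    refine e.trans ?_
    calc nrm2 k * nrm2 (k * z) ≤ nrm2 k * (nrm2 k * ‖z‖) :=
          mul_le_mul_of_nonneg_left (nrm2_mul_le_right k z) (nrm2_nonneg k)
      _ = ‖z‖ * nrm2 k ^ 2 := by ring
      _ ≤ c * nrm2 k ^ 2 := mul_le_mul_of_nonneg_right hz (sq_nonneg _)
  have h3 : tau h = ((nrm2 k ^ 2 : ℝ) : ℂ) := by
    rw [hkk, ← tau_star_mul_self_eq k, hks]
  have h4 : nrm2 h ^ 2 = (tau (h * (y - z))).re + (tau (h * z)).re - c * nrm2 k ^ 2 := by
    rw [nrm2_sq, hhs, hhy, mul_sub, map_sub, map_smul, map_sub, h3]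
    simp only [Complex.sub_re, smul_eq_mul, Complex.re_ofReal_mul, Complex.ofReal_re]
    ring
  have h5 : nrm2 h ^ 2 ≤ nrm2 h * nrm2 (y - z) := by
    have a1 := (Complex.re_le_norm (tau (h * (y - z)))).trans h1
    have a2 := (Complex.re_le_norm (tau (h * z))).trans h2
    linarith
  rcases (nrm2_nonneg h).eq_or_lt with h0 | h0
  · rw [← h0]; exact nrm2_nonneg _
  · rw [sq] at h5
    exact le_of_mul_le_mul_left h5 h0

/-- Key estimate: in a tracial C*-algebra, an element `x` whose `x* x` is 2-close to an element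
`z` of norm at most `c` is 2-close to an element of norm at most `√c`. -/
theorem exists_cut {B : Type*} [CStarAlgebra B] [TracialState B] (x z : B) (c : ℝ) (hc : 0 < c)
    (hz : ‖z‖ ≤ c) :
    ∃ x' : B, ‖x'‖ ^ 2 ≤ c ∧ nrm2 (x - x') ≤ ‖x‖ * (nrm2 (star x * x - z) / c) := by
  let _ := CStarAlgebra.spectralOrder B
  let _ := CStarAlgebra.spectralOrderedRing B
  set y : B := star x * x with hy
  have hys : IsSelfAdjoint y := IsSelfAdjoint.star_mul_self x
  have hy0 : 0 ≤ y := star_mul_self_nonneg x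
  have hmax : ∀ t : ℝ, 0 < max t c := fun t => lt_of_lt_of_le hc (le_max_right _ _)
  have hcont : Continuous fun t : ℝ => (max t c)⁻¹ :=
    (continuous_id.max continuous_const).inv₀ fun t => (hmax t).ne'
  set g : B := cfc (fun t : ℝ => c * (max t c)⁻¹) y with hg
  set m : B := cfc (fun t : ℝ => (max t c)⁻¹) y with hm
  set h : B := cfc (fun t : ℝ => max (t - c) 0) y with hh
  have hgs : star g = g := (cfc_predicate (fun t : ℝ => c * (max t c)⁻¹) y)
  have hcontg : Continuous fun t : ℝ => c * (max t c)⁻¹ := continuous_const.mul hcont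
  have h1g : 1 - g = h * m := by
    rw [hg, hm, hh, ← cfc_mul (fun t : ℝ => max (t - c) 0) (fun t : ℝ => (max t c)⁻¹) y
      (by fun_prop) hcont.continuousOn, ← cfc_const_one ℝ y,
      ← cfc_sub (fun _ : ℝ => (1 : ℝ)) (fun t : ℝ => c * (max t c)⁻¹) y (by fun_prop)
        hcontg.continuousOn]
    refine cfc_congr fun t _ => ?_
    rcases le_total t c with ht | ht
    · simp only [max_eq_right ht, max_eq_right (sub_nonpos.2 ht)]
      field_simp
      ring
    · have ht0 : (0 : ℝ) < t := lt_of_lt_of_le hc ht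
      simp only [max_eq_left ht, max_eq_left (sub_nonneg.2 ht)]
      field_simp
  have hmn : ‖m‖ ≤ c⁻¹ := by
    refine norm_cfc_le (by positivity) fun t _ => ?_
    rw [Real.norm_of_nonneg (inv_nonneg.2 (hmax t).le)]
    exact inv_anti₀ hc (le_max_right _ _)
  refine ⟨x * g, ?_, ?_⟩
  · have e : star (x * g) * (x * g)
        = cfc (fun t : ℝ => (c * (max t c)⁻¹) * t * (c * (max t c)⁻¹)) y := by
      rw [cfc_mul (fun t : ℝ => (c * (max t c)⁻¹) * t) (fun t : ℝ => c * (max t c)⁻¹) y
        (hcontg.mul continuous_id).continuousOn hcontg.continuousOn,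
        cfc_mul (fun t : ℝ => c * (max t c)⁻¹) (fun t : ℝ => t) y hcontg.continuousOn
        (by fun_prop), cfc_id' ℝ y, ← hg, star_mul, hgs, hy]
      noncomm_ring
    rw [sq, ← CStarRing.norm_star_mul_self, e]
    refine norm_cfc_le hc.le fun t ht => ?_
    have ht0 : 0 ≤ t := spectrum_nonneg_of_nonneg hy0 ht
    rw [Real.norm_of_nonneg (by have := hmax t; positivity)]
    have hle : c * (max t c)⁻¹ ≤ 1 := by
      rw [← div_eq_mul_inv, div_le_one (hmax t)]
      exact le_max_right _ _
    have hle2 : (c * (max t c)⁻¹) * t ≤ c := by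
      have : (max t c)⁻¹ * t ≤ 1 := by
        rw [inv_mul_le_iff₀ (hmax t), mul_one]
        exact le_max_left _ _
      calc (c * (max t c)⁻¹) * t = c * ((max t c)⁻¹ * t) := by ring
        _ ≤ c * 1 := mul_le_mul_of_nonneg_left this hc.le
        _ = c := mul_one c
    calc (c * (max t c)⁻¹) * t * (c * (max t c)⁻¹) ≤ c * 1 :=
          mul_le_mul hle2 hle (by have := hmax t; positivity) hc.le
      _ = c := mul_one c
  · have e : x - x * g = x * (h * m) := by
      rw [← h1g]; noncomm_ring
    rw [e]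
    refine (nrm2_mul_le_left x _).trans ?_
    refine mul_le_mul_of_nonneg_left ?_ (norm_nonneg x)
    refine (nrm2_mul_le_right h m).trans ?_
    rw [div_eq_mul_inv]
    exact mul_le_mul (nrm2_cut_le y z hys c hz) hmn (norm_nonneg m) (nrm2_nonneg _)


end Basic

/-! ### Ultraproducts -/

section Ultraproduct

variable {ι : Type*} (A : ι → Type*) [∀ i, CStarAlgebra (A i)] [∀ i, TracialState (A i)]
  (U : Ultrafilter ι)

/-- The ideal of all bounded families `x` with `lim ‖x i‖₂ = 0` along the ultrafilter `U`. -/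
def nullIdeal : Ideal (lp A ∞) where
  carrier := {x | Filter.Tendsto (fun i => nrm2 (x i)) U (𝓝 0)}
  zero_mem' := by
    have h : (fun i => nrm2 ((0 : lp A ∞) i)) = fun _ => (0 : ℝ) := by
      funext i
      simp [nrm2_zero]
    rw [Set.mem_ofPred_eq, h]
    exact tendsto_const_nhds
  add_mem' := by
    intro x y hx hy
    have h : Filter.Tendsto (fun i => nrm2 (x i) + nrm2 (y i)) U (𝓝 0) := by
      simpa using Filter.Tendsto.add hx hy
    exact squeeze_zero (fun i => nrm2_nonneg _) (fun i => nrm2_add_le (x i) (y i)) h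
  smul_mem' := by
    intro c x hx
    have h : Filter.Tendsto (fun i => ‖c‖ * nrm2 (x i)) U (𝓝 0) := by
      simpa using Filter.Tendsto.const_mul ‖c‖ hx
    refine squeeze_zero (fun i => nrm2_nonneg _) (fun i => ?_) h
    exact (nrm2_mul_le_left (c i) (x i)).trans
      (mul_le_mul_of_nonneg_right (lp.norm_apply_le_norm ENNReal.top_ne_zero c i)
        (nrm2_nonneg _))

theorem mem_nullIdeal {x : lp A ∞} :
    x ∈ nullIdeal A U ↔ Filter.Tendsto (fun i => nrm2 (x i)) U (𝓝 0) := Iff.rfl

instance : (nullIdeal A U).IsTwoSided where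
  mul_mem_of_left {x} c hx := by
    have h : Filter.Tendsto (fun i => nrm2 (x i) * ‖c‖) U (𝓝 0) := by
      simpa using Filter.Tendsto.mul_const ‖c‖ ((mem_nullIdeal A U).1 hx)
    refine (mem_nullIdeal A U).2 (squeeze_zero (fun i => nrm2_nonneg _) (fun i => ?_) h)
    exact (nrm2_mul_le_right (x i) (c i)).trans
      (mul_le_mul_of_nonneg_left (lp.norm_apply_le_norm ENNReal.top_ne_zero c i)
        (nrm2_nonneg _))

/-- The tracial ultraproduct: bounded families modulo 2-norm null families. -/
def Ultraproduct : Type _ := lp A ∞ ⧸ nullIdeal A U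

theorem isClosed_nullIdeal : IsClosed ((nullIdeal A U : Ideal (lp A ∞)) : Set (lp A ∞)) := by
  refine isClosed_of_closure_subset fun x hx => ?_
  rw [SetLike.mem_coe, mem_nullIdeal, Metric.tendsto_nhds]
  intro ε hε
  obtain ⟨y, hy, hxy⟩ := Metric.mem_closure_iff.1 hx (ε / 2) (by positivity)
  have hy' := (Metric.tendsto_nhds.1 ((mem_nullIdeal A U).1 hy)) (ε / 2) (by positivity)
  filter_upwards [hy'] with i hi
  rw [Real.dist_eq, sub_zero, abs_of_nonneg (nrm2_nonneg _)] at hi ⊢
  have h1 : nrm2 (x i) ≤ nrm2 (x i - y i) + nrm2 (y i) := by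
    have := nrm2_add_le (x i - y i) (y i)
    rwa [sub_add_cancel] at this
  have h2 : nrm2 (x i - y i) ≤ ‖x - y‖ := by
    refine (nrm2_le_norm _).trans ?_
    exact lp.norm_apply_le_norm ENNReal.top_ne_zero (x - y) i
  rw [dist_eq_norm] at hxy
  linarith

instance : IsClosed ((nullIdeal A U : Ideal (lp A ∞)) : Set (lp A ∞)) := isClosed_nullIdeal A U

noncomputable instance : NormedAddCommGroup (Ultraproduct A U) :=
  inferInstanceAs (NormedAddCommGroup (lp A ∞ ⧸ nullIdeal A U))

noncomputable instance : Ring (Ultraproduct A U) :=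
  inferInstanceAs (Ring (lp A ∞ ⧸ nullIdeal A U))

noncomputable instance : Algebra ℂ (Ultraproduct A U) :=
  inferInstanceAs (Algebra ℂ (lp A ∞ ⧸ nullIdeal A U))

noncomputable instance : CompleteSpace (Ultraproduct A U) :=
  inferInstanceAs (CompleteSpace (lp A ∞ ⧸ nullIdeal A U))

/-- The class of a bounded family in the ultraproduct. -/
noncomputable def Ultraproduct.mk : lp A ∞ →ₐ[ℂ] Ultraproduct A U :=
  Ideal.Quotient.mkₐ ℂ (nullIdeal A U)

theorem Ultraproduct.mk_surjective : Function.Surjective (Ultraproduct.mk A U) :=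
  Ideal.Quotient.mk_surjective

theorem Ultraproduct.mk_eq_zero_iff {x : lp A ∞} :
    Ultraproduct.mk A U x = 0 ↔ Filter.Tendsto (fun i => nrm2 (x i)) U (𝓝 0) :=
  Ideal.Quotient.eq_zero_iff_mem

theorem Ultraproduct.mk_eq_mk_iff {x y : lp A ∞} :
    Ultraproduct.mk A U x = Ultraproduct.mk A U y ↔
      Filter.Tendsto (fun i => nrm2 (x i - y i)) U (𝓝 0) := by
  rw [← sub_eq_zero, ← map_sub, Ultraproduct.mk_eq_zero_iff]
  rfl

theorem Ultraproduct.norm_mk_le (x : lp A ∞) : ‖Ultraproduct.mk A U x‖ ≤ ‖x‖ :=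
  Submodule.Quotient.norm_mk_le (nullIdeal A U) x

theorem Ultraproduct.exists_lift_norm_lt (x : Ultraproduct A U) {ε : ℝ} (hε : 0 < ε) :
    ∃ y : lp A ∞, Ultraproduct.mk A U y = x ∧ ‖y‖ < ‖x‖ + ε :=
  Submodule.Quotient.norm_mk_lt (S := nullIdeal A U) x hε

theorem Ultraproduct.norm_mul_le' (a b : Ultraproduct A U) : ‖a * b‖ ≤ ‖a‖ * ‖b‖ := by
  have h : ∀ ε : ℝ, 0 < ε → ‖a * b‖ ≤ (‖a‖ + ε) * (‖b‖ + ε) := by
    intro ε hε
    obtain ⟨x, hx, hxn⟩ := Ultraproduct.exists_lift_norm_lt A U a hε
    obtain ⟨y, hy, hyn⟩ := Ultraproduct.exists_lift_norm_lt A U b hε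
    rw [← hx, ← hy, ← map_mul]
    refine (Ultraproduct.norm_mk_le A U _).trans ((norm_mul_le x y).trans ?_)
    rw [hx, hy]
    exact mul_le_mul hxn.le hyn.le (norm_nonneg _) (by positivity)
  have h2 : Filter.Tendsto (fun ε : ℝ => (‖a‖ + ε) * (‖b‖ + ε)) (𝓝[>] 0)
      (𝓝 (‖a‖ * ‖b‖)) := by
    have h3 : Filter.Tendsto (fun ε : ℝ => (‖a‖ + ε) * (‖b‖ + ε)) (𝓝 0)
        (𝓝 ((‖a‖ + 0) * (‖b‖ + 0))) := by
      apply Filter.Tendsto.mul
      · exact tendsto_const_nhds.add Filter.tendsto_id
      · exact tendsto_const_nhds.add Filter.tendsto_id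
    rw [add_zero, add_zero] at h3
    exact h3.mono_left nhdsWithin_le_nhds
  refine ge_of_tendsto h2 ?_
  filter_upwards [self_mem_nhdsWithin] with ε hε using h ε hε

noncomputable instance : NormedRing (Ultraproduct A U) where
  toRing := inferInstance
  __ := (inferInstance : NormedAddCommGroup (Ultraproduct A U))
  norm_mul_le := Ultraproduct.norm_mul_le' A U

theorem star_mem_nullIdeal {x : lp A ∞} (hx : x ∈ nullIdeal A U) : star x ∈ nullIdeal A U := by
  rw [mem_nullIdeal] at hx ⊢
  refine hx.congr fun i => ?_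
  exact (nrm2_star (x i)).symm

noncomputable instance : Star (Ultraproduct A U) where
  star := Quotient.map' (fun x => star x) (by
    intro x y h
    rw [Submodule.quotientRel_def] at h ⊢
    rw [← star_sub]
    exact star_mem_nullIdeal A U h)

theorem Ultraproduct.star_mk (x : lp A ∞) :
    star (Ultraproduct.mk A U x) = Ultraproduct.mk A U (star x) := rfl

noncomputable instance : StarRing (Ultraproduct A U) where
  star_involutive := by
    intro a
    obtain ⟨x, rfl⟩ := Ultraproduct.mk_surjective A U a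
    rw [Ultraproduct.star_mk, Ultraproduct.star_mk, star_star]
  star_add := by
    intro a b
    obtain ⟨x, rfl⟩ := Ultraproduct.mk_surjective A U a
    obtain ⟨y, rfl⟩ := Ultraproduct.mk_surjective A U b
    rw [← map_add, Ultraproduct.star_mk, Ultraproduct.star_mk, Ultraproduct.star_mk, star_add,
      map_add]
  star_mul := by
    intro a b
    obtain ⟨x, rfl⟩ := Ultraproduct.mk_surjective A U a
    obtain ⟨y, rfl⟩ := Ultraproduct.mk_surjective A U b
    rw [← map_mul, Ultraproduct.star_mk, Ultraproduct.star_mk, Ultraproduct.star_mk, star_mul,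
      map_mul]

noncomputable instance : StarModule ℂ (Ultraproduct A U) where
  star_smul := by
    intro c a
    obtain ⟨x, rfl⟩ := Ultraproduct.mk_surjective A U a
    rw [← map_smul, Ultraproduct.star_mk, Ultraproduct.star_mk, star_smul, map_smul]

noncomputable instance : NormedAlgebra ℂ (Ultraproduct A U) where
  norm_smul_le := by
    intro c a
    have h : ∀ ε : ℝ, 0 < ε → ‖c • a‖ ≤ ‖c‖ * ‖a‖ + ‖c‖ * ε := by
      intro ε hε
      obtain ⟨x, hx, hxn⟩ := Ultraproduct.exists_lift_norm_lt A U a hε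
      rw [← mul_add]
      calc ‖c • a‖ = ‖Ultraproduct.mk A U (c • x)‖ := by rw [map_smul, hx]
        _ ≤ ‖c • x‖ := Ultraproduct.norm_mk_le A U _
        _ = ‖c‖ * ‖x‖ := norm_smul c x
        _ ≤ ‖c‖ * (‖a‖ + ε) := mul_le_mul_of_nonneg_left hxn.le (norm_nonneg c)
    refine le_of_forall_pos_le_add fun δ hδ => ?_
    have hc : 0 < ‖c‖ + 1 := by positivity
    refine (h (δ / (‖c‖ + 1)) (by positivity)).trans ?_
    have h3 : ‖c‖ * (δ / (‖c‖ + 1)) ≤ δ := by
      rw [mul_div_assoc', div_le_iff₀ hc]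
      nlinarith [norm_nonneg c]
    linarith

theorem Ultraproduct.norm_mul_self_le (a : Ultraproduct A U) : ‖a‖ * ‖a‖ ≤ ‖star a * a‖ := by
  obtain ⟨x, rfl⟩ := Ultraproduct.mk_surjective A U a
  refine le_of_forall_pos_le_add fun ε hε => ?_
  obtain ⟨z, hz, hzn⟩ := Ultraproduct.exists_lift_norm_lt A U
    (star (Ultraproduct.mk A U x) * Ultraproduct.mk A U x) hε
  set c : ℝ := ‖star (Ultraproduct.mk A U x) * Ultraproduct.mk A U x‖ + ε with hc
  have hc0 : 0 < c := by positivity
  have hzi : ∀ i, ‖z i‖ ≤ c := fun i =>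
    (lp.norm_apply_le_norm ENNReal.top_ne_zero z i).trans hzn.le
  choose y hy1 hy2 using fun i => exists_cut (x i) (z i) c hc0 (hzi i)
  have hyb : ∀ i, ‖y i‖ ≤ Real.sqrt c := fun i => Real.le_sqrt_of_sq_le (hy1 i)
  have hmem : Memℓp y ∞ := memℓp_infty ⟨Real.sqrt c, by rintro _ ⟨i, rfl⟩; exact hyb i⟩
  let y' : lp A ∞ := ⟨y, hmem⟩
  have hyn : ‖y'‖ ≤ Real.sqrt c :=
    lp.norm_le_of_forall_le (Real.sqrt_nonneg c) hyb
  have heq : Ultraproduct.mk A U x = Ultraproduct.mk A U y' := by
    rw [Ultraproduct.mk_eq_mk_iff]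
    have hz' : Ultraproduct.mk A U (star x * x) = Ultraproduct.mk A U z := by
      rw [hz, map_mul, Ultraproduct.star_mk]
    rw [Ultraproduct.mk_eq_mk_iff] at hz'
    have hlim : Filter.Tendsto (fun i => ‖x‖ * (nrm2 ((star x * x : lp A ∞) i - z i) / c)) U
        (𝓝 0) := by
      have := (hz'.div_const c).const_mul ‖x‖
      simpa using this
    refine squeeze_zero (fun i => nrm2_nonneg _) (fun i => ?_) hlim
    refine (hy2 i).trans ?_
    exact mul_le_mul_of_nonneg_right (lp.norm_apply_le_norm ENNReal.top_ne_zero x i)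
      (div_nonneg (nrm2_nonneg _) hc0.le)
  have h1 : ‖Ultraproduct.mk A U x‖ ≤ Real.sqrt c := by
    rw [heq]
    exact (Ultraproduct.norm_mk_le A U y').trans hyn
  calc ‖Ultraproduct.mk A U x‖ * ‖Ultraproduct.mk A U x‖
      ≤ Real.sqrt c * Real.sqrt c := mul_self_le_mul_self (norm_nonneg _) h1
    _ = c := Real.mul_self_sqrt hc0.le

instance : CStarRing (Ultraproduct A U) where
  norm_mul_self_le := Ultraproduct.norm_mul_self_le A U

/-- The ultraproduct is a C*-algebra. -/
noncomputable instance : CStarAlgebra (Ultraproduct A U) where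

/-! ### The trace of the ultraproduct -/

theorem Ultraproduct.exists_lim (x : lp A ∞) :
    ∃ z : ℂ, Filter.Tendsto (fun i => tau (x i)) U (𝓝 z) := by
  have hb : ∀ i, tau (x i) ∈ Metric.closedBall (0 : ℂ) ‖x‖ := by
    intro i
    rw [mem_closedBall_zero_iff]
    exact (norm_tau_le (x i)).trans ((nrm2_le_norm (x i)).trans
      (lp.norm_apply_le_norm ENNReal.top_ne_zero x i))
  obtain ⟨z, _, hz⟩ := (isCompact_closedBall (0 : ℂ) ‖x‖).ultrafilter_le_nhds
    (U.map fun i => tau (x i)) (by
      rw [Filter.le_principal_iff]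
      change ∀ᶠ i in (U : Filter ι), tau (x i) ∈ Metric.closedBall (0 : ℂ) ‖x‖
      exact Filter.Eventually.of_forall hb)
  exact ⟨z, hz⟩

/-- The value of the limit trace on a class: the limit along `U` of the traces of a
representative. -/
noncomputable def Ultraproduct.tauFun (a : Ultraproduct A U) : ℂ :=
  Classical.choose (Ultraproduct.exists_lim A U
    (Classical.choose (Ultraproduct.mk_surjective A U a)))

theorem Ultraproduct.tendsto_tauFun (x : lp A ∞) :
    Filter.Tendsto (fun i => tau (x i)) U (𝓝 (Ultraproduct.tauFun A U (Ultraproduct.mk A U x))) := by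
  set y := Classical.choose (Ultraproduct.mk_surjective A U (Ultraproduct.mk A U x)) with hy
  have hyx : Ultraproduct.mk A U y = Ultraproduct.mk A U x :=
    Classical.choose_spec (Ultraproduct.mk_surjective A U (Ultraproduct.mk A U x))
  have h1 : Filter.Tendsto (fun i => tau (y i)) U
      (𝓝 (Ultraproduct.tauFun A U (Ultraproduct.mk A U x))) :=
    Classical.choose_spec (Ultraproduct.exists_lim A U y)
  rw [Ultraproduct.mk_eq_mk_iff] at hyx
  have h2 : Filter.Tendsto (fun i => tau (y i - x i)) U (𝓝 0) :=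
    squeeze_zero_norm (fun i => norm_tau_le _) hyx
  have h3 := h1.sub h2
  simpa using h3

/-- The limit trace. -/
noncomputable def Ultraproduct.tauLin : Ultraproduct A U →ₗ[ℂ] ℂ where
  toFun := Ultraproduct.tauFun A U
  map_add' := by
    intro a b
    obtain ⟨x, rfl⟩ := Ultraproduct.mk_surjective A U a
    obtain ⟨y, rfl⟩ := Ultraproduct.mk_surjective A U b
    rw [← map_add]
    have h := (Ultraproduct.tendsto_tauFun A U x).add (Ultraproduct.tendsto_tauFun A U y)
    refine tendsto_nhds_unique (Ultraproduct.tendsto_tauFun A U (x + y)) (h.congr fun i => ?_)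
    rw [← map_add]; rfl
  map_smul' := by
    intro c a
    obtain ⟨x, rfl⟩ := Ultraproduct.mk_surjective A U a
    rw [← map_smul]
    have h := (Ultraproduct.tendsto_tauFun A U x).const_mul c
    refine tendsto_nhds_unique (Ultraproduct.tendsto_tauFun A U (c • x)) (h.congr fun i => ?_)
    rw [← smul_eq_mul, ← map_smul]; rfl

theorem Ultraproduct.tendsto_tauLin (x : lp A ∞) :
    Filter.Tendsto (fun i => tau (x i)) U
      (𝓝 (Ultraproduct.tauLin A U (Ultraproduct.mk A U x))) :=
  Ultraproduct.tendsto_tauFun A U x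

theorem Ultraproduct.tauLin_unique {x : lp A ∞} {z : ℂ}
    (h : Filter.Tendsto (fun i => tau (x i)) U (𝓝 z)) :
    Ultraproduct.tauLin A U (Ultraproduct.mk A U x) = z :=
  tendsto_nhds_unique (Ultraproduct.tendsto_tauLin A U x) h

/-- The limit trace is a faithful tracial state of the ultraproduct. -/
noncomputable instance : TracialState (Ultraproduct A U) where
  tau := Ultraproduct.tauLin A U
  tau_one := by
    have h : Filter.Tendsto (fun i => tau ((1 : lp A ∞) i)) U (𝓝 (1 : ℂ)) := by
      have e : (fun i => tau ((1 : lp A ∞) i)) = fun _ => (1 : ℂ) := by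
        funext i
        exact tau_one
      rw [e]
      exact tendsto_const_nhds
    rw [← map_one (Ultraproduct.mk A U)]
    exact Ultraproduct.tauLin_unique A U h
  tau_mul_comm := by
    intro a b
    obtain ⟨x, rfl⟩ := Ultraproduct.mk_surjective A U a
    obtain ⟨y, rfl⟩ := Ultraproduct.mk_surjective A U b
    rw [← map_mul, ← map_mul]
    refine Ultraproduct.tauLin_unique A U
      ((Ultraproduct.tendsto_tauLin A U (y * x)).congr fun i => ?_)
    exact tau_mul_comm (y i) (x i)
  tau_nonneg := by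
    intro a
    obtain ⟨x, rfl⟩ := Ultraproduct.mk_surjective A U a
    rw [Ultraproduct.star_mk, ← map_mul]
    exact ge_of_tendsto' (Ultraproduct.tendsto_tauLin A U (star x * x))
      fun i => tau_star_mul_self_nonneg (x i)
  tau_faithful := by
    intro a ha
    obtain ⟨x, rfl⟩ := Ultraproduct.mk_surjective A U a
    rw [Ultraproduct.star_mk, ← map_mul] at ha
    have h := Ultraproduct.tendsto_tauLin A U (star x * x)
    rw [ha] at h
    rw [Ultraproduct.mk_eq_zero_iff]
    have h2 : Filter.Tendsto (fun i => Real.sqrt (tau ((star x * x : lp A ∞) i)).re) U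
        (𝓝 (Real.sqrt (0 : ℂ).re)) :=
      ((Complex.continuous_re.tendsto _).comp h).sqrt
    rw [Complex.zero_re, Real.sqrt_zero] at h2
    exact h2

theorem Ultraproduct.tendsto_tau (x : lp A ∞) :
    Filter.Tendsto (fun i => tau (x i)) U (𝓝 (tau (Ultraproduct.mk A U x))) :=
  Ultraproduct.tendsto_tauFun A U x

theorem Ultraproduct.tendsto_nrm2 (x : lp A ∞) :
    Filter.Tendsto (fun i => nrm2 (x i)) U (𝓝 (nrm2 (Ultraproduct.mk A U x))) := by
  have h := Ultraproduct.tendsto_tau A U (star x * x)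
  have h2 := ((Complex.continuous_re.tendsto _).comp h).sqrt
  rw [map_mul, ← Ultraproduct.star_mk] at h2
  exact h2

end Ultraproduct

/-- The tracial ultrapower `A^U` of `A` along an ultrafilter on `ℕ`. -/
abbrev Ultrapower (A : Type*) [CStarAlgebra A] [TracialState A] (U : Ultrafilter ℕ) : Type _ :=
  Ultraproduct (fun _ : ℕ => A) U

/-! ### Matrix algebras -/

section Mat

open scoped Matrix.Norms.L2Operator

variable {n : Type*} [Fintype n] [DecidableEq n] [Nonempty n]

/-- The matrix algebra `M_n(ℂ)` (with its C*-norm) and its normalised trace `tr / |n|`. -/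
noncomputable instance instTracialStateMatrix : TracialState (Matrix n n ℂ) where
  tau := ((Fintype.card n : ℂ)⁻¹) • Matrix.traceLinearMap n ℂ ℂ
  tau_one := by
    have h : (Fintype.card n : ℂ) ≠ 0 := by exact_mod_cast Fintype.card_ne_zero
    simp [h]
  tau_mul_comm := by
    intro x y
    simp [Matrix.trace_mul_comm x y]
  tau_nonneg := by
    intro x
    have h := (Matrix.posSemidef_conjTranspose_mul_self x).trace_nonneg
    simp only [LinearMap.smul_apply, Matrix.traceLinearMap_apply, smul_eq_mul]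
    refine mul_nonneg ?_ h
    rw [← Complex.ofReal_natCast, ← Complex.ofReal_inv]
    exact Complex.zero_le_real.2 (by positivity)
  tau_faithful := by
    intro x hx
    have h : (Fintype.card n : ℂ) ≠ 0 := by exact_mod_cast Fintype.card_ne_zero
    simp only [LinearMap.smul_apply, Matrix.traceLinearMap_apply, smul_eq_mul,
      mul_eq_zero, inv_eq_zero, h, false_or] at hx
    exact Matrix.trace_conjTranspose_mul_self_eq_zero_iff.1 hx

theorem tau_matrix (x : Matrix n n ℂ) : tau x = (Fintype.card n : ℂ)⁻¹ * x.trace := rfl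

theorem nrm2_matrix (x : Matrix n n ℂ) :
    nrm2 x = Real.sqrt ((∑ i, ∑ j, ‖x i j‖ ^ 2) / Fintype.card n) := by
  unfold nrm2
  congr 1
  rw [tau_matrix]
  have h : (star x * x).trace = ((∑ i, ∑ j, ‖x i j‖ ^ 2 : ℝ) : ℂ) := by
    rw [Finset.sum_comm]
    simp only [Matrix.trace, Matrix.diag_apply, Matrix.mul_apply, Matrix.star_apply]
    push_cast
    refine Finset.sum_congr rfl fun j _ => Finset.sum_congr rfl fun i _ => ?_
    rw [Complex.star_def, Complex.conj_mul']
  rw [h, ← Complex.ofReal_natCast, ← Complex.ofReal_inv, ← Complex.ofReal_mul,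
    Complex.ofReal_re]
  ring

end Mat

/-! ### II₁ factors and the fundamental group -/

section Factor

variable (A : Type*) [CStarAlgebra A] [TracialState A]

/-- The operator norm unit ball of `A` is complete for the 2-norm. For a unital C*-algebra with a
faithful tracial state this says that `A` is a von Neumann algebra and the trace is normal. -/
def UnitBallComplete : Prop :=
  ∀ s : ℕ → A, (∀ n, ‖s n‖ ≤ 1) →
    (∀ ε : ℝ, 0 < ε → ∃ n₀ : ℕ, ∀ m n : ℕ, n₀ ≤ m → n₀ ≤ n → nrm2 (s m - s n) ≤ ε) →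
    ∃ a : A, ‖a‖ ≤ 1 ∧ Filter.Tendsto (fun n => nrm2 (s n - a)) Filter.atTop (𝓝 0)

/-- `A`, with its trace, is a factor of type II₁: an infinite-dimensional finite von Neumann
algebra with trivial centre. -/
structure IsII1Factor : Prop where
  complete : UnitBallComplete A
  center : ∀ z : A, (∀ x : A, z * x = x * z) → ∃ c : ℂ, z = c • (1 : A)
  infinite : ¬ FiniteDimensional ℂ A

/-- `CornerIso A k p`: the algebra `A` is *-isomorphic to the corner `p M_k(A) p`. -/
def CornerIso (k : ℕ) (p : Matrix (Fin k) (Fin k) A) : Prop :=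
  ∃ θ : A →⋆ₙₐ[ℂ] Matrix (Fin k) (Fin k) A,
    Function.Injective θ ∧ Set.range θ = {x | p * x * p = x}

/-- The fundamental group: all `t > 0` such that `A` is isomorphic to its amplification
`A^t = p M_k(A) p`, `p` a projection of `M_k(A)` with unnormalised trace `t`, that is,
`(tr_k ⊗ τ)(p) = t / k`. -/
def fundamentalGroup : Set ℝ :=
  {t | 0 < t ∧ ∃ (k : ℕ) (p : Matrix (Fin k) (Fin k) A), t ≤ k ∧ star p = p ∧ p * p = p ∧
    (∑ i, tau (p i i)) = (t : ℂ) ∧ CornerIso A k p}

end Factor

end Pool.Agent.FG.UP
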