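import Pool.Agent.FG.Tr
import Pool.Agent.FG.Comm
import Pool.Agent.FG.UPDefs

/-!
# Project FG, row FG-ISO5: uniqueness of the trace on a matrix ultraproduct
-/

set_option autoImplicit false

open Filter Topology
open scoped ComplexOrder

namespace Pool.Agent.FG

section

open scoped Matrix.Norms.L2Operator

theorem iso5_norm_mtr_le {n : Type} [Fintype n] [DecidableEq n] [Nonempty n]
    (A : Matrix n n ℂ) : ‖mtr n A‖ ≤ ‖A‖ := by
  have h := (UP.norm_tau_le A).trans (UP.nrm2_le_norm A)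
  exact h

theorem iso5_norm_one {n : Type} [Fintype n] [DecidableEq n] [Nonempty n] :
    ‖(1 : Matrix n n ℂ)‖ = 1 := CStarRing.norm_one

theorem iso5_herm {I : Type} {n : I → Type} [∀ i, Fintype (n i)] [∀ i, DecidableEq (n i)]
    [∀ i, Nonempty (n i)] {M : Type*} [Ring M] [StarRing M] [Algebra ℂ M]
    {τ : M →ₗ[ℂ] ℂ} {W : Ultrafilter I} (mod : Model n τ W) (τ' : M →ₗ[ℂ] ℂ)
    (h1 : τ' 1 = 1) (hc : ∀ x y, τ' (x * y) = τ' (y * x)) (x : BF n)
    (hx : ∀ i, (x.1 i).IsHermitian) : τ' (mod.pi x) = τ (mod.pi x) := by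
  obtain ⟨C, hC⟩ := x.2
  set c : I → ℂ := fun i => mtr (n i) (x.1 i) with hcdef
  have hcn : ∀ i, ‖c i‖ ≤ C := fun i => (iso5_norm_mtr_le (x.1 i)).trans (hC i)
  have hC0 : ∀ i, 0 ≤ C := fun i => (norm_nonneg _).trans (hC i)
  -- the trace is real
  have hcreal : ∀ i, star (c i) = c i := by
    intro i
    have h := tr_star (isTr_mtr (n i)) (x.1 i)
    rw [Matrix.star_eq_conjTranspose, (hx i).eq] at h
    exact h.symm
  let s : BF n := ⟨fun i => c i • (1 : Matrix (n i) (n i) ℂ), C, fun i => by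
    rw [norm_smul, iso5_norm_one, mul_one]; exact hcn i⟩
  have hherm : ∀ i, (x.1 i - c i • (1 : Matrix (n i) (n i) ℂ)).IsHermitian := by
    intro i
    refine (hx i).sub ?_
    rw [Matrix.IsHermitian, Matrix.conjTranspose_smul, Matrix.conjTranspose_one, hcreal]
  have htr : ∀ i, (x.1 i - c i • (1 : Matrix (n i) (n i) ℂ)).trace = 0 := by
    intro i
    have hcard : (Fintype.card (n i) : ℂ) ≠ 0 := by exact_mod_cast Fintype.card_ne_zero
    rw [Matrix.trace_sub, Matrix.trace_smul, Matrix.trace_one, hcdef]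
    simp only [mtr, LinearMap.smul_apply, Matrix.traceLinearMap_apply, smul_eq_mul]
    field_simp
    ring
  choose Y Z hYZ hY hZ using fun i => exists_commutator _ (hherm i) (htr i)
  have hdiff : ∀ i, ‖x.1 i - c i • (1 : Matrix (n i) (n i) ℂ)‖ ≤ 2 * C := by
    intro i
    refine (norm_sub_le _ _).trans ?_
    rw [norm_smul, iso5_norm_one, mul_one]
    linarith [hC i, hcn i]
  let Y' : BF n := ⟨Y, 2 * (2 * C), fun i => (hY i).trans (by
    have := hdiff i
    linarith)⟩
  let Z' : BF n := ⟨Z, 1, hZ⟩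
  have e1 : x - s = Y' * Z' - Z' * Y' := by
    apply Subtype.ext
    funext i
    exact hYZ i
  have e2 : mod.pi s = τ (mod.pi x) • (1 : M) := by
    have e3 : mod.pi (s - τ (mod.pi x) • (1 : BF n)) = 0 := by
      rw [mod.ker]
      have e4 : ∀ i, n2 (mtr (n i)) ((s - τ (mod.pi x) • (1 : BF n)).1 i) =
          ‖c i - τ (mod.pi x)‖ := by
        intro i
        have e5 : (s - τ (mod.pi x) • (1 : BF n)).1 i =
            (c i - τ (mod.pi x)) • (1 : Matrix (n i) (n i) ℂ) := by
          rw [sub_smul]; rfl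
        rw [e5, n2_smul (isTr_mtr (n i)), n2_one (isTr_mtr (n i)), mul_one]
      simp only [e4]
      have := (mod.tr x).sub_const (τ (mod.pi x))
      rw [sub_self] at this
      simpa using this.norm
    rw [map_sub, map_smul, map_one, sub_eq_zero] at e3
    exact e3
  have e6 : mod.pi x - τ (mod.pi x) • (1 : M) =
      mod.pi Y' * mod.pi Z' - mod.pi Z' * mod.pi Y' := by
    rw [← e2, ← map_sub, e1, map_sub, map_mul, map_mul]
  have e7 := congrArg τ' e6
  rw [map_sub, map_sub, map_smul, h1, hc, sub_self, smul_eq_mul, mul_one, sub_eq_zero] at e7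
  exact e7

end

theorem trace_unique {I : Type} {n : I → Type} [∀ i, Fintype (n i)] [∀ i, DecidableEq (n i)]
    [∀ i, Nonempty (n i)] {M : Type*} [Ring M] [StarRing M] [Algebra ℂ M] [StarModule ℂ M]
    {τ : M →ₗ[ℂ] ℂ} {W : Ultrafilter I} (mod : Model n τ W) (τ' : M →ₗ[ℂ] ℂ)
    (h1 : τ' 1 = 1) (hc : ∀ x y, τ' (x * y) = τ' (y * x)) : τ' = τ := by
  ext a
  obtain ⟨x, rfl⟩ := mod.surj a
  set p : BF n := (1 / 2 : ℂ) • (x + star x) with hp
  set q : BF n := (-(Complex.I / 2)) • (x - star x) with hq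
  have hpq : x = p + Complex.I • q := by
    have h2 : Complex.I * -(Complex.I / 2) = 1 / 2 := by
      have := Complex.I_mul_I
      linear_combination (-(1 / 2 : ℂ)) * this
    rw [hp, hq, smul_smul, h2, ← smul_add, add_add_sub_cancel, ← two_smul ℂ x, smul_smul]
    norm_num
  have hph : ∀ i, (p.1 i).IsHermitian := by
    intro i
    have e : p.1 i = (1 / 2 : ℂ) • (x.1 i + star (x.1 i)) := rfl
    rw [e, Matrix.IsHermitian, Matrix.conjTranspose_smul, Matrix.conjTranspose_add,
      Matrix.star_eq_conjTranspose, Matrix.conjTranspose_conjTranspose, add_comm]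
    congr 1
    simp
  have hqh : ∀ i, (q.1 i).IsHermitian := by
    intro i
    have e : q.1 i = (-(Complex.I / 2)) • (x.1 i - star (x.1 i)) := rfl
    rw [e, Matrix.IsHermitian, Matrix.conjTranspose_smul, Matrix.conjTranspose_sub,
      Matrix.star_eq_conjTranspose, Matrix.conjTranspose_conjTranspose,
      ← neg_sub (x.1 i), smul_neg, ← neg_smul]
    congr 1
    simp
    ring
  clear_value p q
  have e1 := iso5_herm mod τ' h1 hc p hph
  have e2 := iso5_herm mod τ' h1 hc q hqh
  have e3 : mod.pi x = mod.pi p + Complex.I • mod.pi q := by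
    rw [hpq, map_add, map_smul]
  rw [e3, map_add, map_add, map_smul, map_smul, e1, e2]

end Pool.Agent.FG
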