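import Pool.Agent.FG.MatModel
import Pool.Agent.FG.ProjLift
import Pool.Agent.FG.TraceUnique

/-!
Project FG (MP_0c7c15_an), row ISO8: a corner of the matrix algebra over a tracial matrix
ultraproduct which is isomorphic to it is a model with other matrix sizes.
-/

set_option autoImplicit false

open Filter Topology
open scoped ComplexOrder Matrix Matrix.Norms.L2Operator

namespace Pool.Agent.FG

theorem iso8_norm_le {n : Type*} [Fintype n] [DecidableEq n] {k : ℕ}
    (V : Matrix n (Fin k) ℂ) (hV : V = 0 ∨ Vᴴ * V = 1) : ‖V‖ ≤ 1 := by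
  rcases hV with rfl | hV
  · rw [norm_zero]; exact zero_le_one
  · have h1 := Matrix.l2_opNorm_conjTranspose_mul_self V
    rw [hV] at h1
    have h2 : ‖(1 : Matrix (Fin k) (Fin k) ℂ)‖ ≤ 1 := by
      rcases isEmpty_or_nonempty (Fin k) with h | h
      · have : (1 : Matrix (Fin k) (Fin k) ℂ) = 0 := Subsingleton.elim _ _
        rw [this, norm_zero]; exact zero_le_one
      · exact (CStarRing.norm_one).le
    nlinarith [norm_nonneg V]

theorem iso8_conj_norm {n : Type*} [Fintype n] [DecidableEq n] {k : ℕ}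
    (V : Matrix n (Fin k) ℂ) (hV : V = 0 ∨ Vᴴ * V = 1) (x : Matrix (Fin k) (Fin k) ℂ) :
    ‖V * x * Vᴴ‖ ≤ ‖x‖ := by
  have h := iso8_norm_le V hV
  have h1 := Matrix.l2_opNorm_mul (V * x) Vᴴ
  have h2 := Matrix.l2_opNorm_mul V x
  rw [Matrix.l2_opNorm_conjTranspose] at h1
  have h3 : ‖V * x‖ * ‖V‖ ≤ ‖V * x‖ * 1 := mul_le_mul_of_nonneg_left h (norm_nonneg _)
  have h4 : ‖V‖ * ‖x‖ ≤ 1 * ‖x‖ := mul_le_mul_of_nonneg_right h (norm_nonneg _)
  linarith

theorem iso8_conj_norm' {n : Type*} [Fintype n] [DecidableEq n] {k : ℕ}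
    (V : Matrix n (Fin k) ℂ) (hV : V = 0 ∨ Vᴴ * V = 1) (x : Matrix n n ℂ) :
    ‖Vᴴ * x * V‖ ≤ ‖x‖ := by
  have h := iso8_norm_le V hV
  have h1 := Matrix.l2_opNorm_mul (Vᴴ * x) V
  have h2 := Matrix.l2_opNorm_mul Vᴴ x
  rw [Matrix.l2_opNorm_conjTranspose] at h2
  have h3 : ‖Vᴴ * x‖ * ‖V‖ ≤ ‖Vᴴ * x‖ * 1 := mul_le_mul_of_nonneg_left h (norm_nonneg _)
  have h4 : ‖V‖ * ‖x‖ ≤ 1 * ‖x‖ := mul_le_mul_of_nonneg_right h (norm_nonneg _)
  linarith

theorem iso8_mul {n : Type*} [Fintype n] [DecidableEq n] {k : ℕ}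
    (V : Matrix n (Fin k) ℂ) (hV : V = 0 ∨ Vᴴ * V = 1) (x y : Matrix (Fin k) (Fin k) ℂ) :
    V * (x * y) * Vᴴ = V * x * Vᴴ * (V * y * Vᴴ) := by
  rcases hV with rfl | hV
  · simp
  · have h1 : V * x * Vᴴ * (V * y * Vᴴ) = V * (x * ((Vᴴ * V) * (y * Vᴴ))) := by
      simp only [Matrix.mul_assoc]
    rw [h1, hV, Matrix.one_mul]
    simp only [Matrix.mul_assoc]

theorem iso8_corner {n : Type*} [Fintype n] [DecidableEq n] {k : ℕ}
    (V : Matrix n (Fin k) ℂ) (hV : V = 0 ∨ Vᴴ * V = 1) (x : Matrix (Fin k) (Fin k) ℂ) :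
    V * Vᴴ * (V * x * Vᴴ) * (V * Vᴴ) = V * x * Vᴴ := by
  have h1 : V * Vᴴ = V * (1 : Matrix (Fin k) (Fin k) ℂ) * Vᴴ := by rw [Matrix.mul_one]
  rw [h1, ← iso8_mul V hV, ← iso8_mul V hV, Matrix.one_mul, Matrix.mul_one]

/-- the trace of `V x V^*` -/
theorem iso8_mtr {n : Type*} [Fintype n] [DecidableEq n] [Nonempty n] {k : ℕ} (hk : 0 < k)
    (V : Matrix n (Fin k) ℂ) (hV : Vᴴ * V = 1) (x : Matrix (Fin k) (Fin k) ℂ) :
    mtr n (V * x * Vᴴ) = (((k : ℝ) / Fintype.card n : ℝ) : ℂ) * mtr (Fin k) x := by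
  have h1 : (V * x * Vᴴ).trace = x.trace := by
    rw [Matrix.mul_assoc, Matrix.trace_mul_comm, Matrix.mul_assoc, hV, Matrix.mul_one]
  have hk' : (k : ℂ) ≠ 0 := by exact_mod_cast hk.ne'
  have hn : (Fintype.card n : ℂ) ≠ 0 := by exact_mod_cast Fintype.card_ne_zero
  simp only [mtr, LinearMap.smul_apply, Matrix.traceLinearMap_apply, smul_eq_mul, h1,
    Fintype.card_fin]
  push_cast
  field_simp

theorem iso8_n2 {n : Type*} [Fintype n] [DecidableEq n] [Nonempty n] {k : ℕ} (hk : 0 < k)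
    (V : Matrix n (Fin k) ℂ) (hV : Vᴴ * V = 1) (x : Matrix (Fin k) (Fin k) ℂ) :
    n2 (mtr n) (V * x * Vᴴ) = Real.sqrt ((k : ℝ) / Fintype.card n) * n2 (mtr (Fin k)) x := by
  unfold n2
  have h1 : star (V * x * Vᴴ) * (V * x * Vᴴ) = V * (star x * x) * Vᴴ := by
    rw [iso8_mul V (Or.inr hV)]
    congr 1
    rw [Matrix.star_eq_conjTranspose, Matrix.star_eq_conjTranspose, Matrix.conjTranspose_mul,
      Matrix.conjTranspose_mul, Matrix.conjTranspose_conjTranspose, Matrix.mul_assoc]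
  rw [h1, iso8_mtr hk V hV, Complex.re_ofReal_mul, Real.sqrt_mul (by positivity)]

section

variable {I : Type} {N : I → Type} [∀ i, Fintype (N i)] [∀ i, DecidableEq (N i)]

/-- the family `V x V^*` -/
noncomputable def iso8_phi {k : I → ℕ} (V : ∀ i, Matrix (N i) (Fin (k i)) ℂ)
    (hV : ∀ i, V i = 0 ∨ (V i)ᴴ * V i = 1) (x : BF (fun i => Fin (k i))) : BF N :=
  ⟨fun i => V i * x.1 i * (V i)ᴴ, by
    obtain ⟨C, hC⟩ := x.2
    exact ⟨C, fun i => (iso8_conj_norm (V i) (hV i) (x.1 i)).trans (hC i)⟩⟩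

/-- the family `V^* x V` -/
noncomputable def iso8_psi {k : I → ℕ} (V : ∀ i, Matrix (N i) (Fin (k i)) ℂ)
    (hV : ∀ i, V i = 0 ∨ (V i)ᴴ * V i = 1) (x : BF N) : BF (fun i => Fin (k i)) :=
  ⟨fun i => (V i)ᴴ * x.1 i * V i, by
    obtain ⟨C, hC⟩ := x.2
    exact ⟨C, fun i => (iso8_conj_norm' (V i) (hV i) (x.1 i)).trans (hC i)⟩⟩

theorem iso8_model [∀ i, Nonempty (N i)] {A : Type*} [Ring A] [StarRing A] [Algebra ℂ A]
    {σ : A →ₗ[ℂ] ℂ} {W : Ultrafilter I} (mod : Model N σ W) {p : A}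
    (hp : p * p = p) {M : Type*} [Ring M] [StarRing M] [Algebra ℂ M]
    {τ : M →ₗ[ℂ] ℂ} {s : ℝ} (hs : 0 < s) (θ : M →⋆ₙₐ[ℂ] A) (hinj : Function.Injective θ)
    (hrange : Set.range θ = {x | p * x * p = x}) (htr : ∀ m, (s : ℂ) * τ m = σ (θ m))
    (k : I → ℕ) (V : ∀ i, Matrix (N i) (Fin (k i)) ℂ) (hk : ∀ i, 0 < k i)
    (hV : ∀ i, V i = 0 ∨ (V i)ᴴ * V i = 1)
    (hVW : ∀ᶠ i in (W : Filter I), (V i)ᴴ * V i = 1)
    (hkt : Tendsto (fun i => (k i : ℝ) / Fintype.card (N i)) W (𝓝 s))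
    (y : BF N) (hy : ∀ i, y.1 i = V i * (V i)ᴴ) (hyp : mod.pi y = p) :
    Nonempty (Model (fun i => Fin (k i)) τ W) := by
  classical
  -- the image of `1`
  have hp1 : θ 1 = p := by
    have hmem : p ∈ Set.range θ := by
      rw [hrange]
      show p * p * p = p
      rw [hp, hp]
    obtain ⟨e, he⟩ := hmem
    have h1 : θ 1 * p = p := by rw [← he, ← map_mul, one_mul]
    have h2 : θ 1 ∈ {x | p * x * p = x} := by
      rw [← hrange]
      exact ⟨1, rfl⟩
    have h3 : p * θ 1 * p = θ 1 := h2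
    rw [← h3, mul_assoc, h1, hp]
  have hmem : ∀ x : BF (fun i => Fin (k i)), ∃ m, θ m = mod.pi (iso8_phi V hV x) := by
    intro x
    have h1 : mod.pi (iso8_phi V hV x) ∈ {x | p * x * p = x} := by
      show p * mod.pi (iso8_phi V hV x) * p = mod.pi (iso8_phi V hV x)
      rw [← hyp, ← map_mul, ← map_mul]
      congr 1
      apply Subtype.ext
      funext i
      show y.1 i * (V i * x.1 i * (V i)ᴴ) * y.1 i = V i * x.1 i * (V i)ᴴ
      rw [hy i]
      exact iso8_corner (V i) (hV i) (x.1 i)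
    rw [← hrange] at h1
    exact h1
  choose f hf using hmem
  have hf1 : f 1 = 1 := by
    apply hinj
    rw [hf, hp1, ← hyp]
    congr 1
    apply Subtype.ext
    funext i
    show V i * (1 : Matrix (Fin (k i)) (Fin (k i)) ℂ) * (V i)ᴴ = y.1 i
    rw [hy i, Matrix.mul_one]
  have hfmul : ∀ x x', f (x * x') = f x * f x' := by
    intro x x'
    apply hinj
    rw [map_mul, hf, hf, hf, ← map_mul]
    congr 1
    apply Subtype.ext
    funext i
    exact iso8_mul (V i) (hV i) (x.1 i) (x'.1 i)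
  have hfadd : ∀ x x', f (x + x') = f x + f x' := by
    intro x x'
    apply hinj
    rw [map_add, hf, hf, hf, ← map_add]
    congr 1
    apply Subtype.ext
    funext i
    show V i * (x.1 i + x'.1 i) * (V i)ᴴ = V i * x.1 i * (V i)ᴴ + V i * x'.1 i * (V i)ᴴ
    rw [Matrix.mul_add, Matrix.add_mul]
  have hf0 : f 0 = 0 := by
    have := hfadd 0 0
    rw [add_zero] at this
    exact (left_eq_add.1 this)
  have hfsmul : ∀ (c : ℂ) x, f (c • x) = c • f x := by
    intro c x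
    apply hinj
    rw [map_smul, hf, hf, ← map_smul]
    congr 1
    apply Subtype.ext
    funext i
    show V i * (c • x.1 i) * (V i)ᴴ = c • (V i * x.1 i * (V i)ᴴ)
    rw [Matrix.mul_smul, Matrix.smul_mul]
  have hfstar : ∀ x, f (star x) = star (f x) := by
    intro x
    apply hinj
    rw [map_star, hf, hf, ← map_star]
    congr 1
    apply Subtype.ext
    funext i
    show V i * star (x.1 i) * (V i)ᴴ = star (V i * x.1 i * (V i)ᴴ)
    rw [Matrix.star_eq_conjTranspose, Matrix.star_eq_conjTranspose, Matrix.conjTranspose_mul,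
      Matrix.conjTranspose_mul, Matrix.conjTranspose_conjTranspose, Matrix.mul_assoc]
  let F : BF (fun i => Fin (k i)) →⋆ₐ[ℂ] M :=
    { toFun := f
      map_one' := hf1
      map_mul' := hfmul
      map_zero' := hf0
      map_add' := hfadd
      commutes' := by
        intro c
        show f (algebraMap ℂ _ c) = algebraMap ℂ M c
        rw [Algebra.algebraMap_eq_smul_one, hfsmul, hf1, Algebra.algebraMap_eq_smul_one]
      map_star' := hfstar }
  refine ⟨⟨F, ?_, ?_, ?_⟩⟩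
  · intro m
    obtain ⟨z, hz⟩ := mod.surj (θ m)
    refine ⟨iso8_psi V hV z, ?_⟩
    show f (iso8_psi V hV z) = m
    apply hinj
    rw [hf]
    have h1 : θ m ∈ {x | p * x * p = x} := by
      rw [← hrange]
      exact ⟨m, rfl⟩
    have h2 : p * θ m * p = θ m := h1
    rw [← h2, ← hz, ← hyp, ← map_mul, ← map_mul]
    congr 1
    apply Subtype.ext
    funext i
    show V i * ((V i)ᴴ * z.1 i * V i) * (V i)ᴴ = y.1 i * z.1 i * y.1 i
    rw [hy i]
    simp only [Matrix.mul_assoc]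
  · intro x
    show Tendsto (fun i => mtr (Fin (k i)) (x.1 i)) W (𝓝 (τ (f x)))
    have h1 := mod.tr (iso8_phi V hV x)
    rw [← hf, ← htr] at h1
    have h2 : Tendsto (fun i => (((k i : ℝ) / Fintype.card (N i) : ℝ) : ℂ)) W (𝓝 (s : ℂ)) :=
      (Complex.continuous_ofReal.tendsto s).comp hkt
    have hs' : (s : ℂ) ≠ 0 := by exact_mod_cast hs.ne'
    have h3 := (h2.inv₀ hs').mul h1
    rw [← mul_assoc, inv_mul_cancel₀ hs', one_mul] at h3
    refine h3.congr' ?_
    filter_upwards [hVW] with i hi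
    have h4 : (iso8_phi V hV x).1 i = V i * x.1 i * (V i)ᴴ := rfl
    rw [h4, iso8_mtr (hk i) (V i) hi, ← mul_assoc, inv_mul_cancel₀, one_mul]
    have h5 : (0 : ℝ) < (k i : ℝ) / Fintype.card (N i) := by
      have h6 : (0 : ℝ) < k i := by exact_mod_cast hk i
      have h7 : (0 : ℝ) < Fintype.card (N i) := by exact_mod_cast Fintype.card_pos
      positivity
    exact_mod_cast h5.ne'
  · intro x
    show f x = 0 ↔ Tendsto (fun i => n2 (mtr (Fin (k i))) (x.1 i)) W (𝓝 0)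
    have h0 : f x = 0 ↔ mod.pi (iso8_phi V hV x) = 0 := by
      rw [← hf, ← map_zero θ, hinj.eq_iff]
    rw [h0, mod.ker]
    have h2 : Tendsto (fun i => Real.sqrt ((k i : ℝ) / Fintype.card (N i))) W
        (𝓝 (Real.sqrt s)) := (Real.continuous_sqrt.tendsto s).comp hkt
    have hss : Real.sqrt s ≠ 0 := (Real.sqrt_pos.2 hs).ne'
    have hpos : ∀ i, Real.sqrt ((k i : ℝ) / Fintype.card (N i)) ≠ 0 := by
      intro i
      have h6 : (0 : ℝ) < k i := by exact_mod_cast hk i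
      have h7 : (0 : ℝ) < Fintype.card (N i) := by exact_mod_cast Fintype.card_pos
      exact (Real.sqrt_pos.2 (by positivity)).ne'
    constructor
    · intro h
      have h3 := (h2.inv₀ hss).mul h
      rw [mul_zero] at h3
      refine h3.congr' ?_
      filter_upwards [hVW] with i hi
      have h4 : (iso8_phi V hV x).1 i = V i * x.1 i * (V i)ᴴ := rfl
      rw [h4, iso8_n2 (hk i) (V i) hi, inv_mul_cancel_left₀ (hpos i)]
    · intro h
      have h3 := h2.mul h
      rw [mul_zero] at h3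
      refine h3.congr' ?_
      filter_upwards [hVW] with i hi
      have h4 : (iso8_phi V hV x).1 i = V i * x.1 i * (V i)ᴴ := rfl
      rw [h4, iso8_n2 (hk i) (V i) hi]

end

theorem corner_model {I : Type} {n : I → Type} [∀ i, Fintype (n i)] [∀ i, DecidableEq (n i)]
    [∀ i, Nonempty (n i)] {M : Type} [Ring M] [StarRing M] [Algebra ℂ M] [StarModule ℂ M]
    {τ : M →ₗ[ℂ] ℂ} (hτ : IsTr τ) {W : Ultrafilter I} (mod : Model n τ W)
    {t : ℝ} (ht : t ∈ fundamentalGroup τ) :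
    ∃ k : I → ℕ, (∀ i, 0 < k i) ∧
      Tendsto (fun i => (k i : ℝ) / Fintype.card (n i)) W (𝓝 t) ∧
      Nonempty (Model (fun i => Fin (k i)) τ W) := by
  obtain ⟨ht0, r, p, hp, hps, hpt, θ, hinj, hrange⟩ := ht
  have hr : 0 < r := by
    rcases Nat.eq_zero_or_pos r with h | h
    · subst h
      have h0 : (t : ℂ) = 0 := by rw [← hpt]; simp
      exact absurd (by exact_mod_cast h0) ht0.ne'
    · exact h
  haveI : Nonempty (Fin r) := ⟨⟨0, hr⟩⟩
  have hr' : (0 : ℝ) < r := by exact_mod_cast hr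
  obtain ⟨modr⟩ := matrix_model mod hr
  have hs : 0 < t / r := div_pos ht0 hr'
  have hsp : trM r τ p = ((t / r : ℝ) : ℂ) := by
    simp only [trM, LinearMap.smul_apply, LinearMap.comp_apply, Matrix.traceLinearMap_apply,
      Matrix.trace, Matrix.diag, map_sum, smul_eq_mul]
    rw [hpt]
    push_cast
    rw [div_eq_mul_inv, mul_comm]
  obtain ⟨k, V, hk, hV, hVW, hkt, y, hy, hyp⟩ := proj_lift (isTr_trM hτ hr) modr hp hps hs hsp
  have hθ1 : θ 1 = p := by
    have hmem : p ∈ Set.range θ := by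
      rw [hrange]
      show p * p * p = p
      rw [hp, hp]
    obtain ⟨e, he⟩ := hmem
    have h1 : θ 1 * p = p := by rw [← he, ← map_mul, one_mul]
    have h2 : θ 1 ∈ {x | p * x * p = x} := by
      rw [← hrange]
      exact ⟨1, rfl⟩
    have h3 : p * θ 1 * p = θ 1 := h2
    rw [← h3, mul_assoc, h1, hp]
  have hts : ((t / r : ℝ) : ℂ) ≠ 0 := by exact_mod_cast hs.ne'
  have htr : ∀ m, ((t / r : ℝ) : ℂ) * τ m = trM r τ (θ m) := by
    let τ' : M →ₗ[ℂ] ℂ :=
      { toFun := fun m => ((t / r : ℝ) : ℂ)⁻¹ * trM r τ (θ m)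
        map_add' := by
          intro a b
          rw [map_add, map_add, mul_add]
        map_smul' := by
          intro c a
          rw [map_smul, map_smul, smul_eq_mul, smul_eq_mul, RingHom.id_apply]
          ring }
    have hτ' : τ' = τ := by
      apply trace_unique mod
      · show ((t / r : ℝ) : ℂ)⁻¹ * trM r τ (θ 1) = 1
        rw [hθ1, hsp, inv_mul_cancel₀ hts]
      · intro a b
        show ((t / r : ℝ) : ℂ)⁻¹ * trM r τ (θ (a * b)) =
          ((t / r : ℝ) : ℂ)⁻¹ * trM r τ (θ (b * a))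
        have e1 : θ (a * b) = θ a * θ b := map_mul θ a b
        have e2 : θ (b * a) = θ b * θ a := map_mul θ b a
        rw [e1, e2, (isTr_trM hτ hr).comm]
    intro m
    have h1 : τ' m = τ m := by rw [hτ']
    rw [← h1]
    show ((t / r : ℝ) : ℂ) * (((t / r : ℝ) : ℂ)⁻¹ * trM r τ (θ m)) = _
    rw [mul_inv_cancel_left₀ hts]
  refine ⟨k, hk, ?_, iso8_model modr hp hs θ hinj hrange htr k V hk hV hVW hkt y hy hyp⟩
  have h1 := hkt.mul_const (r : ℝ)
  rw [div_mul_cancel₀ _ hr'.ne'] at h1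
  refine h1.congr ?_
  intro i
  rw [Fintype.card_prod, Fintype.card_fin]
  push_cast
  have h7 : (0 : ℝ) < Fintype.card (n i) := by exact_mod_cast Fintype.card_pos
  field_simp

end Pool.Agent.FG
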