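import Pool.Agent.FG.FDDefs
import Pool.Agent.FG.Tr
import Pool.Agent.FG.Char

/-! Project FG (MP_0c7c15_an), row FD-04: conjugation of Weyl operators by `X, F, D, E`. -/

set_option autoImplicit false

namespace Pool.Agent.FG

section
variable {a : ℕ}

/-- left multiplication of a Weyl operator -/
theorem cov_mul_We (x : Matrix (Y a) (Y a) ℂ) (u v : Y a) (y z : Y a) :
    (x * We u v) y z = x y (z + u) * chi (pr v z) := by
  rw [Matrix.mul_apply, Finset.sum_eq_single (z + u)]
  · show x y (z + u) * (if z = z + u - u then chi (pr v z) else 0) = _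
    rw [if_pos (by rw [add_sub_cancel_right])]
  · intro t _ ht
    show x y t * (if z = t - u then chi (pr v z) else 0) = 0
    rw [if_neg, mul_zero]
    intro h
    exact ht (by rw [h, sub_add_cancel])
  · intro h
    exact absurd (Finset.mem_univ _) h

/-- right multiplication -/
theorem cov_We_mul (x : Matrix (Y a) (Y a) ℂ) (u v : Y a) (y z : Y a) :
    (We u v * x) y z = chi (pr v (y - u)) * x (y - u) z := by
  rw [Matrix.mul_apply, Finset.sum_eq_single (y - u)]
  · show (if y - u = y - u then chi (pr v (y - u)) else 0) * x (y - u) z = _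
    rw [if_pos rfl]
  · intro t _ ht
    show (if t = y - u then chi (pr v t) else 0) * x t z = 0
    rw [if_neg ht, zero_mul]
  · intro h
    exact absurd (Finset.mem_univ _) h

theorem cov_We_mul_We (u v u' v' : Y a) :
    We u v * We u' v' = chi (pr v u') • We (u + u') (v + v') := by
  ext y z
  rw [cov_mul_We, Matrix.smul_apply, smul_eq_mul]
  show (if z + u' = y - u then chi (pr v (z + u')) else 0) * chi (pr v' z) =
    chi (pr v u') * (if z = y - (u + u') then chi (pr (v + v') z) else 0)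
  by_cases h : z = y - (u + u')
  · rw [if_pos h, if_pos (by rw [h]; abel), ← chi_add, ← chi_add]
    congr 1
    rw [pr_add_right, pr_add_left]
    ring
  · rw [if_neg h, if_neg, zero_mul, mul_zero]
    intro h1
    apply h
    rw [eq_sub_iff_add_eq, add_comm u u', ← add_assoc, h1, sub_add_cancel]

theorem cov_We_mem (u v : Y a) : We u v ∈ Matrix.unitaryGroup (Y a) ℂ := by
  rw [Matrix.mem_unitaryGroup_iff]
  ext y z
  rw [cov_We_mul, Matrix.star_apply, Matrix.one_apply]
  show chi (pr v (y - u)) * star (if y - u = z - u then chi (pr v (y - u)) else 0) = _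
  by_cases h : y = z
  · rw [if_pos h, if_pos (by rw [h]), chi_mul_star]
  · rw [if_neg h, if_neg (fun h1 => h (sub_left_injective h1)), star_zero, mul_zero]

theorem cov_diag_mem (f : Y a → ZMod 3) :
    Matrix.diagonal (fun y => chi (f y)) ∈ Matrix.unitaryGroup (Y a) ℂ := by
  rw [Matrix.mem_unitaryGroup_iff, Matrix.star_eq_conjTranspose, Matrix.diagonal_conjTranspose,
    Matrix.diagonal_mul_diagonal, ← Matrix.diagonal_one]
  congr 1
  funext y
  exact chi_mul_star _

theorem Fou_mem (a : ℕ) : Fou a ∈ Matrix.unitaryGroup (Y a) ℂ := by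
  rw [Matrix.mem_unitaryGroup_iff]
  ext y z
  rw [Matrix.mul_apply]
  have hs : (((Real.sqrt (3 ^ (a + 1)) : ℝ) : ℂ)) * (((Real.sqrt (3 ^ (a + 1)) : ℝ) : ℂ)) =
      (3 : ℂ) ^ (a + 1) := by
    rw [← Complex.ofReal_mul, Real.mul_self_sqrt (by positivity)]
    push_cast
    rfl
  have hs0 : ((3 : ℂ) ^ (a + 1)) ≠ 0 := pow_ne_zero _ (by norm_num)
  have h1 : ∀ t : Y a, Fou a y t * (star (Fou a)) t z =
      chi (pr (y - z) t) / (3 : ℂ) ^ (a + 1) := by
    intro t
    rw [Matrix.star_apply]
    show chi (pr y t) / ((Real.sqrt (3 ^ (a + 1)) : ℝ) : ℂ) *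
      star (chi (pr z t) / ((Real.sqrt (3 ^ (a + 1)) : ℝ) : ℂ)) = _
    rw [star_div₀, ← chi_neg]
    have hr : star ((Real.sqrt (3 ^ (a + 1)) : ℝ) : ℂ) = ((Real.sqrt (3 ^ (a + 1)) : ℝ) : ℂ) :=
      Complex.conj_ofReal _
    rw [hr, div_mul_div_comm, hs, ← chi_add, pr_sub_left, sub_eq_add_neg]
  rw [Finset.sum_congr rfl fun t _ => h1 t, ← Finset.sum_div, sum_chi, Matrix.one_apply]
  by_cases h : y = z
  · rw [if_pos (sub_eq_zero.2 h), if_pos h, div_self hs0]
  · rw [if_neg (sub_ne_zero.2 h), if_neg h, zero_div]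

theorem Dg_mem (a : ℕ) : Dg a ∈ Matrix.unitaryGroup (Y a) ℂ := cov_diag_mem _

theorem Eg_mem (a : ℕ) : Eg a ∈ Matrix.unitaryGroup (Y a) ℂ := cov_diag_mem _

theorem cc_mem (a : ℕ) (s : Fin 4) : cc a s ∈ Matrix.unitaryGroup (Y a) ℂ := by
  fin_cases s
  · exact cov_We_mem _ _
  · exact Fou_mem a
  · exact Dg_mem a
  · exact Eg_mem a

theorem cov_pr_e0 (v : Y a) : pr v (e0 a) = v 0 := by
  unfold pr e0
  rw [Finset.sum_eq_single 0]
  · simp
  · intro i _ hi
    rw [Pi.single_eq_of_ne hi, mul_zero]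
  · simp

theorem cov_X (u v : Y a) :
    We (e0 a) 0 * We u v = chi (-(v 0)) • (We u v * We (e0 a) 0) := by
  rw [cov_We_mul_We, cov_We_mul_We, smul_smul, ← chi_add, pr_zero_left, cov_pr_e0, zero_add, add_zero,
    neg_add_cancel, add_comm u]

theorem cov_F (u v : Y a) :
    ∃ k : ZMod 3, Fou a * We u v = chi k • (We (-v) u * Fou a) := by
  refine ⟨-pr u v, ?_⟩
  ext y z
  rw [cov_mul_We, Matrix.smul_apply, cov_We_mul, smul_eq_mul]
  show chi (pr y (z + u)) / ((Real.sqrt (3 ^ (a + 1)) : ℝ) : ℂ) * chi (pr v z) =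
    chi (-pr u v) * (chi (pr u (y - -v)) *
      (chi (pr (y - -v) z) / ((Real.sqrt (3 ^ (a + 1)) : ℝ) : ℂ)))
  rw [div_mul_eq_mul_div, ← chi_add, ← mul_div_assoc, ← chi_add, ← mul_div_assoc, ← chi_add]
  congr 2
  rw [sub_neg_eq_add, pr_add_right, pr_add_right, pr_add_left, pr_comm y u]
  ring

/-- conjugation by a diagonal matrix of a quadratic function -/
theorem cov_diag (f : Y a → ZMod 3) (u v w : Y a) (k : ZMod 3)
    (h : ∀ z, f (z + u) + pr v z = k + (pr w z + f z)) :
    Matrix.diagonal (fun y => chi (f y)) * We u v =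
      chi k • (We u w * Matrix.diagonal (fun y => chi (f y))) := by
  ext y z
  rw [Matrix.smul_apply, Matrix.diagonal_mul, Matrix.mul_diagonal, smul_eq_mul]
  show chi (f y) * (if z = y - u then chi (pr v z) else 0) =
    chi k * ((if z = y - u then chi (pr w z) else 0) * chi (f z))
  by_cases hz : z = y - u
  · rw [if_pos hz, if_pos hz, ← chi_add, ← chi_add, ← chi_add, ← h z]
    congr 3
    rw [hz, sub_add_cancel]
  · rw [if_neg hz, if_neg hz]
    ring

theorem cov_D (u v : Y a) :
    ∃ k : ZMod 3, Dg a * We u v = chi k • (We u (v + 2 • u) * Dg a) := by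
  refine ⟨pr u u, cov_diag _ _ _ _ _ fun z => ?_⟩
  rw [pr_add_left, pr_add_right, pr_add_right, pr_add_left, two_nsmul, pr_add_left,
    pr_comm z u]
  ring

theorem cov_SS (u z : Y a) :
    pr (SS u) z = ∑ j : Fin a, (z j.castSucc * u j.succ + u j.castSucc * z j.succ) := by
  unfold pr SS
  have h1 : ∑ i : Fin (a + 1), (if h : 0 < i.val then u ⟨i.val - 1, by omega⟩ else 0) * z i =
      ∑ j : Fin a, u j.castSucc * z j.succ := by
    rw [Fin.sum_univ_succ]
    simp only [Fin.val_zero, lt_self_iff_false, dite_false, zero_mul, zero_add]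
    refine Finset.sum_congr rfl fun j _ => ?_
    rw [dif_pos (by simp)]
    congr 1
  have h2 : ∑ i : Fin (a + 1), (if h : i.val < a then u ⟨i.val + 1, by omega⟩ else 0) * z i =
      ∑ j : Fin a, z j.castSucc * u j.succ := by
    rw [Fin.sum_univ_castSucc]
    simp only [Fin.val_last, lt_self_iff_false, dite_false, zero_mul, add_zero]
    refine Finset.sum_congr rfl fun j _ => ?_
    rw [dif_pos (by simp), mul_comm]
    congr 1
  rw [Finset.sum_congr rfl fun i _ => add_mul _ _ _, Finset.sum_add_distrib, h1, h2,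
    Finset.sum_add_distrib, add_comm]

theorem cov_E (u v : Y a) :
    ∃ k : ZMod 3, Eg a * We u v = chi k • (We u (v + SS u) * Eg a) := by
  refine ⟨qE u, cov_diag _ _ _ _ _ fun z => ?_⟩
  rw [pr_add_left, cov_SS]
  have h : qE (z + u) = qE z + qE u +
      ∑ j : Fin a, (z j.castSucc * u j.succ + u j.castSucc * z j.succ) := by
    unfold qE
    rw [← Finset.sum_add_distrib, ← Finset.sum_add_distrib]
    refine Finset.sum_congr rfl fun j _ => ?_
    simp only [Pi.add_apply]
    ring
  rw [h]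
  ring

/-- from covariance to coefficients -/
theorem ip_cov (c x : Matrix (Y a) (Y a) ℂ) (hc : c ∈ Matrix.unitaryGroup (Y a) ℂ)
    (u v u' v' : Y a) (k : ZMod 3) (h : c * We u v = chi k • (We u' v' * c)) :
    ip (We u' v') (c * x * star c) = chi k • ip (We u v) x := by
  have hcc : star c * c = 1 := (Matrix.mem_unitaryGroup_iff').1 hc
  have h1 : We u' v' * c = star (chi k) • (c * We u v) := by
    rw [h, smul_smul, star_mul_chi, one_smul]
  have h2 : star c * star (We u' v') = chi k • (star (We u v) * star c) := by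
    rw [← star_mul, h1, star_smul, star_mul, star_star]
  unfold ip
  have hcomm := (isTr_mtr (Y a)).comm
  rw [← mul_assoc, hcomm, ← mul_assoc, ← mul_assoc, h2, smul_mul_assoc, smul_mul_assoc,
    mul_assoc (star (We u v)) (star c) c, hcc, mul_one, map_smul]

end

end Pool.Agent.FG
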