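import Mathlib

/-!
Project FG (MP_0c7c15_an, fundamental groups of ultrapowers of II_1 factors).
Definitions used by all files of the proof.  The definitions used in the final statement are in
`Pool.Agent.FG.Statement`.
-/

set_option autoImplicit false

open Filter Topology
open scoped ComplexOrder

namespace Pool.Agent.FG

/-! ### traces and 2-norms on *-algebras -/

section Tr

variable {M : Type*} [Ring M] [StarRing M] [Algebra ℂ M]

/-- `τ` is a tracial state on the *-algebra `M` (not necessarily faithful). -/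
structure IsTr (τ : M →ₗ[ℂ] ℂ) : Prop where
  one : τ 1 = 1
  comm : ∀ x y, τ (x * y) = τ (y * x)
  pos : ∀ x, 0 ≤ τ (star x * x)

/-- the 2-norm of a trace -/
noncomputable def n2 (τ : M →ₗ[ℂ] ℂ) (x : M) : ℝ := Real.sqrt (τ (star x * x)).re

end Tr

/-- the normalised trace on matrices -/
noncomputable def mtr (n : Type*) [Fintype n] : Matrix n n ℂ →ₗ[ℂ] ℂ :=
  (Fintype.card n : ℂ)⁻¹ • Matrix.traceLinearMap n ℂ ℂ

/-! ### the third root of unity, the finite space -/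

/-- the standard additive character of `ZMod 3` -/
noncomputable def chi (t : ZMod 3) : ℂ := ZMod.stdAddChar (N := 3) t

/-- `exp (2 π i / 3)` -/
noncomputable def om : ℂ := chi 1

/-- the index space `F_3^(a+1)` -/
abbrev Y (a : ℕ) : Type := Fin (a + 1) → ZMod 3

/-! ### the parameters and the function `Phi` -/

/-- ten parameters in `M` -/
structure Par (M : Type*) where
  c : Fin 2 → Fin 4 → M
  U : Fin 2 → M

section Phi

variable {M : Type*} [Ring M] [StarRing M] [Algebra ℂ M]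

/-- the element `U_i^* u U_i u^*` -/
def zed (b : Par M) (i : Fin 2) (u : M) : M := star (b.U i) * u * b.U i * star u

/-- `Phi τ b j u = 0` describes the Heisenberg group number `j` -/
noncomputable def Phi (τ : M →ₗ[ℂ] ℂ) (b : Par M) (j : Fin 2) (u : M) : ℝ :=
  ∑ s : Fin 4, n2 τ (b.c (1 - j) s * u - u * b.c (1 - j) s)
    + ∑ i : Fin 2, ∑ s : Fin 4, n2 τ (b.c j s * zed b i u - zed b i u * b.c j s)
    + n2 τ (u ^ 3 - 1)

/-- The properties of the parameters that hold in the standard model and are invariant under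
trace preserving *-isomorphisms. -/
structure Good (τ : M →ₗ[ℂ] ℂ) (b : Par M) : Prop where
  unitary_c : ∀ j s, b.c j s ∈ unitary M
  unitary_U : ∀ i, b.U i ∈ unitary M
  /-- definability with a modulus -/
  near : ∀ ε : ℝ, 0 < ε → ∃ δ : ℝ, 0 < δ ∧ ∀ j, ∀ u ∈ unitary M, Phi τ b j u < δ →
    ∃ p ∈ unitary M, Phi τ b j p = 0 ∧ n2 τ (u - p) ≤ ε
  mul : ∀ j, ∀ u ∈ unitary M, ∀ v ∈ unitary M, Phi τ b j u = 0 → Phi τ b j v = 0 →
    Phi τ b j (u * v) = 0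
  sep : ∀ j, ∀ u ∈ unitary M, ∀ v ∈ unitary M, Phi τ b j u = 0 → Phi τ b j v = 0 →
    n2 τ (u - v) = 0 ∨ 5 / 4 ≤ n2 τ (u - v)
  comm : ∀ j, ∀ u ∈ unitary M, ∀ v ∈ unitary M, Phi τ b j u = 0 → Phi τ b j v = 0 →
    ∃ s : Fin 3, n2 τ (u * v - om ^ (s : ℕ) • (v * u)) = 0
  nondeg : ∀ j, ∀ u ∈ unitary M, Phi τ b j u = 0 →
    (∃ s : Fin 3, n2 τ (u - om ^ (s : ℕ) • 1) = 0) ∨
      ∃ v ∈ unitary M, Phi τ b j v = 0 ∧ 5 / 4 ≤ n2 τ (u * v - v * u)
  cross : ∀ u ∈ unitary M, ∀ v ∈ unitary M, Phi τ b 0 u = 0 → Phi τ b 1 v = 0 →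
    n2 τ (u * v - v * u) = 0
  irr : ∀ x ∈ unitary M, (∀ j, ∀ p ∈ unitary M, Phi τ b j p = 0 → n2 τ (x * p - p * x) ≤ 1 / 4) →
    6 / 10 ≤ ‖τ x‖

end Phi

/-! ### the finite precision axioms in a matrix algebra -/

/-- axioms with precision `ε` for two sets of unitary matrices -/
structure Ax {n : Type*} [Fintype n] [DecidableEq n] (ε : ℝ)
    (D : Fin 2 → Set (Matrix n n ℂ)) : Prop where
  unit : ∀ j, ∀ u ∈ D j, u ∈ Matrix.unitaryGroup n ℂ
  one : ∀ j, ∃ e ∈ D j, n2 (mtr n) (e - 1) ≤ ε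
  omega : ∀ j, ∀ u ∈ D j, om • u ∈ D j
  mul : ∀ j, ∀ u ∈ D j, ∀ v ∈ D j, ∃ w ∈ D j, n2 (mtr n) (u * v - w) ≤ ε
  sep : ∀ j, ∀ u ∈ D j, ∀ v ∈ D j, n2 (mtr n) (u - v) ≤ ε ∨ 1 ≤ n2 (mtr n) (u - v)
  comm : ∀ j, ∀ u ∈ D j, ∀ v ∈ D j, ∃ s : Fin 3,
    n2 (mtr n) (u * v - om ^ (s : ℕ) • (v * u)) ≤ ε
  nondeg : ∀ j, ∀ u ∈ D j, (∃ s : Fin 3, n2 (mtr n) (u - om ^ (s : ℕ) • 1) ≤ ε) ∨
    ∃ v ∈ D j, 1 ≤ n2 (mtr n) (u * v - v * u)
  cross : ∀ u ∈ D 0, ∀ v ∈ D 1, n2 (mtr n) (u * v - v * u) ≤ ε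
  /-- the tolerance is a fixed number -/
  irr : ∀ x ∈ Matrix.unitaryGroup n ℂ,
    (∀ j, ∀ u ∈ D j, n2 (mtr n) (x * u - u * x) ≤ 1 / 8) → 1 / 2 ≤ ‖mtr n x‖

/-! ### families of matrices of bounded norm, models -/

section Model

open scoped Matrix.Norms.L2Operator

variable {I : Type} (n : I → Type) [∀ i, Fintype (n i)] [∀ i, DecidableEq (n i)]

/-- families of matrices with bounded operator norm -/
def BF : StarSubalgebra ℂ (∀ i, Matrix (n i) (n i) ℂ) where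
  carrier := {x | ∃ C : ℝ, ∀ i, ‖x i‖ ≤ C}
  mul_mem' := by
    rintro x y ⟨C, hC⟩ ⟨D, hD⟩
    refine ⟨C * D, fun i => (norm_mul_le (x i) (y i)).trans ?_⟩
    exact mul_le_mul (hC i) (hD i) (norm_nonneg _) ((norm_nonneg _).trans (hC i))
  add_mem' := by
    rintro x y ⟨C, hC⟩ ⟨D, hD⟩
    exact ⟨C + D, fun i => (norm_add_le (x i) (y i)).trans (add_le_add (hC i) (hD i))⟩
  algebraMap_mem' := by
    intro r
    refine ⟨‖r‖, fun i => ?_⟩
    show ‖algebraMap ℂ (Matrix (n i) (n i) ℂ) r‖ ≤ ‖r‖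
    rw [Algebra.algebraMap_eq_smul_one]
    refine (norm_smul_le r _).trans ?_
    have h1 : ‖(1 : Matrix (n i) (n i) ℂ)‖ ≤ 1 := by
      rcases isEmpty_or_nonempty (n i) with h | h
      · have : (1 : Matrix (n i) (n i) ℂ) = 0 := Subsingleton.elim _ _
        rw [this, norm_zero]; exact zero_le_one
      · exact (CStarRing.norm_one).le
    calc ‖r‖ * ‖(1 : Matrix (n i) (n i) ℂ)‖ ≤ ‖r‖ * 1 :=
          mul_le_mul_of_nonneg_left h1 (norm_nonneg _)
      _ = ‖r‖ := mul_one _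
  star_mem' := by
    rintro x ⟨C, hC⟩
    refine ⟨C, fun i => ?_⟩
    show ‖star (x i)‖ ≤ C
    rw [norm_star]
    exact hC i

/-- `M` with `τ` is (isomorphic to) the tracial ultraproduct of the matrix algebras over `n i`
along `W`. -/
structure Model {M : Type*} [Ring M] [StarRing M] [Algebra ℂ M] (τ : M →ₗ[ℂ] ℂ)
    (W : Ultrafilter I) where
  pi : BF n →⋆ₐ[ℂ] M
  surj : Function.Surjective pi
  tr : ∀ x : BF n, Tendsto (fun i => mtr (n i) (x.1 i)) W (𝓝 (τ (pi x)))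
  ker : ∀ x : BF n, pi x = 0 ↔ Tendsto (fun i => n2 (mtr (n i)) (x.1 i)) W (𝓝 0)

end Model

end Pool.Agent.FG
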