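import Pool.Agent.FG.FDDefs
import Pool.Agent.FG.Tr

/-!
Project FG, block FD-06: tensor products, slices, partial traces and the exchange of the factors.
-/

set_option autoImplicit false

namespace Pool.Agent.FG

section tensor
variable {m n : Type} [Fintype m] [Fintype n] [DecidableEq m] [DecidableEq n]

theorem tt_mul (x x' : Matrix m m ℂ) (y y' : Matrix n n ℂ) :
    tt x y * tt x' y' = tt (x * x') (y * y') := by
  ext i j
  simp only [Matrix.mul_apply, tt]
  rw [Fintype.sum_prod_type, Finset.sum_mul_sum]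
  apply Finset.sum_congr rfl
  intro k _
  apply Finset.sum_congr rfl
  intro l _
  ring

theorem tt_one : tt (1 : Matrix m m ℂ) (1 : Matrix n n ℂ) = 1 := by
  ext i j
  simp only [tt, Matrix.one_apply]
  by_cases h1 : i.1 = j.1
  · by_cases h2 : i.2 = j.2
    · rw [if_pos h1, if_pos h2, if_pos (Prod.ext h1 h2), one_mul]
    · rw [if_neg h2, mul_zero, if_neg (fun h => h2 (congrArg Prod.snd h))]
  · rw [if_neg h1, zero_mul, if_neg (fun h => h1 (congrArg Prod.fst h))]

theorem star_tt (x : Matrix m m ℂ) (y : Matrix n n ℂ) : star (tt x y) = tt (star x) (star y) := by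
  ext i j
  simp only [Matrix.star_apply, tt, star_mul']

theorem tt_smul_left (c : ℂ) (x : Matrix m m ℂ) (y : Matrix n n ℂ) :
    tt (c • x) y = c • tt x y := by
  ext i j
  simp only [tt, Matrix.smul_apply, smul_eq_mul]
  ring

theorem tt_smul_right (c : ℂ) (x : Matrix m m ℂ) (y : Matrix n n ℂ) :
    tt x (c • y) = c • tt x y := by
  ext i j
  simp only [tt, Matrix.smul_apply, smul_eq_mul]
  ring

theorem tt_sub_left (x x' : Matrix m m ℂ) (y : Matrix n n ℂ) :
    tt (x - x') y = tt x y - tt x' y := by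
  ext i j
  simp only [tt, Matrix.sub_apply]
  ring

theorem tt_sub_right (x : Matrix m m ℂ) (y y' : Matrix n n ℂ) :
    tt x (y - y') = tt x y - tt x y' := by
  ext i j
  simp only [tt, Matrix.sub_apply]
  ring

theorem tensor_mtr_apply (n : Type) [Fintype n] (x : Matrix n n ℂ) :
    mtr n x = (∑ i, x i i) / Fintype.card n := by
  simp [mtr, Matrix.trace, div_eq_inv_mul]

theorem mtr_tt (x : Matrix m m ℂ) (y : Matrix n n ℂ) :
    mtr (m × n) (tt x y) = mtr m x * mtr n y := by
  rw [tensor_mtr_apply, tensor_mtr_apply, tensor_mtr_apply, Fintype.sum_prod_type,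
    Fintype.card_prod, div_mul_div_comm, Finset.sum_mul_sum]
  push_cast
  rfl

theorem n2_tt (x : Matrix m m ℂ) (y : Matrix n n ℂ) :
    n2 (mtr (m × n)) (tt x y) = n2 (mtr m) x * n2 (mtr n) y := by
  have h : n2 (mtr (m × n)) (tt x y) ^ 2 = (n2 (mtr m) x * n2 (mtr n) y) ^ 2 := by
    rw [mul_pow, n2_mtr_sq, n2_mtr_sq, n2_mtr_sq, Fintype.card_prod, div_mul_div_comm]
    push_cast
    congr 1
    rw [Fintype.sum_prod_type, Finset.sum_mul_sum]
    apply Finset.sum_congr rfl
    intro i _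
    apply Finset.sum_congr rfl
    intro j _
    rw [Fintype.sum_prod_type, Finset.sum_mul_sum]
    apply Finset.sum_congr rfl
    intro k _
    apply Finset.sum_congr rfl
    intro l _
    simp only [tt, norm_mul]
    ring
  exact (pow_left_inj₀ (n2_nonneg _ _) (mul_nonneg (n2_nonneg _ _) (n2_nonneg _ _))
    two_ne_zero).1 h

theorem tt_mem {x : Matrix m m ℂ} {y : Matrix n n ℂ} (hx : x ∈ Matrix.unitaryGroup m ℂ)
    (hy : y ∈ Matrix.unitaryGroup n ℂ) : tt x y ∈ Matrix.unitaryGroup (m × n) ℂ := by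
  rw [Matrix.mem_unitaryGroup_iff] at hx hy ⊢
  rw [star_tt, tt_mul, hx, hy, tt_one]

theorem slice_sub (x y : Matrix (m × n) (m × n) ℂ) (i j : n) :
    slice (x - y) i j = slice x i j - slice y i j := by
  ext k l
  simp only [slice, Matrix.sub_apply]

theorem slice_mul_left (c : Matrix m m ℂ) (x : Matrix (m × n) (m × n) ℂ) (i j : n) :
    slice (tt c 1 * x) i j = c * slice x i j := by
  ext k l
  simp only [slice, Matrix.mul_apply, tt]
  rw [Fintype.sum_prod_type]
  apply Finset.sum_congr rfl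
  intro t _
  rw [Finset.sum_eq_single i]
  · simp
  · intro b _ hb
    rw [Matrix.one_apply_ne (Ne.symm hb), mul_zero, zero_mul]
  · intro h
    exact absurd (Finset.mem_univ i) h

theorem slice_mul_right (c : Matrix m m ℂ) (x : Matrix (m × n) (m × n) ℂ) (i j : n) :
    slice (x * tt c 1) i j = slice x i j * c := by
  ext k l
  simp only [slice, Matrix.mul_apply, tt]
  rw [Fintype.sum_prod_type]
  apply Finset.sum_congr rfl
  intro t _
  rw [Finset.sum_eq_single j]
  · simp
  · intro b _ hb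
    rw [Matrix.one_apply_ne hb, mul_zero, mul_zero]
  · intro h
    exact absurd (Finset.mem_univ j) h

theorem slice_tt (x : Matrix m m ℂ) (y : Matrix n n ℂ) (i j : n) :
    slice (tt x y) i j = y i j • x := by
  ext k l
  simp only [slice, tt, Matrix.smul_apply, smul_eq_mul]
  ring

theorem n2_slice [Nonempty m] (x : Matrix (m × n) (m × n) ℂ) :
    n2 (mtr (m × n)) x ^ 2 = (∑ i, ∑ j, n2 (mtr m) (slice x i j) ^ 2) / Fintype.card n := by
  have h1 : ∀ i j, n2 (mtr m) (slice x i j) ^ 2 =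
      (∑ k, ∑ l, ‖x (k, i) (l, j)‖ ^ 2) / Fintype.card m := by
    intro i j
    rw [n2_mtr_sq]
    rfl
  simp_rw [h1]
  rw [n2_mtr_sq]
  simp_rw [← Finset.sum_div]
  rw [div_div, Fintype.card_prod]
  push_cast
  congr 1
  simp_rw [Fintype.sum_prod_type]
  rw [Finset.sum_comm]
  apply Finset.sum_congr rfl
  intro i _
  rw [Finset.sum_congr rfl fun k _ => Finset.sum_comm, Finset.sum_comm]

theorem ptl_slice (x : Matrix (m × n) (m × n) ℂ) (i j : n) :
    ptl x i j = mtr m (slice x i j) := by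
  rw [tensor_mtr_apply]
  rfl

theorem n2_ptl_le [Nonempty m] (x : Matrix (m × n) (m × n) ℂ) :
    n2 (mtr n) (ptl x) ≤ n2 (mtr (m × n)) x := by
  have h : n2 (mtr n) (ptl x) ^ 2 ≤ n2 (mtr (m × n)) x ^ 2 := by
    rw [n2_slice, n2_mtr_sq]
    gcongr with i _ j _
    rw [ptl_slice]
    exact norm_tr_le (isTr_mtr m) _
  exact (pow_le_pow_iff_left₀ (n2_nonneg _ _) (n2_nonneg _ _) two_ne_zero).1 h

theorem ptl_mul_right (x : Matrix (m × n) (m × n) ℂ) (t : Matrix n n ℂ) :
    ptl (x * tt 1 t) = ptl x * t := by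
  ext i j
  simp only [ptl, Matrix.mul_apply, tt]
  have h : ∀ y : m, ∑ p : m × n, x (y, i) p * ((1 : Matrix m m ℂ) p.1 y * t p.2 j) =
      ∑ b, x (y, i) (y, b) * t b j := by
    intro y
    rw [Fintype.sum_prod_type, Finset.sum_eq_single y]
    · simp
    · intro b _ hb
      apply Finset.sum_eq_zero
      intro c _
      rw [Matrix.one_apply_ne hb, zero_mul, mul_zero]
    · intro h
      exact absurd (Finset.mem_univ y) h
  simp_rw [h]
  rw [Finset.sum_comm, Finset.sum_div]
  apply Finset.sum_congr rfl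
  intro b _
  rw [← Finset.sum_mul]
  ring

/-- the partial trace of a unitary is a contraction -/
theorem n2_ptl_mul_le [Nonempty m] [Nonempty n] (z : Matrix (m × n) (m × n) ℂ)
    (hz : z ∈ Matrix.unitaryGroup (m × n) ℂ) (t : Matrix n n ℂ) :
    n2 (mtr n) (ptl z * t) ≤ n2 (mtr n) t := by
  rw [← ptl_mul_right]
  refine (n2_ptl_le _).trans ?_
  rw [n2_unitary_mul _ hz, n2_tt, n2_one (isTr_mtr m), one_mul]

theorem fl_fl (x : Matrix (m × n) (m × n) ℂ) : fl (fl x) = x := rfl

theorem fl_mul (x y : Matrix (m × n) (m × n) ℂ) : fl (x * y) = fl x * fl y := by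
  ext i j
  simp only [fl, Matrix.mul_apply]
  exact (Equiv.sum_comp (Equiv.prodComm n m) (fun k => x i.swap k * y k j.swap)).symm

theorem fl_one : fl (1 : Matrix (m × n) (m × n) ℂ) = 1 := by
  ext i j
  simp only [fl, Matrix.one_apply]
  by_cases h : i = j
  · rw [if_pos h, if_pos (by rw [h])]
  · rw [if_neg h, if_neg (fun h' => h (Prod.swap_injective h'))]

theorem fl_sub (x y : Matrix (m × n) (m × n) ℂ) : fl (x - y) = fl x - fl y := rfl

theorem fl_smul (c : ℂ) (x : Matrix (m × n) (m × n) ℂ) : fl (c • x) = c • fl x := rfl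

theorem star_fl (x : Matrix (m × n) (m × n) ℂ) : fl (star x) = star (fl x) := rfl

theorem fl_tt (x : Matrix m m ℂ) (y : Matrix n n ℂ) : fl (tt x y) = tt y x := by
  ext i j
  simp only [fl, tt, Prod.fst_swap, Prod.snd_swap]
  ring

theorem mtr_fl (x : Matrix (m × n) (m × n) ℂ) : mtr (n × m) (fl x) = mtr (m × n) x := by
  rw [tensor_mtr_apply, tensor_mtr_apply, Fintype.card_prod, Fintype.card_prod, mul_comm]
  congr 1
  exact Equiv.sum_comp (Equiv.prodComm n m) (fun k => x k k)

theorem n2_fl (x : Matrix (m × n) (m × n) ℂ) : n2 (mtr (n × m)) (fl x) = n2 (mtr (m × n)) x := by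
  unfold n2
  rw [← star_fl, ← fl_mul, mtr_fl]

/-- the same on the product -/
theorem n2_tt_ptl_mul_le [Nonempty m] [Nonempty n] (z : Matrix (m × n) (m × n) ℂ)
    (hz : z ∈ Matrix.unitaryGroup (m × n) ℂ) (x : Matrix (m × n) (m × n) ℂ) :
    n2 (mtr (m × n)) (tt 1 (ptl z) * x) ≤ n2 (mtr (m × n)) x := by
  have h : n2 (mtr (n × m)) (fl (tt 1 (ptl z) * x)) ^ 2 ≤ n2 (mtr (n × m)) (fl x) ^ 2 := by
    rw [fl_mul, fl_tt, n2_slice, n2_slice]
    gcongr with i _ j _
    · exact n2_nonneg _ _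
    · rw [slice_mul_left]
      exact n2_ptl_mul_le z hz _
  rw [n2_fl, n2_fl] at h
  exact (pow_le_pow_iff_left₀ (n2_nonneg _ _) (n2_nonneg _ _) two_ne_zero).1 h

theorem fl_mem {x : Matrix (m × n) (m × n) ℂ} (hx : x ∈ Matrix.unitaryGroup (m × n) ℂ) :
    fl x ∈ Matrix.unitaryGroup (n × m) ℂ := by
  rw [Matrix.mem_unitaryGroup_iff] at hx ⊢
  rw [← star_fl, ← fl_mul, hx, fl_one]

end tensor

end Pool.Agent.FG
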