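import Pool.Agent.FG.FDDefs
import Pool.Agent.FG.Tr
import Pool.Agent.FG.Char

/-!
Project FG (MP_0c7c15_an), FD-03: the Weyl operators.
-/

set_option autoImplicit false

namespace Pool.Agent.FG

section
variable {a : ℕ}

theorem We_zero : We (0 : Y a) 0 = 1 := by
  ext y z
  rw [We, Matrix.one_apply, sub_zero, pr_zero_left, chi_zero]
  simp only [eq_comm]

theorem We_mul (u v u' v' : Y a) :
    We u v * We u' v' = chi (pr v u') • We (u + u') (v + v') := by
  ext y z
  rw [Matrix.mul_apply, Finset.sum_eq_single (y - u)]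
  · rw [Matrix.smul_apply, smul_eq_mul]
    simp only [We, if_true]
    by_cases h : z = y - u - u'
    · have h' : z = y - (u + u') := by rw [h]; abel
      have h2 : y - u = z + u' := by rw [h]; abel
      rw [if_pos h, if_pos h', h2, pr_add_right, pr_add_left, chi_add, chi_add]
      ring
    · have h' : ¬ z = y - (u + u') := by
        intro h'
        apply h
        rw [h']
        abel
      rw [if_neg h, if_neg h', mul_zero, mul_zero]
  · intro t _ ht
    rw [We, if_neg ht, zero_mul]
  · intro h
    exact absurd (Finset.mem_univ _) h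

theorem star_We (u v : Y a) : star (We u v) = chi (pr v u) • We (-u) (-v) := by
  ext y z
  rw [Matrix.star_apply, Matrix.smul_apply, smul_eq_mul, We, We]
  by_cases h : y = z - u
  · have h' : z = y - -u := by rw [h]; abel
    rw [if_pos h, if_pos h', ← chi_neg, ← chi_add]
    congr 1
    rw [h, pr_sub_right, pr_neg_left]
    ring
  · have h' : ¬ z = y - -u := by
      intro h'
      apply h
      rw [h']
      abel
    rw [if_neg h, if_neg h', star_zero, mul_zero]

theorem We_mem (u v : Y a) : We u v ∈ Matrix.unitaryGroup (Y a) ℂ := by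
  rw [Matrix.mem_unitaryGroup_iff', star_We, smul_mul_assoc, We_mul, smul_smul, ← chi_add,
    neg_add_cancel, neg_add_cancel, pr_neg_left, add_neg_cancel, chi_zero, one_smul, We_zero]

theorem We_cube (u v : Y a) : We u v ^ 3 = 1 := by
  have h3 : ∀ x : ZMod 3, x + x + x = 0 := by decide
  have hY : ∀ w : Y a, w + w + w = 0 := fun w => funext fun i => h3 (w i)
  rw [pow_succ, pow_two, We_mul, smul_mul_assoc, We_mul, smul_smul, hY, hY, We_zero, ← chi_add,
    pr_add_left, ← add_assoc, h3, chi_zero, one_smul]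

theorem We_trace (u v : Y a) :
    Matrix.trace (We u v) = if u = 0 ∧ v = 0 then (3 : ℂ) ^ (a + 1) else 0 := by
  simp only [Matrix.trace, Matrix.diag, We]
  by_cases hu : u = 0
  · subst hu
    simp only [sub_zero, if_true, true_and]
    exact sum_chi v
  · rw [if_neg (fun h => hu h.1)]
    apply Finset.sum_eq_zero
    intro y _
    rw [if_neg]
    intro h
    apply hu
    have h2 := congrArg (fun t => y - t) h
    simpa using h2.symm

theorem mtr_We (u v : Y a) : mtr (Y a) (We u v) = if u = 0 ∧ v = 0 then 1 else 0 := by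
  rw [mtr, LinearMap.smul_apply, Matrix.traceLinearMap_apply, We_trace, smul_eq_mul, card_Y]
  split_ifs
  · push_cast
    exact inv_mul_cancel₀ (pow_ne_zero _ (by norm_num))
  · rw [mul_zero]

theorem ip_We (u v u' v' : Y a) :
    ip (We u v) (We u' v') = if u = u' ∧ v = v' then 1 else 0 := by
  rw [ip, star_We, smul_mul_assoc, We_mul, map_smul, map_smul, mtr_We, smul_eq_mul, smul_eq_mul]
  by_cases h : u = u' ∧ v = v'
  · obtain ⟨rfl, rfl⟩ := h
    rw [if_pos ⟨neg_add_cancel u, neg_add_cancel v⟩, if_pos ⟨rfl, rfl⟩, mul_one, ← chi_add,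
      pr_neg_left, add_neg_cancel, chi_zero]
  · rw [if_neg h, if_neg, mul_zero, mul_zero]
    rintro ⟨h1, h2⟩
    exact h ⟨(neg_add_eq_zero.1 h1), (neg_add_eq_zero.1 h2)⟩

/-- the inner product in coordinates -/
theorem ip_We_apply (u v : Y a) (x : Matrix (Y a) (Y a) ℂ) :
    ip (We u v) x = ((3 : ℂ) ^ (a + 1))⁻¹ * ∑ z, star (chi (pr v z)) * x (z + u) z := by
  rw [ip, mtr, LinearMap.smul_apply, Matrix.traceLinearMap_apply, smul_eq_mul, card_Y]
  push_cast
  congr 1
  simp only [Matrix.trace, Matrix.diag]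
  refine Finset.sum_congr rfl fun z _ => ?_
  rw [Matrix.mul_apply, Finset.sum_eq_single (z + u)]
  · rw [Matrix.star_apply, We, if_pos (by abel)]
  · intro y _ hy
    rw [Matrix.star_apply, We, if_neg, star_zero, zero_mul]
    intro h
    apply hy
    rw [h]
    abel
  · intro h
    exact absurd (Finset.mem_univ _) h

theorem We_expand (x : Matrix (Y a) (Y a) ℂ) :
    ∑ u, ∑ v, ip (We u v) x • We u v = x := by
  ext y z
  simp only [Matrix.sum_apply, Matrix.smul_apply, smul_eq_mul]
  have hq : ((3 : ℂ) ^ (a + 1)) ≠ 0 := pow_ne_zero _ (by norm_num)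
  rw [Finset.sum_eq_single (y - z)]
  · have e : ∀ v : Y a, ip (We (y - z) v) x * We (y - z) v y z =
        ∑ t, ((3 : ℂ) ^ (a + 1))⁻¹ * x (t + (y - z)) t * chi (pr (z - t) v) := by
      intro v
      rw [ip_We_apply, We, if_pos (by abel), mul_assoc, Finset.sum_mul, Finset.mul_sum]
      refine Finset.sum_congr rfl fun t _ => ?_
      rw [pr_sub_left, sub_eq_add_neg (pr z v), chi_add, chi_neg, pr_comm z v, pr_comm t v]
      ring
    simp only [e]
    rw [Finset.sum_comm]
    simp only [← Finset.mul_sum, sum_chi]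
    rw [Finset.sum_eq_single z]
    · rw [sub_self, if_pos rfl, add_sub_cancel]
      field_simp
    · intro t _ ht
      rw [if_neg (sub_ne_zero.2 (Ne.symm ht)), mul_zero]
    · intro h
      exact absurd (Finset.mem_univ _) h
  · intro u _ hu
    apply Finset.sum_eq_zero
    intro v _
    rw [We, if_neg, mul_zero]
    intro h
    apply hu
    rw [h]
    abel
  · intro h
    exact absurd (Finset.mem_univ _) h

theorem parseval (x : Matrix (Y a) (Y a) ℂ) :
    ∑ u, ∑ v, ‖ip (We u v) x‖ ^ 2 = n2 (mtr (Y a)) x ^ 2 := by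
  have htr := isTr_mtr (Y a)
  have h1 := n2_sq htr x
  have h2 : mtr (Y a) (star x * x) = ((∑ u, ∑ v, ‖ip (We u v) x‖ ^ 2 : ℝ) : ℂ) := by
    have h3 : mtr (Y a) (star x * x) =
        mtr (Y a) (star x * ∑ u, ∑ v, ip (We u v) x • We u v) := by rw [We_expand x]
    rw [h3]
    simp only [Finset.mul_sum, map_sum, mul_smul_comm, map_smul, smul_eq_mul]
    push_cast
    refine Finset.sum_congr rfl fun u _ => Finset.sum_congr rfl fun v _ => ?_
    have h4 : mtr (Y a) (star x * We u v) = star (ip (We u v) x) := by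
      rw [ip, ← tr_star htr, star_mul, star_star]
    rw [h4, RCLike.star_def, Complex.mul_conj, Complex.normSq_eq_norm_sq]
    push_cast
    rfl
  rw [h2] at h1
  exact_mod_cast h1.symm

end

end Pool.Agent.FG
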