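import Pool.Agent.FG.FDDefs
import Pool.Agent.FG.Tr
import Pool.Agent.FG.Char
import Pool.Agent.FG.Weyl
import Pool.Agent.FG.Cov
import Pool.Agent.FG.Comb
import Pool.Agent.FG.Tensor

/-!
# The expander lemma
-/

set_option autoImplicit false

namespace Pool.Agent.FG

section expander

variable {a : ℕ} {n : Type} [Fintype n] [DecidableEq n]

/-- the coefficients of the slices of `x` at `We u v`, as a vector. -/
noncomputable def ex_xi (x : Matrix (Y a × n) (Y a × n) ℂ) (u v : Y a) :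
    EuclideanSpace ℂ (n × n) :=
  WithLp.toLp 2 (fun ij => ip (We u v) (slice x ij.1 ij.2))

theorem ex_ip_sub {m : Type*} [Fintype m] (w x y : Matrix m m ℂ) :
    ip w (x - y) = ip w x - ip w y := by
  unfold ip
  rw [mul_sub, map_sub]

theorem ex_norm_sq (x : Matrix (Y a × n) (Y a × n) ℂ) (u v : Y a) :
    ‖ex_xi x u v‖ ^ 2 = ∑ i, ∑ j, ‖ip (We u v) (slice x i j)‖ ^ 2 := by
  unfold ex_xi
  rw [EuclideanSpace.norm_sq_eq, Fintype.sum_prod_type]

/-- the contribution of one unitary matrix which permutes the Weyl operators up to phases. -/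
theorem ex_key [Nonempty n] (x : Matrix (Y a × n) (Y a × n) ℂ) (c : Matrix (Y a) (Y a) ℂ)
    (hc : c ∈ Matrix.unitaryGroup (Y a) ℂ) (T : Y a × Y a ≃ Y a × Y a) (k : Y a → Y a → ZMod 3)
    (hT : ∀ u v, c * We u v = chi (k u v) • (We (T (u, v)).1 (T (u, v)).2 * c)) (δ : ℝ)
    (h : n2 (mtr (Y a × n)) (tt c 1 * x - x * tt c 1) ≤ δ) :
    (∑ u, ∑ v, ‖ex_xi x (T (u, v)).1 (T (u, v)).2 - chi (k u v) • ex_xi x u v‖ ^ 2) /
      Fintype.card n ≤ δ ^ 2 := by
  have hn : 0 ≤ n2 (mtr (Y a × n)) (tt c 1 * x - x * tt c 1) := n2_nonneg _ _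
  have h2 : n2 (mtr (Y a × n)) (tt c 1 * x - x * tt c 1) ^ 2 ≤ δ ^ 2 :=
    pow_le_pow_left₀ hn h 2
  refine le_trans (le_of_eq ?_) h2
  rw [n2_slice]
  congr 1
  have hslice : ∀ i j, n2 (mtr (Y a)) (slice (tt c 1 * x - x * tt c 1) i j) ^ 2 =
      ∑ p : Y a × Y a, ‖ip (We (T p).1 (T p).2) (slice x i j) -
        chi (k p.1 p.2) * ip (We p.1 p.2) (slice x i j)‖ ^ 2 := by
    intro i j
    have e1 : slice (tt c 1 * x - x * tt c 1) i j = c * slice x i j - slice x i j * c := by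
      rw [slice_sub, slice_mul_left, slice_mul_right]
    have e2 : n2 (mtr (Y a)) (c * slice x i j - slice x i j * c) =
        n2 (mtr (Y a)) (c * slice x i j * star c - slice x i j) := by
      rw [← n2_mul_star_unitary (isTr_mtr (Y a)) hc (c * slice x i j - slice x i j * c)]
      congr 1
      rw [sub_mul, mul_assoc (slice x i j), Matrix.mem_unitaryGroup_iff.1 hc, mul_one]
    rw [e1, e2, ← parseval, ← Fintype.sum_prod_type',
      ← Equiv.sum_comp T (fun p : Y a × Y a =>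
        ‖ip (We p.1 p.2) (c * slice x i j * star c - slice x i j)‖ ^ 2)]
    refine Finset.sum_congr rfl fun p _ => ?_
    rw [ex_ip_sub, ip_cov c (slice x i j) hc p.1 p.2 _ _ (k p.1 p.2) (hT p.1 p.2), smul_eq_mul,
      norm_sub_rev]
  simp only [hslice]
  rw [← Fintype.sum_prod_type' (fun u v : Y a =>
    ‖ex_xi x (T (u, v)).1 (T (u, v)).2 - chi (k u v) • ex_xi x u v‖ ^ 2)]
  have hvec : ∀ p : Y a × Y a,
      ‖ex_xi x (T (p.1, p.2)).1 (T (p.1, p.2)).2 - chi (k p.1 p.2) • ex_xi x p.1 p.2‖ ^ 2 =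
      ∑ i, ∑ j, ‖ip (We (T p).1 (T p).2) (slice x i j) -
        chi (k p.1 p.2) * ip (We p.1 p.2) (slice x i j)‖ ^ 2 := by
    intro p
    unfold ex_xi
    rw [EuclideanSpace.norm_sq_eq, Fintype.sum_prod_type]
    rfl
  simp only [hvec]
  rw [Finset.sum_comm]
  refine Finset.sum_congr rfl fun i _ => ?_
  rw [Finset.sum_comm]

/-- the norm of the coefficient. -/
noncomputable def ex_mu (x : Matrix (Y a × n) (Y a × n) ℂ) (u v : Y a) : ℝ :=
  ‖ex_xi x u v‖ / Real.sqrt (Fintype.card n)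

theorem ex_mu_sq (x : Matrix (Y a × n) (Y a × n) ℂ) (u v : Y a) :
    ex_mu x u v ^ 2 = ‖ex_xi x u v‖ ^ 2 / Fintype.card n := by
  unfold ex_mu
  rw [div_pow, Real.sq_sqrt (Nat.cast_nonneg _)]

theorem ex_mu_sub [Nonempty n] (x : Matrix (Y a × n) (Y a × n) ℂ) (u v u' v' : Y a)
    (k : ZMod 3) :
    (ex_mu x u' v' - ex_mu x u v) ^ 2 ≤
      ‖ex_xi x u' v' - chi k • ex_xi x u v‖ ^ 2 / Fintype.card n := by
  unfold ex_mu
  rw [← sub_div, div_pow, Real.sq_sqrt (Nat.cast_nonneg _)]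
  refine div_le_div_of_nonneg_right ?_ (Nat.cast_nonneg _)
  have h1 : ‖ex_xi x u v‖ = ‖chi k • ex_xi x u v‖ := by rw [norm_smul, norm_chi, one_mul]
  rw [h1, ← sq_abs (‖ex_xi x u' v'‖ - ‖chi k • ex_xi x u v‖)]
  exact pow_le_pow_left₀ (abs_nonneg _) (abs_norm_sub_norm_le _ _) 2

theorem ex_step [Nonempty n] (x : Matrix (Y a × n) (Y a × n) ℂ) (c : Matrix (Y a) (Y a) ℂ)
    (hc : c ∈ Matrix.unitaryGroup (Y a) ℂ) (T : Y a × Y a ≃ Y a × Y a)
    (hT : ∀ u v, ∃ k : ZMod 3, c * We u v = chi k • (We (T (u, v)).1 (T (u, v)).2 * c)) (δ : ℝ)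
    (h : n2 (mtr (Y a × n)) (tt c 1 * x - x * tt c 1) ≤ δ) :
    ∑ u, ∑ v, (ex_mu x (T (u, v)).1 (T (u, v)).2 - ex_mu x u v) ^ 2 ≤ δ ^ 2 := by
  choose k hk using hT
  refine le_trans ?_ (ex_key x c hc T k hk δ h)
  rw [Finset.sum_div]
  refine Finset.sum_le_sum fun u _ => ?_
  rw [Finset.sum_div]
  exact Finset.sum_le_sum fun v _ => ex_mu_sub x u v _ _ _

theorem expander {a : ℕ} {n : Type} [Fintype n] [DecidableEq n] [Nonempty n]
    (x : Matrix (Y a × n) (Y a × n) ℂ) (δ : ℝ)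
    (h : ∀ s, n2 (mtr (Y a × n)) (tt (cc a s) 1 * x - x * tt (cc a s) 1) ≤ δ) :
    n2 (mtr (Y a × n)) (x - tt 1 (ptl x)) ≤ 12 * δ := by
  have hδ : 0 ≤ δ := (n2_nonneg _ _).trans (h 0)
  have hcomb := comb (ex_mu x) (fun u v => div_nonneg (norm_nonneg _) (Real.sqrt_nonneg _)) δ hδ
    (by
      have h1 := ex_key x (We (e0 a) 0) (cc_mem a 0) (Equiv.refl _) (fun _ v => -(v 0))
        (fun u v => cov_X u v) δ (h 0)
      refine le_trans (le_of_eq ?_) h1
      rw [Finset.sum_div]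
      refine Finset.sum_congr rfl fun u _ => ?_
      rw [Finset.sum_div]
      refine Finset.sum_congr rfl fun v _ => ?_
      have e : ex_xi x u v - chi (-(v 0)) • ex_xi x u v = (1 - chi (-(v 0))) • ex_xi x u v := by
        rw [sub_smul, one_smul]
      change _ = ‖ex_xi x u v - chi (-(v 0)) • ex_xi x u v‖ ^ 2 / _
      rw [e, norm_smul, mul_pow, ex_mu_sq]
      split_ifs with hv
      · rw [norm_sub_rev, norm_chi_sub_one _ (neg_ne_zero.2 hv), mul_div_assoc]
      · rw [not_not] at hv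
        rw [hv, neg_zero, chi_zero, sub_self, norm_zero]
        ring)
    (ex_step x (Fou a) (cc_mem a 1)
      ⟨fun p => (-p.2, p.1), fun p => (p.2, -p.1), fun p => by simp, fun p => by simp⟩
      (fun u v => cov_F u v) δ (h 1))
    (ex_step x (Dg a) (cc_mem a 2)
      ⟨fun p => (p.1, p.2 + 2 • p.1), fun p => (p.1, p.2 - 2 • p.1), fun p => by simp,
        fun p => by simp⟩
      (fun u v => cov_D u v) δ (h 2))
    (ex_step x (Eg a) (cc_mem a 3)
      ⟨fun p => (p.1, p.2 + SS p.1), fun p => (p.1, p.2 - SS p.1), fun p => by simp,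
        fun p => by simp⟩
      (fun u v => cov_E u v) δ (h 3))
  have hsq : n2 (mtr (Y a × n)) (x - tt 1 (ptl x)) ^ 2 ≤ (12 * δ) ^ 2 := by
    refine le_trans (le_of_eq ?_) hcomb
    rw [n2_slice]
    have hs : ∀ i j, n2 (mtr (Y a)) (slice (x - tt 1 (ptl x)) i j) ^ 2 =
        ∑ u : Y a, ∑ v : Y a,
          (if u = 0 ∧ v = 0 then 0 else ‖ip (We u v) (slice x i j)‖ ^ 2) := by
      intro i j
      rw [slice_sub, slice_tt, ptl_slice, n2_sub_tr_sq (isTr_mtr (Y a)), ← parseval]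
      have e0 : ‖mtr (Y a) (slice x i j)‖ ^ 2 =
          ∑ u : Y a, ∑ v : Y a,
            (if u = 0 ∧ v = 0 then ‖ip (We u v) (slice x i j)‖ ^ 2 else 0) := by
        rw [Finset.sum_eq_single (0 : Y a), Finset.sum_eq_single (0 : Y a)]
        · rw [if_pos ⟨rfl, rfl⟩, We_zero]
          unfold ip
          rw [star_one, one_mul]
        · intro v _ hv
          rw [if_neg (fun h' => hv h'.2)]
        · intro h'
          exact absurd (Finset.mem_univ _) h'
        · intro u _ hu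
          refine Finset.sum_eq_zero fun v _ => ?_
          rw [if_neg (fun h' => hu h'.1)]
        · intro h'
          exact absurd (Finset.mem_univ _) h'
      rw [e0, ← Finset.sum_sub_distrib]
      refine Finset.sum_congr rfl fun u _ => ?_
      rw [← Finset.sum_sub_distrib]
      refine Finset.sum_congr rfl fun v _ => ?_
      split_ifs <;> simp
    simp only [hs]
    have hm : ∀ u v : Y a, (if u = 0 ∧ v = 0 then 0 else ex_mu x u v ^ 2) =
        (∑ i, ∑ j, (if u = 0 ∧ v = 0 then 0 else ‖ip (We u v) (slice x i j)‖ ^ 2)) /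
          Fintype.card n := by
      intro u v
      split_ifs
      · simp
      · rw [ex_mu_sq, ex_norm_sq]
    simp only [hm]
    rw [Finset.sum_congr rfl fun u _ => (Finset.sum_div _ _ _).symm, ← Finset.sum_div]
    congr 1
    have c1 : ∀ i : n, ∑ j : n, ∑ u : Y a, ∑ v : Y a,
        (if u = 0 ∧ v = 0 then 0 else ‖ip (We u v) (slice x i j)‖ ^ 2) =
        ∑ u : Y a, ∑ v : Y a, ∑ j : n,
        (if u = 0 ∧ v = 0 then 0 else ‖ip (We u v) (slice x i j)‖ ^ 2) := by
      intro i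
      rw [Finset.sum_comm]
      exact Finset.sum_congr rfl fun u _ => Finset.sum_comm
    simp only [c1]
    rw [Finset.sum_comm]
    exact Finset.sum_congr rfl fun u _ => Finset.sum_comm
  exact le_of_sq_le_sq hsq (by positivity)

theorem expander' {a : ℕ} {n : Type} [Fintype n] [DecidableEq n] [Nonempty n]
    (x : Matrix (n × Y a) (n × Y a) ℂ) (δ : ℝ)
    (h : ∀ s, n2 (mtr (n × Y a)) (tt 1 (cc a s) * x - x * tt 1 (cc a s)) ≤ δ) :
    n2 (mtr (n × Y a)) (x - tt (ptr x) 1) ≤ 12 * δ := by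
  have h1 := expander (fl x) δ (fun s => by
    have e : tt (cc a s) 1 * fl x - fl x * tt (cc a s) 1 =
        fl (tt 1 (cc a s) * x - x * tt 1 (cc a s)) := by
      rw [fl_sub, fl_mul, fl_mul, fl_tt]
    rw [e, n2_fl]
    exact h s)
  have e2 : fl x - tt 1 (ptl (fl x)) = fl (x - tt (ptr x) 1) := by
    rw [fl_sub, fl_tt]
    rfl
  rwa [e2, n2_fl] at h1

end expander

end Pool.Agent.FG
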