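import Pool.Agent.FG.Defs

/-!
Project FG (MP_0c7c15_an), block FD (finite-dimensional part): definitions.

* `ip x y`: the inner product of the normalised trace of matrices;
* `We u v = X_u Z_v` the Weyl operators on `l2 (Y a)`, `cc a` the four unitary matrices
  `X, F, D, E`;
* `tt x y` the tensor product, `ptl`, `ptr` the normalised partial traces, `fl` the exchange of
  the factors;
* `UU a` the two shears on `l2 (Y a x Y a)`, `par a` the ten parameters, `HP a j` the two
  Heisenberg groups.
-/

set_option autoImplicit false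

namespace Pool.Agent.FG

/-- the inner product of the normalised trace. -/
noncomputable def ip {n : Type*} [Fintype n] (x y : Matrix n n ℂ) : ℂ := mtr n (star x * y)

/-! ### Weyl operators -/

section weyl
variable {a : ℕ}

/-- the pairing. -/
def pr (u v : Y a) : ZMod 3 := ∑ i, u i * v i

/-- `(We u v f)(y) = chi <v, y - u> f (y - u)`, that is `X_u Z_v`. -/
noncomputable def We (u v : Y a) : Matrix (Y a) (Y a) ℂ :=
  fun y z => if z = y - u then chi (pr v z) else 0

/-- the basis vector `e_0`. -/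
def e0 (a : ℕ) : Y a := Pi.single 0 1

/-- the Fourier transform: `F We(u,v) F* = phase We(-v,u)`. -/
noncomputable def Fou (a : ℕ) : Matrix (Y a) (Y a) ℂ :=
  fun y z => chi (pr y z) / ((Real.sqrt (3 ^ (a + 1)) : ℝ) : ℂ)

/-- the diagonal matrix `chi (sum y_j^2)`: `D We(u,v) D* = phase We(u, v + 2 u)`. -/
noncomputable def Dg (a : ℕ) : Matrix (Y a) (Y a) ℂ :=
  Matrix.diagonal (fun y => chi (pr y y))

/-- the quadratic form `sum y_j y_(j+1)`. -/
def qE (y : Y a) : ZMod 3 := ∑ j : Fin a, y j.castSucc * y j.succ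

/-- the linear map `(S u)_j = u_(j-1) + u_(j+1)`. -/
def SS (u : Y a) : Y a := fun j =>
  (if h : 0 < j.val then u ⟨j.val - 1, by omega⟩ else 0) +
    (if h : j.val < a then u ⟨j.val + 1, by omega⟩ else 0)

/-- the diagonal matrix `chi (sum y_j y_(j+1))`: `E We(u,v) E* = phase We(u, v + S u)`. -/
noncomputable def Eg (a : ℕ) : Matrix (Y a) (Y a) ℂ :=
  Matrix.diagonal (fun y => chi (qE y))

/-- the four matrices `X, F, D, E`. -/
noncomputable def cc (a : ℕ) : Fin 4 → Matrix (Y a) (Y a) ℂ :=
  ![We (e0 a) 0, Fou a, Dg a, Eg a]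

end weyl

/-! ### tensor products -/

/-- `x tensor y`. -/
def tt {m n : Type*} (x : Matrix m m ℂ) (y : Matrix n n ℂ) :
    Matrix (m × n) (m × n) ℂ := fun i j => x i.1 j.1 * y i.2 j.2

/-- the normalised partial trace over the first factor. -/
noncomputable def ptl {m n : Type*} [Fintype m] (x : Matrix (m × n) (m × n) ℂ) :
    Matrix n n ℂ :=
  fun i j => (∑ y, x (y, i) (y, j)) / Fintype.card m

/-- the slice of a matrix on the product. -/
def slice {m n : Type*} (x : Matrix (m × n) (m × n) ℂ) (i j : n) : Matrix m m ℂ :=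
  fun y z => x (y, i) (z, j)

/-- exchange of the factors. -/
def fl {m n : Type*} (x : Matrix (m × n) (m × n) ℂ) : Matrix (n × m) (n × m) ℂ :=
  fun i j => x i.swap j.swap

/-- the normalised partial trace over the second factor. -/
noncomputable def ptr {m n : Type*} [Fintype n] (x : Matrix (m × n) (m × n) ℂ) :
    Matrix m m ℂ := ptl (fl x)

/-- `(U_0 f)(y1, y2) = f (y1, y2 - y1)`, `(U_1 f)(y1, y2) = f (y1 - y2, y2)`. -/
def UU (a : ℕ) : Fin 2 → Matrix (Y a × Y a) (Y a × Y a) ℂ :=
  ![fun y z => if z = (y.1, y.2 - y.1) then 1 else 0,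
    fun y z => if z = (y.1 - y.2, y.2) then 1 else 0]

/-- the matrix in the second factor: `U_i^* (We u v tensor 1) U_i = We u v tensor RR i u v`. -/
noncomputable def RR {a : ℕ} (i : Fin 2) (u v : Y a) : Matrix (Y a) (Y a) ℂ :=
  if i = 0 then We (-u) 0 else We 0 v

/-- the ten parameters. -/
noncomputable def par (a : ℕ) : Par (Matrix (Y a × Y a) (Y a × Y a) ℂ) where
  c j s := if j = 0 then tt (cc a s) 1 else tt 1 (cc a s)
  U := UU a

/-- the two Heisenberg groups. -/
def HP (a : ℕ) (j : Fin 2) : Set (Matrix (Y a × Y a) (Y a × Y a) ℂ) :=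
  {u | ∃ (k : ZMod 3) (p q : Y a),
    u = chi k • (if j = 0 then tt (We p q) 1 else tt 1 (We p q))}

end Pool.Agent.FG
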