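import Pool.Agent.FG.Defs
import Pool.Agent.FG.Tr
import Pool.Agent.FG.Char

/-! Project FG, block GH, step (5): the near group (helper33). -/

set_option autoImplicit false

open scoped Matrix

namespace Pool.Agent.FG

/-- the axioms for a single set -/
private structure GH1 {n : Type} [Fintype n] [DecidableEq n] (ε : ℝ)
    (D : Set (Matrix n n ℂ)) : Prop where
  unit : ∀ u ∈ D, u ∈ Matrix.unitaryGroup n ℂ
  one : ∃ e ∈ D, n2 (mtr n) (e - 1) ≤ ε
  omega : ∀ u ∈ D, om • u ∈ D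
  mul : ∀ u ∈ D, ∀ v ∈ D, ∃ w ∈ D, n2 (mtr n) (u * v - w) ≤ ε
  sep : ∀ u ∈ D, ∀ v ∈ D, n2 (mtr n) (u - v) ≤ ε ∨ 1 ≤ n2 (mtr n) (u - v)
  comm : ∀ u ∈ D, ∀ v ∈ D, ∃ s : Fin 3, n2 (mtr n) (u * v - om ^ (s : ℕ) • (v * u)) ≤ ε
  nondeg : ∀ u ∈ D, (∃ s : Fin 3, n2 (mtr n) (u - om ^ (s : ℕ) • 1) ≤ ε) ∨
    ∃ v ∈ D, 1 ≤ n2 (mtr n) (u * v - v * u)

private theorem gh1_om_cube : om ^ 3 = 1 := by
  have h : om ^ 3 = chi (1 + 1 + 1) := by
    rw [chi_add, chi_add]
    unfold om
    ring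
  have h2 : (1 + 1 + 1 : ZMod 3) = 0 := by decide
  rw [h, h2, chi_zero]

private theorem gh1_norm_om : ‖om‖ = 1 := norm_chi 1

private theorem gh1_norm_om_sub_one : 1 < ‖om - 1‖ := by
  have h : ‖om - 1‖ ^ 2 = 3 := norm_chi_sub_one 1 (by decide)
  nlinarith [norm_nonneg (om - 1)]

private theorem gh1_om_pow_mod (a b : ℕ) (h : a ≡ b [MOD 3]) : om ^ a = om ^ b := by
  have key : ∀ c : ℕ, om ^ c = om ^ (c % 3) := by
    intro c
    conv_lhs => rw [← Nat.div_add_mod c 3, pow_add, pow_mul, gh1_om_cube, one_pow, one_mul]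
  rw [key a, key b, h]

/-- a finite left cancellative monoid is a group -/
@[reducible] private noncomputable def gh1_group {G : Type} [Finite G] (op : G → G → G) (e : G)
    (ha : ∀ a b c, op (op a b) c = op a (op b c)) (h1 : ∀ a, op a e = a)
    (hc : ∀ a b c, op a b = op a c → b = c) : Group G :=
  have hs : ∀ a, ∃ b, op a b = e := fun a =>
    (Finite.injective_iff_surjective.1 (fun b c h => hc a b c h) : Function.Surjective (op a)) e
  @Group.ofRightAxioms G ⟨op⟩ ⟨fun a => Classical.choose (hs a)⟩ ⟨e⟩ ha h1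
    (fun a => Classical.choose_spec (hs a))

section

variable {n : Type} [Fintype n] [DecidableEq n] [Nonempty n] {ε : ℝ} {D : Set (Matrix n n ℂ)}

private theorem gh1_n2_lt_one {A : Matrix n n ℂ}
    (h : ∀ i j, ‖A i j‖ ≤ 1 / (2 * Fintype.card n)) : n2 (mtr n) A < 1 := by
  have hc : (0 : ℝ) < Fintype.card n := by exact_mod_cast Fintype.card_pos
  have hsq : n2 (mtr n) A ^ 2 < 1 := by
    rw [n2_mtr_sq, div_lt_one hc]
    have h1 : ∀ i j, ‖A i j‖ ^ 2 ≤ (1 / (2 * (Fintype.card n : ℝ))) ^ 2 := fun i j =>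
      pow_le_pow_left₀ (norm_nonneg _) (h i j) 2
    calc (∑ i, ∑ j, ‖A i j‖ ^ 2) ≤ ∑ _i : n, ∑ _j : n, (1 / (2 * (Fintype.card n : ℝ))) ^ 2 :=
          Finset.sum_le_sum fun i _ => Finset.sum_le_sum fun j _ => h1 i j
      _ = 1 / 4 := by
          simp only [Finset.sum_const, Finset.card_univ, nsmul_eq_mul]
          field_simp
          norm_num
      _ < Fintype.card n := by
          have : (1 : ℝ) ≤ Fintype.card n := by exact_mod_cast Fintype.card_pos
          linarith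
  nlinarith [n2_nonneg (mtr n) A]

/-- a family of unitaries which is 1-separated in the 2-norm is finite -/
private theorem gh1_finite {G : Type} (r : G → Matrix n n ℂ)
    (hr : ∀ g, r g ∈ Matrix.unitaryGroup n ℂ)
    (hs : ∀ g h, n2 (mtr n) (r g - r h) < 1 → g = h) : Finite G := by
  classical
  have hc : (0 : ℝ) < Fintype.card n := by exact_mod_cast Fintype.card_pos
  let f : G → (n → n → ℂ) := fun g i j => r g i j
  let B : Set (n → n → ℂ) := Metric.closedBall 0 1
  have hB : TotallyBounded B := (isCompact_closedBall (0 : n → n → ℂ) 1).totallyBounded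
  have hδ : (0 : ℝ) < 1 / (4 * Fintype.card n) := by positivity
  obtain ⟨t, ht, htB⟩ := Metric.totallyBounded_iff.1 hB _ hδ
  have hf : ∀ g, f g ∈ B := by
    intro g
    simp only [B, Metric.mem_closedBall, dist_zero_right]
    rw [pi_norm_le_iff_of_nonneg zero_le_one]
    intro i
    rw [pi_norm_le_iff_of_nonneg zero_le_one]
    intro j
    exact entry_norm_bound_of_unitary (hr g) i j
  have hy : ∀ g, ∃ y ∈ t, dist (f g) y < 1 / (4 * Fintype.card n) := by
    intro g
    have := htB (hf g)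
    simpa using this
  choose y hyt hyd using hy
  haveI : Finite t := ht
  refine Finite.of_injective (fun g => (⟨y g, hyt g⟩ : t)) ?_
  intro g h hgh
  have hgh' : y g = y h := congrArg Subtype.val hgh
  refine hs g h (gh1_n2_lt_one fun i j => ?_)
  have h1 : dist (f g) (f h) ≤ 1 / (2 * Fintype.card n) := by
    have := dist_triangle_right (f g) (f h) (y g)
    have h2 := hyd g
    have h3 := hyd h
    rw [← hgh'] at h3
    have h4 : (1 : ℝ) / (2 * Fintype.card n) = 1 / (4 * Fintype.card n) + 1 / (4 * Fintype.card n) := by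
      field_simp
      norm_num
    rw [h4]
    linarith
  have h5 : dist (f g i j) (f h i j) ≤ dist (f g) (f h) :=
    (dist_le_pi_dist (f g i) (f h i) j).trans (dist_le_pi_dist (f g) (f h) i)
  have h6 : ‖(r g - r h) i j‖ = dist (f g i j) (f h i j) := by
    rw [dist_eq_norm, Matrix.sub_apply]
  rw [h6]
  exact h5.trans h1

/-- the abstract group and the class map -/
private theorem gh1_exists_group (h : GH1 ε D) (hε : 0 < ε) (hε' : ε ≤ 1 / 20) :
    ∃ (G : Type) (_ : Group G) (_ : Fintype G) (q : D → G), Function.Surjective q ∧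
      (∀ u v : D, q u = q v → n2 (mtr n) ((u : Matrix n n ℂ) - v) ≤ ε) ∧
      (∀ u v : D, n2 (mtr n) ((u : Matrix n n ℂ) - v) < 1 → q u = q v) ∧
      (∀ u v w : D, n2 (mtr n) ((u : Matrix n n ℂ) * v - w) ≤ 1 / 2 → q u * q v = q w) := by
  classical
  have hτ := isTr_mtr n
  have hlt : ∀ u v : D, n2 (mtr n) ((u : Matrix n n ℂ) - v) < 1 →
      n2 (mtr n) ((u : Matrix n n ℂ) - v) ≤ ε := by
    intro u v huv
    rcases h.sep u u.2 v v.2 with h1 | h1
    · exact h1
    · linarith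
  let S : Setoid D :=
    { r := fun u v => n2 (mtr n) ((u : Matrix n n ℂ) - v) ≤ ε
      iseqv :=
        { refl := fun u => by
            show n2 (mtr n) ((u : Matrix n n ℂ) - u) ≤ ε
            rw [sub_self, n2_zero]; exact hε.le
          symm := fun {u v} huv => by
            show n2 (mtr n) ((v : Matrix n n ℂ) - u) ≤ ε
            rw [n2_sub_comm]; exact huv
          trans := fun {u v w} huv hvw => by
            refine hlt u w ?_
            have := n2_sub_le_add hτ (u : Matrix n n ℂ) v w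
            have h1 : n2 (mtr n) ((u : Matrix n n ℂ) - v) ≤ ε := huv
            have h2 : n2 (mtr n) ((v : Matrix n n ℂ) - w) ≤ ε := hvw
            linarith } }
  let G : Type := Quotient S
  let q : D → G := Quotient.mk S
  have hq1 : ∀ u v : D, q u = q v → n2 (mtr n) ((u : Matrix n n ℂ) - v) ≤ ε :=
    fun u v huv => Quotient.exact huv
  have hq2 : ∀ u v : D, n2 (mtr n) ((u : Matrix n n ℂ) - v) < 1 → q u = q v :=
    fun u v huv => Quotient.sound (hlt u v huv)
  let rep : G → D := Quotient.out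
  have hrep : ∀ g, q (rep g) = g := fun g => Quotient.out_eq g
  have hunit : ∀ u : D, (u : Matrix n n ℂ) ∈ unitary (Matrix n n ℂ) := fun u => h.unit u u.2
  haveI : Finite G := by
    refine gh1_finite (fun g => (rep g : Matrix n n ℂ)) (fun g => h.unit _ (rep g).2) ?_
    intro g k hgk
    rw [← hrep g, ← hrep k]
    exact hq2 _ _ hgk
  have hmul : ∀ u v : D, ∃ w : D, n2 (mtr n) ((u : Matrix n n ℂ) * v - w) ≤ ε := by
    intro u v
    obtain ⟨w, hw, hw'⟩ := h.mul u u.2 v v.2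
    exact ⟨⟨w, hw⟩, hw'⟩
  choose mu hmu using hmul
  let op : G → G → G := fun a b => q (mu (rep a) (rep b))
  have F1 : ∀ u v w : D, n2 (mtr n) ((u : Matrix n n ℂ) * v - w) ≤ 1 / 2 →
      op (q u) (q v) = q w := by
    intro u v w huvw
    refine hq2 _ _ ?_
    have h1 := hq1 _ _ (hrep (q u))
    have h2 := hq1 _ _ (hrep (q v))
    have h3 := hmu (rep (q u)) (rep (q v))
    set u' := rep (q u) with hu'
    set v' := rep (q v) with hv'
    have h4 : n2 (mtr n) ((u' : Matrix n n ℂ) * v' - u' * v) ≤ ε := by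
      rw [← mul_sub, n2_unitary_mul (mtr n) (hunit u')]
      exact h2
    have h5 : n2 (mtr n) ((u' : Matrix n n ℂ) * v - u * v) ≤ ε := by
      rw [← sub_mul, n2_mul_unitary hτ (hunit v)]
      exact h1
    have h6 := n2_sub_le_add hτ ((mu u' v' : D) : Matrix n n ℂ) ((u' : Matrix n n ℂ) * v') w
    have h7 := n2_sub_le_add hτ ((u' : Matrix n n ℂ) * v') ((u' : Matrix n n ℂ) * v) w
    have h8 := n2_sub_le_add hτ ((u' : Matrix n n ℂ) * v) ((u : Matrix n n ℂ) * v) w
    rw [n2_sub_comm] at h3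
    linarith
  obtain ⟨e, heD, he⟩ := h.one
  have hassoc : ∀ a b c, op (op a b) c = op a (op b c) := by
    intro a b c
    rw [← hrep a, ← hrep b, ← hrep c]
    set u := rep a
    set v := rep b
    set x := rep c
    have e1 : op (q u) (q v) = q (mu u v) := F1 _ _ _ ((hmu u v).trans (by linarith))
    have e2 : op (q v) (q x) = q (mu v x) := F1 _ _ _ ((hmu v x).trans (by linarith))
    have e3 : op (q (mu u v)) (q x) = q (mu (mu u v) x) :=
      F1 _ _ _ ((hmu _ x).trans (by linarith))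
    have e4 : op (q u) (q (mu v x)) = q (mu u (mu v x)) :=
      F1 _ _ _ ((hmu u _).trans (by linarith))
    rw [e1, e2, e3, e4]
    refine hq2 _ _ ?_
    have h1 := hmu u v
    have h2 := hmu v x
    have h3 := hmu (mu u v) x
    have h4 := hmu u (mu v x)
    have h5 : n2 (mtr n) (((mu u v : D) : Matrix n n ℂ) * x - u * v * x) ≤ ε := by
      rw [← sub_mul, n2_mul_unitary hτ (hunit x), n2_sub_comm]
      exact h1
    have h6 : n2 (mtr n) ((u : Matrix n n ℂ) * v * x - u * (mu v x : D)) ≤ ε := by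
      rw [mul_assoc, ← mul_sub, n2_unitary_mul (mtr n) (hunit u)]
      exact h2
    rw [n2_sub_comm] at h3
    have t1 := n2_sub_le_add hτ ((mu (mu u v) x : D) : Matrix n n ℂ)
      (((mu u v : D) : Matrix n n ℂ) * x) (mu u (mu v x) : D)
    have t2 := n2_sub_le_add hτ (((mu u v : D) : Matrix n n ℂ) * x)
      ((u : Matrix n n ℂ) * v * x) (mu u (mu v x) : D)
    have t3 := n2_sub_le_add hτ ((u : Matrix n n ℂ) * v * x)
      ((u : Matrix n n ℂ) * (mu v x : D)) (mu u (mu v x) : D)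
    linarith
  have hone : ∀ a, op a (q ⟨e, heD⟩) = a := by
    intro a
    rw [← hrep a]
    refine F1 _ _ _ ?_
    have h1 : ((rep a : D) : Matrix n n ℂ) * e - (rep a : D) = (rep a : D) * (e - 1) := by
      rw [mul_sub, mul_one]
    rw [h1, n2_unitary_mul (mtr n) (hunit _)]
    linarith
  have hcan : ∀ a b c, op a b = op a c → b = c := by
    intro a b c habc
    rw [← hrep b, ← hrep c]
    refine hq2 _ _ ?_
    have h1 := hq1 _ _ habc
    have h2 := hmu (rep a) (rep b)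
    have h3 := hmu (rep a) (rep c)
    rw [← n2_unitary_mul (mtr n) (hunit (rep a)), mul_sub]
    rw [n2_sub_comm] at h3
    have t1 := n2_sub_le_add hτ (((rep a : D) : Matrix n n ℂ) * (rep b : D))
      (mu (rep a) (rep b) : D) (((rep a : D) : Matrix n n ℂ) * (rep c : D))
    have t2 := n2_sub_le_add hτ ((mu (rep a) (rep b) : D) : Matrix n n ℂ)
      (mu (rep a) (rep c) : D) (((rep a : D) : Matrix n n ℂ) * (rep c : D))
    linarith
  exact ⟨G, gh1_group op (q ⟨e, heD⟩) hassoc hone hcan, Fintype.ofFinite G, q,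
    Quotient.mk_surjective, hq1, hq2, F1⟩

end

/-- **Step (5), near group.** -/
theorem near_group {n : Type} [Fintype n] [DecidableEq n] [Nonempty n] {ε : ℝ}
    (hε : 0 < ε) (hε' : ε ≤ 1 / 20) {D : Fin 2 → Set (Matrix n n ℂ)} (hD : Ax ε D) (j : Fin 2) :
    ∃ (G : Type) (_ : Group G) (_ : Fintype G) (φ : G → Matrix n n ℂ) (z : G) (k : ℕ),
      (∀ g, φ g ∈ D j) ∧
      (∀ u ∈ D j, ∃ g, n2 (mtr n) (u - φ g) ≤ ε) ∧
      (∀ g h, n2 (mtr n) (φ (g * h) - φ g * φ h) ≤ 2 * ε) ∧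
      (∀ g, g * z = z * g) ∧ orderOf z = 3 ∧
      (∀ g, φ (g * z) = om • φ g) ∧
      (∀ g h : G, ∃ s : Fin 3, g * h = h * g * z ^ (s : ℕ)) ∧
      (∀ g : G, (∃ s : Fin 3, g = z ^ (s : ℕ)) ∨
        ∃ h : G, ∃ s : Fin 3, (s : ℕ) ≠ 0 ∧ g * h = h * g * z ^ (s : ℕ)) ∧
      Fintype.card G = 3 ^ k := by
  classical
  have hτ := isTr_mtr n
  have h : GH1 ε (D j) :=
    ⟨hD.unit j, hD.one j, hD.omega j, hD.mul j, hD.sep j, hD.comm j, hD.nondeg j⟩
  obtain ⟨G, iG, iF, q, hq, hq1, hq2, hq3⟩ := gh1_exists_group h hε hε'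
  obtain ⟨e, heD, he⟩ := h.one
  have hunit : ∀ u : D j, (u : Matrix n n ℂ) ∈ unitary (Matrix n n ℂ) := fun u => h.unit u u.2
  have hsm : ∀ (u : Matrix n n ℂ) (k : ℕ), n2 (mtr n) (om ^ k • u) = n2 (mtr n) u := by
    intro u k
    rw [n2_smul hτ, norm_pow, gh1_norm_om, one_pow, one_mul]
  obtain ⟨om', hom'⟩ : ∃ f : D j → D j, ∀ u : D j, ((f u : D j) : Matrix n n ℂ) = om • (u : Matrix n n ℂ) :=
    ⟨fun u => ⟨om • (u : Matrix n n ℂ), h.omega u u.2⟩, fun _ => rfl⟩
  have hcoe : ∀ (k : ℕ) (u : D j), ((om'^[k] u : D j) : Matrix n n ℂ) = om ^ k • (u : Matrix n n ℂ) := by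
    intro k
    induction k with
    | zero => intro u; simp
    | succ k ih =>
      intro u
      rw [Function.iterate_succ_apply, ih, hom', smul_smul, ← pow_succ]
  have hqe : q ⟨e, heD⟩ = 1 := by
    have h1 : q ⟨e, heD⟩ * q ⟨e, heD⟩ = q ⟨e, heD⟩ := by
      refine hq3 _ _ _ ?_
      have h2 : e * e - e = e * (e - 1) := by rw [mul_sub, mul_one]
      show n2 (mtr n) (e * e - e) ≤ 1 / 2
      rw [h2, n2_unitary_mul (mtr n) (h.unit e heD)]
      linarith
    exact mul_eq_left.1 h1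
  obtain ⟨z, hz⟩ : ∃ z : G, z = q (om' ⟨e, heD⟩) := ⟨_, rfl⟩
  have hz1 : ∀ u, q u * z = q (om' u) := by
    intro u
    rw [hz]
    refine hq3 _ _ _ ?_
    have h2 : (u : Matrix n n ℂ) * (om • e) - om • (u : Matrix n n ℂ)
        = om • ((u : Matrix n n ℂ) * (e - 1)) := by
      rw [mul_smul_comm, mul_sub, mul_one, smul_sub]
    rw [hom', hom', h2, n2_smul hτ, gh1_norm_om, one_mul, n2_unitary_mul (mtr n) (hunit u)]
    linarith
  have hz2 : ∀ u, z * q u = q (om' u) := by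
    intro u
    rw [hz]
    refine hq3 _ _ _ ?_
    have h2 : (om • e) * (u : Matrix n n ℂ) - om • (u : Matrix n n ℂ)
        = om • ((e - 1) * (u : Matrix n n ℂ)) := by
      rw [smul_mul_assoc, sub_mul, one_mul, smul_sub]
    rw [hom', hom', h2, n2_smul hτ, gh1_norm_om, one_mul, n2_mul_unitary hτ (hunit u)]
    linarith
  have hzc : ∀ g, g * z = z * g := by
    intro g
    obtain ⟨u, rfl⟩ := hq g
    rw [hz1, hz2]
  have hpow : ∀ (k : ℕ) (u : D j), q (om'^[k] u) = q u * z ^ k := by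
    intro k
    induction k with
    | zero => intro u; simp
    | succ k ih =>
      intro u
      rw [Function.iterate_succ_apply, ih, ← hz1, mul_assoc, ← pow_succ']
  have hz3 : z ^ 3 = 1 := by
    have h1 := hpow 3 ⟨e, heD⟩
    rw [hqe, one_mul] at h1
    rw [← h1, ← hqe]
    congr 1
    apply Subtype.ext
    rw [hcoe, gh1_om_cube, one_smul]
  have hzne : z ≠ 1 := by
    intro h1
    rw [hz, ← hqe] at h1
    have h2 := hq1 (om' ⟨e, heD⟩) ⟨e, heD⟩ h1
    have h3 : ((om' ⟨e, heD⟩ : D j) : Matrix n n ℂ) - e = (om - 1) • e := by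
      rw [hom', sub_smul, one_smul]
    have h4 : n2 (mtr n) (((om' ⟨e, heD⟩ : D j) : Matrix n n ℂ) - e) ≤ ε := h2
    rw [h3, n2_smul hτ, n2_unitary hτ (h.unit e heD), mul_one] at h4
    have := gh1_norm_om_sub_one
    linarith
  have hord : orderOf z = 3 := by
    haveI : Fact (Nat.Prime 3) := ⟨Nat.prime_three⟩
    exact orderOf_eq_prime hz3 hzne
  -- equivariant representatives
  obtain ⟨φ, hφ, hφz⟩ : ∃ φ : G → D j, (∀ g, q (φ g) = g) ∧
      ∀ g, ((φ (g * z) : D j) : Matrix n n ℂ) = om • ((φ g : D j) : Matrix n n ℂ) := by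
    have hzH : z ∈ Subgroup.zpowers z := Subgroup.mem_zpowers z
    obtain ⟨t, ht, htz⟩ : ∃ t : G → G, (∀ g, ∃ k : ℕ, g = t g * z ^ k) ∧
        ∀ g, t (g * z) = t g := by
      refine ⟨fun g => (QuotientGroup.mk g : G ⧸ Subgroup.zpowers z).out, ?_, ?_⟩
      · intro g
        obtain ⟨m, hm⟩ := QuotientGroup.mk_out_eq_mul (Subgroup.zpowers z) g
        have hm' : (m : G)⁻¹ ∈ Subgroup.zpowers z := (Subgroup.zpowers z).inv_mem m.2
        obtain ⟨k, hk⟩ := (mem_powers_iff_mem_zpowers (x := z) (y := (m : G)⁻¹)).2 hm'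
        refine ⟨k, ?_⟩
        have hk' : z ^ k = (m : G)⁻¹ := hk
        rw [hk']
        show g = (QuotientGroup.mk g : G ⧸ Subgroup.zpowers z).out * (m : G)⁻¹
        rw [hm, mul_inv_cancel_right]
      · intro g
        show (QuotientGroup.mk (g * z) : G ⧸ Subgroup.zpowers z).out
          = (QuotientGroup.mk g : G ⧸ Subgroup.zpowers z).out
        rw [QuotientGroup.mk_mul_of_mem g hzH]
    choose k hk using ht
    obtain ⟨rep, hrep⟩ : ∃ rep : G → D j, ∀ g, q (rep g) = g :=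
      ⟨Function.surjInv hq, Function.surjInv_eq hq⟩
    refine ⟨fun g => om'^[k g] (rep (t g)), ?_, ?_⟩
    · intro g
      show q (om'^[k g] (rep (t g))) = g
      rw [hpow, hrep]
      exact (hk g).symm
    · intro g
      show ((om'^[k (g * z)] (rep (t (g * z))) : D j) : Matrix n n ℂ)
        = om • ((om'^[k g] (rep (t g)) : D j) : Matrix n n ℂ)
      rw [hcoe, hcoe, htz, smul_smul, ← pow_succ']
      congr 1
      apply gh1_om_pow_mod
      have h1 : t g * z ^ (k (g * z)) = t g * z ^ (k g + 1) := by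
        calc t g * z ^ (k (g * z)) = t (g * z) * z ^ (k (g * z)) := by rw [htz]
          _ = g * z := (hk (g * z)).symm
          _ = t g * z ^ (k g) * z := by rw [← hk g]
          _ = t g * z ^ (k g + 1) := by rw [mul_assoc, ← pow_succ]
      have h2 := mul_left_cancel h1
      have h3 := pow_eq_pow_iff_modEq.1 h2
      rwa [hord] at h3
  have hmul : ∀ g g', n2 (mtr n) (((φ (g * g') : D j) : Matrix n n ℂ)
      - (φ g : D j) * (φ g' : D j)) ≤ 2 * ε := by
    intro g g'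
    obtain ⟨w, hw, hw'⟩ := h.mul _ (φ g).2 _ (φ g').2
    have h1 : q (φ g) * q (φ g') = q ⟨w, hw⟩ := hq3 _ _ _ (by
      show n2 (mtr n) ((φ g : D j) * (φ g' : D j) - w) ≤ 1 / 2
      linarith)
    rw [hφ, hφ, ← hφ (g * g')] at h1
    have h2 := hq1 (φ (g * g')) ⟨w, hw⟩ h1
    have h3 := n2_sub_le_add hτ ((φ (g * g') : D j) : Matrix n n ℂ) w
      (((φ g : D j) : Matrix n n ℂ) * (φ g' : D j))
    rw [n2_sub_comm] at hw'
    have h4 : n2 (mtr n) (((φ (g * g') : D j) : Matrix n n ℂ) - w) ≤ ε := h2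
    linarith
  have hcomm : ∀ (g g' : G) (s : ℕ), n2 (mtr n) (((φ g : D j) : Matrix n n ℂ) * (φ g' : D j)
      - om ^ s • (((φ g' : D j) : Matrix n n ℂ) * (φ g : D j))) ≤ ε →
      g * g' = g' * g * z ^ s := by
    intro g g' s hs
    have h1 : q (φ (g * g')) = q (om'^[s] (φ (g' * g))) := by
      refine hq2 _ _ ?_
      rw [hcoe]
      have h2 := hmul g g'
      have h3 := hmul g' g
      have h4 : n2 (mtr n) (om ^ s • (((φ g' : D j) : Matrix n n ℂ) * (φ g : D j))
          - om ^ s • ((φ (g' * g) : D j) : Matrix n n ℂ)) ≤ 2 * ε := by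
        rw [← smul_sub, hsm, n2_sub_comm]
        exact h3
      have t1 := n2_sub_le_add hτ ((φ (g * g') : D j) : Matrix n n ℂ)
        (((φ g : D j) : Matrix n n ℂ) * (φ g' : D j))
        (om ^ s • ((φ (g' * g) : D j) : Matrix n n ℂ))
      have t2 := n2_sub_le_add hτ (((φ g : D j) : Matrix n n ℂ) * (φ g' : D j))
        (om ^ s • (((φ g' : D j) : Matrix n n ℂ) * (φ g : D j)))
        (om ^ s • ((φ (g' * g) : D j) : Matrix n n ℂ))
      linarith
    rw [hpow, hφ, hφ] at h1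
    exact h1
  have hcommE : ∀ g g' : G, ∃ s : Fin 3, g * g' = g' * g * z ^ (s : ℕ) := by
    intro g g'
    obtain ⟨s, hs⟩ := h.comm _ (φ g).2 _ (φ g').2
    exact ⟨s, hcomm g g' s hs⟩
  have hφ1 : n2 (mtr n) (((φ 1 : D j) : Matrix n n ℂ) - 1) ≤ 2 * ε := by
    have h1 : q (φ 1) = q ⟨e, heD⟩ := by rw [hφ, hqe]
    have h2 : n2 (mtr n) (((φ 1 : D j) : Matrix n n ℂ) - e) ≤ ε := hq1 (φ 1) ⟨e, heD⟩ h1
    have h3 := n2_sub_le_add hτ ((φ 1 : D j) : Matrix n n ℂ) e 1
    linarith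
  have hnd : ∀ g : G, (∃ s : Fin 3, g = z ^ (s : ℕ)) ∨
      ∃ g' : G, ∃ s : Fin 3, (s : ℕ) ≠ 0 ∧ g * g' = g' * g * z ^ (s : ℕ) := by
    intro g
    rcases h.nondeg _ (φ g).2 with ⟨s, hs⟩ | ⟨v, hv, hv'⟩
    · left
      refine ⟨s, ?_⟩
      have h1 : q (φ g) = q (om'^[(s : ℕ)] (φ 1)) := by
        refine hq2 _ _ ?_
        rw [hcoe]
        have h4 : n2 (mtr n) (om ^ (s : ℕ) • (1 : Matrix n n ℂ)
            - om ^ (s : ℕ) • ((φ 1 : D j) : Matrix n n ℂ)) ≤ 2 * ε := by
          rw [← smul_sub, hsm, n2_sub_comm]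
          exact hφ1
        have t1 := n2_sub_le_add hτ ((φ g : D j) : Matrix n n ℂ) (om ^ (s : ℕ) • 1)
          (om ^ (s : ℕ) • ((φ 1 : D j) : Matrix n n ℂ))
        linarith
      rw [hpow, hφ, hφ, one_mul] at h1
      exact h1
    · right
      obtain ⟨s, hs⟩ := hcommE g (q ⟨v, hv⟩)
      refine ⟨q ⟨v, hv⟩, s, ?_, hs⟩
      intro hs0
      rw [hs0, pow_zero, mul_one] at hs
      set g' := q ⟨v, hv⟩ with hg'
      have h1 : n2 (mtr n) (v - (φ g' : D j)) ≤ ε := by
        have h0 : q ⟨v, hv⟩ = q (φ g') := by rw [hφ]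
        exact hq1 ⟨v, hv⟩ (φ g') h0
      have h2 := hmul g g'
      have h3 := hmul g' g
      rw [← hs] at h3
      have h4 : n2 (mtr n) (((φ g : D j) : Matrix n n ℂ) * v - (φ g : D j) * (φ g' : D j)) ≤ ε := by
        rw [← mul_sub, n2_unitary_mul (mtr n) (hunit _)]
        exact h1
      have h5 : n2 (mtr n) (((φ g' : D j) : Matrix n n ℂ) * (φ g : D j) - v * (φ g : D j)) ≤ ε := by
        rw [← sub_mul, n2_mul_unitary hτ (hunit _), n2_sub_comm]
        exact h1
      have t1 := n2_sub_le_add hτ (((φ g : D j) : Matrix n n ℂ) * v)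
        (((φ g : D j) : Matrix n n ℂ) * (φ g' : D j)) (v * (φ g : D j))
      have t2 := n2_sub_le_add hτ (((φ g : D j) : Matrix n n ℂ) * (φ g' : D j))
        ((φ (g * g') : D j) : Matrix n n ℂ) (v * (φ g : D j))
      have t3 := n2_sub_le_add hτ ((φ (g * g') : D j) : Matrix n n ℂ)
        (((φ g' : D j) : Matrix n n ℂ) * (φ g : D j)) (v * (φ g : D j))
      rw [n2_sub_comm] at h2
      linarith
  have hzs : ∀ s : Fin 3, (s : ℕ) ≠ 0 → z ^ (s : ℕ) ≠ 1 := by
    intro s hs h1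
    have h2 := orderOf_dvd_of_pow_eq_one h1
    rw [hord] at h2
    have := Nat.le_of_dvd (Nat.pos_of_ne_zero hs) h2
    omega
  have hcube : ∀ g : G, ∃ s : Fin 3, g ^ 3 = z ^ (s : ℕ) := by
    intro g
    rcases hnd (g ^ 3) with h1 | ⟨g', s, hs, h1⟩
    · exact h1
    · exfalso
      obtain ⟨r, hr⟩ := hcommE g g'
      have key : ∀ m : ℕ, g ^ m * g' = g' * g ^ m * z ^ ((r : ℕ) * m) := by
        intro m
        induction m with
        | zero => simp
        | succ m ih =>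
          have hzr : ∀ (a : ℕ) (x : G), z ^ a * x = x * z ^ a := fun a x =>
            ((Commute.pow_right (show Commute x z from hzc x) a).eq).symm
          calc g ^ (m + 1) * g' = g ^ m * (g * g') := by rw [pow_succ, mul_assoc]
            _ = g ^ m * (g' * g * z ^ (r : ℕ)) := by rw [hr]
            _ = (g ^ m * g') * g * z ^ (r : ℕ) := by simp only [mul_assoc]
            _ = (g' * g ^ m * z ^ ((r : ℕ) * m)) * g * z ^ (r : ℕ) := by rw [ih]
            _ = g' * g ^ m * (z ^ ((r : ℕ) * m) * g) * z ^ (r : ℕ) := by simp only [mul_assoc]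
            _ = g' * g ^ m * (g * z ^ ((r : ℕ) * m)) * z ^ (r : ℕ) := by rw [hzr]
            _ = g' * (g ^ m * g) * (z ^ ((r : ℕ) * m) * z ^ (r : ℕ)) := by simp only [mul_assoc]
            _ = g' * g ^ (m + 1) * z ^ ((r : ℕ) * (m + 1)) := by
                rw [← pow_succ, ← pow_add, mul_add, mul_one]
      have h2 := key 3
      rw [mul_comm (r : ℕ) 3, pow_mul, hz3, one_pow, mul_one, h1] at h2
      exact hzs s hs (mul_eq_left.1 h2)
  have hp : IsPGroup 3 G := by
    intro g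
    refine ⟨2, ?_⟩
    obtain ⟨s, hs⟩ := hcube g
    have h9 : (3 : ℕ) ^ 2 = 3 * 3 := by norm_num
    rw [h9, pow_mul, hs, ← pow_mul, mul_comm, pow_mul, hz3, one_pow]
  haveI : Fact (Nat.Prime 3) := ⟨Nat.prime_three⟩
  obtain ⟨m, hm⟩ := IsPGroup.iff_card.1 hp
  refine ⟨G, iG, iF, fun g => ((φ g : D j) : Matrix n n ℂ), z, m, fun g => (φ g).2, ?_, hmul,
    hzc, hord, hφz, hcommE, hnd, ?_⟩
  · intro u hu
    refine ⟨q ⟨u, hu⟩, ?_⟩
    have h0 : q ⟨u, hu⟩ = q (φ (q ⟨u, hu⟩)) := by rw [hφ]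
    exact hq1 ⟨u, hu⟩ (φ (q ⟨u, hu⟩)) h0
  · rw [← Nat.card_eq_fintype_card]
    exact hm

end Pool.Agent.FG
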