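import Pool.Agent.FG.Char
import Pool.Agent.FG.NearGroup
import Pool.Agent.FG.Tr

/-! Project FG, row GH-2: the product of the two near groups (helper26). -/

set_option autoImplicit false
set_option linter.style.longLine false

namespace Pool.Agent.FG

private lemma gh2_om_ne {s : ℕ} (hs : 1 ≤ s) (hs' : s ≤ 2) : om ^ s ≠ 1 := by
  rw [om_pow, ← chi_zero]
  intro h
  have h1 := chi_injective h
  interval_cases s
  · exact absurd h1 (by decide)
  · exact absurd h1 (by decide)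

private lemma gh2_pow {G : Type} [Group G] {n : Type} [Fintype n] [DecidableEq n]
    {φ : G → Matrix n n ℂ} {z : G} (h : ∀ g, φ (g * z) = om • φ g) (g : G) (i : ℕ) :
    φ (g * z ^ i) = om ^ i • φ g := by
  induction i with
  | zero => simp
  | succ i ih => rw [pow_succ, ← mul_assoc, h, ih, smul_smul, pow_succ']

private lemma gh2_inj {G : Type} [Group G] {z : G} (h : orderOf z = 3) {i j : Fin 3}
    (hij : z ^ (i : ℕ) = z ^ (j : ℕ)) : i = j := by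
  have := pow_injOn_Iio_orderOf (x := z) (by rw [h]; exact i.2) (by rw [h]; exact j.2) hij
  exact Fin.ext this

private lemma gh2_comm {G : Type} [Group G] {z : G} (h : ∀ g, g * z = z * g) (g : G) (i : ℕ) :
    g * z ^ i = z ^ i * g := by
  induction i with
  | zero => simp
  | succ i ih => rw [pow_succ, ← mul_assoc, ih, mul_assoc, h, ← mul_assoc]

/-- from `g h = h g z^s` to `h g = g h z^(3-s)` -/
private lemma gh2_swap {G : Type} [Group G] {z : G} (h3 : orderOf z = 3) {g h : G} {s : Fin 3}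
    (hs : g * h = h * g * z ^ (s : ℕ)) : h * g = g * h * z ^ (3 - (s : ℕ)) := by
  have hz : z ^ 3 = 1 := by rw [← h3, pow_orderOf_eq_one]
  have hs3 : (s : ℕ) + (3 - (s : ℕ)) = 3 := by have := s.2; omega
  rw [hs, mul_assoc, ← pow_add, hs3, hz, mul_one]

theorem near_group_pair {n : Type} [Fintype n] [DecidableEq n] [Nonempty n] {ε : ℝ}
    (hε : 0 < ε) (hε' : ε ≤ 1 / 20) {D : Fin 2 → Set (Matrix n n ℂ)} (hD : Ax ε D) :
    ∃ (G : Type) (_ : Group G) (_ : Fintype G) (φ : G → Matrix n n ℂ) (Z : Finset G)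
      (lam : G → ℂ) (k : ℕ),
      (∀ g, φ g ∈ Matrix.unitaryGroup n ℂ) ∧
      (∀ g h, n2 (mtr n) (φ (g * h) - φ g * φ h) ≤ 5 * ε) ∧
      (∀ j, ∀ u ∈ D j, ∃ g, n2 (mtr n) (u - φ g) ≤ 3 * ε) ∧
      (∀ z ∈ Z, ∀ g, g * z = z * g) ∧
      (∀ z ∈ Z, ∀ g, φ (g * z) = lam z • φ g) ∧
      (∀ g, g ∉ Z → ∃ h, ∃ z ∈ Z, h * g = g * h * z ∧ lam z ≠ 1) ∧
      Z.card = 9 ∧ Fintype.card G = 3 ^ k := by
  classical
  obtain ⟨G0, _, _, φ0, z0, k0, m0, n0, a0, c0, o0, p0, -, q0, e0⟩ := near_group hε hε' hD 0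
  obtain ⟨G1, _, _, φ1, z1, k1, m1, n1, a1, c1, o1, p1, -, q1, e1⟩ := near_group hε hε' hD 1
  have hτ : IsTr (mtr n) := isTr_mtr n
  have u0 : ∀ g, φ0 g ∈ unitary (Matrix n n ℂ) := fun g => hD.unit 0 _ (m0 g)
  have u1 : ∀ g, φ1 g ∈ unitary (Matrix n n ℂ) := fun g => hD.unit 1 _ (m1 g)
  -- the images of the units
  have one0 : n2 (mtr n) (1 - φ0 1) ≤ 2 * ε := by
    have h := a0 1 1
    rw [mul_one] at h
    have e : φ0 1 - φ0 1 * φ0 1 = φ0 1 * (1 - φ0 1) := by rw [mul_sub, mul_one]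
    rwa [e, n2_unitary_mul _ (u0 1)] at h
  have one1 : n2 (mtr n) (1 - φ1 1) ≤ 2 * ε := by
    have h := a1 1 1
    rw [mul_one] at h
    have e : φ1 1 - φ1 1 * φ1 1 = φ1 1 * (1 - φ1 1) := by rw [mul_sub, mul_one]
    rwa [e, n2_unitary_mul _ (u1 1)] at h
  let ι : Fin 3 × Fin 3 → G0 × G1 := fun p => (z0 ^ (p.1 : ℕ), z1 ^ (p.2 : ℕ))
  have hι : Function.Injective ι := by
    rintro ⟨i, j⟩ ⟨i', j'⟩ h
    have h1 := congrArg Prod.fst h
    have h2 := congrArg Prod.snd h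
    exact Prod.ext (gh2_inj o0 h1) (gh2_inj o1 h2)
  let lam : G0 × G1 → ℂ := fun g =>
    if h : ∃ p, ι p = g then om ^ ((h.choose.1 : ℕ) + (h.choose.2 : ℕ)) else 0
  have hlam : ∀ p : Fin 3 × Fin 3, lam (ι p) = om ^ ((p.1 : ℕ) + (p.2 : ℕ)) := by
    intro p
    have h : ∃ p', ι p' = ι p := ⟨p, rfl⟩
    have h2 : h.choose = p := hι h.choose_spec
    simp only [lam]
    rw [dif_pos h, h2]
  refine ⟨G0 × G1, inferInstance, inferInstance, fun g => φ0 g.1 * φ1 g.2,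
    Finset.univ.image ι, lam, k0 + k1, ?_, ?_, ?_, ?_, ?_, ?_, ?_, ?_⟩
  · intro g
    exact mul_mem (u0 g.1) (u1 g.2)
  · rintro ⟨a, b⟩ ⟨a', b'⟩
    have h1 : n2 (mtr n) ((φ0 (a * a') - φ0 a * φ0 a') * φ1 (b * b')) ≤ 2 * ε := by
      rw [n2_mul_unitary hτ (u1 _)]
      exact a0 a a'
    have h2 : n2 (mtr n) (φ0 a * φ0 a' * (φ1 (b * b') - φ1 b * φ1 b')) ≤ 2 * ε := by
      rw [n2_unitary_mul _ (mul_mem (u0 _) (u0 _))]
      exact a1 b b'
    have h3 : n2 (mtr n) (φ0 a * (φ0 a' * φ1 b - φ1 b * φ0 a') * φ1 b') ≤ ε := by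
      rw [n2_mul_unitary hτ (u1 _), n2_unitary_mul _ (u0 _)]
      exact hD.cross _ (m0 a') _ (m1 b)
    have e : φ0 (a * a') * φ1 (b * b') - φ0 a * φ1 b * (φ0 a' * φ1 b')
        = (φ0 (a * a') - φ0 a * φ0 a') * φ1 (b * b')
          + φ0 a * φ0 a' * (φ1 (b * b') - φ1 b * φ1 b')
          + φ0 a * (φ0 a' * φ1 b - φ1 b * φ0 a') * φ1 b' := by
      noncomm_ring
    show n2 (mtr n) (φ0 (a * a') * φ1 (b * b') - φ0 a * φ1 b * (φ0 a' * φ1 b')) ≤ 5 * ε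
    rw [e]
    have h4 := n2_add_le hτ ((φ0 (a * a') - φ0 a * φ0 a') * φ1 (b * b')
          + φ0 a * φ0 a' * (φ1 (b * b') - φ1 b * φ1 b'))
          (φ0 a * (φ0 a' * φ1 b - φ1 b * φ0 a') * φ1 b')
    have h5 := n2_add_le hτ ((φ0 (a * a') - φ0 a * φ0 a') * φ1 (b * b'))
          (φ0 a * φ0 a' * (φ1 (b * b') - φ1 b * φ1 b'))
    linarith
  · intro j
    have hj : j = 0 ∨ j = 1 := by omega
    rcases hj with rfl | rfl
    · intro u hu
      obtain ⟨a, ha⟩ := n0 u hu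
      refine ⟨(a, 1), ?_⟩
      show n2 (mtr n) (u - φ0 a * φ1 1) ≤ 3 * ε
      have e : u - φ0 a * φ1 1 = (u - φ0 a) + φ0 a * (1 - φ1 1) := by
        rw [mul_sub, mul_one]
        abel
      have h1 := n2_add_le hτ (u - φ0 a) (φ0 a * (1 - φ1 1))
      rw [n2_unitary_mul _ (u0 a)] at h1
      rw [e]
      linarith
    · intro u hu
      obtain ⟨b, hb⟩ := n1 u hu
      refine ⟨(1, b), ?_⟩
      show n2 (mtr n) (u - φ0 1 * φ1 b) ≤ 3 * ε
      have e : u - φ0 1 * φ1 b = (u - φ1 b) + (1 - φ0 1) * φ1 b := by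
        rw [sub_mul, one_mul]
        abel
      have h1 := n2_add_le hτ (u - φ1 b) ((1 - φ0 1) * φ1 b)
      rw [n2_mul_unitary hτ (u1 b)] at h1
      rw [e]
      linarith
  · rintro z hz ⟨a, b⟩
    obtain ⟨⟨i, j⟩, -, rfl⟩ := Finset.mem_image.1 hz
    exact Prod.ext (gh2_comm c0 a i) (gh2_comm c1 b j)
  · rintro z hz ⟨a, b⟩
    obtain ⟨⟨i, j⟩, -, rfl⟩ := Finset.mem_image.1 hz
    rw [hlam]
    show φ0 (a * z0 ^ (i : ℕ)) * φ1 (b * z1 ^ (j : ℕ)) = _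
    rw [gh2_pow p0, gh2_pow p1, smul_mul_smul_comm, ← pow_add]
  · rintro ⟨a, b⟩ hg
    have key : (¬ ∃ s : Fin 3, a = z0 ^ (s : ℕ)) ∨ (¬ ∃ s : Fin 3, b = z1 ^ (s : ℕ)) := by
      by_contra hcon
      push Not at hcon
      obtain ⟨⟨i, hi⟩, ⟨j, hj⟩⟩ := hcon
      exact hg (Finset.mem_image.2 ⟨(i, j), Finset.mem_univ _, by rw [hi, hj]⟩)
    rcases key with h | h
    · obtain ⟨h0, s, hs0, hs⟩ := (q0 a).resolve_left h
      have hs3 : 3 - (s : ℕ) < 3 := by omega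
      refine ⟨(h0, 1), ι (⟨3 - (s : ℕ), hs3⟩, 0),
        Finset.mem_image.2 ⟨_, Finset.mem_univ _, rfl⟩, ?_, ?_⟩
      · refine Prod.ext (gh2_swap o0 hs) ?_
        show 1 * b = b * 1 * z1 ^ ((0 : Fin 3) : ℕ)
        simp
      · rw [hlam]
        exact gh2_om_ne (by have := s.2; simp only [Fin.val_zero]; omega)
          (by simp only [Fin.val_zero]; omega)
    · obtain ⟨h0, s, hs0, hs⟩ := (q1 b).resolve_left h
      have hs3 : 3 - (s : ℕ) < 3 := by omega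
      refine ⟨(1, h0), ι (0, ⟨3 - (s : ℕ), hs3⟩),
        Finset.mem_image.2 ⟨_, Finset.mem_univ _, rfl⟩, ?_, ?_⟩
      · refine Prod.ext ?_ (gh2_swap o1 hs)
        show 1 * a = a * 1 * z0 ^ ((0 : Fin 3) : ℕ)
        simp
      · rw [hlam]
        exact gh2_om_ne (by have := s.2; simp only [Fin.val_zero]; omega)
          (by simp only [Fin.val_zero]; omega)
  · rw [Finset.card_image_of_injective _ hι, Finset.card_univ, Fintype.card_prod, Fintype.card_fin]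
  · rw [Fintype.card_prod, e0, e1, pow_add]

end Pool.Agent.FG
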