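import Pool.Agent.FG.Tr

/-! Project FG, block ISO1: the nearest unitary matrix (helper54). -/

set_option autoImplicit false

open Filter Topology
open scoped ComplexOrder Matrix

namespace Pool.Agent.FG

/-- a matrix with orthogonal columns is a unitary matrix times a diagonal matrix -/
theorem iso1_svd {n : Type*} [Fintype n] [DecidableEq n] (B : Matrix n n ℂ) (s : n → ℝ)
    (h : star B * B = Matrix.diagonal fun i => ((s i ^ 2 : ℝ) : ℂ)) :
    ∃ W ∈ Matrix.unitaryGroup n ℂ, B = W * Matrix.diagonal fun i => ((s i : ℝ) : ℂ) := by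
  classical
  set v : n → EuclideanSpace ℂ n := fun i => WithLp.toLp 2 fun k => ((s i : ℝ) : ℂ)⁻¹ * B k i
    with hv
  have hinner : ∀ i j, inner ℂ (v i) (v j) = ((s i : ℝ) : ℂ)⁻¹ * ((s j : ℝ) : ℂ)⁻¹ *
      (star B * B) i j := by
    intro i j
    rw [PiLp.inner_apply, Matrix.mul_apply, Finset.mul_sum]
    refine Finset.sum_congr rfl fun k _ => ?_
    rw [hv]
    simp only [Matrix.star_apply, RCLike.inner_apply, map_mul, map_inv₀, Complex.conj_ofReal,
      RCLike.star_def]
    ring
  have horth : Orthonormal ℂ (({i | s i ≠ 0} : Set n).domRestrict v) := by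
    rw [orthonormal_iff_ite]
    rintro ⟨i, hi⟩ ⟨j, hj⟩
    have hi' : ((s i : ℝ) : ℂ) ≠ 0 := Complex.ofReal_ne_zero.mpr hi
    show inner ℂ (v i) (v j) = _
    rw [hinner, h]
    by_cases hij : i = j
    · subst hij
      rw [Matrix.diagonal_apply_eq, if_pos rfl]
      push_cast
      field_simp
    · rw [Matrix.diagonal_apply_ne _ hij, mul_zero, if_neg]
      intro hc
      exact hij (congrArg Subtype.val hc)
  obtain ⟨b, hb⟩ := horth.exists_orthonormalBasis_extension_of_card_eq (by simp)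
  refine ⟨Matrix.of fun k i => b i k, ?_, ?_⟩
  · rw [Matrix.mem_unitaryGroup_iff']
    ext i j
    rw [Matrix.mul_apply]
    have h1 := orthonormal_iff_ite.mp b.orthonormal i j
    rw [PiLp.inner_apply] at h1
    rw [Matrix.one_apply, ← h1]
    refine Finset.sum_congr rfl fun k _ => ?_
    simp only [Matrix.star_apply, Matrix.of_apply, RCLike.inner_apply, RCLike.star_def]
    ring
  · ext k i
    rw [Matrix.mul_diagonal, Matrix.of_apply]
    by_cases hs : s i = 0
    · rw [hs, Complex.ofReal_zero, mul_zero]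
      have h1 := congrFun (congrFun h i) i
      rw [Matrix.diagonal_apply_eq, hs, Matrix.mul_apply] at h1
      have h2 : ∑ k, ‖B k i‖ ^ 2 = 0 := by
        have h3 : ((∑ k, ‖B k i‖ ^ 2 : ℝ) : ℂ) = 0 := by
          have h4 : (((0 : ℝ) ^ 2 : ℝ) : ℂ) = 0 := by norm_num
          rw [h4] at h1
          rw [← h1]
          push_cast
          refine Finset.sum_congr rfl fun k _ => ?_
          rw [Matrix.star_apply, RCLike.star_def, ← Complex.normSq_eq_conj_mul_self,
            Complex.normSq_eq_norm_sq]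
          push_cast
          rfl
        exact_mod_cast h3
      have h5 := (Finset.sum_eq_zero_iff_of_nonneg (fun k _ => by positivity)).mp h2 k
        (Finset.mem_univ _)
      exact norm_eq_zero.mp (pow_eq_zero_iff (two_ne_zero)|>.mp h5)
    · have hs' : ((s i : ℝ) : ℂ) ≠ 0 := Complex.ofReal_ne_zero.mpr hs
      rw [hb i hs, hv]
      simp only
      field_simp

theorem iso1_n2_unitary {n : Type*} [Fintype n] [DecidableEq n] {W : Matrix n n ℂ}
    (hW : W ∈ Matrix.unitaryGroup n ℂ) (X : Matrix n n ℂ) : n2 (mtr n) (X * W) = n2 (mtr n) X := by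
  rcases isEmpty_or_nonempty n with hn | hn
  · rw [Subsingleton.elim (X * W) X]
  · exact n2_mul_unitary (isTr_mtr n) hW X

theorem exists_unitary_near {n : Type*} [Fintype n] [DecidableEq n] (A : Matrix n n ℂ) :
    ∃ w ∈ Matrix.unitaryGroup n ℂ, n2 (mtr n) (A - w) ≤ n2 (mtr n) (star A * A - 1) := by
  classical
  have hA : (star A * A).IsHermitian := Matrix.isHermitian_conjTranspose_mul_self A
  set V : Matrix.unitaryGroup n ℂ := hA.eigenvectorUnitary with hV
  have hμ : ∀ i, 0 ≤ hA.eigenvalues i := fun i =>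
    (Matrix.posSemidef_conjTranspose_mul_self A).eigenvalues_nonneg i
  set s : n → ℝ := fun i => Real.sqrt (hA.eigenvalues i) with hs
  have hs2 : ∀ i, s i ^ 2 = hA.eigenvalues i := fun i => Real.sq_sqrt (hμ i)
  have hVV : star (V : Matrix n n ℂ) * V = 1 := Unitary.coe_star_mul_self V
  have hVV' : (V : Matrix n n ℂ) * star (V : Matrix n n ℂ) = 1 := Unitary.coe_mul_star_self V
  have hdiag : star (V : Matrix n n ℂ) * (star A * A) * V =
      Matrix.diagonal fun i => ((s i ^ 2 : ℝ) : ℂ) := by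
    have h1 := hA.conjStarAlgAut_star_eigenvectorUnitary
    rw [Unitary.conjStarAlgAut_star_apply] at h1
    rw [h1]
    congr 1
    funext i
    rw [hs2]
    rfl
  set B : Matrix n n ℂ := A * V with hB
  have hBB : star B * B = Matrix.diagonal fun i => ((s i ^ 2 : ℝ) : ℂ) := by
    rw [← hdiag, hB, star_mul]
    noncomm_ring
  obtain ⟨W, hW, hBW⟩ := iso1_svd B s hBB
  refine ⟨W * star (V : Matrix n n ℂ), mul_mem hW (Unitary.star_mem V.2), ?_⟩
  have e1 : A - W * star (V : Matrix n n ℂ) =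
      (W * ((Matrix.diagonal fun i => ((s i : ℝ) : ℂ)) - 1)) * star (V : Matrix n n ℂ) := by
    rw [mul_sub, ← hBW, mul_one, sub_mul, hB, mul_assoc, hVV', mul_one]
  have e2 : n2 (mtr n) (star A * A - 1) =
      n2 (mtr n) ((Matrix.diagonal fun i => ((s i ^ 2 : ℝ) : ℂ)) - 1) := by
    rw [← hdiag]
    have h3 : star (V : Matrix n n ℂ) * (star A * A) * V - 1 =
        star (V : Matrix n n ℂ) * (star A * A - 1) * V := by
      rw [mul_sub, sub_mul, mul_one, hVV]
    rw [h3, iso1_n2_unitary V.2, n2_star_unitary_mul (mtr n) V.2]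
  rw [e1, e2, iso1_n2_unitary (Unitary.star_mem V.2), n2_unitary_mul (mtr n) hW]
  have hd : ∀ f : n → ℂ, (Matrix.diagonal f - 1 : Matrix n n ℂ) = Matrix.diagonal fun i => f i - 1 := by
    intro f
    rw [← Matrix.diagonal_one, Matrix.diagonal_sub]
  have hn : ∀ f : n → ℂ, n2 (mtr n) (Matrix.diagonal f) ^ 2 = (∑ i, ‖f i‖ ^ 2) / Fintype.card n := by
    intro f
    rw [n2_mtr_sq]
    congr 1
    refine Finset.sum_congr rfl fun i _ => ?_
    rw [Finset.sum_eq_single i]
    · rw [Matrix.diagonal_apply_eq]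
    · intro j _ hj
      rw [Matrix.diagonal_apply_ne _ (Ne.symm hj), norm_zero]
      norm_num
    · intro hi
      exact absurd (Finset.mem_univ i) hi
  have hsq : n2 (mtr n) ((Matrix.diagonal fun i => ((s i : ℝ) : ℂ)) - 1) ^ 2 ≤
      n2 (mtr n) ((Matrix.diagonal fun i => ((s i ^ 2 : ℝ) : ℂ)) - 1) ^ 2 := by
    rw [hd, hd, hn, hn]
    refine div_le_div_of_nonneg_right ?_ (Nat.cast_nonneg _)
    refine Finset.sum_le_sum fun i _ => ?_
    have h0 : 0 ≤ s i := Real.sqrt_nonneg _
    have g1 : ‖((s i : ℝ) : ℂ) - 1‖ = |s i - 1| := by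
      rw [← Complex.ofReal_one, ← Complex.ofReal_sub, Complex.norm_real, Real.norm_eq_abs]
    have g2 : ‖((s i ^ 2 : ℝ) : ℂ) - 1‖ = |s i - 1| * (s i + 1) := by
      rw [← Complex.ofReal_one, ← Complex.ofReal_sub, Complex.norm_real, Real.norm_eq_abs,
        show s i ^ 2 - 1 = (s i - 1) * (s i + 1) by ring, abs_mul, abs_of_nonneg (by linarith : 0 ≤ s i + 1)]
    rw [g1, g2]
    refine pow_le_pow_left₀ (abs_nonneg _) ?_ 2
    exact le_mul_of_one_le_right (abs_nonneg _) (by linarith)
  exact (sq_le_sq₀ (n2_nonneg _ _) (n2_nonneg _ _)).mp hsq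

end Pool.Agent.FG
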