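import Pool.Agent.FG.Defs
import Pool.Agent.FG.Tr
import Pool.Agent.FG.Polar

/-! Project FG, block GH-03: irreducibility tested on near-projections (helper54). -/

set_option autoImplicit false

open scoped ComplexOrder Matrix

namespace Pool.Agent.FG

theorem irr_round {n : Type*} [Fintype n] [DecidableEq n] [Nonempty n] {ε η : ℝ}
    {D : Fin 2 → Set (Matrix n n ℂ)} (hD : Ax ε D) (hη : 10 * η ≤ 1 / 8) {x : Matrix n n ℂ}
    (hx : star x = x) (hx2 : n2 (mtr n) (x * x - x) ≤ η)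
    (hc : ∀ j, ∀ u ∈ D j, n2 (mtr n) (x * u - u * x) ≤ η) :
    1 / 2 - 4 * η ≤ ‖2 * mtr n x - 1‖ := by
  have hτ := isTr_mtr n
  set A : Matrix n n ℂ := (2 : ℂ) • x - 1 with hA
  obtain ⟨w, hw, hwA⟩ := exists_unitary_near A
  have hsA : star A = A := by
    rw [hA, star_sub, star_smul, hx, star_one]
    congr 2
    simp
  have e1 : star A * A - 1 = (4 : ℂ) • (x * x - x) := by
    rw [hsA, hA, sub_mul, mul_sub, one_mul, mul_one, smul_mul_smul_comm, smul_sub]
    have h4 : (2 : ℂ) * 2 = 4 := by norm_num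
    have h5 : (4 : ℂ) • x = (2 : ℂ) • x + (2 : ℂ) • x := by
      rw [← add_smul]; norm_num
    rw [h4, h5]
    abel
  have h1 : n2 (mtr n) (A - w) ≤ 4 * η := by
    refine hwA.trans ?_
    rw [e1, n2_smul hτ]
    have : ‖(4 : ℂ)‖ = 4 := by norm_num
    rw [this]
    linarith
  have h2 : ∀ j, ∀ u ∈ D j, n2 (mtr n) (w * u - u * w) ≤ 1 / 8 := by
    intro j u hu
    have huu := hD.unit j u hu
    have hsplit : w * u - u * w = ((w - A) * u - u * (w - A)) + (2 : ℂ) • (x * u - u * x) := by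
      rw [hA, smul_sub, sub_mul, mul_sub, sub_mul, mul_sub, smul_mul_assoc, mul_smul_comm, one_mul,
        mul_one]
      abel
    have g1 : n2 (mtr n) ((w - A) * u) ≤ 4 * η := by
      rw [n2_mul_unitary hτ huu, n2_sub_comm]
      exact h1
    have g2 : n2 (mtr n) (u * (w - A)) ≤ 4 * η := by
      rw [n2_unitary_mul (mtr n) huu, n2_sub_comm]
      exact h1
    have g3 : n2 (mtr n) ((2 : ℂ) • (x * u - u * x)) ≤ 2 * η := by
      rw [n2_smul hτ]
      have : ‖(2 : ℂ)‖ = 2 := by norm_num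
      rw [this]
      linarith [hc j u hu]
    rw [hsplit]
    have g4 := n2_add_le hτ ((w - A) * u - u * (w - A)) ((2 : ℂ) • (x * u - u * x))
    have g5 := n2_sub_le hτ ((w - A) * u) (u * (w - A))
    linarith
  have h3 := hD.irr w hw h2
  have h4 : ‖mtr n w - mtr n A‖ ≤ 4 * η := by
    rw [← map_sub]
    refine (norm_tr_le hτ _).trans ?_
    rw [n2_sub_comm]
    exact h1
  have h5 : mtr n A = 2 * mtr n x - 1 := by
    rw [hA, map_sub, map_smul, hτ.one, smul_eq_mul]
  rw [h5] at h4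
  have h6 : ‖mtr n w‖ ≤ ‖mtr n w - (2 * mtr n x - 1)‖ + ‖2 * mtr n x - 1‖ := by
    have := norm_add_le (mtr n w - (2 * mtr n x - 1)) (2 * mtr n x - 1)
    rwa [sub_add_cancel] at this
  linarith

end Pool.Agent.FG
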