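import Pool.Agent.FG.GowersHatami
import Pool.Agent.FG.Round
import Pool.Agent.FG.NearGroupPair

/-!
Project FG, block GH: the finite level theorem `flt`: two commuting near Heisenberg groups with
almost irreducible union force the dimension to be near a power of 3.
-/

set_option autoImplicit false

open Matrix
open scoped ComplexOrder

namespace Pool.Agent.FG

theorem hs_eq_n2 {n : Type*} [Fintype n] [DecidableEq n] [Nonempty n] (A : Matrix n n ℂ) :
    GH.hs A = n2 (mtr n) A * Real.sqrt (Fintype.card n) := by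
  have hk : (0 : ℝ) < Fintype.card n := by exact_mod_cast Fintype.card_pos
  have h1 : GH.hs A ^ 2 = (n2 (mtr n) A * Real.sqrt (Fintype.card n)) ^ 2 := by
    rw [mul_pow, Real.sq_sqrt hk.le, n2_mtr_sq, GH.hs_sq_eq]
    field_simp
  exact (pow_left_inj₀ (GH.hs_nonneg _) (mul_nonneg (n2_nonneg _ _) (Real.sqrt_nonneg _))
    two_ne_zero).1 h1

theorem hs_le_iff {n : Type*} [Fintype n] [DecidableEq n] [Nonempty n] (A : Matrix n n ℂ) (c : ℝ) :
    GH.hs A ≤ c * Real.sqrt (Fintype.card n) ↔ n2 (mtr n) A ≤ c := by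
  have hk : (0 : ℝ) < Real.sqrt (Fintype.card n) :=
    Real.sqrt_pos.2 (by exact_mod_cast Fintype.card_pos)
  rw [hs_eq_n2]
  exact mul_le_mul_iff_left₀ hk

theorem flt (η : ℝ) (hη : 0 < η) : ∃ ε : ℝ, 0 < ε ∧ ε ≤ 1 / 8 ∧ ∀ (n : Type) [Fintype n]
    [DecidableEq n] [Nonempty n] (D : Fin 2 → Set (Matrix n n ℂ)), Ax ε D →
    ∃ m : ℕ, |(Fintype.card n : ℝ) - 3 ^ m| ≤ η * Fintype.card n := by
  classical
  have hsη : 0 < Real.sqrt η := Real.sqrt_pos.2 hη
  set ε : ℝ := min (1 / 4000) (Real.sqrt η / 50) with hεdef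
  have hε : 0 < ε := lt_min (by norm_num) (by positivity)
  have hε1 : ε ≤ 1 / 4000 := min_le_left _ _
  have hε2 : ε ≤ Real.sqrt η / 50 := min_le_right _ _
  refine ⟨ε, hε, by linarith, ?_⟩
  intro n _ _ _ D hD
  obtain ⟨G, _, _, φ, Z, lam, k, hφ, hmul, hnear, hcen, hZ, hnZ, hZ9, hG⟩ :=
    near_group_pair hε (by linarith) hD
  have hτ := isTr_mtr n
  have hφ' : ∀ g, (φ g)ᴴ * φ g = 1 := fun g => (Unitary.mem_iff.1 (hφ g)).1
  obtain ⟨N, hN, hNk⟩ := GH.gh_main φ hφ' (5 * ε) (by linarith) (by linarith)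
    (fun g h => (hs_le_iff _ _).2 (hmul g h)) Z
    (Finset.card_pos.1 (by rw [hZ9]; norm_num)) lam hcen hZ
    (fun g hg => by
      obtain ⟨h, z, hz, h1, h2⟩ := hnZ g hg
      exact ⟨h, z, hz, h2, h1⟩)
    (by
      intro x hx hcontr hxx hcomm
      have hx2 : n2 (mtr n) (x * x - x) ≤ 50 * ε := by
        rw [← hs_le_iff]
        linarith
      have hcontr' : ∀ z : Matrix n n ℂ, n2 (mtr n) (x * z) ≤ n2 (mtr n) z := by
        intro z
        rw [← hs_le_iff, ← hs_eq_n2]
        exact hcontr z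
      have hcontr2 : ∀ z : Matrix n n ℂ, n2 (mtr n) (z * x) ≤ n2 (mtr n) z := by
        intro z
        have h1 := hcontr' (star z)
        rw [n2_star hτ] at h1
        have h2 : star (x * star z) = z * x := by
          rw [star_mul, star_star]
          congr 1
        rw [← h2, n2_star hτ]
        exact h1
      have hc : ∀ j, ∀ u ∈ D j, n2 (mtr n) (x * u - u * x) ≤ 50 * ε := by
        intro j u hu
        obtain ⟨g, hg⟩ := hnear j u hu
        have h1 : n2 (mtr n) (x * φ g - φ g * x) ≤ 10 * ε := by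
          rw [← hs_le_iff]
          have := hcomm g
          linarith
        have h2 : x * u - u * x = (x * (u - φ g) - (u - φ g) * x) + (x * φ g - φ g * x) := by
          rw [mul_sub, sub_mul]; abel
        have h3 := n2_add_le hτ (x * (u - φ g) - (u - φ g) * x) (x * φ g - φ g * x)
        have h4 := n2_sub_le hτ (x * (u - φ g)) ((u - φ g) * x)
        have h5 := hcontr' (u - φ g)
        have h6 := hcontr2 (u - φ g)
        rw [h2]
        linarith
      have hfin := irr_round hD (η := 50 * ε) (by linarith) hx hx2 hc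
      have h7 : 2 * (trace x / Fintype.card n) - 1 = 2 * mtr n x - 1 := by
        simp only [mtr, LinearMap.smul_apply, Matrix.traceLinearMap_apply, smul_eq_mul]
        ring
      rw [h7]
      linarith)
  -- `N` is a power of `3`
  rw [hZ9, hG] at hN
  obtain ⟨m, _, hm⟩ := (Nat.dvd_prime_pow Nat.prime_three).1
    (Dvd.intro_left (N * 9) (by rw [← hN]; ring) : N ∣ 3 ^ k)
  refine ⟨m, ?_⟩
  have h8 : 100 * (5 * ε) ^ 2 ≤ η := by
    have h9 : ε ^ 2 ≤ (Real.sqrt η / 50) ^ 2 := pow_le_pow_left₀ hε.le hε2 2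
    rw [div_pow, Real.sq_sqrt hη.le] at h9
    linarith
  have hk : (0 : ℝ) ≤ Fintype.card n := Nat.cast_nonneg _
  have h10 : ((3 : ℝ) ^ m) = (N : ℝ) := by rw [hm]; push_cast; rfl
  rw [h10, abs_sub_comm]
  exact hNk.trans (mul_le_mul_of_nonneg_right h8 hk)

end Pool.Agent.FG
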