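import Pool.Agent.FG.Weyl
import Pool.Agent.FG.Tensor

/-!
Project FG (MP_0c7c15_an), row FG-FD-12: the two Heisenberg groups.
-/

set_option autoImplicit false

namespace Pool.Agent.FG

section heis
variable {a : ℕ}

/-- the generators without the phase -/
noncomputable def heis_W (j : Fin 2) (p q : Y a) : Matrix (Y a × Y a) (Y a × Y a) ℂ :=
  if j = 0 then tt (We p q) 1 else tt 1 (We p q)

theorem heis_mem_iff {j : Fin 2} {u : Matrix (Y a × Y a) (Y a × Y a) ℂ} :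
    u ∈ HP a j ↔ ∃ (k : ZMod 3) (p q : Y a), u = chi k • heis_W j p q := Iff.rfl

theorem heis_W_mul (j : Fin 2) (p q p' q' : Y a) :
    heis_W j p q * heis_W j p' q' = chi (pr q p') • heis_W j (p + p') (q + q') := by
  unfold heis_W
  by_cases hj : j = 0
  · rw [if_pos hj, if_pos hj, if_pos hj, tt_mul, We_mul, one_mul, tt_smul_left]
  · rw [if_neg hj, if_neg hj, if_neg hj, tt_mul, We_mul, one_mul, tt_smul_right]

theorem heis_W_zero (j : Fin 2) : heis_W (a := a) j 0 0 = 1 := by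
  unfold heis_W
  rw [We_zero, tt_one, ite_self]

theorem heis_W_mem (j : Fin 2) (p q : Y a) :
    heis_W j p q ∈ Matrix.unitaryGroup (Y a × Y a) ℂ := by
  unfold heis_W
  by_cases hj : j = 0
  · rw [if_pos hj]
    exact tt_mem (We_mem p q) (one_mem _)
  · rw [if_neg hj]
    exact tt_mem (one_mem _) (We_mem p q)

theorem heis_n2_W (j : Fin 2) (p q : Y a) : n2 (mtr (Y a × Y a)) (heis_W j p q) = 1 :=
  n2_unitary (isTr_mtr _) (heis_W_mem j p q)

theorem heis_n2_smul (j : Fin 2) (c : ℂ) (p q : Y a) :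
    n2 (mtr (Y a × Y a)) (c • heis_W j p q) = ‖c‖ := by
  rw [n2_smul (isTr_mtr _), heis_n2_W, mul_one]

theorem heis_mul (j : Fin 2) (k : ZMod 3) (p q : Y a) (k' : ZMod 3) (p' q' : Y a) :
    (chi k • heis_W j p q) * (chi k' • heis_W j p' q') =
      chi (k + k' + pr q p') • heis_W j (p + p') (q + q') := by
  rw [smul_mul_smul_comm, heis_W_mul, smul_smul, chi_add, chi_add]

theorem heis_tr (j : Fin 2) (p q p' q' : Y a) (h : ¬ (p = p' ∧ q = q')) :
    mtr (Y a × Y a) (star (heis_W j p q) * heis_W j p' q') = 0 := by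
  have h0 : mtr (Y a) (star (We p q) * We p' q') = 0 := by
    have := ip_We p q p' q'
    rw [if_neg h] at this
    exact this
  unfold heis_W
  by_cases hj : j = 0
  · rw [if_pos hj, if_pos hj, star_tt, tt_mul, mtr_tt, h0, zero_mul]
  · rw [if_neg hj, if_neg hj, star_tt, tt_mul, mtr_tt, h0, mul_zero]

theorem heis_three {x : ℝ} (hx : 0 ≤ x) (h : x ^ 2 = 3) : 5 / 4 ≤ x := by
  nlinarith

theorem heis_two {x : ℝ} (hx : 0 ≤ x) (h : x ^ 2 = 2) : 5 / 4 ≤ x := by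
  nlinarith

theorem HP_mul {j : Fin 2} {u v : Matrix (Y a × Y a) (Y a × Y a) ℂ} (hu : u ∈ HP a j)
    (hv : v ∈ HP a j) : u * v ∈ HP a j := by
  rw [heis_mem_iff] at hu hv ⊢
  obtain ⟨k, p, q, rfl⟩ := hu
  obtain ⟨k', p', q', rfl⟩ := hv
  exact ⟨_, _, _, heis_mul j k p q k' p' q'⟩

theorem HP_sep {j : Fin 2} {u v : Matrix (Y a × Y a) (Y a × Y a) ℂ} (hu : u ∈ HP a j)
    (hv : v ∈ HP a j) : u = v ∨ 5 / 4 ≤ n2 (mtr (Y a × Y a)) (u - v) := by
  rw [heis_mem_iff] at hu hv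
  obtain ⟨k, p, q, rfl⟩ := hu
  obtain ⟨k', p', q', rfl⟩ := hv
  by_cases h : p = p' ∧ q = q'
  · obtain ⟨rfl, rfl⟩ := h
    by_cases hk : k = k'
    · left
      rw [hk]
    · right
      rw [← sub_smul, heis_n2_smul]
      exact heis_three (norm_nonneg _) (norm_chi_sub k k' hk)
  · right
    apply heis_two (n2_nonneg _ _)
    rw [n2_sub_smul_sq (isTr_mtr _), heis_n2_smul, heis_n2_W, norm_chi, norm_chi, star_smul,
      smul_mul_assoc, map_smul, heis_tr j p q p' q' h, smul_zero, mul_zero, Complex.zero_re]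
    norm_num

theorem HP_comm {j : Fin 2} {u v : Matrix (Y a × Y a) (Y a × Y a) ℂ} (hu : u ∈ HP a j)
    (hv : v ∈ HP a j) : ∃ s : Fin 3, u * v = om ^ (s : ℕ) • (v * u) := by
  rw [heis_mem_iff] at hu hv
  obtain ⟨k, p, q, rfl⟩ := hu
  obtain ⟨k', p', q', rfl⟩ := hv
  obtain ⟨s, hs⟩ := exists_om_pow (pr q p' - pr q' p)
  refine ⟨s, ?_⟩
  rw [← hs, heis_mul, heis_mul, smul_smul, ← chi_add, add_comm p' p, add_comm q' q]
  congr 2
  ring

theorem HP_nondeg {j : Fin 2} {u : Matrix (Y a × Y a) (Y a × Y a) ℂ} (hu : u ∈ HP a j) :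
    (∃ s : Fin 3, u = om ^ (s : ℕ) • 1) ∨
      ∃ v ∈ HP a j, 5 / 4 ≤ n2 (mtr (Y a × Y a)) (u * v - v * u) := by
  rw [heis_mem_iff] at hu
  obtain ⟨k, p, q, rfl⟩ := hu
  by_cases h : p = 0 ∧ q = 0
  · left
    obtain ⟨rfl, rfl⟩ := h
    obtain ⟨s, hs⟩ := exists_om_pow k
    exact ⟨s, by rw [hs, heis_W_zero]⟩
  · right
    obtain ⟨p', q', hne⟩ : ∃ p' q' : Y a, pr q p' ≠ pr q' p := by
      by_cases hq : q = 0
      · have hp : p ≠ 0 := fun hp => h ⟨hp, hq⟩
        obtain ⟨v, hv⟩ := exists_pr p hp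
        refine ⟨0, v, ?_⟩
        rw [hv, pr_zero_right]
        decide
      · obtain ⟨v, hv⟩ := exists_pr q hq
        refine ⟨v, 0, ?_⟩
        rw [pr_comm q v, hv, pr_zero_left]
        decide
    refine ⟨chi 0 • heis_W j p' q', ⟨0, p', q', rfl⟩, ?_⟩
    rw [heis_mul, heis_mul, add_comm p' p, add_comm q' q, ← sub_smul, heis_n2_smul]
    apply heis_three (norm_nonneg _)
    apply norm_chi_sub
    intro h1
    apply hne
    have h2 : k + 0 + pr q p' = k + 0 + pr q' p := by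
      rw [h1]
      ring
    exact add_left_cancel h2

theorem HP_cross {u v : Matrix (Y a × Y a) (Y a × Y a) ℂ} (hu : u ∈ HP a 0)
    (hv : v ∈ HP a 1) : u * v = v * u := by
  obtain ⟨k, p, q, rfl⟩ := hu
  obtain ⟨k', p', q', rfl⟩ := hv
  rw [if_pos rfl, if_neg (by decide), smul_mul_smul_comm, smul_mul_smul_comm, tt_mul, tt_mul,
    one_mul, mul_one, one_mul, mul_one, mul_comm (chi k)]

end heis

end Pool.Agent.FG
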