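import Pool.Agent.FG.FDDefs
import Pool.Agent.FG.Tr
import Pool.Agent.FG.Char

/-! Project FG (MP_0c7c15_an), row FD-13: a matrix which almost commutes with both Heisenberg
groups is close to a scalar (helper75). -/

set_option autoImplicit false

namespace Pool.Agent.FG

section irr
variable {a : ℕ}

private theorem irr_We_zero : We (0 : Y a) 0 = 1 := by
  ext y z
  simp only [We, sub_zero, pr_zero_left, chi_zero, Matrix.one_apply]
  by_cases h : y = z
  · simp [h]
  · rw [if_neg (fun h' => h h'.symm), if_neg h]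

private theorem irr_tt_mul (x y : Matrix (Y a) (Y a) ℂ) :
    tt x 1 * tt 1 y = tt x y := by
  ext i j
  rw [Matrix.mul_apply, Finset.sum_eq_single (j.1, i.2)]
  · simp [tt]
  · intro b _ hb
    by_cases h1 : i.2 = b.2
    · by_cases h2 : b.1 = j.1
      · exact absurd (show b = (j.1, i.2) from Prod.ext h2 h1.symm) hb
      · simp [tt, Matrix.one_apply, h2]
    · simp [tt, Matrix.one_apply, h1]
  · intro h
    exact absurd (Finset.mem_univ _) h

/-- the operator used in the average -/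
private noncomputable def irrS (p q p' q' : Y a) : Matrix (Y a × Y a) (Y a × Y a) ℂ :=
  tt (We p q) (We p' q')

private theorem irrS_apply (p q p' q' : Y a) (y z : Y a × Y a) :
    irrS p q p' q' y z =
      if z = (y.1 - p, y.2 - p') then chi (pr q z.1) * chi (pr q' z.2) else 0 := by
  unfold irrS tt We
  by_cases h1 : z.1 = y.1 - p
  · by_cases h2 : z.2 = y.2 - p'
    · rw [if_pos h1, if_pos h2, if_pos (Prod.ext h1 h2)]
    · rw [if_neg h2, mul_zero, if_neg]
      intro h; exact h2 (by rw [h])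
  · rw [if_neg h1, zero_mul, if_neg]
    intro h; exact h1 (by rw [h])

/-- entries of `s x s^*` -/
private theorem irr_entry (x : Matrix (Y a × Y a) (Y a × Y a) ℂ) (p q p' q' : Y a)
    (y z : Y a × Y a) :
    (irrS p q p' q' * x * star (irrS p q p' q')) y z =
      chi (pr q (y.1 - z.1)) * chi (pr q' (y.2 - z.2)) *
        x (y.1 - p, y.2 - p') (z.1 - p, z.2 - p') := by
  rw [Matrix.mul_apply, Finset.sum_eq_single (z.1 - p, z.2 - p')]
  · rw [Matrix.mul_apply, Finset.sum_eq_single (y.1 - p, y.2 - p')]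
    · rw [Matrix.star_apply, irrS_apply, irrS_apply, if_pos rfl, if_pos rfl, star_mul',
        ← chi_neg, ← chi_neg]
      have h1 : chi (pr q (y.1 - z.1)) = chi (pr q (y.1 - p)) * chi (-pr q (z.1 - p)) := by
        rw [← chi_add, pr_sub_right, pr_sub_right, pr_sub_right]
        congr 1
        abel
      have h2 : chi (pr q' (y.2 - z.2)) = chi (pr q' (y.2 - p')) * chi (-pr q' (z.2 - p')) := by
        rw [← chi_add, pr_sub_right, pr_sub_right, pr_sub_right]
        congr 1
        abel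
      rw [h1, h2]
      ring
    · intro b _ hb
      rw [irrS_apply, if_neg hb, zero_mul]
    · intro h
      exact absurd (Finset.mem_univ _) h
  · intro b _ hb
    rw [Matrix.star_apply, irrS_apply, if_neg hb, star_zero, mul_zero]
  · intro h
    exact absurd (Finset.mem_univ _) h

private theorem irrS_mem (p q p' q' : Y a) :
    irrS p q p' q' ∈ unitary (Matrix (Y a × Y a) (Y a × Y a) ℂ) := by
  have h : irrS p q p' q' * star (irrS p q p' q') = 1 := by
    ext y z
    have := irr_entry (1 : Matrix (Y a × Y a) (Y a × Y a) ℂ) p q p' q' y z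
    rw [mul_one] at this
    rw [this]
    by_cases hyz : y = z
    · subst hyz
      simp [pr_zero_right, chi_zero]
    · rw [Matrix.one_apply_ne hyz, Matrix.one_apply_ne, mul_zero]
      intro h'
      apply hyz
      have e1 := congrArg Prod.fst h'
      have e2 := congrArg Prod.snd h'
      exact Prod.ext (sub_left_injective e1) (sub_left_injective e2)
  exact Unitary.mem_iff.mpr ⟨mul_eq_one_comm.mp h, h⟩

/-- the average of `s x s^*` -/
private theorem irr_average (x : Matrix (Y a × Y a) (Y a × Y a) ℂ) :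
    ∑ p : Y a, ∑ q : Y a, ∑ p' : Y a, ∑ q' : Y a,
      irrS p q p' q' * x * star (irrS p q p' q') =
    ((Fintype.card (Y a) : ℂ) ^ 4) • (mtr (Y a × Y a) x • (1 : Matrix (Y a × Y a) (Y a × Y a) ℂ))
    := by
  ext y z
  simp only [Matrix.sum_apply, irr_entry, Matrix.smul_apply, smul_eq_mul]
  -- sum over q'
  have hq' : ∀ p q p' : Y a, ∑ q' : Y a, chi (pr q (y.1 - z.1)) * chi (pr q' (y.2 - z.2)) *
      x (y.1 - p, y.2 - p') (z.1 - p, z.2 - p') =
      chi (pr q (y.1 - z.1)) * ((if y.2 - z.2 = 0 then (3 : ℂ) ^ (a + 1) else 0) *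
        x (y.1 - p, y.2 - p') (z.1 - p, z.2 - p')) := by
    intro p q p'
    rw [← Finset.sum_mul, ← Finset.mul_sum, mul_assoc]
    have : ∑ i : Y a, chi (pr i (y.2 - z.2)) = if y.2 - z.2 = 0 then (3 : ℂ) ^ (a + 1) else 0 := by
      rw [← sum_chi]
      exact Finset.sum_congr rfl fun i _ => by rw [pr_comm]
    rw [this]
  simp only [hq', ← Finset.mul_sum]
  -- sum over q
  have hq : ∀ p : Y a, ∑ q : Y a, chi (pr q (y.1 - z.1)) * ((if y.2 - z.2 = 0 then
      (3 : ℂ) ^ (a + 1) else 0) *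
        ∑ p' : Y a, x (y.1 - p, y.2 - p') (z.1 - p, z.2 - p')) =
      (if y.1 - z.1 = 0 then (3 : ℂ) ^ (a + 1) else 0) * ((if y.2 - z.2 = 0 then
      (3 : ℂ) ^ (a + 1) else 0) *
        ∑ p' : Y a, x (y.1 - p, y.2 - p') (z.1 - p, z.2 - p')) := by
    intro p
    rw [← Finset.sum_mul]
    congr 1
    rw [← sum_chi]
    exact Finset.sum_congr rfl fun i _ => by rw [pr_comm]
  simp only [hq, ← Finset.mul_sum]
  by_cases h1 : y.1 = z.1
  · by_cases h2 : y.2 = z.2
    · have hyz : y = z := Prod.ext h1 h2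
      subst hyz
      have htr : ∑ p : Y a, ∑ p' : Y a, x (y.1 - p, y.2 - p') (y.1 - p, y.2 - p') =
          Matrix.trace x := by
        rw [Matrix.trace, ← Finset.univ_product_univ, Finset.sum_product,
          ← Equiv.sum_comp (Equiv.subLeft y.1) (fun p => ∑ p', x.diag (p, p'))]
        refine Finset.sum_congr rfl fun p _ => ?_
        rw [← Equiv.sum_comp (Equiv.subLeft y.2)
          (fun p' => x.diag ((Equiv.subLeft y.1) p, p'))]
        rfl
      rw [htr, if_pos (sub_self _), if_pos (sub_self _), Matrix.one_apply_eq, mtr,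
        LinearMap.smul_apply, Matrix.traceLinearMap_apply, Fintype.card_prod, card_Y]
      have h3 : ((3 : ℂ) ^ (a + 1)) ≠ 0 := pow_ne_zero _ (by norm_num)
      push_cast
      rw [smul_eq_mul]
      field_simp
    · have hyz : y ≠ z := fun h => h2 (by rw [h])
      rw [Matrix.one_apply_ne hyz, if_neg (sub_ne_zero.mpr h2)]
      simp
  · have hyz : y ≠ z := fun h => h1 (by rw [h])
    rw [Matrix.one_apply_ne hyz, if_neg (sub_ne_zero.mpr h1)]
    simp

private theorem irr_n2_sum {ι : Type*} (s : Finset ι) (f : ι → Matrix (Y a × Y a) (Y a × Y a) ℂ)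
    (C : ℝ) (h : ∀ i ∈ s, n2 (mtr (Y a × Y a)) (f i) ≤ C) :
    n2 (mtr (Y a × Y a)) (∑ i ∈ s, f i) ≤ s.card * C := by
  classical
  induction s using Finset.induction_on with
  | empty => simp [n2_zero]
  | insert i s hi ih =>
    rw [Finset.sum_insert hi, Finset.card_insert_of_notMem hi]
    have h1 := ih fun j hj => h j (Finset.mem_insert_of_mem hj)
    have h2 := h i (Finset.mem_insert_self _ _)
    have h3 := n2_add_le (isTr_mtr (Y a × Y a)) (f i) (∑ i ∈ s, f i)
    push_cast
    linarith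

private theorem irr_step (x : Matrix (Y a × Y a) (Y a × Y a) ℂ) (ε : ℝ)
    (h : ∀ j, ∀ s ∈ HP a j, n2 (mtr (Y a × Y a)) (x * s - s * x) ≤ ε) (p q p' q' : Y a) :
    n2 (mtr (Y a × Y a)) (x - irrS p q p' q' * x * star (irrS p q p' q')) ≤ 2 * ε := by
  have hT := isTr_mtr (Y a × Y a)
  have hu := irrS_mem p q p' q'
  have hs0 : tt (We p q) 1 ∈ unitary (Matrix (Y a × Y a) (Y a × Y a) ℂ) := by
    have := irrS_mem p q (0 : Y a) 0
    unfold irrS at this
    rwa [irr_We_zero] at this
  have hs1 : tt 1 (We p' q') ∈ unitary (Matrix (Y a × Y a) (Y a × Y a) ℂ) := by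
    have := irrS_mem (0 : Y a) 0 p' q'
    unfold irrS at this
    rwa [irr_We_zero] at this
  have h0 : n2 (mtr (Y a × Y a)) (x * tt (We p q) 1 - tt (We p q) 1 * x) ≤ ε :=
    h 0 _ ⟨0, p, q, by rw [if_pos rfl, chi_zero, one_smul]⟩
  have h1 : n2 (mtr (Y a × Y a)) (x * tt 1 (We p' q') - tt 1 (We p' q') * x) ≤ ε :=
    h 1 _ ⟨0, p', q', by rw [if_neg one_ne_zero, chi_zero, one_smul]⟩
  have hs : irrS p q p' q' = tt (We p q) 1 * tt 1 (We p' q') := (irr_tt_mul _ _).symm
  have e1 : x - irrS p q p' q' * x * star (irrS p q p' q') =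
      (x * irrS p q p' q' - irrS p q p' q' * x) * star (irrS p q p' q') := by
    rw [sub_mul, mul_assoc x, (Unitary.mem_iff.mp hu).2, mul_one]
  have e2 : x * irrS p q p' q' - irrS p q p' q' * x =
      (x * tt (We p q) 1 - tt (We p q) 1 * x) * tt 1 (We p' q') +
        tt (We p q) 1 * (x * tt 1 (We p' q') - tt 1 (We p' q') * x) := by
    rw [hs]
    noncomm_ring
  rw [e1, n2_mul_star_unitary hT hu, e2]
  refine (n2_add_le hT _ _).trans ?_
  rw [n2_mul_unitary hT hs1, n2_unitary_mul _ hs0]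
  linarith

end irr

/-- FD-13: irreducibility of the two Heisenberg groups, with a constant. -/
theorem irr_matrix {a : ℕ} (x : Matrix (Y a × Y a) (Y a × Y a) ℂ) (ε : ℝ)
    (h : ∀ j, ∀ s ∈ HP a j, n2 (mtr (Y a × Y a)) (x * s - s * x) ≤ ε) :
    n2 (mtr (Y a × Y a)) (x - mtr (Y a × Y a) x • 1) ≤ 2 * ε := by
  have hT := isTr_mtr (Y a × Y a)
  set c : ℕ := Fintype.card (Y a) with hc
  have hc0 : 0 < c := Fintype.card_pos
  have key : ∑ p : Y a, ∑ q : Y a, ∑ p' : Y a, ∑ q' : Y a,
      (x - irrS p q p' q' * x * star (irrS p q p' q')) =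
      ((c : ℂ) ^ 4) • (x - mtr (Y a × Y a) x • (1 : Matrix (Y a × Y a) (Y a × Y a) ℂ)) := by
    simp only [Finset.sum_sub_distrib, irr_average, Finset.sum_const, Finset.card_univ, ← hc]
    rw [smul_sub]
    congr 1
    simp only [← Nat.cast_smul_eq_nsmul ℂ, smul_smul]
    congr 1
    ring
  have hcard : (Finset.univ : Finset (Y a)).card = c := Finset.card_univ
  have hle : n2 (mtr (Y a × Y a)) (∑ p : Y a, ∑ q : Y a, ∑ p' : Y a, ∑ q' : Y a,
      (x - irrS p q p' q' * x * star (irrS p q p' q'))) ≤ c * (c * (c * (c * (2 * ε)))) := by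
    rw [← hcard]
    refine irr_n2_sum _ _ _ fun p _ => ?_
    refine irr_n2_sum _ _ _ fun q _ => ?_
    refine irr_n2_sum _ _ _ fun p' _ => ?_
    refine irr_n2_sum _ _ _ fun q' _ => ?_
    exact irr_step x ε h p q p' q'
  rw [key, n2_smul hT] at hle
  have hn : ‖(c : ℂ) ^ 4‖ = (c : ℝ) ^ 4 := by
    rw [norm_pow, Complex.norm_natCast]
  rw [hn] at hle
  have h4 : (0 : ℝ) < (c : ℝ) ^ 4 := by positivity
  have : (c : ℝ) ^ 4 * n2 (mtr (Y a × Y a)) (x - mtr (Y a × Y a) x • 1) ≤
      (c : ℝ) ^ 4 * (2 * ε) := by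
    calc _ ≤ _ := hle
      _ = _ := by ring
  exact le_of_mul_le_mul_left this h4

end Pool.Agent.FG
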