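import Pool.Agent.FG.Polar

/-!
# FG-ISO2: lifting unitaries of a model (helper78)
-/

set_option autoImplicit false

open Filter Topology
open scoped ComplexOrder

namespace Pool.Agent.FG

theorem model_congr {I : Type} {n : I → Type} [∀ i, Fintype (n i)] [∀ i, DecidableEq (n i)]
    {M : Type*} [Ring M] [StarRing M] [Algebra ℂ M] {τ : M →ₗ[ℂ] ℂ}
    {W : Ultrafilter I} (mod : Model n τ W) (x y : BF n)
    (h : ∀ᶠ i in (W : Filter I), x.1 i = y.1 i) : mod.pi x = mod.pi y := by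
  rw [← sub_eq_zero, ← map_sub, mod.ker]
  refine tendsto_const_nhds.congr' ?_
  filter_upwards [h] with i hi
  have h1 : (x - y).1 i = 0 := by
    change x.1 i - y.1 i = 0
    rw [hi, sub_self]
  rw [h1, n2_zero]

theorem model_n2 {I : Type} {n : I → Type} [∀ i, Fintype (n i)] [∀ i, DecidableEq (n i)]
    {M : Type*} [Ring M] [StarRing M] [Algebra ℂ M] {τ : M →ₗ[ℂ] ℂ}
    {W : Ultrafilter I} (mod : Model n τ W) (x : BF n) :
    Tendsto (fun i => n2 (mtr (n i)) (x.1 i)) W (𝓝 (n2 τ (mod.pi x))) := by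
  have h1 := mod.tr (star x * x)
  rw [map_mul, map_star] at h1
  have h2 : Continuous fun z : ℂ => Real.sqrt z.re :=
    Real.continuous_sqrt.comp Complex.continuous_re
  exact (h2.tendsto _).comp h1

section

open scoped Matrix.Norms.L2Operator

theorem iso2_norm_le {n : Type*} [Fintype n] [DecidableEq n] {w : Matrix n n ℂ}
    (hw : w ∈ Matrix.unitaryGroup n ℂ) : ‖w‖ ≤ 1 := by
  have h1 : ‖(1 : Matrix n n ℂ)‖ ≤ 1 := by
    rcases isEmpty_or_nonempty n with h | h
    · have : (1 : Matrix n n ℂ) = 0 := Subsingleton.elim _ _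
      rw [this, norm_zero]; exact zero_le_one
    · exact (CStarRing.norm_one).le
  have h2 : ‖w‖ * ‖w‖ ≤ 1 := by
    rw [← CStarRing.norm_star_mul_self, (Unitary.mem_iff.mp hw).1]
    exact h1
  nlinarith [norm_nonneg w]

end

theorem lift_unitary {I : Type} {n : I → Type} [∀ i, Fintype (n i)] [∀ i, DecidableEq (n i)]
    {M : Type*} [Ring M] [StarRing M] [Algebra ℂ M] {τ : M →ₗ[ℂ] ℂ}
    {W : Ultrafilter I} (mod : Model n τ W) {u : M} (hu : u ∈ unitary M) :
    ∃ x : BF n, (∀ i, x.1 i ∈ Matrix.unitaryGroup (n i) ℂ) ∧ mod.pi x = u := by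
  obtain ⟨x, hx⟩ := mod.surj u
  have h1 : mod.pi (star x * x - 1) = 0 := by
    rw [map_sub, map_mul, map_star, map_one, hx, (Unitary.mem_iff.mp hu).1, sub_self]
  rw [mod.ker] at h1
  choose w hw hwn using fun i => exists_unitary_near (x.1 i)
  let y : BF n := ⟨w, 1, fun i => iso2_norm_le (hw i)⟩
  refine ⟨y, hw, ?_⟩
  rw [← hx]
  symm
  rw [← sub_eq_zero, ← map_sub, mod.ker]
  exact squeeze_zero (fun i => n2_nonneg _ _) (fun i => hwn i) h1

end Pool.Agent.FG
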