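import Pool.Agent.FG.Near
import Pool.Agent.FG.Heis
import Pool.Agent.FG.Irr
import Pool.Agent.FG.Lift

/-!
Project FG (MP_0c7c15_an), block FD: the standard model is good (helper50).
-/

set_option autoImplicit false

open Filter Topology

namespace Pool.Agent.FG

/-! ### ultrafilters -/

section ultra
variable {I : Type} (W : Ultrafilter I)

theorem mn_finite {κ : Type*} [Finite κ] {P : I → κ → Prop} (h : ∀ᶠ i in (W : Filter I), ∃ k, P i k) :
    ∃ k, ∀ᶠ i in (W : Filter I), P i k := by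
  by_contra hc
  have h1 : ∀ k, ∀ᶠ i in (W : Filter I), ¬ P i k := fun k => by
    rcases W.em (fun i => P i k) with h2 | h2
    · exact absurd ⟨k, h2⟩ hc
    · exact h2
  have h2 : ∀ᶠ i in (W : Filter I), ∀ k, ¬ P i k := Filter.eventually_all.mpr h1
  obtain ⟨i, ⟨k, hk⟩, hi⟩ := (h.and h2).exists
  exact hi k hk

end ultra

/-! ### families of unitaries -/

section bf
open scoped Matrix.Norms.L2Operator

variable {I : Type} {n : I → Type} [∀ i, Fintype (n i)] [∀ i, DecidableEq (n i)]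

theorem mn_norm_le {m : Type*} [Fintype m] [DecidableEq m] {u : Matrix m m ℂ}
    (hu : u ∈ Matrix.unitaryGroup m ℂ) : ‖u‖ ≤ 1 := by
  have h1 : star u * u = 1 := (Unitary.mem_iff.mp hu).1
  have h2 : ‖star u * u‖ = ‖u‖ * ‖u‖ := CStarRing.norm_star_mul_self
  have h3 : ‖(1 : Matrix m m ℂ)‖ ≤ 1 := by
    rcases isEmpty_or_nonempty m with h | h
    · have : (1 : Matrix m m ℂ) = 0 := Subsingleton.elim _ _
      rw [this, norm_zero]; exact zero_le_one
    · exact (CStarRing.norm_one).le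
  rw [h1] at h2
  nlinarith [norm_nonneg u]

/-- a family of unitaries as a bounded family -/
def bfu (x : ∀ i, Matrix (n i) (n i) ℂ) (hx : ∀ i, x i ∈ Matrix.unitaryGroup (n i) ℂ) : BF n :=
  ⟨x, 1, fun i => mn_norm_le (hx i)⟩

end bf

section lim

variable {I : Type} {n : I → Type} [∀ i, Fintype (n i)] [∀ i, DecidableEq (n i)]
  {M : Type*} [Ring M] [StarRing M] [Algebra ℂ M] {τ : M →ₗ[ℂ] ℂ}
  {W : Ultrafilter I} (mod : Model n τ W)

include mod

theorem mn_unitary {x : BF n} (hx : ∀ i, x.1 i ∈ Matrix.unitaryGroup (n i) ℂ) :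
    mod.pi x ∈ unitary M := by
  have h1 : star x * x = 1 := Subtype.ext (funext fun i => (Unitary.mem_iff.mp (hx i)).1)
  have h2 : x * star x = 1 := Subtype.ext (funext fun i => (Unitary.mem_iff.mp (hx i)).2)
  rw [Unitary.mem_iff]
  constructor
  · rw [← map_star, ← map_mul, h1, map_one]
  · rw [← map_star, ← map_mul, h2, map_one]

theorem mn_tendsto_n2 (x : BF n) :
    Tendsto (fun i => n2 (mtr (n i)) (x.1 i)) W (𝓝 (n2 τ (mod.pi x))) := by
  have h := mod.tr (star x * x)
  rw [map_mul, map_star] at h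
  exact (Real.continuous_sqrt.tendsto _).comp ((Complex.continuous_re.tendsto _).comp h)

theorem mn_le_of_eventually {x : BF n} {C : ℝ}
    (h : ∀ᶠ i in (W : Filter I), n2 (mtr (n i)) (x.1 i) ≤ C) : n2 τ (mod.pi x) ≤ C :=
  le_of_tendsto (mn_tendsto_n2 mod x) h

theorem mn_ge_of_eventually {x : BF n} {C : ℝ}
    (h : ∀ᶠ i in (W : Filter I), C ≤ n2 (mtr (n i)) (x.1 i)) : C ≤ n2 τ (mod.pi x) :=
  ge_of_tendsto (mn_tendsto_n2 mod x) h

theorem mn_eq_zero_of_eventually {x : BF n}
    (h : ∀ᶠ i in (W : Filter I), x.1 i = 0) : n2 τ (mod.pi x) = 0 := by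
  refine le_antisymm (mn_le_of_eventually mod ?_) (n2_nonneg _ _)
  filter_upwards [h] with i hi
  rw [hi, n2_zero]

end lim

/-! ### the standard model -/

section std

variable {I : Type} {W : Ultrafilter I} {a : I → ℕ} {M : Type*} [Ring M] [StarRing M]
    [Algebra ℂ M] {τ : M →ₗ[ℂ] ℂ}
    (mod : Model (fun i => Y (a i) × Y (a i)) τ W)

/-- the family of parameters -/
noncomputable def fc (a : I → ℕ) (j : Fin 2) (s : Fin 4) : BF (fun i => Y (a i) × Y (a i)) :=
  bfu (fun i => (par (a i)).c j s) (fun _ => par_c_mem j s)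

/-- the family of parameters -/
noncomputable def fU (a : I → ℕ) (k : Fin 2) : BF (fun i => Y (a i) × Y (a i)) :=
  bfu (fun i => (par (a i)).U k) (fun _ => par_U_mem k)

/-- the parameters in `M` -/
noncomputable def stdPar : Par M := ⟨fun j s => mod.pi (fc a j s), fun k => mod.pi (fU a k)⟩

theorem mn_tendsto_Phi (j : Fin 2) (x : BF (fun i => Y (a i) × Y (a i))) :
    Tendsto (fun i => Phi (mtr (Y (a i) × Y (a i))) (par (a i)) j (x.1 i)) W
      (𝓝 (Phi τ (stdPar mod) j (mod.pi x))) := by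
  unfold Phi
  refine (Tendsto.add (Tendsto.add ?_ ?_) ?_)
  · refine tendsto_finsetSum _ fun s _ => ?_
    have h := mn_tendsto_n2 mod (fc a (1 - j) s * x - x * fc a (1 - j) s)
    rw [map_sub, map_mul, map_mul] at h
    exact h
  · refine tendsto_finsetSum _ fun k _ => tendsto_finsetSum _ fun s _ => ?_
    have h := mn_tendsto_n2 mod (fc a j s * (star (fU a k) * x * fU a k * star x)
      - (star (fU a k) * x * fU a k * star x) * fc a j s)
    simp only [map_sub, map_mul, map_star] at h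
    exact h
  · have h := mn_tendsto_n2 mod (x ^ 3 - 1)
    rw [map_sub, map_pow, map_one] at h
    exact h

/-- elements of `Phi = 0` lift to families in `HP` -/
theorem mn_lift_HP (j : Fin 2) {u : M} (hu : u ∈ unitary M)
    (h0 : Phi τ (stdPar mod) j u = 0) :
    ∃ x : BF (fun i => Y (a i) × Y (a i)), (∀ i, x.1 i ∈ HP (a i) j) ∧ mod.pi x = u := by
  obtain ⟨x, hx, rfl⟩ := lift_unitary mod hu
  choose s hs hd using fun i => HP_near (a := a i) j (x.1 i) (hx i)
  refine ⟨bfu s (fun i => HP_mem (hs i)), hs, ?_⟩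
  have h1 := mn_tendsto_Phi mod j x
  rw [h0] at h1
  have h2 : Tendsto (fun i => 400 * Phi (mtr (Y (a i) × Y (a i))) (par (a i)) j (x.1 i)) W
      (𝓝 0) := by
    simpa using h1.const_mul 400
  have h3 : mod.pi (x - bfu s (fun i => HP_mem (hs i))) = 0 := by
    rw [mod.ker]
    exact squeeze_zero (fun i => n2_nonneg _ _) hd h2
  rw [map_sub, sub_eq_zero] at h3
  exact h3.symm

theorem mn_Phi_HP {j : Fin 2} {x : BF (fun i => Y (a i) × Y (a i))}
    (hx : ∀ i, x.1 i ∈ HP (a i) j) : Phi τ (stdPar mod) j (mod.pi x) = 0 := by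
  refine tendsto_nhds_unique (mn_tendsto_Phi mod j x) ?_
  refine tendsto_const_nhds.congr fun i => ?_
  exact (Phi_HP (hx i)).symm

theorem mn_unitary_HP {j : Fin 2} {x : BF (fun i => Y (a i) × Y (a i))}
    (hx : ∀ i, x.1 i ∈ HP (a i) j) : mod.pi x ∈ unitary M :=
  mn_unitary mod fun i => HP_mem (hx i)

/-- irreducibility: an element which almost commutes with both groups is almost scalar -/
theorem mn_irr (x : M) (e : ℝ)
    (h : ∀ j, ∀ p ∈ unitary M, Phi τ (stdPar mod) j p = 0 → n2 τ (x * p - p * x) ≤ e) :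
    n2 τ (x - τ x • 1) ≤ 2 * e := by
  obtain ⟨x, rfl⟩ := mod.surj x
  have main : ∀ e' : ℝ, e < e' → n2 τ (mod.pi x - τ (mod.pi x) • 1) ≤ 2 * e' := by
    intro e' he
    have key : ∀ᶠ i in (W : Filter I), ∀ j, ∀ s ∈ HP (a i) j,
        n2 (mtr (Y (a i) × Y (a i))) (x.1 i * s - s * x.1 i) ≤ e' := by
      rcases W.em (fun i => ∀ j, ∀ s ∈ HP (a i) j,
        n2 (mtr (Y (a i) × Y (a i))) (x.1 i * s - s * x.1 i) ≤ e') with h1 | h1
      · exact h1
      · exfalso
        push Not at h1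
        obtain ⟨j, hj⟩ := mn_finite W h1
        classical
        have hne : ∀ i, (1 : Matrix (Y (a i) × Y (a i)) (Y (a i) × Y (a i)) ℂ) ∈ HP (a i) j := by
          intro i
          refine ⟨0, 0, 0, ?_⟩
          rw [chi_zero, one_smul, We_zero, tt_one, ite_self]
        let s : ∀ i, Matrix (Y (a i) × Y (a i)) (Y (a i) × Y (a i)) ℂ := fun i =>
          if h : ∃ s ∈ HP (a i) j, e' < n2 (mtr (Y (a i) × Y (a i))) (x.1 i * s - s * x.1 i)
          then h.choose else 1
        have hs : ∀ i, s i ∈ HP (a i) j := by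
          intro i
          by_cases h : ∃ s ∈ HP (a i) j,
            e' < n2 (mtr (Y (a i) × Y (a i))) (x.1 i * s - s * x.1 i)
          · simp only [s, dif_pos h]
            exact h.choose_spec.1
          · simp only [s, dif_neg h]
            exact hne i
        have hs2 : ∀ᶠ i in (W : Filter I),
            e' ≤ n2 (mtr (Y (a i) × Y (a i))) (x.1 i * s i - s i * x.1 i) := by
          filter_upwards [hj] with i hi
          simp only [s, dif_pos hi]
          exact hi.choose_spec.2.le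
        let S : BF (fun i => Y (a i) × Y (a i)) := bfu s (fun i => HP_mem (hs i))
        have h2 := h j (mod.pi S) (mn_unitary_HP mod hs) (mn_Phi_HP mod hs)
        have h3 : e' ≤ n2 τ (mod.pi (x * S - S * x)) := mn_ge_of_eventually mod hs2
        rw [map_sub, map_mul, map_mul] at h3
        linarith
    have h4 : ∀ᶠ i in (W : Filter I),
        n2 (mtr (Y (a i) × Y (a i))) ((x - τ (mod.pi x) • (1 : BF (fun i => Y (a i) × Y (a i)))).1 i)
          ≤ 2 * e' + ‖mtr (Y (a i) × Y (a i)) (x.1 i) - τ (mod.pi x)‖ := by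
      filter_upwards [key] with i hi
      have h5 := irr_matrix (x.1 i) e' hi
      have h6 := n2_sub_le_add (isTr_mtr (Y (a i) × Y (a i))) (x.1 i)
        (mtr (Y (a i) × Y (a i)) (x.1 i) • 1) (τ (mod.pi x) • 1)
      have h7 : n2 (mtr (Y (a i) × Y (a i)))
          (mtr (Y (a i) × Y (a i)) (x.1 i) • (1 : Matrix _ _ ℂ) - τ (mod.pi x) • 1)
          = ‖mtr (Y (a i) × Y (a i)) (x.1 i) - τ (mod.pi x)‖ := by
        rw [← sub_smul, n2_smul (isTr_mtr _), n2_one (isTr_mtr _), mul_one]
      rw [h7] at h6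
      exact h6.trans (add_le_add h5 le_rfl)
    have h8 := mn_tendsto_n2 mod (x - τ (mod.pi x) • (1 : BF (fun i => Y (a i) × Y (a i))))
    rw [map_sub, map_smul, map_one] at h8
    have h9 : Tendsto (fun i => 2 * e' + ‖mtr (Y (a i) × Y (a i)) (x.1 i) - τ (mod.pi x)‖) W
        (𝓝 (2 * e')) := by
      have h10 := ((mod.tr x).sub_const (τ (mod.pi x))).norm.const_add (2 * e')
      simpa using h10
    exact le_of_tendsto_of_tendsto h8 h9 h4
  by_contra hc
  push Not at hc
  have h1 := main ((n2 τ (mod.pi x - τ (mod.pi x) • 1) / 2 + e) / 2) (by linarith)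
  linarith

end std

/-- The standard parameters are good. -/
theorem good_stdPar {I : Type} {W : Ultrafilter I} {a : I → ℕ} {M : Type*} [Ring M] [StarRing M]
    [Algebra ℂ M] [StarModule ℂ M] {τ : M →ₗ[ℂ] ℂ} (hτ : IsTr τ)
    (mod : Model (fun i => Y (a i) × Y (a i)) τ W) : Good τ (stdPar mod) := by
  refine ⟨?_, ?_, ?_, ?_, ?_, ?_, ?_, ?_, ?_⟩
  · intro j s
    exact mn_unitary mod fun _ => par_c_mem j s
  · intro k
    exact mn_unitary mod fun _ => par_U_mem k
  · intro ε hε
    refine ⟨ε / 400, by positivity, fun j u hu hP => ?_⟩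
    obtain ⟨x, hx, rfl⟩ := lift_unitary mod hu
    choose s hs hd using fun i => HP_near (a := a i) j (x.1 i) (hx i)
    refine ⟨mod.pi (bfu s (fun i => HP_mem (hs i))), mn_unitary_HP mod hs,
      mn_Phi_HP mod hs, ?_⟩
    rw [← map_sub]
    refine mn_le_of_eventually mod ?_
    have h1 : ∀ᶠ i in (W : Filter I),
        Phi (mtr (Y (a i) × Y (a i))) (par (a i)) j (x.1 i) < ε / 400 :=
      (mn_tendsto_Phi mod j x).eventually_lt_const hP
    filter_upwards [h1] with i hi
    refine (hd i).trans ?_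
    linarith
  · intro j u hu v hv hu0 hv0
    obtain ⟨x, hx, rfl⟩ := mn_lift_HP mod j hu hu0
    obtain ⟨y, hy, rfl⟩ := mn_lift_HP mod j hv hv0
    rw [← map_mul]
    exact mn_Phi_HP mod fun i => HP_mul (hx i) (hy i)
  · intro j u hu v hv hu0 hv0
    obtain ⟨x, hx, rfl⟩ := mn_lift_HP mod j hu hu0
    obtain ⟨y, hy, rfl⟩ := mn_lift_HP mod j hv hv0
    rw [← map_sub]
    rcases W.em (fun i => x.1 i = y.1 i) with h1 | h1
    · left
      refine mn_eq_zero_of_eventually mod ?_
      filter_upwards [h1] with i hi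
      show x.1 i - y.1 i = 0
      rw [hi, sub_self]
    · right
      refine mn_ge_of_eventually mod ?_
      filter_upwards [h1] with i hi
      exact (HP_sep (hx i) (hy i)).resolve_left hi
  · intro j u hu v hv hu0 hv0
    obtain ⟨x, hx, rfl⟩ := mn_lift_HP mod j hu hu0
    obtain ⟨y, hy, rfl⟩ := mn_lift_HP mod j hv hv0
    obtain ⟨s, hs⟩ := mn_finite W (Filter.Eventually.of_forall fun i => HP_comm (hx i) (hy i))
    refine ⟨s, ?_⟩
    rw [← map_mul, ← map_mul, ← map_smul, ← map_sub]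
    refine mn_eq_zero_of_eventually mod ?_
    filter_upwards [hs] with i hi
    show x.1 i * y.1 i - om ^ (s : ℕ) • (y.1 i * x.1 i) = 0
    rw [hi, sub_self]
  · intro j u hu hu0
    obtain ⟨x, hx, rfl⟩ := mn_lift_HP mod j hu hu0
    rcases W.em (fun i => ∃ s : Fin 3, x.1 i = om ^ (s : ℕ) • 1) with h1 | h1
    · left
      obtain ⟨s, hs⟩ := mn_finite W h1
      refine ⟨s, ?_⟩
      rw [← map_one mod.pi, ← map_smul, ← map_sub]
      refine mn_eq_zero_of_eventually mod ?_
      filter_upwards [hs] with i hi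
      show x.1 i - om ^ (s : ℕ) • 1 = 0
      rw [hi, sub_self]
    · right
      classical
      have hv : ∀ i, ∃ v ∈ HP (a i) j, (¬ ∃ s : Fin 3, x.1 i = om ^ (s : ℕ) • 1) →
          5 / 4 ≤ n2 (mtr (Y (a i) × Y (a i))) (x.1 i * v - v * x.1 i) := by
        intro i
        rcases HP_nondeg (hx i) with h | ⟨v, hv, h⟩
        · exact ⟨x.1 i, hx i, fun h2 => absurd h h2⟩
        · exact ⟨v, hv, fun _ => h⟩
      choose v hv hv2 using hv
      refine ⟨mod.pi (bfu v (fun i => HP_mem (hv i))), mn_unitary_HP mod hv,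
        mn_Phi_HP mod hv, ?_⟩
      rw [← map_mul, ← map_mul, ← map_sub]
      refine mn_ge_of_eventually mod ?_
      filter_upwards [h1] with i hi
      exact hv2 i hi
  · intro u hu v hv hu0 hv0
    obtain ⟨x, hx, rfl⟩ := mn_lift_HP mod 0 hu hu0
    obtain ⟨y, hy, rfl⟩ := mn_lift_HP mod 1 hv hv0
    rw [← map_mul, ← map_mul, ← map_sub]
    refine mn_eq_zero_of_eventually mod (Filter.Eventually.of_forall fun i => ?_)
    show x.1 i * y.1 i - y.1 i * x.1 i = 0
    rw [HP_cross (hx i) (hy i), sub_self]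
  · intro x hx h
    have h1 := mn_irr mod x (1 / 4) h
    have h2 := n2_sub_tr_sq hτ x
    rw [n2_unitary hτ hx] at h2
    have h3 := n2_nonneg τ (x - τ x • 1)
    have h4 := norm_nonneg (τ x)
    nlinarith

/-- The standard model is good. -/
theorem std_good {I : Type} (W : Ultrafilter I) (a : I → ℕ) {M : Type*} [Ring M] [StarRing M]
    [Algebra ℂ M] [StarModule ℂ M] (τ : M →ₗ[ℂ] ℂ) (hτ : IsTr τ)
    (mod : Model (fun i => Y (a i) × Y (a i)) τ W) : ∃ b : Par M, Good τ b :=
  ⟨stdPar mod, good_stdPar hτ mod⟩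

end Pool.Agent.FG
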