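import Pool.Agent.FG.UDefs

/-!
Project FG (MP_0c7c15_an): the finite precision properties `AxT` pass from an ultraproduct of
unitary groups to most of the factors (helper20).
-/

set_option autoImplicit false

open Filter Topology

namespace Pool.Agent.FG

/-- a property of all elements of the fibres holds eventually if no family violates it
eventually -/
theorem ax2_of_not {K : Type} {U : Ultrafilter K} {X : K → Type} [∀ k, Nonempty (X k)]
    {P : ∀ k, X k → Prop}
    (h : ∀ x : ∀ k, X k, ¬ ∀ᶠ k in (U : Filter K), ¬ P k (x k)) :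
    ∀ᶠ k in (U : Filter K), ∀ x, P k x := by
  classical
  by_contra hn
  rw [← Ultrafilter.eventually_not] at hn
  have h1 : ∀ k, ∃ x, (¬ ∀ x, P k x) → ¬ P k x := by
    intro k
    by_cases hk : ∀ x, P k x
    · exact ⟨Classical.arbitrary _, fun h => absurd hk h⟩
    · rw [not_forall] at hk
      obtain ⟨x, hx⟩ := hk
      exact ⟨x, fun _ => hx⟩
  choose x hx using h1
  apply h x
  filter_upwards [hn] with k hk
  exact hx k hk

section

variable {K : Type} {A : K → Type} [∀ k, Ring (A k)] [∀ k, StarRing (A k)]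
    [∀ k, Algebra ℂ (A k)] [∀ k, StarModule ℂ (A k)] {σ : ∀ k, A k →ₗ[ℂ] ℂ} {M : Type*} [Ring M]
    [StarRing M] [Algebra ℂ M] [StarModule ℂ M] {τ : M →ₗ[ℂ] ℂ} {U : Ultrafilter K}

theorem ax2_n2_smul (hσ : ∀ k, IsTr (σ k)) (hτ : IsTr τ) (mod : UModel A σ τ U)
    (u v : ∀ k, unitary (A k)) (c : ℂ) :
    Tendsto (fun k => n2 (σ k) ((u k : A k) - c • (v k : A k))) U
      (𝓝 (n2 τ ((mod.lam u : M) - c • (mod.lam v : M)))) := by
  have e1 : ∀ k, n2 (σ k) ((u k : A k) - c • (v k : A k)) =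
      Real.sqrt (1 - 2 * (c * σ k (((star u * v : ∀ k, unitary (A k)) k : A k))).re
        + ‖c‖ ^ 2) := by
    intro k
    have h := n2_sub_smul_sq (hσ k) (u k : A k) (v k : A k) c
    rw [n2_unitary (hσ k) (u k).2, n2_unitary (hσ k) (v k).2] at h
    have h1 : ((star u * v : ∀ k, unitary (A k)) k : A k) = star (u k : A k) * (v k : A k) := rfl
    rw [h1, ← Real.sqrt_sq (n2_nonneg (σ k) ((u k : A k) - c • (v k : A k))), h]
    congr 1
    ring
  have e2 : n2 τ ((mod.lam u : M) - c • (mod.lam v : M)) =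
      Real.sqrt (1 - 2 * (c * τ ((mod.lam (star u * v) : M))).re + ‖c‖ ^ 2) := by
    have h := n2_sub_smul_sq hτ (mod.lam u : M) (mod.lam v : M) c
    rw [n2_unitary hτ (mod.lam u).2, n2_unitary hτ (mod.lam v).2] at h
    have h0 : (star u : ∀ k, unitary (A k)) = u⁻¹ := rfl
    have h1 : ((mod.lam (star u * v) : unitary M) : M)
        = star (mod.lam u : M) * (mod.lam v : M) := by
      rw [h0, map_mul, map_inv]
      rfl
    rw [h1, ← Real.sqrt_sq (n2_nonneg τ ((mod.lam u : M) - c • (mod.lam v : M))), h]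
    congr 1
    ring
  rw [e2]
  simp only [e1]
  have h := mod.tr (star u * v)
  have h3 := (Complex.continuous_re.tendsto _).comp (h.const_mul c)
  exact (((tendsto_const_nhds.sub (h3.const_mul 2)).add tendsto_const_nhds).sqrt)

theorem ax2_n2 (hσ : ∀ k, IsTr (σ k)) (hτ : IsTr τ) (mod : UModel A σ τ U)
    (u v : ∀ k, unitary (A k)) :
    Tendsto (fun k => n2 (σ k) ((u k : A k) - (v k : A k))) U
      (𝓝 (n2 τ ((mod.lam u : M) - (mod.lam v : M)))) := by
  have h := ax2_n2_smul hσ hτ mod u v 1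
  simpa using h

theorem ax2_Phi (hσ : ∀ k, IsTr (σ k)) (hτ : IsTr τ) (mod : UModel A σ τ U)
    (c : Fin 2 → Fin 4 → ∀ k, unitary (A k)) (V : Fin 2 → ∀ k, unitary (A k)) (j : Fin 2)
    (u : ∀ k, unitary (A k)) :
    Tendsto (fun k => Phi (σ k) (mkPar (fun j s => c j s k) (fun i => V i k)) j (u k : A k)) U
      (𝓝 (Phi τ (mkPar (fun j s => mod.lam (c j s)) (fun i => mod.lam (V i))) j
        (mod.lam u : M))) := by
  unfold Phi
  refine Tendsto.add (Tendsto.add ?_ ?_) ?_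
  · refine tendsto_finsetSum _ fun s _ => ?_
    have h := ax2_n2 hσ hτ mod (c (1 - j) s * u) (u * c (1 - j) s)
    rw [map_mul, map_mul] at h
    exact h
  · refine tendsto_finsetSum _ fun i _ => tendsto_finsetSum _ fun s _ => ?_
    have h := ax2_n2 hσ hτ mod (c j s * ((V i)⁻¹ * u * V i * u⁻¹))
      (((V i)⁻¹ * u * V i * u⁻¹) * c j s)
    simp only [map_mul, map_inv] at h
    exact h
  · have h := ax2_n2 hσ hτ mod (u ^ 3) 1
    rw [map_pow, map_one] at h
    exact h

theorem axT_down (hσ : ∀ k, IsTr (σ k)) (hτ : IsTr τ) (mod : UModel A σ τ U)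
    (c : Fin 2 → Fin 4 → ∀ k, unitary (A k)) (V : Fin 2 → ∀ k, unitary (A k))
    {ε ε' δ₁ δ₁' δ₂ δ₂' : ℝ} (h1 : ε < ε') (h2 : δ₁ < δ₁') (h3 : δ₂' < δ₂)
    (h : AxT τ (mkPar (fun j s => mod.lam (c j s)) (fun i => mod.lam (V i))) ε δ₁ δ₂) :
    ∀ᶠ k in (U : Filter K), AxT (σ k) (mkPar (fun j s => c j s k) (fun i => V i k)) ε' δ₁' δ₂' := by
  have hlam : ∀ (u : unitary M), ∃ x : ∀ k, unitary (A k), mod.lam x = u := mod.surj
  set b : Par M := mkPar (fun j s => mod.lam (c j s)) (fun i => mod.lam (V i)) with hb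
  -- `Phi` small in the fibres gives `Phi` small in `M`
  have hPhi : ∀ (j : Fin 2) (u : ∀ k, unitary (A k)),
      (∀ᶠ k in (U : Filter K),
        Phi (σ k) (mkPar (fun j s => c j s k) (fun i => V i k)) j (u k : A k) < δ₂') →
      Phi τ b j (mod.lam u : M) < δ₂ := by
    intro j u hu
    refine lt_of_le_of_lt ?_ h3
    exact le_of_tendsto (ax2_Phi hσ hτ mod c V j u) (hu.mono fun k hk => hk.le)
  -- `Phi` small in `M` gives `Phi` small in the fibres
  have hPhi' : ∀ (j : Fin 2) (u : ∀ k, unitary (A k)), Phi τ b j (mod.lam u : M) < δ₁ →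
      ∀ᶠ k in (U : Filter K),
        Phi (σ k) (mkPar (fun j s => c j s k) (fun i => V i k)) j (u k : A k) < δ₁' := by
    intro j u hu
    exact (ax2_Phi hσ hτ mod c V j u).eventually_lt_const (hu.trans h2)
  -- unitary families, pairs
  have hfam : ∀ (P : ∀ k, Fin 2 → unitary (A k) → unitary (A k) → Prop),
      (∀ (j : Fin 2) (u v : ∀ k, unitary (A k)),
        ¬ ∀ᶠ k in (U : Filter K), ¬ P k j (u k) (v k)) →
      ∀ᶠ k in (U : Filter K), ∀ j u v, P k j u v := by
    intro P hP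
    have h4 : ∀ j : Fin 2, ∀ᶠ k in (U : Filter K), ∀ x : unitary (A k) × unitary (A k),
        P k j x.1 x.2 := fun j =>
      ax2_of_not (X := fun k => unitary (A k) × unitary (A k)) (P := fun k x => P k j x.1 x.2)
        fun x hx => hP j (fun k => (x k).1) (fun k => (x k).2) hx
    filter_upwards [h4 0, h4 1] with k hk0 hk1 j u v
    fin_cases j
    · exact hk0 (u, v)
    · exact hk1 (u, v)
  have hmul := hfam (fun k j u v =>
      Phi (σ k) (mkPar (fun j s => c j s k) (fun i => V i k)) j (u : A k) < δ₂' →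
      Phi (σ k) (mkPar (fun j s => c j s k) (fun i => V i k)) j (v : A k) < δ₂' →
      ∃ w ∈ unitary (A k),
        Phi (σ k) (mkPar (fun j s => c j s k) (fun i => V i k)) j w < δ₁' ∧
          n2 (σ k) ((u : A k) * (v : A k) - w) ≤ ε') (by
    intro j u v huv
    simp only [Classical.not_imp] at huv
    obtain ⟨w, hw, hw1, hw2⟩ := h.mul j _ (mod.lam u).2 _ (mod.lam v).2
      (hPhi j u (huv.mono fun k hk => hk.1)) (hPhi j v (huv.mono fun k hk => hk.2.1))
    obtain ⟨w', hw'⟩ := hlam ⟨w, hw⟩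
    have hw'' : (mod.lam w' : M) = w := by rw [hw']
    rw [← hw''] at hw1 hw2
    have h5 := ax2_n2 hσ hτ mod (u * v) w'
    rw [map_mul] at h5
    obtain ⟨k, hk1, hk2, hk3⟩ := (huv.and ((hPhi' j w' hw1).and
      (h5.eventually_lt_const (lt_of_le_of_lt hw2 h1)))).exists
    exact hk1.2.2 ⟨w' k, (w' k).2, hk2, hk3.le⟩)
  have hsep := hfam (fun k j u v =>
      Phi (σ k) (mkPar (fun j s => c j s k) (fun i => V i k)) j (u : A k) < δ₂' →
      Phi (σ k) (mkPar (fun j s => c j s k) (fun i => V i k)) j (v : A k) < δ₂' →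
      n2 (σ k) ((u : A k) - (v : A k)) ≤ ε' ∨ 6 / 5 - ε' ≤ n2 (σ k) ((u : A k) - (v : A k))) (by
    intro j u v huv
    simp only [Classical.not_imp] at huv
    have h5 := ax2_n2 hσ hτ mod u v
    rcases h.sep j _ (mod.lam u).2 _ (mod.lam v).2
      (hPhi j u (huv.mono fun k hk => hk.1)) (hPhi j v (huv.mono fun k hk => hk.2.1)) with h6 | h6
    · obtain ⟨k, hk1, hk2⟩ := (huv.and
        (h5.eventually_lt_const (lt_of_le_of_lt h6 h1))).exists
      exact hk1.2.2 (Or.inl hk2.le)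
    · have h7 : 6 / 5 - ε' < n2 τ ((mod.lam u : M) - (mod.lam v : M)) := by linarith
      obtain ⟨k, hk1, hk2⟩ := (huv.and (h5.eventually_const_lt h7)).exists
      exact hk1.2.2 (Or.inr hk2.le))
  have hcomm := hfam (fun k j u v =>
      Phi (σ k) (mkPar (fun j s => c j s k) (fun i => V i k)) j (u : A k) < δ₂' →
      Phi (σ k) (mkPar (fun j s => c j s k) (fun i => V i k)) j (v : A k) < δ₂' →
      ∃ s : Fin 3, n2 (σ k) ((u : A k) * (v : A k) - om ^ (s : ℕ) • ((v : A k) * (u : A k))) ≤ ε')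
      (by
    intro j u v huv
    simp only [Classical.not_imp] at huv
    obtain ⟨s, hs⟩ := h.comm j _ (mod.lam u).2 _ (mod.lam v).2
      (hPhi j u (huv.mono fun k hk => hk.1)) (hPhi j v (huv.mono fun k hk => hk.2.1))
    have h5 := ax2_n2_smul hσ hτ mod (u * v) (v * u) (om ^ (s : ℕ))
    rw [map_mul, map_mul] at h5
    obtain ⟨k, hk1, hk2⟩ := (huv.and
      (h5.eventually_lt_const (lt_of_le_of_lt hs h1))).exists
    exact hk1.2.2 ⟨s, hk2.le⟩)
  have hnon := hfam (fun k j u _ =>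
      Phi (σ k) (mkPar (fun j s => c j s k) (fun i => V i k)) j (u : A k) < δ₂' →
      (∃ s : Fin 3, n2 (σ k) ((u : A k) - om ^ (s : ℕ) • 1) ≤ ε') ∨
        ∃ v ∈ unitary (A k),
          Phi (σ k) (mkPar (fun j s => c j s k) (fun i => V i k)) j v < δ₁' ∧
            6 / 5 - ε' ≤ n2 (σ k) ((u : A k) * v - v * (u : A k))) (by
    intro j u _ hu
    simp only [Classical.not_imp] at hu
    rcases h.nondeg j _ (mod.lam u).2 (hPhi j u (hu.mono fun k hk => hk.1)) with
      ⟨s, hs⟩ | ⟨v, hv, hv1, hv2⟩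
    · have h5 := ax2_n2_smul hσ hτ mod u 1 (om ^ (s : ℕ))
      rw [map_one] at h5
      obtain ⟨k, hk1, hk2⟩ := (hu.and
        (h5.eventually_lt_const (lt_of_le_of_lt hs h1))).exists
      exact hk1.2 (Or.inl ⟨s, hk2.le⟩)
    · obtain ⟨v', hv'⟩ := hlam ⟨v, hv⟩
      have hv'' : (mod.lam v' : M) = v := by rw [hv']
      rw [← hv''] at hv1 hv2
      have h5 := ax2_n2 hσ hτ mod (u * v') (v' * u)
      rw [map_mul, map_mul] at h5
      have h7 : 6 / 5 - ε' < n2 τ (((mod.lam u * mod.lam v' : unitary M) : M)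
          - ((mod.lam v' * mod.lam u : unitary M) : M)) := by
        refine lt_of_lt_of_le ?_ hv2
        linarith
      obtain ⟨k, hk1, hk2, hk3⟩ := (hu.and ((hPhi' j v' hv1).and
        (h5.eventually_const_lt h7))).exists
      exact hk1.2 (Or.inr ⟨v' k, (v' k).2, hk2, hk3.le⟩))
  have hcross := hfam (fun k _ u v =>
      Phi (σ k) (mkPar (fun j s => c j s k) (fun i => V i k)) 0 (u : A k) < δ₂' →
      Phi (σ k) (mkPar (fun j s => c j s k) (fun i => V i k)) 1 (v : A k) < δ₂' →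
      n2 (σ k) ((u : A k) * (v : A k) - (v : A k) * (u : A k)) ≤ ε') (by
    intro _ u v huv
    simp only [Classical.not_imp] at huv
    have h6 := h.cross _ (mod.lam u).2 _ (mod.lam v).2
      (hPhi 0 u (huv.mono fun k hk => hk.1)) (hPhi 1 v (huv.mono fun k hk => hk.2.1))
    have h5 := ax2_n2 hσ hτ mod (u * v) (v * u)
    rw [map_mul, map_mul] at h5
    obtain ⟨k, hk1, hk2⟩ := (huv.and
      (h5.eventually_lt_const (lt_of_le_of_lt h6 h1))).exists
    exact hk1.2.2 hk2.le)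
  have hirr := hfam (fun k _ x _ =>
      (∀ j, ∀ p ∈ unitary (A k),
        Phi (σ k) (mkPar (fun j s => c j s k) (fun i => V i k)) j p < δ₁' →
          n2 (σ k) ((x : A k) * p - p * (x : A k)) ≤ 1 / 4 - ε') →
      6 / 10 - ε' ≤ ‖σ k (x : A k)‖) (by
    intro _ x _ hx
    simp only [Classical.not_imp] at hx
    have h6 : 6 / 10 - ε ≤ ‖τ (mod.lam x : M)‖ := by
      refine h.irr _ (mod.lam x).2 fun j p hp hp1 => ?_
      obtain ⟨p', hp'⟩ := hlam ⟨p, hp⟩
      have hp'' : (mod.lam p' : M) = p := by rw [hp']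
      rw [← hp''] at hp1 ⊢
      have h5 := ax2_n2 hσ hτ mod (x * p') (p' * x)
      rw [map_mul, map_mul] at h5
      have h8 : n2 τ (((mod.lam x * mod.lam p' : unitary M) : M)
          - ((mod.lam p' * mod.lam x : unitary M) : M)) ≤ 1 / 4 - ε' := by
        refine le_of_tendsto h5 ?_
        filter_upwards [hx, hPhi' j p' hp1] with k hk1 hk2
        exact hk1.1 j (p' k) (p' k).2 hk2
      refine le_trans h8 ?_
      linarith
    have h7 : 6 / 10 - ε' < ‖τ (mod.lam x : M)‖ := by linarith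
    obtain ⟨k, hk1, hk2⟩ := (hx.and ((mod.tr x).norm.eventually_const_lt h7)).exists
    exact hk1.2 hk2.le)
  filter_upwards [hmul, hsep, hcomm, hnon, hcross, hirr] with k k1 k2 k3 k4 k5 k6
  exact
    { unitary_c := fun j s => (c j s k).2
      unitary_U := fun i => (V i k).2
      mul := fun j u hu v hv a1 a2 => k1 j ⟨u, hu⟩ ⟨v, hv⟩ a1 a2
      sep := fun j u hu v hv a1 a2 => k2 j ⟨u, hu⟩ ⟨v, hv⟩ a1 a2
      comm := fun j u hu v hv a1 a2 => k3 j ⟨u, hu⟩ ⟨v, hv⟩ a1 a2
      nondeg := fun j u hu a1 => k4 j ⟨u, hu⟩ 1 a1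
      cross := fun u hu v hv a1 a2 => k5 0 ⟨u, hu⟩ ⟨v, hv⟩ a1 a2
      irr := fun x hx a1 => k6 0 ⟨x, hx⟩ 1 a1 }

end

end Pool.Agent.FG
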