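import Pool.Agent.FG.Lift
import Pool.Agent.FG.AxT
import Pool.Agent.FG.UTransfer

/-!
# FG-ISO3: transfer of the parameters to the matrix algebras (helper58)
-/

set_option autoImplicit false

open Filter Topology
open scoped ComplexOrder

namespace Pool.Agent.FG

section

variable {I : Type} {n : I → Type} [∀ i, Fintype (n i)] [∀ i, DecidableEq (n i)]

/-- a family of unitary matrices as a bounded family -/
noncomputable def iso3_bf (u : ∀ i, unitary (Matrix (n i) (n i) ℂ)) : BF n :=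
  ⟨fun i => (u i : Matrix (n i) (n i) ℂ), 1, fun i => iso2_norm_le (u i).2⟩

theorem iso3_bf_apply (u : ∀ i, unitary (Matrix (n i) (n i) ℂ)) (i : I) :
    (iso3_bf u).1 i = (u i : Matrix (n i) (n i) ℂ) := rfl

theorem iso3_bf_one : iso3_bf (1 : ∀ i, unitary (Matrix (n i) (n i) ℂ)) = 1 := rfl

theorem iso3_bf_mul (u v : ∀ i, unitary (Matrix (n i) (n i) ℂ)) :
    iso3_bf (u * v) = iso3_bf u * iso3_bf v := rfl

theorem iso3_bf_star_mul (u : ∀ i, unitary (Matrix (n i) (n i) ℂ)) :
    star (iso3_bf u) * iso3_bf u = 1 :=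
  Subtype.ext (funext fun i => (Unitary.mem_iff.mp (u i).2).1)

theorem iso3_bf_mul_star (u : ∀ i, unitary (Matrix (n i) (n i) ℂ)) :
    iso3_bf u * star (iso3_bf u) = 1 :=
  Subtype.ext (funext fun i => (Unitary.mem_iff.mp (u i).2).2)

variable {M : Type*} [Ring M] [StarRing M] [Algebra ℂ M] {τ : M →ₗ[ℂ] ℂ} {W : Ultrafilter I}

theorem iso3_unitary (mod : Model n τ W) (u : ∀ i, unitary (Matrix (n i) (n i) ℂ)) :
    mod.pi (iso3_bf u) ∈ unitary M := by
  rw [Unitary.mem_iff, ← map_star, ← map_mul, ← map_mul, iso3_bf_star_mul, iso3_bf_mul_star,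
    map_one]
  exact ⟨rfl, rfl⟩

/-- a model of `M` by matrices gives a model of the unitary group of `M` -/
noncomputable def iso3_umodel (mod : Model n τ W) :
    UModel (fun i => Matrix (n i) (n i) ℂ) (fun i => mtr (n i)) τ W where
  lam :=
    { toFun := fun u => ⟨mod.pi (iso3_bf u), iso3_unitary mod u⟩
      map_one' := Subtype.ext (by
        show mod.pi (iso3_bf 1) = 1
        rw [iso3_bf_one, map_one])
      map_mul' := fun u v => Subtype.ext (by
        show mod.pi (iso3_bf (u * v)) = mod.pi (iso3_bf u) * mod.pi (iso3_bf v)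
        rw [iso3_bf_mul, map_mul]) }
  surj := by
    intro v
    obtain ⟨x, hx, hxv⟩ := lift_unitary mod v.2
    exact ⟨fun i => ⟨x.1 i, hx i⟩, Subtype.ext hxv⟩
  tr := fun u => mod.tr (iso3_bf u)

/-- Transfer of good parameters to the matrix algebras. -/
theorem transfer {I : Type} {n : I → Type} [∀ i, Fintype (n i)] [∀ i, DecidableEq (n i)]
    [∀ i, Nonempty (n i)] {M : Type*} [Ring M] [StarRing M] [Algebra ℂ M] [StarModule ℂ M]
    {τ : M →ₗ[ℂ] ℂ} (hτ : IsTr τ) {W : Ultrafilter I} (mod : Model n τ W) {b : Par M}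
    (hb : Good τ b) {ε : ℝ} (hε : 0 < ε) (hε' : ε ≤ 1 / 8) :
    ∀ᶠ i in (W : Filter I), ∃ D : Fin 2 → Set (Matrix (n i) (n i) ℂ), Ax ε D := by
  have h0 : 0 < min ε (1 / 10) := lt_min hε (by norm_num)
  have h01 : min ε (1 / 10) ≤ ε := min_le_left _ _
  have h0' : min ε (1 / 10) ≤ 1 / 10 := min_le_right _ _
  obtain ⟨δ₂, hδ₂, H⟩ := good_axT hτ hb (ε := min ε (1 / 10) / 2) (by linarith) (by linarith)
  choose c hc using fun (j : Fin 2) (s : Fin 4) =>
    (iso3_umodel mod).surj ⟨b.c j s, hb.unitary_c j s⟩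
  choose V hV using fun (i : Fin 2) => (iso3_umodel mod).surj ⟨b.U i, hb.unitary_U i⟩
  have hbe : b = mkPar (fun j s => (iso3_umodel mod).lam (c j s))
      (fun i => (iso3_umodel mod).lam (V i)) := by
    simp only [hc, hV, mkPar]
  have h1 := H (δ₂ / 8) (by linarith)
  rw [hbe] at h1
  have h2 := axT_down (fun i => isTr_mtr (n i)) hτ (iso3_umodel mod) c V
    (ε' := min ε (1 / 10)) (δ₁' := δ₂ / 4) (δ₂' := δ₂ / 2) (by linarith) (by linarith)
    (by linarith) h1
  filter_upwards [h2] with i hi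
  exact ⟨_, axT_ax h0 h01 h0' hε' (by linarith) (by linarith) hi⟩

end

end Pool.Agent.FG
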