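import Pool.Agent.FG.UPDefs

/-!
Project FG (MP_0c7c15_an), block UP, the bridge (helper20): a C*-algebra with a faithful tracial
state whose unit ball is complete for the 2-norm is a von Neumann algebra on `L2(A)`: it is the
commutant of its right multiplications.
-/

set_option autoImplicit false

open scoped ComplexOrder InnerProductSpace Topology
open Filter UniformSpace

namespace Pool.Agent.FG.UP.Br

section Cut

variable {B : Type*} [CStarAlgebra B] [TracialState B]

/-- an element `x` which is nearly bounded by `C` as an operator on the right is 2-close to a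
bounded element -/
theorem bridge_cut (x : B) (C δ : ℝ) (hC : 0 ≤ C) (hδ : 0 ≤ δ)
    (H : ∀ h : B, nrm2 (x * h) ≤ C * nrm2 h + ‖h‖ * δ) :
    ∃ x' : B, ‖x'‖ ≤ 2 * C + 1 ∧ nrm2 (x - x') ≤ 2 * δ := by
  let _ := CStarAlgebra.spectralOrder B
  let _ := CStarAlgebra.spectralOrderedRing B
  set K : ℝ := 2 * C + 1 with hK
  have hK0 : 0 < K := by positivity
  set c : ℝ := K ^ 2 with hcK
  have hc : 0 < c := by positivity
  set y : B := star x * x with hy
  have hys : IsSelfAdjoint y := IsSelfAdjoint.star_mul_self x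
  have hy0 : 0 ≤ y := star_mul_self_nonneg x
  have hmax : ∀ t : ℝ, 0 < max t c := fun t => lt_of_lt_of_le hc (le_max_right _ _)
  have hcont : Continuous fun t : ℝ => (max t c)⁻¹ :=
    (continuous_id.max continuous_const).inv₀ fun t => (hmax t).ne'
  have hcontg : Continuous fun t : ℝ => c * (max t c)⁻¹ := continuous_const.mul hcont
  have hconth : Continuous fun t : ℝ => 1 - c * (max t c)⁻¹ := continuous_const.sub hcontg
  set g : B := cfc (fun t : ℝ => c * (max t c)⁻¹) y with hg
  set h : B := cfc (fun t : ℝ => 1 - c * (max t c)⁻¹) y with hh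
  have hgs : star g = g := (cfc_predicate (fun t : ℝ => c * (max t c)⁻¹) y)
  have hhs : star h = h := (cfc_predicate (fun t : ℝ => 1 - c * (max t c)⁻¹) y)
  have h1g : h = 1 - g := by
    rw [hg, hh, cfc_sub (fun _ : ℝ => (1 : ℝ)) (fun t : ℝ => c * (max t c)⁻¹) y (by fun_prop)
        hcontg.continuousOn, cfc_const_one ℝ y]
  have hgle : ∀ t : ℝ, c * (max t c)⁻¹ ≤ 1 := fun t => by
    rw [← div_eq_mul_inv, div_le_one (hmax t)]
    exact le_max_right _ _
  have hg0 : ∀ t : ℝ, 0 ≤ c * (max t c)⁻¹ := fun t => by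
    have := hmax t
    positivity
  have hhn : ‖h‖ ≤ 1 := by
    refine norm_cfc_le zero_le_one fun t _ => ?_
    rw [Real.norm_eq_abs, abs_le]
    constructor <;> linarith [hgle t, hg0 t]
  have hlow : c * nrm2 h ^ 2 ≤ nrm2 (x * h) ^ 2 := by
    set k : B := cfc (fun t : ℝ => (1 - c * (max t c)⁻¹) * Real.sqrt (max (t - c) 0)) y with hk
    have hcontk : Continuous fun t : ℝ => (1 - c * (max t c)⁻¹) * Real.sqrt (max (t - c) 0) :=
      hconth.mul (by fun_prop)
    have hks : star k = k :=
      (cfc_predicate (fun t : ℝ => (1 - c * (max t c)⁻¹) * Real.sqrt (max (t - c) 0)) y)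
    have hpos := tau_star_mul_self_re_nonneg k
    have e : star k * k = star (x * h) * (x * h) - (c : ℂ) • (star h * h) := by
      have e1 : star (x * h) * (x * h) =
          cfc (fun t : ℝ => (1 - c * (max t c)⁻¹) * t * (1 - c * (max t c)⁻¹)) y := by
        rw [cfc_mul (fun t : ℝ => (1 - c * (max t c)⁻¹) * t) (fun t : ℝ => 1 - c * (max t c)⁻¹) y
          (hconth.mul continuous_id).continuousOn hconth.continuousOn,
          cfc_mul (fun t : ℝ => 1 - c * (max t c)⁻¹) (fun t : ℝ => t) y hconth.continuousOn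
          (by fun_prop), cfc_id' ℝ y, ← hh, star_mul, hhs, hy]
        noncomm_ring
      have e2 : (c : ℂ) • (star h * h) =
          cfc (fun t : ℝ => c * ((1 - c * (max t c)⁻¹) * (1 - c * (max t c)⁻¹))) y := by
        rw [cfc_const_mul c (fun t : ℝ => (1 - c * (max t c)⁻¹) * (1 - c * (max t c)⁻¹)) y
          (hconth.mul hconth).continuousOn,
          cfc_mul (fun t : ℝ => 1 - c * (max t c)⁻¹) (fun t : ℝ => 1 - c * (max t c)⁻¹) y
          hconth.continuousOn hconth.continuousOn, ← hh, hhs, Complex.coe_smul]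
      have e3 : star k * k = cfc (fun t : ℝ =>
          ((1 - c * (max t c)⁻¹) * Real.sqrt (max (t - c) 0)) *
            ((1 - c * (max t c)⁻¹) * Real.sqrt (max (t - c) 0))) y := by
        rw [cfc_mul _ _ y hcontk.continuousOn hcontk.continuousOn, hks]
      rw [e1, e2, e3, ← cfc_sub
        (fun t : ℝ => (1 - c * (max t c)⁻¹) * t * (1 - c * (max t c)⁻¹))
        (fun t : ℝ => c * ((1 - c * (max t c)⁻¹) * (1 - c * (max t c)⁻¹))) y
        ((hconth.mul continuous_id).mul hconth).continuousOn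
        (continuous_const.mul (hconth.mul hconth)).continuousOn]
      refine cfc_congr fun t _ => ?_
      rcases le_total t c with ht | ht
      · have : 1 - c * (max t c)⁻¹ = 0 := by
          rw [max_eq_right ht, mul_inv_cancel₀ hc.ne', sub_self]
        simp [this]
      · simp only [max_eq_left (sub_nonneg.2 ht)]
        have hsq := Real.mul_self_sqrt (sub_nonneg.2 ht)
        calc ((1 - c * (max t c)⁻¹) * √(t - c)) * ((1 - c * (max t c)⁻¹) * √(t - c))
            = (1 - c * (max t c)⁻¹) * (1 - c * (max t c)⁻¹) * (√(t - c) * √(t - c)) := by ring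
          _ = _ := by rw [hsq]; ring
    rw [e, map_sub, map_smul, smul_eq_mul, Complex.sub_re, Complex.re_ofReal_mul, ← nrm2_sq,
      ← nrm2_sq] at hpos
    linarith
  have hlow' : K * nrm2 h ≤ nrm2 (x * h) := by
    have h4 : (K * nrm2 h) ^ 2 ≤ nrm2 (x * h) ^ 2 := by
      rw [mul_pow]; exact hlow
    exact (sq_le_sq₀ (mul_nonneg hK0.le (nrm2_nonneg _)) (nrm2_nonneg _)).1 h4
  refine ⟨x * g, ?_, ?_⟩
  · have e : star (x * g) * (x * g)
        = cfc (fun t : ℝ => (c * (max t c)⁻¹) * t * (c * (max t c)⁻¹)) y := by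
      rw [cfc_mul (fun t : ℝ => (c * (max t c)⁻¹) * t) (fun t : ℝ => c * (max t c)⁻¹) y
        (hcontg.mul continuous_id).continuousOn hcontg.continuousOn,
        cfc_mul (fun t : ℝ => c * (max t c)⁻¹) (fun t : ℝ => t) y hcontg.continuousOn
        (by fun_prop), cfc_id' ℝ y, ← hg, star_mul, hgs, hy]
      noncomm_ring
    have h5 : ‖x * g‖ ^ 2 ≤ K ^ 2 := by
      rw [sq, ← CStarRing.norm_star_mul_self, e]
      refine norm_cfc_le hc.le fun t ht => ?_
      have ht0 : 0 ≤ t := spectrum_nonneg_of_nonneg hy0 ht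
      rw [Real.norm_of_nonneg (by have := hmax t; positivity)]
      have hle2 : (c * (max t c)⁻¹) * t ≤ c := by
        have : (max t c)⁻¹ * t ≤ 1 := by
          rw [inv_mul_le_iff₀ (hmax t), mul_one]
          exact le_max_left _ _
        calc (c * (max t c)⁻¹) * t = c * ((max t c)⁻¹ * t) := by ring
          _ ≤ c * 1 := mul_le_mul_of_nonneg_left this hc.le
          _ = c := mul_one c
      calc (c * (max t c)⁻¹) * t * (c * (max t c)⁻¹) ≤ c * 1 :=
            mul_le_mul hle2 (hgle t) (hg0 t) hc.le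
        _ = c := mul_one c
    exact (sq_le_sq₀ (norm_nonneg _) hK0.le).1 h5
  · have e : x - x * g = x * h := by
      rw [h1g]; noncomm_ring
    rw [e]
    have h6 := H h
    have h7 : ‖h‖ * δ ≤ δ := mul_le_of_le_one_left hδ hhn
    have h10 := nrm2_nonneg h
    have h8 : (K - C) * nrm2 h ≤ δ := by
      rw [sub_mul]
      linarith
    have h9 : (C + 1) * nrm2 h ≤ δ := by
      have : K - C = C + 1 := by rw [hK]; ring
      rwa [this] at h8
    rw [add_mul, one_mul] at h9
    linarith

end Cut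

/-! ### The Hilbert space `L2 A` -/

section L2

variable (A : Type*) [CStarAlgebra A] [TracialState A]

/-- `A` as a pre-Hilbert space for `⟪x, y⟫ = τ(x* y)` -/
def Pre : Type _ := A

instance : AddCommGroup (Pre A) := inferInstanceAs (AddCommGroup A)
instance : Module ℂ (Pre A) := inferInstanceAs (Module ℂ A)

/-- the identity map -/
noncomputable def toPre : A ≃ₗ[ℂ] Pre A := LinearEquiv.refl ℂ A

/-- the inner product -/
noncomputable abbrev preCore : PreInnerProductSpace.Core ℂ (Pre A) where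
  inner a b := tau (star ((toPre A).symm a) * (toPre A).symm b)
  conj_inner_symm a b := by
    rw [← Complex.star_def, ← tau_star, star_mul, star_star]
  re_inner_nonneg a := tau_star_mul_self_re_nonneg _
  add_left a b c := by rw [map_add, star_add, add_mul, map_add]
  smul_left a b r := by
    rw [map_smul, star_smul, smul_mul_assoc, map_smul, smul_eq_mul, Complex.star_def]

noncomputable instance : SeminormedAddCommGroup (Pre A) :=
  InnerProductSpace.Core.toSeminormedAddCommGroup (c := preCore A)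
noncomputable instance : InnerProductSpace ℂ (Pre A) := InnerProductSpace.ofCore (preCore A)

theorem pre_norm (a : Pre A) : ‖a‖ = nrm2 ((toPre A).symm a) := rfl

/-- The Hilbert space `L2(A)`. -/
abbrev L2 : Type _ := Completion (Pre A)

variable {A}

/-- the map from `A` to `L2 A` -/
noncomputable def emb (a : A) : L2 A := ((toPre A a : Pre A) : L2 A)

theorem emb_add (a b : A) : emb (a + b) = emb a + emb b := by
  unfold emb
  rw [map_add, Completion.coe_add]

theorem emb_sub (a b : A) : emb (a - b) = emb a - emb b := by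
  unfold emb
  rw [map_sub, Completion.coe_sub]

theorem emb_smul (c : ℂ) (a : A) : emb (c • a) = c • emb a := by
  unfold emb
  rw [map_smul, Completion.coe_smul]

theorem norm_emb (a : A) : ‖emb a‖ = nrm2 a := by
  unfold emb
  rw [Completion.norm_coe, pre_norm]
  rfl

theorem inner_emb (a b : A) : ⟪emb a, emb b⟫_ℂ = tau (star a * b) := by
  unfold emb
  rw [Completion.inner_coe]
  rfl

theorem denseRange_emb : DenseRange (emb : A → L2 A) := by
  have h := Completion.denseRange_coe (α := Pre A)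
  intro x
  have h2 := h x
  refine closure_mono ?_ h2
  rintro _ ⟨y, rfl⟩
  exact ⟨(toPre A).symm y, rfl⟩

theorem clm_ext {S T : L2 A →L[ℂ] L2 A} (h : ∀ x, S (emb x) = T (emb x)) : S = T := by
  ext x
  exact congrFun (denseRange_emb.equalizer S.continuous T.continuous (funext h)) x

/-- left multiplication on the pre-Hilbert space -/
noncomputable def lamPre (a : A) : Pre A →L[ℂ] Pre A :=
  ((toPre A).toLinearMap ∘ₗ LinearMap.mulLeft ℂ a ∘ₗ (toPre A).symm.toLinearMap).mkContinuous
    ‖a‖ fun x => nrm2_mul_le_left a ((toPre A).symm x)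

/-- right multiplication on the pre-Hilbert space -/
noncomputable def rhoPre (a : A) : Pre A →L[ℂ] Pre A :=
  ((toPre A).toLinearMap ∘ₗ LinearMap.mulRight ℂ a ∘ₗ (toPre A).symm.toLinearMap).mkContinuous
    ‖a‖ fun x => (nrm2_mul_le_right ((toPre A).symm x) a).trans (mul_comm _ _).le

/-- left multiplication on `L2 A` -/
noncomputable def lamOp (a : A) : L2 A →L[ℂ] L2 A := (lamPre a).completion

/-- right multiplication on `L2 A` -/
noncomputable def rhoOp (a : A) : L2 A →L[ℂ] L2 A := (rhoPre a).completion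

theorem lamOp_emb (a x : A) : lamOp a (emb x) = emb (a * x) := by
  unfold lamOp emb
  rw [ContinuousLinearMap.completion_apply_coe]
  rfl

theorem rhoOp_emb (a x : A) : rhoOp a (emb x) = emb (x * a) := by
  unfold rhoOp emb
  rw [ContinuousLinearMap.completion_apply_coe]
  rfl

theorem norm_rhoOp_le (a : A) (ξ : L2 A) : ‖rhoOp a ξ‖ ≤ ‖a‖ * ‖ξ‖ := by
  refine denseRange_emb.induction_on ξ (isClosed_le (by fun_prop) (by fun_prop)) fun x => ?_
  rw [rhoOp_emb, norm_emb, norm_emb]
  exact (nrm2_mul_le_right x a).trans (mul_comm _ _).le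

theorem adjoint_rhoOp (a : A) : ContinuousLinearMap.adjoint (rhoOp a) = rhoOp (star a) := by
  refine ((ContinuousLinearMap.eq_adjoint_iff (rhoOp (star a)) (rhoOp a)).2 ?_).symm
  intro x y
  refine denseRange_emb.induction_on x (isClosed_eq (by fun_prop) (by fun_prop)) fun x => ?_
  refine denseRange_emb.induction_on y (isClosed_eq (by fun_prop) (by fun_prop)) fun y => ?_
  rw [rhoOp_emb, rhoOp_emb, inner_emb, inner_emb, star_mul, star_star, mul_assoc,
    tau_mul_comm, mul_assoc]

/-- the left regular representation -/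
noncomputable def lam : A →⋆ₐ[ℂ] (L2 A →L[ℂ] L2 A) where
  toFun := lamOp
  map_one' := clm_ext fun x => by rw [lamOp_emb, one_mul]; rfl
  map_mul' a b := clm_ext fun x => by
    rw [lamOp_emb, mul_assoc, ← lamOp_emb, ← lamOp_emb]; rfl
  map_zero' := clm_ext fun x => by
    rw [lamOp_emb, zero_mul]
    exact norm_eq_zero.1 (by rw [norm_emb, nrm2_zero])
  map_add' a b := clm_ext fun x => by
    rw [lamOp_emb, add_mul, emb_add, ← lamOp_emb, ← lamOp_emb]; rfl
  commutes' r := clm_ext fun x => by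
    rw [lamOp_emb, Algebra.algebraMap_eq_smul_one, smul_mul_assoc, one_mul, emb_smul]; rfl
  map_star' a := by
    refine (ContinuousLinearMap.eq_adjoint_iff (lamOp (star a)) (lamOp a)).2 ?_
    intro x y
    refine denseRange_emb.induction_on x (isClosed_eq (by fun_prop) (by fun_prop)) fun x => ?_
    refine denseRange_emb.induction_on y (isClosed_eq (by fun_prop) (by fun_prop)) fun y => ?_
    rw [lamOp_emb, lamOp_emb, inner_emb, inner_emb, star_mul, star_star, mul_assoc]

theorem lam_emb (a x : A) : lam a (emb x) = emb (a * x) := lamOp_emb a x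

theorem lam_injective : Function.Injective (lam : A →⋆ₐ[ℂ] (L2 A →L[ℂ] L2 A)) := by
  intro a b h
  have h1 : lam a (emb 1) = lam b (emb 1) := by rw [h]
  rw [lam_emb, lam_emb, mul_one, mul_one] at h1
  have h2 : ‖emb (a - b)‖ = 0 := by rw [emb_sub, h1, sub_self, norm_zero]
  rw [norm_emb, nrm2_eq_zero_iff] at h2
  exact sub_eq_zero.1 h2

theorem norm_lam (a : A) : ‖lam a‖ = ‖a‖ :=
  NonUnitalStarAlgHom.norm_map (lam : A →⋆ₐ[ℂ] (L2 A →L[ℂ] L2 A)) lam_injective a

theorem lam_rho (a b : A) : lam a * rhoOp b = rhoOp b * lam a := clm_ext fun x => by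
  show lam a (rhoOp b (emb x)) = rhoOp b (lam a (emb x))
  rw [rhoOp_emb, lam_emb, lam_emb, rhoOp_emb, mul_assoc]

/-- The commutation theorem: an operator which commutes with all right multiplications is a
left multiplication. -/
theorem exists_lam (hA : UnitBallComplete A) (T : L2 A →L[ℂ] L2 A)
    (hT : ∀ b, T * rhoOp b = rhoOp b * T) : ∃ a, T = lam a := by
  set ξ : L2 A := T (emb 1) with hξ
  have hTy : ∀ y : A, T (emb y) = rhoOp y ξ := by
    intro y
    have h1 : emb y = rhoOp y (emb (1 : A)) := by rw [rhoOp_emb, one_mul]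
    rw [h1, hξ]
    exact congrArg (fun S : L2 A →L[ℂ] L2 A => S (emb 1)) (hT y)
  set C : ℝ := ‖T‖ with hC
  have hC0 : 0 ≤ C := norm_nonneg T
  set K : ℝ := 2 * C + 1 with hK
  have hK0 : 0 < K := by positivity
  -- bounded approximations
  have happ : ∀ δ : ℝ, 0 < δ → ∃ x : A, ‖x‖ ≤ K ∧ ‖emb x - ξ‖ ≤ 3 * δ := by
    intro δ hδ
    obtain ⟨x, hx⟩ := Metric.denseRange_iff.1 (denseRange_emb (A := A)) ξ δ hδ
    rw [dist_comm, dist_eq_norm] at hx
    have H : ∀ h : A, nrm2 (x * h) ≤ C * nrm2 h + ‖h‖ * δ := by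
      intro h
      have h1 : emb (x * h) = T (emb h) + rhoOp h (emb x - ξ) := by
        rw [map_sub, rhoOp_emb, hTy]
        abel
      rw [← norm_emb, h1]
      refine (norm_add_le _ _).trans (add_le_add ?_ ?_)
      · rw [← norm_emb]
        exact T.le_opNorm _
      · exact (norm_rhoOp_le h _).trans (mul_le_mul_of_nonneg_left hx.le (norm_nonneg h))
    obtain ⟨x', hx1, hx2⟩ := bridge_cut x C δ hC0 hδ.le H
    refine ⟨x', hx1, ?_⟩
    have h2 : emb x' - ξ = (emb x - ξ) - emb (x - x') := by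
      rw [emb_sub]
      abel
    rw [h2]
    refine (norm_sub_le _ _).trans ?_
    rw [norm_emb]
    linarith
  choose x hx1 hx2 using fun n : ℕ => happ (1 / ((n : ℝ) + 1)) (by positivity)
  -- rescale
  set s : ℕ → A := fun n => ((K⁻¹ : ℝ) : ℂ) • x n with hs
  have hs1 : ∀ n, ‖s n‖ ≤ 1 := by
    intro n
    rw [hs]
    simp only
    rw [norm_smul, Complex.norm_real, Real.norm_of_nonneg (inv_nonneg.2 hK0.le),
      inv_mul_le_iff₀ hK0, mul_one]
    exact hx1 n
  have hlim : Tendsto (fun n => emb (x n)) atTop (𝓝 ξ) := by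
    rw [tendsto_iff_norm_sub_tendsto_zero]
    refine squeeze_zero (fun n => norm_nonneg _) hx2 ?_
    have := tendsto_one_div_add_atTop_nhds_zero_nat (𝕜 := ℝ)
    simpa using this.const_mul 3
  have hlims : Tendsto (fun n => emb (s n)) atTop (𝓝 (((K⁻¹ : ℝ) : ℂ) • ξ)) := by
    have := hlim.const_smul (((K⁻¹ : ℝ) : ℂ))
    refine this.congr fun n => ?_
    rw [hs]
    simp only
    rw [emb_smul]
  have hcau : ∀ ε : ℝ, 0 < ε → ∃ n₀ : ℕ, ∀ m n : ℕ, n₀ ≤ m → n₀ ≤ n →
      nrm2 (s m - s n) ≤ ε := by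
    intro ε hε
    obtain ⟨n₀, hn⟩ := Metric.cauchySeq_iff.1 hlims.cauchySeq ε hε
    refine ⟨n₀, fun m n hm hn' => ?_⟩
    have := (hn m hm n hn').le
    rwa [dist_eq_norm, ← emb_sub, norm_emb] at this
  obtain ⟨a, -, ha⟩ := hA s hs1 hcau
  have ha' : Tendsto (fun n => emb (s n)) atTop (𝓝 (emb a)) := by
    rw [tendsto_iff_norm_sub_tendsto_zero]
    refine ha.congr fun n => ?_
    rw [← emb_sub, norm_emb]
  have hKξ : emb a = ((K⁻¹ : ℝ) : ℂ) • ξ := tendsto_nhds_unique ha' hlims
  have hξ' : ξ = emb ((K : ℂ) • a) := by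
    rw [emb_smul, hKξ, smul_smul, ← Complex.ofReal_mul, mul_inv_cancel₀ hK0.ne',
      Complex.ofReal_one, one_smul]
  refine ⟨(K : ℂ) • a, clm_ext fun y => ?_⟩
  rw [hTy, hξ', rhoOp_emb, lam_emb]

/-- The von Neumann algebra of left multiplications: the commutant of the right
multiplications. -/
noncomputable def vN (A : Type*) [CStarAlgebra A] [TracialState A] : VonNeumannAlgebra (L2 A) where
  toStarSubalgebra := StarSubalgebra.centralizer ℂ (Set.range (rhoOp : A → L2 A →L[ℂ] L2 A))
  centralizer_centralizer' := by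
    exact Set.centralizer_centralizer_centralizer
      (Set.range (rhoOp : A → L2 A →L[ℂ] L2 A) ∪ star (Set.range (rhoOp : A → L2 A →L[ℂ] L2 A)))

theorem mem_vN_iff {T : L2 A →L[ℂ] L2 A} : T ∈ vN A ↔ ∀ b : A, T * rhoOp b = rhoOp b * T := by
  have h0 : T ∈ vN A ↔
      T ∈ StarSubalgebra.centralizer ℂ (Set.range (rhoOp : A → L2 A →L[ℂ] L2 A)) := Iff.rfl
  rw [h0, StarSubalgebra.mem_centralizer_iff]
  constructor
  · intro h b
    exact ((h (rhoOp b) ⟨b, rfl⟩).1).symm
  · rintro h _ ⟨b, rfl⟩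
    refine ⟨(h b).symm, ?_⟩
    have h1 : star (rhoOp b) = rhoOp (star b) := adjoint_rhoOp b
    rw [h1]
    exact (h (star b)).symm

theorem lam_mem_vN (a : A) : lam a ∈ vN A := mem_vN_iff.2 fun b => lam_rho a b

theorem exists_lam_of_mem (hA : UnitBallComplete A) {T : L2 A →L[ℂ] L2 A} (hT : T ∈ vN A) :
    ∃ a, T = lam a := exists_lam hA T (mem_vN_iff.1 hT)

/-- the left regular representation as a map into `vN A` -/
noncomputable def lamN : A →⋆ₐ[ℂ] (vN A).toStarSubalgebra :=
  StarAlgHom.codRestrict lam (vN A).toStarSubalgebra fun a => lam_mem_vN a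

theorem coe_lamN (a : A) : ((lamN a : (vN A).toStarSubalgebra) : L2 A →L[ℂ] L2 A) = lam a := rfl

theorem lamN_injective : Function.Injective (lamN : A →⋆ₐ[ℂ] (vN A).toStarSubalgebra) := by
  intro a b h
  apply lam_injective
  rw [← coe_lamN, ← coe_lamN, h]

theorem lamN_surjective (hA : UnitBallComplete A) :
    Function.Surjective (lamN : A →⋆ₐ[ℂ] (vN A).toStarSubalgebra) := by
  intro T
  obtain ⟨a, ha⟩ := exists_lam_of_mem hA T.2
  exact ⟨a, Subtype.ext ha.symm⟩

theorem norm_lamN (a : A) : ‖(lamN a : (vN A).toStarSubalgebra)‖ = ‖a‖ := norm_lam a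

/-- the vector trace -/
noncomputable def vecTr (A : Type*) [CStarAlgebra A] [TracialState A] :
    (vN A).toStarSubalgebra →ₗ[ℂ] ℂ where
  toFun T := ⟪emb (1 : A), (T : L2 A →L[ℂ] L2 A) (emb 1)⟫_ℂ
  map_add' S T := by
    show ⟪emb (1 : A), (S : L2 A →L[ℂ] L2 A) (emb 1) + (T : L2 A →L[ℂ] L2 A) (emb 1)⟫_ℂ = _
    rw [inner_add_right]
  map_smul' c T := by
    show ⟪emb (1 : A), c • (T : L2 A →L[ℂ] L2 A) (emb 1)⟫_ℂ = _
    rw [inner_smul_right]
    rfl

theorem vecTr_lamN (a : A) : vecTr A (lamN a) = tau a := by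
  show ⟪emb (1 : A), lam a (emb 1)⟫_ℂ = tau a
  rw [lam_emb, mul_one, inner_emb, star_one, one_mul]

end L2

end Pool.Agent.FG.UP.Br
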