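import Pool.Agent.FG.UPDefs

/-!
# Project FG, row FG-UP4: an ultraproduct of matrix algebras has trivial centre
-/

set_option autoImplicit false

open scoped ENNReal ComplexOrder Topology Matrix.Norms.L2Operator

namespace Pool.Agent.FG.UP

section Comm

variable {n : Type*} [Fintype n] [DecidableEq n] [Nonempty n]

omit [Nonempty n] in
private theorem up4_signs (w : n → n → ℝ) :
    ∃ s : n → ℤˣ, 2 * ∑ i, ∑ j, (if i = j then 0 else w i j) ≤
      ∑ i, ∑ j, w i j * (((s j : ℤ) : ℝ) - ((s i : ℤ) : ℝ)) ^ 2 := by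
  classical
  have hne : (Finset.univ : Finset (n → ℤˣ)).Nonempty := ⟨1, Finset.mem_univ _⟩
  have hsq : ∀ a : ℤˣ, (((a : ℤ) : ℝ)) ^ 2 = 1 := by
    intro a
    rcases Int.units_eq_one_or a with h | h <;> simp [h]
  have havg : ∀ i j : n, i ≠ j →
      ∑ s : n → ℤˣ, (((s j : ℤ) : ℝ) - ((s i : ℤ) : ℝ)) ^ 2 = ∑ _s : n → ℤˣ, (2 : ℝ) := by
    intro i j hij
    have e1 : ∑ s : n → ℤˣ, (((s j : ℤ) : ℝ) - ((s i : ℤ) : ℝ)) ^ 2 =
        ∑ s : n → ℤˣ, (((s j : ℤ) : ℝ) + ((s i : ℤ) : ℝ)) ^ 2 := by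
      rw [← Equiv.sum_comp (Equiv.mulLeft (Pi.mulSingle i (-1 : ℤˣ)))]
      refine Finset.sum_congr rfl fun s _ => ?_
      simp [Pi.mulSingle_eq_of_ne (Ne.symm hij)]
    have e2 : ∀ s : n → ℤˣ, (((s j : ℤ) : ℝ) - ((s i : ℤ) : ℝ)) ^ 2 +
        (((s j : ℤ) : ℝ) + ((s i : ℤ) : ℝ)) ^ 2 = 4 := by
      intro s
      have h1 := hsq (s i)
      have h2 := hsq (s j)
      nlinarith
    have e3 : ∑ s : n → ℤˣ, ((((s j : ℤ) : ℝ) - ((s i : ℤ) : ℝ)) ^ 2 +
        (((s j : ℤ) : ℝ) + ((s i : ℤ) : ℝ)) ^ 2) = ∑ _s : n → ℤˣ, (4 : ℝ) :=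
      Finset.sum_congr rfl fun s _ => e2 s
    rw [Finset.sum_add_distrib, ← e1] at e3
    simp only [Finset.sum_const, nsmul_eq_mul] at e3 ⊢
    linarith
  obtain ⟨s, -, hs⟩ := Finset.exists_le_of_sum_le hne
    (f := fun _ : n → ℤˣ => 2 * ∑ i, ∑ j, (if i = j then 0 else w i j))
    (g := fun s : n → ℤˣ => ∑ i, ∑ j, w i j * (((s j : ℤ) : ℝ) - ((s i : ℤ) : ℝ)) ^ 2) (by
      apply le_of_eq
      have hcomm : ∀ F : (n → ℤˣ) → n → n → ℝ,
          ∑ s, ∑ i, ∑ j, F s i j = ∑ i, ∑ j, ∑ s, F s i j := by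
        intro F
        rw [Finset.sum_comm]
        refine Finset.sum_congr rfl fun i _ => ?_
        rw [Finset.sum_comm]
      simp only [Finset.mul_sum]
      rw [hcomm, hcomm]
      refine Finset.sum_congr rfl fun i _ => Finset.sum_congr rfl fun j _ => ?_
      by_cases hij : i = j
      · subst hij
        simp
      · simp only [if_neg hij]
        have e := havg i j hij
        rw [← Finset.mul_sum (f := fun s : n → ℤˣ =>
          (((s j : ℤ) : ℝ) - ((s i : ℤ) : ℝ)) ^ 2), e, Finset.mul_sum]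
        refine Finset.sum_congr rfl fun _ _ => ?_
        ring)
  exact ⟨s, hs⟩

omit [DecidableEq n] in
private theorem up4_perm (d : n → ℂ) (t : ℂ) (ht : (Fintype.card n : ℂ) * t = ∑ i, d i) :
    ∃ σ : Equiv.Perm n, 2 * ∑ i, ‖d i - t‖ ^ 2 ≤ ∑ i, ‖d i - d (σ i)‖ ^ 2 := by
  classical
  have hN : NeZero (Fintype.card n) := ⟨Fintype.card_ne_zero⟩
  let e : n ≃ Fin (Fintype.card n) := Fintype.equivFin n
  let sh : Fin (Fintype.card n) → Equiv.Perm n := fun k => (e.trans (Equiv.addRight k)).trans e.symm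
  have hne : (Finset.univ : Finset (Fin (Fintype.card n))).Nonempty := ⟨0, Finset.mem_univ _⟩
  have key : ∑ i, ∑ j, ‖d i - d j‖ ^ 2 = (Fintype.card n : ℝ) * (2 * ∑ i, ‖d i - t‖ ^ 2) := by
    have hzero : ∑ i, (d i - t) = 0 := by
      rw [Finset.sum_sub_distrib, ← ht]
      simp
    have e1 : ∀ i j, ‖d i - d j‖ ^ 2 = ‖d i - t‖ ^ 2 - 2 * inner ℝ (d i - t) (d j - t) +
        ‖d j - t‖ ^ 2 := by
      intro i j
      rw [← norm_sub_sq_real]
      congr 2
      ring
    simp only [e1, Finset.sum_add_distrib, Finset.sum_sub_distrib]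
    have e2 : ∑ i, ∑ j, 2 * inner ℝ (d i - t) (d j - t) = (0 : ℝ) := by
      have : ∀ i, ∑ j, 2 * inner ℝ (d i - t) (d j - t) = (0 : ℝ) := by
        intro i
        rw [← Finset.mul_sum, ← inner_sum, hzero, inner_zero_right, mul_zero]
      exact Finset.sum_eq_zero fun i _ => this i
    rw [e2]
    simp only [Finset.sum_const, Finset.card_univ, nsmul_eq_mul]
    rw [← Finset.mul_sum]
    ring
  obtain ⟨k, -, hk⟩ := Finset.exists_le_of_sum_le hne
    (f := fun _ : Fin (Fintype.card n) => 2 * ∑ i, ‖d i - t‖ ^ 2)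
    (g := fun k => ∑ i, ‖d i - d (sh k i)‖ ^ 2) (by
      apply le_of_eq
      rw [Finset.sum_comm]
      have e1 : ∀ i, ∑ k, ‖d i - d (sh k i)‖ ^ 2 = ∑ j, ‖d i - d j‖ ^ 2 := by
        intro i
        have := Equiv.sum_comp ((Equiv.addLeft (e i)).trans e.symm) (fun j => ‖d i - d j‖ ^ 2)
        rw [← this]
        rfl
      simp only [e1]
      rw [key]
      simp)
  exact ⟨sh k, hk⟩

omit [Nonempty n] in
private theorem up4_diag_unitary (s : n → ℤˣ) :
    Matrix.diagonal (fun i => ((s i : ℤ) : ℂ)) ∈ unitary (Matrix n n ℂ) := by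
  have h : ∀ i, ((s i : ℤ) : ℂ) * ((s i : ℤ) : ℂ) = 1 := by
    intro i
    rcases Int.units_eq_one_or (s i) with h | h <;> simp [h]
  have hs : star (Matrix.diagonal (fun i => ((s i : ℤ) : ℂ))) =
      Matrix.diagonal (fun i => ((s i : ℤ) : ℂ)) := by
    rw [Matrix.star_eq_conjTranspose, Matrix.diagonal_conjTranspose]
    congr 1
    funext i
    simp
  have h2 : Matrix.diagonal (fun i => ((s i : ℤ) : ℂ)) * Matrix.diagonal (fun i => ((s i : ℤ) : ℂ))
      = 1 := by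
    rw [Matrix.diagonal_mul_diagonal]
    simp [h]
  exact ⟨by rw [hs, h2], by rw [hs, h2]⟩

omit [Nonempty n] in
private theorem up4_perm_unitary (σ : Equiv.Perm n) :
    (Matrix.of fun i j => if σ i = j then (1 : ℂ) else 0) ∈ unitary (Matrix n n ℂ) := by
  refine Matrix.mem_unitaryGroup_iff'.mpr ?_
  ext i j
  rw [Matrix.mul_apply]
  simp only [Matrix.star_apply, Matrix.of_apply]
  rw [Matrix.one_apply]
  have e1 : ∀ k, star (if σ k = i then (1 : ℂ) else 0) * (if σ k = j then (1 : ℂ) else 0) =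
      (fun k' => if k' = i then (if i = j then (1 : ℂ) else 0) else 0) (σ k) := by
    intro k
    by_cases h : σ k = i
    · simp [h]
    · simp [h]
  rw [Finset.sum_congr rfl fun k _ => e1 k,
    Equiv.sum_comp σ (fun k' => if k' = i then (if i = j then (1 : ℂ) else 0) else 0)]
  simp

theorem exists_unitary_commutator_ge (x : Matrix n n ℂ) :
    ∃ u ∈ unitary (Matrix n n ℂ),
      nrm2 (x - tau x • (1 : Matrix n n ℂ)) ≤ 2 * nrm2 (x * u - u * x) := by
  classical
  set t : ℂ := tau x with ht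
  have hcard : (Fintype.card n : ℂ) ≠ 0 := by exact_mod_cast Fintype.card_ne_zero
  have hcard' : (0 : ℝ) < Fintype.card n := by exact_mod_cast Fintype.card_pos
  have htr : (Fintype.card n : ℂ) * t = ∑ i, x i i := by
    rw [ht, tau_matrix, mul_inv_cancel_left₀ hcard]
    rfl
  -- reduce to an inequality between sums
  have hred : ∀ u : Matrix n n ℂ,
      ∑ i, ∑ j, ‖(x - t • (1 : Matrix n n ℂ)) i j‖ ^ 2 ≤
        4 * ∑ i, ∑ j, ‖(x * u - u * x) i j‖ ^ 2 →
      nrm2 (x - t • (1 : Matrix n n ℂ)) ≤ 2 * nrm2 (x * u - u * x) := by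
    intro u hu
    rw [nrm2_matrix, nrm2_matrix]
    have h4 : (2 : ℝ) = Real.sqrt 4 := by
      rw [show (4 : ℝ) = 2 ^ 2 by norm_num, Real.sqrt_sq (by norm_num)]
    rw [h4, ← Real.sqrt_mul (by norm_num)]
    apply Real.sqrt_le_sqrt
    rw [mul_div_assoc']
    exact div_le_div_of_nonneg_right hu hcard'.le
  set off : ℝ := ∑ i, ∑ j, (if i = j then 0 else ‖x i j‖ ^ 2) with hoff
  set dg : ℝ := ∑ i, ‖x i i - t‖ ^ 2 with hdg
  have hsplit : ∑ i, ∑ j, ‖(x - t • (1 : Matrix n n ℂ)) i j‖ ^ 2 = off + dg := by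
    rw [hoff, hdg, ← Finset.sum_add_distrib]
    refine Finset.sum_congr rfl fun i _ => ?_
    have : ‖x i i - t‖ ^ 2 = ∑ j, (if i = j then ‖x i i - t‖ ^ 2 else 0) := by simp
    rw [this, ← Finset.sum_add_distrib]
    refine Finset.sum_congr rfl fun j _ => ?_
    by_cases h : i = j
    · subst h
      simp
    · simp [h]
  have hoff0 : 0 ≤ off := Finset.sum_nonneg fun i _ => Finset.sum_nonneg fun j _ => by
    split_ifs
    · exact le_rfl
    · positivity
  have hdg0 : 0 ≤ dg := Finset.sum_nonneg fun i _ => by positivity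
  rcases le_total dg off with hle | hle
  · obtain ⟨s, hs⟩ := up4_signs (fun i j => ‖x i j‖ ^ 2)
    refine ⟨_, up4_diag_unitary s, hred _ ?_⟩
    rw [hsplit]
    have e : ∑ i, ∑ j, ‖(x * Matrix.diagonal (fun i => ((s i : ℤ) : ℂ)) -
        Matrix.diagonal (fun i => ((s i : ℤ) : ℂ)) * x) i j‖ ^ 2 =
        ∑ i, ∑ j, ‖x i j‖ ^ 2 * (((s j : ℤ) : ℝ) - ((s i : ℤ) : ℝ)) ^ 2 := by
      refine Finset.sum_congr rfl fun i _ => Finset.sum_congr rfl fun j _ => ?_
      rw [Matrix.sub_apply, Matrix.mul_diagonal, Matrix.diagonal_mul]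
      have : x i j * ((s j : ℤ) : ℂ) - ((s i : ℤ) : ℂ) * x i j =
          x i j * (((((s j : ℤ) : ℝ) - ((s i : ℤ) : ℝ)) : ℝ) : ℂ) := by
        push_cast; ring
      rw [this, norm_mul, mul_pow, Complex.norm_real, Real.norm_eq_abs, sq_abs]
    rw [e]
    linarith
  · obtain ⟨σ, hσ⟩ := up4_perm (fun i => x i i) t htr
    refine ⟨_, up4_perm_unitary σ, hred _ ?_⟩
    rw [hsplit]
    have e : ∑ i, ‖x i i - x (σ i) (σ i)‖ ^ 2 ≤
        ∑ i, ∑ j, ‖(x * (Matrix.of fun i j => if σ i = j then (1 : ℂ) else 0) -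
          (Matrix.of fun i j => if σ i = j then (1 : ℂ) else 0) * x) i j‖ ^ 2 := by
      refine Finset.sum_le_sum fun i _ => ?_
      refine le_trans (le_of_eq ?_) (Finset.single_le_sum (f := fun j =>
        ‖(x * (Matrix.of fun i j => if σ i = j then (1 : ℂ) else 0) -
          (Matrix.of fun i j => if σ i = j then (1 : ℂ) else 0) * x) i j‖ ^ 2)
        (fun j _ => by positivity) (Finset.mem_univ (σ i)))
      rw [Matrix.sub_apply, Matrix.mul_apply, Matrix.mul_apply]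
      simp only [Matrix.of_apply, EmbeddingLike.apply_eq_iff_eq]
      simp
    linarith

end Comm

theorem center_ultraproduct_matrix {ι : Type*} (n : ι → Type) [∀ i, Fintype (n i)]
    [∀ i, DecidableEq (n i)] [∀ i, Nonempty (n i)] (W : Ultrafilter ι)
    (z : Ultraproduct (fun i => Matrix (n i) (n i) ℂ) W) (hz : ∀ x, z * x = x * z) :
    ∃ c : ℂ, z = c • (1 : Ultraproduct (fun i => Matrix (n i) (n i) ℂ) W) := by
  obtain ⟨x, rfl⟩ := Ultraproduct.mk_surjective _ W z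
  choose u hu hux using fun i => exists_unitary_commutator_ge (x i)
  have hun : ∀ i, ‖u i‖ ≤ 1 := fun i => (CStarRing.norm_of_mem_unitary (hu i)).le
  have hmem : Memℓp u ∞ := memℓp_infty ⟨1, by rintro _ ⟨i, rfl⟩; exact hun i⟩
  let v : lp (fun i => Matrix (n i) (n i) ℂ) ∞ := ⟨u, hmem⟩
  have h1 := hz (Ultraproduct.mk _ W v)
  rw [← map_mul, ← map_mul, Ultraproduct.mk_eq_mk_iff] at h1
  have h2 : Filter.Tendsto (fun i => nrm2 (x i - tau (x i) • (1 : Matrix (n i) (n i) ℂ))) W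
      (𝓝 0) := by
    have h3 : Filter.Tendsto (fun i => 2 * nrm2 (x i * u i - u i * x i)) W (𝓝 0) := by
      have := Filter.Tendsto.const_mul 2 h1
      rw [mul_zero] at this
      exact this
    exact squeeze_zero (fun i => nrm2_nonneg _) hux h3
  have h4 := Ultraproduct.tendsto_tau _ W x
  set c : ℂ := tau (Ultraproduct.mk _ W x) with hc
  refine ⟨c, ?_⟩
  have h5 : c • (1 : Ultraproduct (fun i => Matrix (n i) (n i) ℂ) W) =
      Ultraproduct.mk _ W (c • 1) := by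
    rw [map_smul, map_one]
  rw [h5, Ultraproduct.mk_eq_mk_iff]
  have h6 : Filter.Tendsto (fun i => ‖tau (x i) - c‖) W (𝓝 0) := by
    have := (h4.sub_const c).norm
    simpa using this
  have h7 : Filter.Tendsto (fun i => nrm2 (x i - tau (x i) • (1 : Matrix (n i) (n i) ℂ)) +
      ‖tau (x i) - c‖) W (𝓝 0) := by
    simpa using h2.add h6
  refine squeeze_zero (fun i => nrm2_nonneg _) (fun i => ?_) h7
  have e : x i - (c • (1 : lp (fun i => Matrix (n i) (n i) ℂ) ∞)) i =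
      (x i - tau (x i) • (1 : Matrix (n i) (n i) ℂ)) +
        (tau (x i) - c) • (1 : Matrix (n i) (n i) ℂ) := by
    have : (c • (1 : lp (fun i => Matrix (n i) (n i) ℂ) ∞)) i =
        c • (1 : Matrix (n i) (n i) ℂ) := rfl
    rw [this, sub_smul]
    abel
  rw [e]
  refine (nrm2_add_le _ _).trans ?_
  rw [nrm2_smul, nrm2_one, mul_one]

end Pool.Agent.FG.UP
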