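import Pool.Agent.FG.UPDefs

/-!
# The unit ball of a tracial ultraproduct over `ℕ` is complete for the 2-norm

Block UP of project FG (MP_0c7c15_an).
-/

set_option autoImplicit false

open scoped ENNReal ComplexOrder Topology

namespace Pool.Agent.FG.UP

/-- telescoping along good steps -/
private theorem up1_telescope {A : Type*} [CStarAlgebra A] [TracialState A] (z : ℕ → A) (k : ℕ) :
    ∀ K, k ≤ K → (∀ j, j < K → nrm2 (z j - z (j + 1)) < (1 / 2 : ℝ) ^ j) →
      nrm2 (z k - z K) ≤ 2 * (1 / 2 : ℝ) ^ k - 2 * (1 / 2 : ℝ) ^ K := by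
  intro K hK
  induction K, hK using Nat.le_induction with
  | base =>
    intro _
    rw [sub_self, nrm2_zero, sub_self]
  | succ K hK ih =>
    intro h
    have h1 := ih fun j hj => h j (Nat.lt_succ_of_lt hj)
    have h2 := h K (Nat.lt_succ_self K)
    have h3 : z k - z (K + 1) = (z k - z K) + (z K - z (K + 1)) := by abel
    have h4 := nrm2_add_le (z k - z K) (z K - z (K + 1))
    rw [← h3] at h4
    have h5 : (1 / 2 : ℝ) ^ (K + 1) = (1 / 2 : ℝ) ^ K / 2 := by
      rw [pow_succ]; ring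
    rw [h5]
    linarith

/-- The operator norm unit ball of a tracial ultraproduct along a free ultrafilter on `ℕ` is
complete for the 2-norm. -/
theorem unitBallComplete_ultraproduct (A : ℕ → Type*) [∀ i, CStarAlgebra (A i)]
    [∀ i, TracialState (A i)] (U : Ultrafilter ℕ) (hU : (U : Filter ℕ) ≤ Filter.cofinite) :
    UnitBallComplete (Ultraproduct A U) := by
  classical
  intro s hs hc
  have hpos : ∀ k : ℕ, 0 < (1 / 2 : ℝ) ^ k := fun k => by positivity
  choose N hN using fun k : ℕ => hc ((1 / 2 : ℝ) ^ k / 2) (half_pos (hpos k))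
  -- a subsequence
  set φ : ℕ → ℕ := fun k => ∑ j ∈ Finset.range (k + 1), N j with hφ
  have hφN : ∀ k, N k ≤ φ k := fun k =>
    Finset.single_le_sum (f := N) (fun _ _ => Nat.zero_le _) (Finset.self_mem_range_succ k)
  have hφs : ∀ k, φ k ≤ φ (k + 1) := fun k => by
    simp only [hφ]
    rw [Finset.sum_range_succ N (k + 1)]
    exact Nat.le_add_right _ _
  have hstep : ∀ k, nrm2 (s (φ k) - s (φ (k + 1))) < (1 / 2 : ℝ) ^ k := by
    intro k
    have h := hN k (φ k) (φ (k + 1)) (hφN k) ((hφN k).trans (hφs k))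
    linarith [hpos k]
  -- lifts
  have hlift : ∀ k : ℕ, ∃ y : lp A ∞, Ultraproduct.mk A U y = s (φ k) ∧
      ‖y‖ ≤ 1 + 1 / ((k : ℝ) + 1) := by
    intro k
    have hk : 0 < 1 / ((k : ℝ) + 1) := by positivity
    obtain ⟨y, hy, hyn⟩ := Ultraproduct.exists_lift_norm_lt A U (s (φ k)) hk
    exact ⟨y, hy, by linarith [hs (φ k)]⟩
  choose x hx hxn using hlift
  have hxi : ∀ k i, ‖x k i‖ ≤ 1 + 1 / ((k : ℝ) + 1) := fun k i =>
    (lp.norm_apply_le_norm ENNReal.top_ne_zero (x k) i).trans (hxn k)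
  have hE : ∀ j, ∀ᶠ i in (U : Filter ℕ), nrm2 (x j i - x (j + 1) i) < (1 / 2 : ℝ) ^ j := by
    intro j
    have h := Ultraproduct.tendsto_nrm2 A U (x j - x (j + 1))
    rw [map_sub, hx, hx] at h
    exact h.eventually_lt_const (hstep j)
  have hF : ∀ k : ℕ, ∀ᶠ i in (U : Filter ℕ), k ≤ i ∧
      ∀ j, j < k → nrm2 (x j i - x (j + 1) i) < (1 / 2 : ℝ) ^ j := by
    intro k
    have h1 : ∀ᶠ i in (U : Filter ℕ), k ≤ i := by
      have : ∀ᶠ i in Filter.cofinite, k ≤ i := by
        rw [Nat.cofinite_eq_atTop]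
        exact Filter.eventually_ge_atTop k
      exact hU this
    have h2 : ∀ᶠ i in (U : Filter ℕ), ∀ j ∈ Finset.range k,
        nrm2 (x j i - x (j + 1) i) < (1 / 2 : ℝ) ^ j :=
      (Filter.eventually_all_finset (Finset.range k)).2 fun j _ => hE j
    filter_upwards [h1, h2] with i hi1 hi2
    exact ⟨hi1, fun j hj => hi2 j (Finset.mem_range.2 hj)⟩
  -- the diagonal family
  set P : ℕ → ℕ → Prop := fun i k =>
    ∀ j, j < k → nrm2 (x j i - x (j + 1) i) < (1 / 2 : ℝ) ^ j with hP
  set K : ℕ → ℕ := fun i => Nat.findGreatest (P i) i with hK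
  have hPK : ∀ i, P i (K i) := fun i =>
    Nat.findGreatest_spec (P := P i) (Nat.zero_le i) (fun j hj => absurd hj (Nat.not_lt_zero j))
  have hKk : ∀ k : ℕ, ∀ᶠ i in (U : Filter ℕ), k ≤ K i := by
    intro k
    filter_upwards [hF k] with i hi
    exact Nat.le_findGreatest hi.1 hi.2
  have hanti : ∀ k l : ℕ, k ≤ l → 1 / ((l : ℝ) + 1) ≤ 1 / ((k : ℝ) + 1) := by
    intro k l hkl
    have hkl' : (k : ℝ) ≤ l := by exact_mod_cast hkl
    exact one_div_le_one_div_of_le (by positivity) (by linarith)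
  have hyb : ∀ i, ‖x (K i) i‖ ≤ 2 := by
    intro i
    have h1 := hxi (K i) i
    have h2 := hanti 0 (K i) (Nat.zero_le _)
    simp only [Nat.cast_zero, zero_add, div_one] at h2
    linarith
  have hmem : Memℓp (fun i => x (K i) i) ∞ :=
    memℓp_infty ⟨2, by rintro _ ⟨i, rfl⟩; exact hyb i⟩
  set y : lp A ∞ := ⟨fun i => x (K i) i, hmem⟩ with hy
  have hyi : ∀ i, y i = x (K i) i := fun _ => rfl
  -- distance to the subsequence
  have hdist : ∀ k : ℕ, nrm2 (s (φ k) - Ultraproduct.mk A U y) ≤ 2 * (1 / 2 : ℝ) ^ k := by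
    intro k
    have h := Ultraproduct.tendsto_nrm2 A U (x k - y)
    rw [map_sub, hx] at h
    refine le_of_tendsto h ?_
    filter_upwards [hKk k] with i hi
    have h1 := up1_telescope (fun j => x j i) k (K i) hi (hPK i)
    have h2 : (x k - y : lp A ∞) i = x k i - x (K i) i := rfl
    rw [h2]
    linarith [hpos (K i)]
  refine ⟨Ultraproduct.mk A U y, ?_, ?_⟩
  · -- the norm
    have hk : ∀ k : ℕ, ‖Ultraproduct.mk A U y‖ ≤ 1 + 1 / ((k : ℝ) + 1) := by
      intro k
      have hb : ∀ i, ‖(if k ≤ K i then x (K i) i else 0 : A i)‖ ≤ 1 + 1 / ((k : ℝ) + 1) := by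
        intro i
        split_ifs with h
        · have h1 := hxi (K i) i
          have h2 := hanti k (K i) h
          linarith
        · rw [norm_zero]
          positivity
      have hm : Memℓp (fun i => (if k ≤ K i then x (K i) i else 0 : A i)) ∞ :=
        memℓp_infty ⟨1 + 1 / ((k : ℝ) + 1), by rintro _ ⟨i, rfl⟩; exact hb i⟩
      let y' : lp A ∞ := ⟨fun i => (if k ≤ K i then x (K i) i else 0 : A i), hm⟩
      have he : Ultraproduct.mk A U y = Ultraproduct.mk A U y' := by
        rw [Ultraproduct.mk_eq_mk_iff]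
        refine Filter.Tendsto.congr' ?_ tendsto_const_nhds
        filter_upwards [hKk k] with i hi
        have h1 : y' i = y i := by
          change (if k ≤ K i then x (K i) i else 0 : A i) = x (K i) i
          rw [if_pos hi]
        rw [h1, sub_self, nrm2_zero]
      rw [he]
      refine (Ultraproduct.norm_mk_le A U y').trans ?_
      exact lp.norm_le_of_forall_le (by positivity) hb
    refine le_of_forall_pos_le_add fun ε hε => ?_
    obtain ⟨k, hk'⟩ := exists_nat_one_div_lt hε
    exact (hk k).trans (by linarith)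
  · -- the limit
    rw [Metric.tendsto_atTop]
    intro ε hε
    obtain ⟨k, hk⟩ := exists_pow_lt_of_lt_one (show 0 < ε / 3 by positivity)
      (show (1 / 2 : ℝ) < 1 by norm_num)
    refine ⟨φ k, fun n hn => ?_⟩
    rw [Real.dist_eq, sub_zero, abs_of_nonneg (nrm2_nonneg _)]
    have h1 := hN k n (φ k) ((hφN k).trans hn) (hφN k)
    have h2 := hdist k
    have h3 : s n - Ultraproduct.mk A U y =
        (s n - s (φ k)) + (s (φ k) - Ultraproduct.mk A U y) := by abel
    have h4 := nrm2_add_le (s n - s (φ k)) (s (φ k) - Ultraproduct.mk A U y)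
    rw [← h3] at h4
    linarith [hpos k]

end Pool.Agent.FG.UP
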