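import Pool.Agent.FG.UPDefs

/-!
Project FG (MP_0c7c15_an), row UP-5: an ultraproduct of matrix algebras whose sizes tend to
infinity is infinite-dimensional.
-/

set_option autoImplicit false

open scoped ENNReal ComplexOrder Topology Matrix.Norms.L2Operator

namespace Pool.Agent.FG.UP

/-- disjoint sets of indices of comparable size -/
theorem up5_sets (n : Type*) [Fintype n] [DecidableEq n] (D : ℕ)
    (hn : D + 1 ≤ Fintype.card n) : ∃ s : Fin (D + 1) → Finset n,
      (∀ j k, j ≠ k → Disjoint (s j) (s k)) ∧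
      ∀ j, Fintype.card n ≤ 2 * (D + 1) * (s j).card := by
  classical
  obtain ⟨q, hq⟩ : ∃ q, q = Fintype.card n / (D + 1) := ⟨_, rfl⟩
  have hq1 : 1 ≤ q := by
    rw [hq]
    exact (Nat.one_le_div_iff (Nat.succ_pos D)).2 hn
  have hq2 : (D + 1) * q ≤ Fintype.card n := by
    rw [hq]
    exact Nat.mul_div_le _ _
  have hq3 : Fintype.card n < (D + 1) * (q + 1) := by
    rw [hq]
    exact Nat.lt_mul_div_succ _ (Nat.succ_pos D)
  have hq4 : Fintype.card n ≤ 2 * (D + 1) * q := by
    have : (D + 1) * (q + 1) ≤ (D + 1) * (2 * q) := Nat.mul_le_mul_left _ (by omega)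
    have h2 : (D + 1) * (2 * q) = 2 * (D + 1) * q := by ring
    omega
  have hinj : Function.Injective fun i : n => ((Fintype.equivFin n i : Fin _) : ℕ) :=
    Fin.val_injective.comp (Fintype.equivFin n).injective
  refine ⟨fun j => Finset.univ.filter fun i : n =>
    ((Fintype.equivFin n i : Fin _) : ℕ) ∈ Finset.Ico ((j : ℕ) * q) (((j : ℕ) + 1) * q), ?_, ?_⟩
  · intro j k hjk
    rw [Finset.disjoint_left]
    intro i hi hi'
    rw [Finset.mem_filter] at hi hi'
    have h1 := Finset.mem_Ico.1 hi.2
    have h2 := Finset.mem_Ico.1 hi'.2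
    rcases lt_or_gt_of_ne hjk with h | h
    · have h3 : (j : ℕ) + 1 ≤ (k : ℕ) := h
      have h4 : ((j : ℕ) + 1) * q ≤ (k : ℕ) * q := Nat.mul_le_mul_right q h3
      omega
    · have h3 : (k : ℕ) + 1 ≤ (j : ℕ) := h
      have h4 : ((k : ℕ) + 1) * q ≤ (j : ℕ) * q := Nat.mul_le_mul_right q h3
      omega
  · intro j
    have hc : (Finset.univ.filter fun i : n =>
        ((Fintype.equivFin n i : Fin _) : ℕ) ∈
          Finset.Ico ((j : ℕ) * q) (((j : ℕ) + 1) * q)).card = q := by
      rw [← Finset.card_image_of_injective _ hinj]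
      have : (Finset.univ.filter fun i : n =>
          ((Fintype.equivFin n i : Fin _) : ℕ) ∈
            Finset.Ico ((j : ℕ) * q) (((j : ℕ) + 1) * q)).image
            (fun i : n => ((Fintype.equivFin n i : Fin _) : ℕ)) =
          Finset.Ico ((j : ℕ) * q) (((j : ℕ) + 1) * q) := by
        ext m
        rw [Finset.mem_image]
        constructor
        · rintro ⟨i, hi, rfl⟩
          exact (Finset.mem_filter.1 hi).2
        · intro hm
          have hm2 := (Finset.mem_Ico.1 hm).2
          have hj : (j : ℕ) + 1 ≤ D + 1 := j.2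
          have h4 : ((j : ℕ) + 1) * q ≤ (D + 1) * q := Nat.mul_le_mul_right q hj
          have hmN : m < Fintype.card n := by omega
          refine ⟨(Fintype.equivFin n).symm ⟨m, hmN⟩, ?_, ?_⟩
          · rw [Finset.mem_filter]
            refine ⟨Finset.mem_univ _, ?_⟩
            rw [Equiv.apply_symm_apply]
            exact hm
          · rw [Equiv.apply_symm_apply]
      rw [this, Nat.card_Ico]
      have : ((j : ℕ) + 1) * q = (j : ℕ) * q + q := by ring
      omega
    rw [hc]
    exact hq4

/-- many orthogonal idempotents force infinite dimension -/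
theorem up5_indep {M : Type*} [Ring M] [Algebra ℂ M]
    (h : ∀ D : ℕ, ∃ e : Fin (D + 1) → M, (∀ j, e j * e j = e j) ∧ (∀ j, e j ≠ 0) ∧
      ∀ j k, j ≠ k → e j * e k = 0) : ¬ FiniteDimensional ℂ M := by
  intro hfin
  obtain ⟨e, he1, he2, he3⟩ := h (Module.finrank ℂ M)
  have hli : LinearIndependent ℂ e := by
    rw [Fintype.linearIndependent_iff]
    intro g hg j
    have h1 : e j * ∑ i, g i • e i = 0 := by rw [hg, mul_zero]
    rw [Finset.mul_sum, Finset.sum_eq_single j] at h1
    · rw [mul_smul_comm, he1] at h1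
      exact (smul_eq_zero.1 h1).resolve_right (he2 j)
    · intro k _ hk
      rw [mul_smul_comm, he3 j k hk.symm, smul_zero]
    · intro hj
      exact absurd (Finset.mem_univ j) hj
  have := hli.fintype_card_le_finrank
  rw [Fintype.card_fin] at this
  omega

/-- the diagonal projection of a set of indices -/
noncomputable def up5_diag {n : Type*} [DecidableEq n] (s : Finset n) : Matrix n n ℂ :=
  Matrix.diagonal fun i => if i ∈ s then 1 else 0

theorem up5_diag_mul_self {n : Type*} [Fintype n] [DecidableEq n] (s : Finset n) :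
    up5_diag s * up5_diag s = up5_diag s := by
  rw [up5_diag, Matrix.diagonal_mul_diagonal]
  congr 1
  funext i
  split_ifs <;> simp

theorem up5_diag_mul {n : Type*} [Fintype n] [DecidableEq n] {s t : Finset n} (h : Disjoint s t) :
    up5_diag s * up5_diag t = 0 := by
  rw [up5_diag, up5_diag, Matrix.diagonal_mul_diagonal, ← Matrix.diagonal_zero]
  congr 1
  funext i
  by_cases h1 : i ∈ s
  · have h2 : i ∉ t := fun h2 => (Finset.disjoint_left.1 h) h1 h2
    simp [h2]
  · simp [h1]

theorem up5_diag_norm {n : Type*} [Fintype n] [DecidableEq n] (s : Finset n) :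
    ‖up5_diag s‖ ≤ 1 := by
  rw [up5_diag, Matrix.l2_opNorm_diagonal, pi_norm_le_iff_of_nonneg zero_le_one]
  intro i
  split_ifs <;> simp

theorem up5_diag_tau {n : Type*} [Fintype n] [DecidableEq n] [Nonempty n] (s : Finset n) :
    tau (up5_diag s) = ((s.card : ℝ) / (Fintype.card n : ℝ) : ℝ) := by
  have h : (up5_diag s).trace = (s.card : ℂ) := by
    rw [up5_diag, Matrix.trace_diagonal, Finset.sum_ite_mem, Finset.univ_inter]
    simp
  rw [tau_matrix, h]
  push_cast
  rw [div_eq_mul_inv, mul_comm]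

theorem not_finiteDimensional_ultraproduct_matrix {ι : Type*} (n : ι → Type)
    [∀ i, Fintype (n i)] [∀ i, DecidableEq (n i)] [∀ i, Nonempty (n i)] (W : Ultrafilter ι)
    (hn : Filter.Tendsto (fun i => Fintype.card (n i)) W Filter.atTop) :
    ¬ FiniteDimensional ℂ (Ultraproduct (fun i => Matrix (n i) (n i) ℂ) W) := by
  classical
  apply up5_indep
  intro D
  have hs : ∀ i, ∃ s : Fin (D + 1) → Finset (n i), (∀ j k, j ≠ k → Disjoint (s j) (s k)) ∧
      (D + 1 ≤ Fintype.card (n i) → ∀ j, Fintype.card (n i) ≤ 2 * (D + 1) * (s j).card) := by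
    intro i
    by_cases h : D + 1 ≤ Fintype.card (n i)
    · obtain ⟨s, h1, h2⟩ := up5_sets (n i) D h
      exact ⟨s, h1, fun _ => h2⟩
    · exact ⟨fun _ => ∅, fun _ _ _ => Finset.disjoint_empty_left _, fun h' => absurd h' h⟩
  choose s hs1 hs2 using hs
  have hmem : ∀ j, Memℓp (fun i => up5_diag (s i j)) ∞ := by
    intro j
    apply memℓp_infty
    refine ⟨1, ?_⟩
    rintro _ ⟨i, rfl⟩
    exact up5_diag_norm _
  obtain ⟨x, hx⟩ : ∃ x : Fin (D + 1) → lp (fun i => Matrix (n i) (n i) ℂ) ∞,
      ∀ j i, x j i = up5_diag (s i j) := ⟨fun j => ⟨_, hmem j⟩, fun _ _ => rfl⟩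
  refine ⟨fun j => Ultraproduct.mk _ W (x j), ?_, ?_, ?_⟩
  · intro j
    rw [← map_mul]
    congr 1
    ext1
    funext i
    rw [lp.infty_coeFn_mul, Pi.mul_apply, hx, up5_diag_mul_self]
  · intro j h0
    simp only at h0
    have ht := Ultraproduct.tendsto_tau (fun i => Matrix (n i) (n i) ℂ) W (x j)
    rw [h0, map_zero] at ht
    have ht2 := (Complex.continuous_re.tendsto _).comp ht
    rw [Complex.zero_re] at ht2
    have hev : ∀ᶠ i in (W : Filter ι), 1 / (2 * ((D : ℝ) + 1)) ≤
        (Complex.re ∘ fun i => tau (x j i)) i := by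
      filter_upwards [hn.eventually_ge_atTop (D + 1)] with i hi
      simp only [Function.comp]
      rw [hx, up5_diag_tau, Complex.ofReal_re]
      have h1 := hs2 i hi j
      have h2 : (Fintype.card (n i) : ℝ) ≤ 2 * ((D : ℝ) + 1) * ((s i j).card : ℝ) := by
        exact_mod_cast h1
      have h3 : (0 : ℝ) < Fintype.card (n i) := by
        exact_mod_cast Fintype.card_pos
      rw [div_le_div_iff₀ (by positivity) h3]
      linarith
    have h4 := ge_of_tendsto ht2 hev
    have h5 : (0 : ℝ) < 1 / (2 * ((D : ℝ) + 1)) := by positivity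
    linarith
  · intro j k hjk
    rw [← map_mul]
    have h0 : x j * x k = 0 := by
      ext1
      funext i
      rw [lp.infty_coeFn_mul, Pi.mul_apply, hx, hx, up5_diag_mul (hs1 i j k hjk)]
      rfl
    rw [h0, map_zero]

end Pool.Agent.FG.UP
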