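import Pool.Agent.FG.Defs
import Pool.Agent.FG.Statement
import Pool.Agent.FG.UPBridge
import Pool.Agent.FG.UPComplete
import Pool.Agent.FG.UPCenter
import Pool.Agent.FG.UPInfinite

/-!
Project FG (MP_0c7c15_an), block UP: the II_1 factor of left multiplications on `L2(A)` and the
theorem `exists_factor` (helper20).
-/

set_option autoImplicit false

open Filter Topology
open scoped ComplexOrder InnerProductSpace ENNReal

namespace Pool.Agent.FG.UP.Br

section Factor

variable (A : Type) [CStarAlgebra A] [TracialState A]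

/-- The II_1 factor on `L2(A)`. -/
noncomputable def toFactor (hA : UnitBallComplete A)
    (hc : ∀ z : A, (∀ x : A, z * x = x * z) → ∃ c : ℂ, z = c • (1 : A))
    (hi : ¬ FiniteDimensional ℂ A) : IIOneFactor (L2 A) where
  N := vN A
  factor := by
    intro T hT hT'
    obtain ⟨a, rfl⟩ := exists_lam_of_mem hA hT
    rw [VonNeumannAlgebra.mem_commutant_iff] at hT'
    obtain ⟨c, hc'⟩ := hc a fun x => by
      apply lam_injective
      rw [map_mul, map_mul]
      exact (hT' (lam x) (lam_mem_vN x)).symm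
    refine ⟨c, ?_⟩
    rw [hc', map_smul, map_one]
  infinite := by
    intro h
    apply hi
    let e : A ≃ₗ[ℂ] (vN A).toStarSubalgebra :=
      LinearEquiv.ofBijective (lamN : A →⋆ₐ[ℂ] (vN A).toStarSubalgebra).toAlgHom.toLinearMap
        ⟨lamN_injective, lamN_surjective hA⟩
    exact Module.Finite.equiv e.symm
  τ := vecTr A
  τ_one := by
    have h := vecTr_lamN (1 : A)
    rwa [map_one, tau_one] at h
  τ_comm x y := by
    obtain ⟨a, rfl⟩ := lamN_surjective hA x
    obtain ⟨b, rfl⟩ := lamN_surjective hA y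
    rw [← map_mul, ← map_mul, vecTr_lamN, vecTr_lamN, tau_mul_comm]
  τ_pos x := by
    obtain ⟨a, rfl⟩ := lamN_surjective hA x
    rw [← map_star, ← map_mul, vecTr_lamN]
    exact tau_star_mul_self_nonneg a
  τ_faithful x hx := by
    obtain ⟨a, rfl⟩ := lamN_surjective hA x
    rw [← map_star, ← map_mul, vecTr_lamN] at hx
    rw [TracialState.tau_faithful a hx, map_zero]
  τ_normal := by
    refine ⟨fun i => if i = 0 then emb (1 : A) else 0, ?_, fun x => ?_⟩
    · apply summable_of_ne_finset_zero (s := {0})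
      intro i hi
      rw [Finset.mem_singleton] at hi
      simp [hi]
    · have h := hasSum_single (f := fun i : ℕ =>
        ⟪(if i = 0 then emb (1 : A) else 0 : L2 A), (x : L2 A →L[ℂ] L2 A)
          (if i = 0 then emb (1 : A) else 0 : L2 A)⟫_ℂ) 0 (fun i hi => by simp [hi])
      have h2 : vecTr A x = ⟪emb (1 : A), (x : L2 A →L[ℂ] L2 A) (emb 1)⟫_ℂ := rfl
      rw [h2]
      simpa using h

theorem toFactor_N (hA : UnitBallComplete A)
    (hc : ∀ z : A, (∀ x : A, z * x = x * z) → ∃ c : ℂ, z = c • (1 : A))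
    (hi : ¬ FiniteDimensional ℂ A) : (toFactor A hA hc hi).N = vN A := rfl

end Factor

end Pool.Agent.FG.UP.Br

namespace Pool.Agent.FG

open UP UP.Br

section Model

open scoped Matrix.Norms.L2Operator

variable {I : Type} (n : I → Type) [∀ i, Fintype (n i)] [∀ i, DecidableEq (n i)]
  [∀ i, Nonempty (n i)]

/-- a bounded family of matrices as an element of `lp` -/
noncomputable def upf_toLp : BF n →⋆ₐ[ℂ] lp (fun i => Matrix (n i) (n i) ℂ) ∞ where
  toFun x := ⟨x.1, memℓp_infty ⟨x.2.choose, by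
    rintro _ ⟨i, rfl⟩
    exact x.2.choose_spec i⟩⟩
  map_one' := rfl
  map_mul' x y := rfl
  map_zero' := rfl
  map_add' x y := rfl
  commutes' r := rfl
  map_star' x := rfl

theorem upf_toLp_apply (x : BF n) (i : I) : (upf_toLp n x) i = x.1 i := rfl

theorem upf_mtr (i : I) (x : Matrix (n i) (n i) ℂ) : mtr (n i) x = tau x := rfl

theorem upf_n2 (i : I) (x : Matrix (n i) (n i) ℂ) : n2 (mtr (n i)) x = nrm2 x := rfl

/-- the quotient map as a *-homomorphism -/
noncomputable def upf_mk (W : Ultrafilter I) :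
    lp (fun i => Matrix (n i) (n i) ℂ) ∞ →⋆ₐ[ℂ]
      Ultraproduct (fun i => Matrix (n i) (n i) ℂ) W where
  toFun := Ultraproduct.mk (fun i => Matrix (n i) (n i) ℂ) W
  map_one' := map_one _
  map_mul' := map_mul _
  map_zero' := map_zero _
  map_add' := map_add _
  commutes' := AlgHom.commutes _
  map_star' x := (Ultraproduct.star_mk _ W x).symm

end Model

/-- the standard sizes -/
theorem upf_card_tendsto : Tendsto (fun i : ℕ => Fintype.card (Y i × Y i)) atTop atTop := by
  have h : ∀ i : ℕ, Fintype.card (Y i × Y i) = 9 ^ (i + 1) := by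
    intro i
    rw [Fintype.card_prod, Fintype.card_fun, ZMod.card, Fintype.card_fin, ← mul_pow]
    norm_num
  simp only [h]
  exact (tendsto_pow_atTop_atTop_of_one_lt (by norm_num)).comp (tendsto_add_atTop_nat 1)

open scoped Matrix.Norms.L2Operator in
theorem exists_factor : ∃ (H : Type) (_ : NormedAddCommGroup H) (_ : InnerProductSpace ℂ H)
    (_ : CompleteSpace H) (F : IIOneFactor H) (V : Ultrafilter ℕ)
    (mod : Model (fun i => Y i × Y i) F.τ V),
    (∀ C : ℝ, ∃ C' : ℝ, ∀ x : F.Alg, ‖x‖ ≤ C →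
      ∃ y : BF (fun i => Y i × Y i), mod.pi y = x ∧ ∀ i, ‖y.1 i‖ ≤ C') ∧
    (∀ (y : BF (fun i => Y i × Y i)) (C : ℝ), (∀ i, ‖y.1 i‖ ≤ C) → ‖mod.pi y‖ ≤ C) := by
  let n : ℕ → Type := fun i => Y i × Y i
  let V : Ultrafilter ℕ := Filter.hyperfilter ℕ
  have hV : (V : Filter ℕ) ≤ Filter.cofinite := Filter.hyperfilter_le_cofinite
  let A : Type := Ultraproduct (fun i => Matrix (n i) (n i) ℂ) V
  have hA : UnitBallComplete A := unitBallComplete_ultraproduct _ V hV
  have hc : ∀ z : A, (∀ x : A, z * x = x * z) → ∃ c : ℂ, z = c • (1 : A) := fun z hz =>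
    center_ultraproduct_matrix n V z hz
  have hi : ¬ FiniteDimensional ℂ A := not_finiteDimensional_ultraproduct_matrix n V
    (upf_card_tendsto.mono_left (hV.trans Nat.cofinite_eq_atTop.le))
  let F : IIOneFactor (L2 A) := toFactor A hA hc hi
  let pi : BF n →⋆ₐ[ℂ] F.Alg := (lamN : A →⋆ₐ[ℂ] (vN A).toStarSubalgebra).comp
    ((upf_mk n V).comp (upf_toLp n))
  have hpi : ∀ x : BF n, pi x = lamN (Ultraproduct.mk _ V (upf_toLp n x) : A) := fun x => rfl
  have hlift : ∀ (T : F.Alg) (ε : ℝ), 0 < ε → ∃ y : BF n, pi y = T ∧ ∀ i, ‖y.1 i‖ ≤ ‖T‖ + ε := by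
    intro T ε hε
    obtain ⟨a, ha⟩ := lamN_surjective hA T
    obtain ⟨y, hy, hyn⟩ := Ultraproduct.exists_lift_norm_lt _ V a hε
    have hb : ∀ i, ‖y i‖ ≤ ‖T‖ + ε := by
      intro i
      have h1 := lp.norm_apply_le_norm ENNReal.top_ne_zero y i
      have h2 : ‖T‖ = ‖a‖ := by rw [← ha]; exact norm_lamN a
      rw [h2]
      exact h1.trans hyn.le
    refine ⟨⟨fun i => y i, ⟨‖T‖ + ε, hb⟩⟩, ?_, hb⟩
    refine Eq.trans ?_ ha
    exact congrArg (fun b : A => (lamN b : (vN A).toStarSubalgebra)) hy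
  let mod : Model n F.τ V :=
    { pi := pi
      surj := fun T => by
        obtain ⟨y, hy, -⟩ := hlift T 1 one_pos
        exact ⟨y, hy⟩
      tr := fun x => by
        rw [hpi]
        have h1 : F.τ (lamN (Ultraproduct.mk _ V (upf_toLp n x) : A))
            = tau (Ultraproduct.mk _ V (upf_toLp n x) : A) := vecTr_lamN _
        rw [h1]
        exact Ultraproduct.tendsto_tau _ V (upf_toLp n x)
      ker := fun x => by
        rw [hpi]
        have h1 : (lamN (Ultraproduct.mk _ V (upf_toLp n x) : A) : (vN A).toStarSubalgebra) = 0 ↔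
            (Ultraproduct.mk _ V (upf_toLp n x) : A) = 0 :=
          map_eq_zero_iff _ lamN_injective
        exact h1.trans (Ultraproduct.mk_eq_zero_iff _ V) }
  refine ⟨L2 A, inferInstance, inferInstance, inferInstance, F, V, mod, ?_, ?_⟩
  · intro C
    refine ⟨C + 1, fun T hT => ?_⟩
    obtain ⟨y, hy, hyn⟩ := hlift T 1 one_pos
    exact ⟨y, hy, fun i => (hyn i).trans (by linarith)⟩
  · intro y C hC
    have h0 : 0 ≤ C := (norm_nonneg _).trans (hC 0)
    show ‖pi y‖ ≤ C
    rw [hpi]
    refine (norm_lamN _).le.trans ((Ultraproduct.norm_mk_le _ V _).trans ?_)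
    exact lp.norm_le_of_forall_le h0 hC

end Pool.Agent.FG
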