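import Pool.Agent.FG.Defs
import Pool.Agent.FG.Statement
import Pool.Agent.FG.Tr

/-!
Project FG (MP_0c7c15_an), block UP: the tracial ultrapower of an ultraproduct of matrix algebras
is an ultraproduct of matrix algebras along the Fubini product of the ultrafilters (helper49).
-/

set_option autoImplicit false

open Filter Topology
open scoped ComplexOrder

namespace Pool.Agent.FG

/-! ### Fubini products of ultrafilters -/

theorem ultraModel_eventually {α β : Type*} (U : Ultrafilter α) (V : Ultrafilter β)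
    (P : α × β → Prop) :
    (∀ᶠ p in ((U.bind fun j => V.map (Prod.mk j) : Ultrafilter (α × β)) : Filter (α × β)), P p) ↔
      ∀ᶠ j in (U : Filter α), ∀ᶠ i in (V : Filter β), P (j, i) := Iff.rfl

theorem ultraModel_tendsto {α β X : Type*} [PseudoMetricSpace X] (U : Ultrafilter α)
    (V : Ultrafilter β) (g : α → β → X) (l : α → X) (L : X)
    (h1 : ∀ j, Tendsto (g j) V (𝓝 (l j))) (h2 : Tendsto l U (𝓝 L)) :
    Tendsto (fun p : α × β => g p.1 p.2)
      ((U.bind fun j => V.map (Prod.mk j) : Ultrafilter (α × β)) : Filter (α × β)) (𝓝 L) := by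
  rw [Metric.tendsto_nhds]
  intro ε hε
  rw [ultraModel_eventually]
  filter_upwards [Metric.tendsto_nhds.1 h2 (ε / 2) (half_pos hε)] with j hj
  filter_upwards [Metric.tendsto_nhds.1 (h1 j) (ε / 2) (half_pos hε)] with i hi
  calc dist (g j i) L ≤ dist (g j i) (l j) + dist (l j) L := dist_triangle _ _ _
    _ < ε / 2 + ε / 2 := add_lt_add hi hj
    _ = ε := add_halves ε

section

variable {H : Type} [NormedAddCommGroup H] [InnerProductSpace ℂ H] [CompleteSpace H]
  (F : IIOneFactor H)

theorem ultraModel_trace_mk (U : Ultrafilter ℕ) (x : F.BddSeq) :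
    F.ultraTrace U (Ideal.Quotient.mk (F.nullIdeal U) x)
      = limUnder (U : Filter ℕ) fun k => F.τ (x.1 k) := rfl

theorem ultraModel_tendsto_trace (U : Ultrafilter ℕ) (x : F.BddSeq) :
    Tendsto (fun k => F.τ (x.1 k)) U
      (𝓝 (F.ultraTrace U (Ideal.Quotient.mk (F.nullIdeal U) x))) := F.tendsto_tau U x

noncomputable instance (U : Ultrafilter ℕ) : StarModule ℂ (F.Ultrapower U) where
  star_smul := by
    intro c x
    obtain ⟨x, rfl⟩ := Ideal.Quotient.mk_surjective x
    exact congrArg (Ideal.Quotient.mk (F.nullIdeal U)) (star_smul c x)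

theorem ultra_isTr (U : Ultrafilter ℕ) : IsTr (F.ultraTrace U) where
  one := by
    have h := ultraModel_tendsto_trace F U 1
    have h2 : (fun k => F.τ ((1 : F.BddSeq).1 k)) = fun _ => (1 : ℂ) := funext fun k => F.τ_one
    rw [h2] at h
    exact tendsto_nhds_unique h tendsto_const_nhds
  comm := by
    intro x y
    obtain ⟨x, rfl⟩ := Ideal.Quotient.mk_surjective x
    obtain ⟨y, rfl⟩ := Ideal.Quotient.mk_surjective y
    have h1 := ultraModel_tendsto_trace F U (x * y)
    have h2 := ultraModel_tendsto_trace F U (y * x)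
    have h3 : (fun k => F.τ ((x * y).1 k)) = fun k => F.τ ((y * x).1 k) :=
      funext fun k => F.τ_comm (x.1 k) (y.1 k)
    rw [h3] at h1
    exact tendsto_nhds_unique h1 h2
  pos := by
    intro x
    obtain ⟨x, rfl⟩ := Ideal.Quotient.mk_surjective x
    have h1 := ultraModel_tendsto_trace F U (star x * x)
    exact ge_of_tendsto' h1 fun k => F.τ_pos (x.1 k)

end

/-! ### rows -/

section Rows

open scoped Matrix.Norms.L2Operator

variable {n : ℕ → Type} [∀ i, Fintype (n i)] [∀ i, DecidableEq (n i)]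

/-- the `j`-th row of a family indexed by pairs -/
noncomputable def ultraModel_row (j : ℕ) : BF (fun p : ℕ × ℕ => n p.2) →⋆ₐ[ℂ] BF n where
  toFun x := ⟨fun i => x.1 (j, i), by
    obtain ⟨C, hC⟩ := x.2
    exact ⟨C, fun i => hC (j, i)⟩⟩
  map_one' := rfl
  map_mul' _ _ := rfl
  map_zero' := rfl
  map_add' _ _ := rfl
  commutes' _ := rfl
  map_star' _ := rfl

variable {H : Type} [NormedAddCommGroup H] [InnerProductSpace ℂ H] [CompleteSpace H]
  (F : IIOneFactor H) {V : Ultrafilter ℕ} (mod : Model n F.τ V)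
  (h2 : ∀ (y : BF n) (C : ℝ), (∀ i, ‖y.1 i‖ ≤ C) → ‖mod.pi y‖ ≤ C)

/-- the sequence of the classes of the rows -/
noncomputable def ultraModel_seq : BF (fun p : ℕ × ℕ => n p.2) →⋆ₐ[ℂ] F.BddSeq where
  toFun x := ⟨fun j => mod.pi (ultraModel_row j x), by
    obtain ⟨C, hC⟩ := x.2
    exact ⟨C, fun j => h2 _ C fun i => hC (j, i)⟩⟩
  map_one' := Subtype.ext (funext fun j => by
    change mod.pi (ultraModel_row j 1) = 1
    rw [map_one, map_one])
  map_mul' x y := Subtype.ext (funext fun j => by
    change mod.pi (ultraModel_row j (x * y)) = mod.pi (ultraModel_row j x) * mod.pi (ultraModel_row j y)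
    rw [map_mul, map_mul])
  map_zero' := Subtype.ext (funext fun j => by
    change mod.pi (ultraModel_row j 0) = 0
    rw [map_zero, map_zero])
  map_add' x y := Subtype.ext (funext fun j => by
    change mod.pi (ultraModel_row j (x + y)) = mod.pi (ultraModel_row j x) + mod.pi (ultraModel_row j y)
    rw [map_add, map_add])
  commutes' c := Subtype.ext (funext fun j => by
    change mod.pi (ultraModel_row j (algebraMap ℂ _ c)) = algebraMap ℂ _ c
    rw [AlgHomClass.commutes, AlgHomClass.commutes])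
  map_star' x := Subtype.ext (funext fun j => by
    change mod.pi (ultraModel_row j (star x)) = star (mod.pi (ultraModel_row j x))
    rw [map_star, map_star])

/-- the quotient map of the ultrapower -/
noncomputable def ultraModel_mk (U : Ultrafilter ℕ) : F.BddSeq →⋆ₐ[ℂ] F.Ultrapower U where
  toFun := Ideal.Quotient.mk (F.nullIdeal U)
  map_one' := map_one _
  map_mul' := map_mul _
  map_zero' := map_zero _
  map_add' := map_add _
  commutes' _ := rfl
  map_star' _ := rfl

theorem ultraModel_q (y : BF n) :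
    Tendsto (fun i => n2 (mtr (n i)) (y.1 i) ^ 2) V (𝓝 (F.sq2 (mod.pi y))) := by
  have h := (Complex.continuous_re.tendsto _).comp (mod.tr (star y * y))
  rw [map_mul, map_star] at h
  refine h.congr fun i => ?_
  change (mtr (n i) (star (y.1 i) * y.1 i)).re = _
  unfold n2
  rw [Real.sq_sqrt]
  have h3 := (Matrix.posSemidef_conjTranspose_mul_self (y.1 i)).trace_nonneg
  simp only [mtr, LinearMap.smul_apply, Matrix.traceLinearMap_apply, smul_eq_mul]
  have h4 : (0 : ℂ) ≤ (Fintype.card (n i) : ℂ)⁻¹ * ((star (y.1 i) * y.1 i).trace) := by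
    refine mul_nonneg ?_ h3
    rw [← Complex.ofReal_natCast, ← Complex.ofReal_inv]
    exact Complex.zero_le_real.2 (by positivity)
  exact (Complex.le_def.1 h4).1

theorem ultra_model (h1 : ∀ C : ℝ, ∃ C' : ℝ, ∀ x : F.Alg, ‖x‖ ≤ C →
      ∃ y : BF n, mod.pi y = x ∧ ∀ i, ‖y.1 i‖ ≤ C')
    (h2 : ∀ (y : BF n) (C : ℝ), (∀ i, ‖y.1 i‖ ≤ C) → ‖mod.pi y‖ ≤ C)
    (U : Ultrafilter ℕ) :
    Nonempty (Model (fun p : ℕ × ℕ => n p.2) (F.ultraTrace U)
      (U.bind fun j => V.map (Prod.mk j))) := by
  refine ⟨{ pi := (ultraModel_mk F U).comp (ultraModel_seq F mod h2), surj := ?_, tr := ?_, ker := ?_ }⟩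
  · intro a
    obtain ⟨s, rfl⟩ := Ideal.Quotient.mk_surjective a
    obtain ⟨C, hC⟩ := s.2
    obtain ⟨C', hC'⟩ := h1 C
    choose y hy1 hy2 using fun j => hC' (s.1 j) (hC j)
    refine ⟨⟨fun p => (y p.1).1 p.2, C', fun p => hy2 p.1 p.2⟩, ?_⟩
    have h3 : ultraModel_seq F mod h2 ⟨fun p => (y p.1).1 p.2, C', fun p => hy2 p.1 p.2⟩ = s := by
      refine Subtype.ext (funext fun j => ?_)
      exact hy1 j
    change Ideal.Quotient.mk (F.nullIdeal U) (ultraModel_seq F mod h2 _) = _
    rw [h3]
  · intro x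
    exact ultraModel_tendsto U V (fun j i => mtr (n i) (x.1 (j, i)))
      (fun j => F.τ (mod.pi (ultraModel_row j x))) _
      (fun j => mod.tr (ultraModel_row j x))
      (ultraModel_tendsto_trace F U (ultraModel_seq F mod h2 x))
  · intro x
    have hq : ∀ j, Tendsto (fun i => n2 (mtr (n i)) (x.1 (j, i)) ^ 2) V
        (𝓝 (F.sq2 (mod.pi (ultraModel_row j x)))) := fun j =>
      ultraModel_q F mod (ultraModel_row j x)
    have h3 : ((ultraModel_mk F U).comp (ultraModel_seq F mod h2)) x = 0 ↔
        Tendsto (fun k => F.sq2 (mod.pi (ultraModel_row k x))) U (𝓝 0) :=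
      Ideal.Quotient.eq_zero_iff_mem
    rw [h3]
    constructor
    · intro h
      have h4 := ultraModel_tendsto U V (fun j i => n2 (mtr (n i)) (x.1 (j, i)) ^ 2) _ 0 hq h
      have h5 := (Real.continuous_sqrt.tendsto 0).comp h4
      rw [Real.sqrt_zero] at h5
      refine h5.congr fun p => ?_
      exact Real.sqrt_sq (n2_nonneg _ _)
    · intro h
      rw [Metric.tendsto_nhds]
      intro ε hε
      have h4 : Tendsto (fun p : ℕ × ℕ => n2 (mtr (n p.2)) (x.1 p) ^ 2)
          ((U.bind fun j => V.map (Prod.mk j) : Ultrafilter (ℕ × ℕ)) : Filter (ℕ × ℕ)) (𝓝 0) := by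
        have := h.pow 2
        simpa using this
      have h5 := Metric.tendsto_nhds.1 h4 (ε / 2) (half_pos hε)
      rw [ultraModel_eventually] at h5
      filter_upwards [h5] with j hj
      have h6 : F.sq2 (mod.pi (ultraModel_row j x)) ≤ ε / 2 := by
        refine le_of_tendsto (hq j) ?_
        filter_upwards [hj] with i hi
        rw [Real.dist_eq, sub_zero] at hi
        exact (le_abs_self _).trans hi.le
      rw [Real.dist_eq, sub_zero, abs_of_nonneg (F.sq2_nonneg _)]
      linarith

end Rows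

end Pool.Agent.FG
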