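import Pool.Agent.FG.Arith
import Pool.Agent.FG.Statement
import Pool.Agent.FG.UPFactor
import Pool.Agent.FG.UltraModel
import Pool.Agent.FG.Transfer
import Pool.Agent.FG.Corner
import Pool.Agent.FG.Main
import Pool.Agent.FG.Flt

/-! Project FG: assembly of the main theorem (helper39). -/

set_option autoImplicit false

open Filter Topology

namespace Pool.Agent.FG

/-- the fundamental group of every *-algebra modelled by the matrix algebras of size `9^(a i + 1)`
consists of integral powers of 3 -/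
theorem fundamentalGroup_subset_of_model {I : Type} {W : Ultrafilter I} {a : I → ℕ} {M : Type}
    [Ring M] [StarRing M] [Algebra ℂ M] [StarModule ℂ M] {τ : M →ₗ[ℂ] ℂ} (hτ : IsTr τ)
    (mod : Model (fun i => Y (a i) × Y (a i)) τ W) :
    fundamentalGroup τ ⊆ {t | ∃ m : ℤ, t = 3 ^ m} := by
  intro t ht
  obtain ⟨b, hb⟩ := std_good W a τ hτ mod
  obtain ⟨k, hk, hkt, ⟨mod3⟩⟩ := corner_model hτ mod ht
  have hne : ∀ i, Nonempty (Fin (k i)) := fun i => ⟨⟨0, hk i⟩⟩
  refine final_step ht.1 hkt fun η hη => ?_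
  obtain ⟨ε, hε, hε', h⟩ := flt η hη
  filter_upwards [transfer hτ mod3 hb hε hε'] with i hi
  obtain ⟨D, hD⟩ := hi
  simpa using h (Fin (k i)) D hD

theorem main : ∃ (H : Type) (_ : NormedAddCommGroup H) (_ : InnerProductSpace ℂ H)
    (_ : CompleteSpace H) (F : IIOneFactor H), ∀ U : Ultrafilter ℕ,
      fundamentalGroup (F.ultraTrace U) ⊆ {t | ∃ m : ℤ, t = 3 ^ m} := by
  obtain ⟨H, i1, i2, i3, F, V, mod, h1, h2⟩ := exists_factor
  refine ⟨H, i1, i2, i3, F, fun U => ?_⟩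
  obtain ⟨mod2⟩ := ultra_model F mod h1 h2 U
  exact fundamentalGroup_subset_of_model (a := fun p : ℕ × ℕ => p.2) (ultra_isTr F U) mod2

theorem main' : ∃ (H : Type) (_ : NormedAddCommGroup H) (_ : InnerProductSpace ℂ H)
    (_ : CompleteSpace H) (F : IIOneFactor H), ∀ U : Ultrafilter ℕ,
      fundamentalGroup (F.ultraTrace U) ⊆ {t | ∃ m : ℤ, t = 3 ^ m} ∧
        fundamentalGroup (F.ultraTrace U) ≠ Set.Ioi 0 := by
  obtain ⟨H, i1, i2, i3, F, h⟩ := main
  refine ⟨H, i1, i2, i3, F, fun U => ⟨h U, fun he => ?_⟩⟩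
  have h2 : (2 : ℝ) ∈ fundamentalGroup (F.ultraTrace U) := by
    rw [he]
    exact (two_pos : (0:ℝ) < 2)
  obtain ⟨m, hm⟩ := h U h2
  rcases le_or_gt m 0 with h3 | h3
  · have : (3 : ℝ) ^ m ≤ 1 := zpow_le_one_of_nonpos₀ (by norm_num) h3
    linarith
  · have : (3 : ℝ) ^ (1 : ℤ) ≤ 3 ^ m := zpow_le_zpow_right₀ (by norm_num) (by omega)
    rw [zpow_one] at this
    linarith

end Pool.Agent.FG
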