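import Pool.Agent.FG.Irred

/-!
Gowers-Hatami for almost homomorphisms in the 2-norm, and the dimension count for almost
irreducible almost representations.
-/

open Matrix

namespace Pool.Agent.FG.GH

variable {K : Type*} [Fintype K] [DecidableEq K] {G : Type*} [Group G] [Fintype G] [DecidableEq G]

/-- Right translation on `G × K`. -/
noncomputable def rho (G K : Type*) [Group G] [Fintype G] [DecidableEq G] [Fintype K]
    [DecidableEq K] : G →* Matrix (G × K) (G × K) ℂ where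
  toFun h := Matrix.of fun a b => if b = (a.1 * h, a.2) then 1 else 0
  map_one' := by
    ext a b
    simp only [Matrix.of_apply, mul_one, Matrix.one_apply]
    exact if_congr (by constructor <;> intro h <;> exact h.symm) rfl rfl
  map_mul' := by
    intro g h
    ext a b
    simp only [Matrix.of_apply, Matrix.mul_apply]
    rw [Finset.sum_eq_single (a.1 * g, a.2)]
    · simp [mul_assoc]
    · intro c _ hc
      simp [hc]
    · simp

theorem rho_mul_apply {p : Type*} (h : G) (M : Matrix (G × K) p ℂ) (a : G × K) (j : p) :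
    (rho G K h * M) a j = M (a.1 * h, a.2) j := by
  rw [Matrix.mul_apply]
  change ∑ b, (if b = (a.1 * h, a.2) then (1 : ℂ) else 0) * M b j = _
  simp

theorem rho_conj (h : G) : (rho G K h)ᴴ = rho G K h⁻¹ := by
  ext a b
  change star (if a = (b.1 * h, b.2) then (1 : ℂ) else 0) = if b = (a.1 * h⁻¹, a.2) then 1 else 0
  have : (a = (b.1 * h, b.2)) ↔ (b = (a.1 * h⁻¹, a.2)) := by
    constructor
    · rintro h1
      rw [h1]; simp
    · rintro h1
      rw [h1]; simp
  by_cases h2 : a = (b.1 * h, b.2)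
  · rw [if_pos h2, if_pos (this.1 h2)]; simp
  · rw [if_neg h2, if_neg (fun h3 => h2 (this.2 h3))]; simp

/-- The Gowers-Hatami isometry. -/
noncomputable def Vm (φ : G → Matrix K K ℂ) : Matrix (G × K) K ℂ :=
  Matrix.of fun a j => (((Real.sqrt (Fintype.card G))⁻¹ : ℝ) : ℂ) * φ a.1 a.2 j

omit [DecidableEq G] in
theorem sq_inv_sqrt : ((Real.sqrt (Fintype.card G))⁻¹ : ℝ) ^ 2 * (Fintype.card G : ℝ) = 1 := by
  have h : (0 : ℝ) < Fintype.card G := by exact_mod_cast Fintype.card_pos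
  rw [inv_pow, Real.sq_sqrt h.le, inv_mul_cancel₀ h.ne']

omit [DecidableEq G] in
theorem Vm_isom (φ : G → Matrix K K ℂ) (hφ : ∀ g, (φ g)ᴴ * φ g = 1) : (Vm φ)ᴴ * Vm φ = 1 := by
  ext j j'
  rw [Matrix.mul_apply, Fintype.sum_prod_type]
  have h1 : ∀ g : G, ∑ i, (Vm φ)ᴴ j (g, i) * Vm φ (g, i) j' =
      ((((Real.sqrt (Fintype.card G))⁻¹ : ℝ) ^ 2 : ℝ) : ℂ) * (1 : Matrix K K ℂ) j j' := by
    intro g
    rw [← hφ g, Matrix.mul_apply, Finset.mul_sum]
    refine Finset.sum_congr rfl fun i _ => ?_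
    simp only [Vm, Matrix.conjTranspose_apply, Matrix.of_apply, star_mul', Complex.star_def,
      Complex.conj_ofReal]
    push_cast
    ring
  rw [Finset.sum_congr rfl fun g _ => h1 g, Finset.sum_const, Finset.card_univ, nsmul_eq_mul,
    ← mul_assoc]
  have h2 : (Fintype.card G : ℂ) * ((((Real.sqrt (Fintype.card G))⁻¹ : ℝ) ^ 2 : ℝ) : ℂ) = 1 := by
    have := sq_inv_sqrt (G := G)
    rw [mul_comm] at this
    exact_mod_cast this
  rw [h2, one_mul]

theorem defect (φ : G → Matrix K K ℂ) (h : G) (b : ℝ) (hb : 0 ≤ b)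
    (hmul : ∀ g h, hs (φ (g * h) - φ g * φ h) ≤ b) :
    hs (rho G K h * Vm φ - Vm φ * φ h) ≤ b := by
  have h1 : hs (rho G K h * Vm φ - Vm φ * φ h) ^ 2 ≤ b ^ 2 := by
    rw [hs_sq_eq, Fintype.sum_prod_type]
    have h2 : ∀ g : G, ∑ i, ∑ j, ‖(rho G K h * Vm φ - Vm φ * φ h) (g, i) j‖ ^ 2 ≤
        ((Real.sqrt (Fintype.card G))⁻¹ : ℝ) ^ 2 * b ^ 2 := by
      intro g
      have h3 : ∑ i, ∑ j, ‖(rho G K h * Vm φ - Vm φ * φ h) (g, i) j‖ ^ 2 =
          ((Real.sqrt (Fintype.card G))⁻¹ : ℝ) ^ 2 * hs (φ (g * h) - φ g * φ h) ^ 2 := by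
        rw [hs_sq_eq, Finset.mul_sum]
        refine Finset.sum_congr rfl fun i _ => ?_
        rw [Finset.mul_sum]
        refine Finset.sum_congr rfl fun j _ => ?_
        rw [Matrix.sub_apply, rho_mul_apply, Matrix.mul_apply, Matrix.sub_apply, Matrix.mul_apply]
        simp only [Vm, Matrix.of_apply]
        have h4 : ∑ x, (((Real.sqrt (Fintype.card G))⁻¹ : ℝ) : ℂ) * φ g i x * φ h x j =
            (((Real.sqrt (Fintype.card G))⁻¹ : ℝ) : ℂ) * ∑ x, φ g i x * φ h x j := by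
          rw [Finset.mul_sum]
          exact Finset.sum_congr rfl fun x _ => by ring
        rw [h4, ← mul_sub, norm_mul, mul_pow, Complex.norm_real, Real.norm_eq_abs, sq_abs]
      rw [h3]
      exact mul_le_mul_of_nonneg_left (pow_le_pow_left₀ (hs_nonneg _) (hmul g h) 2) (sq_nonneg _)
    calc ∑ g, ∑ i, ∑ j, ‖(rho G K h * Vm φ - Vm φ * φ h) (g, i) j‖ ^ 2
        ≤ ∑ _g : G, ((Real.sqrt (Fintype.card G))⁻¹ : ℝ) ^ 2 * b ^ 2 :=
          Finset.sum_le_sum fun g _ => h2 g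
      _ = b ^ 2 := by
          rw [Finset.sum_const, Finset.card_univ, nsmul_eq_mul, ← mul_assoc,
            mul_comm (Fintype.card G : ℝ), sq_inv_sqrt, one_mul]
  exact (pow_le_pow_iff_left₀ (hs_nonneg _) hb two_ne_zero).1 h1

section twoproj

variable {H : Type*} [Fintype H] [DecidableEq H]

omit [DecidableEq H] in
theorem hs_sq_proj_sub {P Q : Matrix H H ℂ} (hP : IsProj P) (hQ : IsProj Q) :
    hs (P - Q) ^ 2 = hs P ^ 2 + hs Q ^ 2 - 2 * hs (P * Q) ^ 2 := by
  have h1 : hs P ^ 2 = (trace P).re := by rw [hP.trace_eq, Complex.ofReal_re]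
  have h2 : hs Q ^ 2 = (trace Q).re := by rw [hQ.trace_eq, Complex.ofReal_re]
  have h3 : hs (P * Q) ^ 2 = (trace (P * Q)).re := by
    rw [hs_sq, conjTranspose_mul, hP.herm, hQ.herm, Matrix.mul_assoc, ← Matrix.mul_assoc P,
      hP.idem, trace_mul_comm, Matrix.mul_assoc, hQ.idem]
  rw [h1, h2, h3, hs_sq, conjTranspose_sub, hP.herm, hQ.herm, Matrix.sub_mul, Matrix.mul_sub,
    Matrix.mul_sub, hP.idem, hQ.idem, trace_sub, trace_sub, trace_sub, trace_mul_comm Q P]
  simp only [Complex.sub_re]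
  ring

theorem abs_trace_sub_le {P Q : Matrix H H ℂ} (hP : IsProj P) (hQ : IsProj Q) :
    |hs P ^ 2 - hs Q ^ 2| ≤ hs (P - Q) ^ 2 := by
  have h1 := hs_sq_proj_sub hP hQ
  have h2 := hs_proj_mul_le hP Q
  have h3 := hs_mul_proj_le hQ P
  have h4 : hs (P * Q) ^ 2 ≤ hs Q ^ 2 := pow_le_pow_left₀ (hs_nonneg _) h2 2
  have h5 : hs (P * Q) ^ 2 ≤ hs P ^ 2 := pow_le_pow_left₀ (hs_nonneg _) h3 2
  rw [abs_le]
  constructor <;> linarith

theorem hs_isomT_mul_le {L p : Type*} [Fintype L] [DecidableEq L] [Fintype p] {V : Matrix H L ℂ}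
    (hV : Vᴴ * V = 1) (z : Matrix H p ℂ) : hs (Vᴴ * z) ≤ hs z := by
  have hpp : IsProj (V * Vᴴ) := by
    constructor
    · rw [conjTranspose_mul, conjTranspose_conjTranspose]
    · rw [Matrix.mul_assoc, ← Matrix.mul_assoc Vᴴ, hV, Matrix.one_mul]
  rw [← hs_isom_mul hV (Vᴴ * z), ← Matrix.mul_assoc]
  exact hs_proj_mul_le hpp z

theorem hs_mul_isom_le {L p : Type*} [Fintype L] [DecidableEq L] [Fintype p] {V : Matrix H L ℂ}
    (hV : Vᴴ * V = 1) (z : Matrix p H ℂ) : hs (z * V) ≤ hs z := by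
  rw [← hs_conjTranspose, conjTranspose_mul, ← hs_conjTranspose z]
  exact hs_isomT_mul_le hV _

end twoproj


/-- Averages of conjugates of a projection. -/
theorem gh_proj (φ : G → Matrix K K ℂ) (hφ : ∀ g, (φ g)ᴴ * φ g = 1) (b : ℝ) (hb : 0 ≤ b)
    (hmul : ∀ g h, hs (φ (g * h) - φ g * φ h) ≤ b) :
    ∃ q : Matrix (G × K) (G × K) ℂ, IsProj q ∧ (∀ g, rho G K g * q = q * rho G K g) ∧
      hs (q - Vm φ * (Vm φ)ᴴ) ≤ 10 * b ∧
      (∀ E : Matrix (G × K) (G × K) ℂ, ∀ c : ℂ, (∀ g, E * rho G K g = rho G K g * E) →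
        E * Vm φ = c • Vm φ → E * q = c • q) := by
  set V := Vm φ with hVdef
  set p : Matrix (G × K) (G × K) ℂ := V * Vᴴ with hp
  have hV : Vᴴ * V = 1 := Vm_isom φ hφ
  have hpp : IsProj p := by
    constructor
    · rw [hp, conjTranspose_mul, conjTranspose_conjTranspose]
    · rw [hp, Matrix.mul_assoc, ← Matrix.mul_assoc Vᴴ, hV, Matrix.one_mul]
  set ρ := rho G K with hρ
  have hinvr : ∀ h : G, ρ h * ρ h⁻¹ = 1 := fun h => by rw [← map_mul, mul_inv_cancel, map_one]
  have hinvl : ∀ h : G, ρ h⁻¹ * ρ h = 1 := fun h => by rw [← map_mul, inv_mul_cancel, map_one]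
  have hconj : ∀ h : G, (ρ h)ᴴ = ρ h⁻¹ := rho_conj
  set P : G → Matrix (G × K) (G × K) ℂ := fun h => ρ h * p * ρ h⁻¹ with hP
  have hPproj : ∀ h, IsProj (P h) := by
    intro h
    constructor
    · simp only [hP]
      rw [conjTranspose_mul, conjTranspose_mul, hconj, hconj, hpp.herm, inv_inv,
        ← Matrix.mul_assoc (ρ h) p (ρ h⁻¹)]
    · simp only [hP]
      calc ρ h * p * ρ h⁻¹ * (ρ h * p * ρ h⁻¹) = ρ h * p * (ρ h⁻¹ * ρ h) * p * ρ h⁻¹ := by
            simp only [Matrix.mul_assoc]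
        _ = ρ h * (p * p) * ρ h⁻¹ := by rw [hinvl, Matrix.mul_one, Matrix.mul_assoc (ρ h)]
        _ = ρ h * p * ρ h⁻¹ := by rw [hpp.idem]
  have hPnear : ∀ h, hs (P h - p) ≤ 2 * b := by
    intro h
    have hd := defect φ h b hb hmul
    have hφ2 : φ h * (φ h)ᴴ = 1 := mul_eq_one_comm.1 (hφ h)
    have e1 : P h - p = (ρ h * V - V * φ h) * (ρ h * V)ᴴ +
        ((ρ h * V - V * φ h) * (φ h)ᴴ * Vᴴ)ᴴ := by
      simp only [hP, hp]
      rw [conjTranspose_mul, conjTranspose_mul, conjTranspose_mul, conjTranspose_conjTranspose,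
        conjTranspose_conjTranspose, conjTranspose_sub, conjTranspose_mul, conjTranspose_mul,
        hconj, Matrix.sub_mul, Matrix.mul_sub, Matrix.mul_sub]
      have e2 : V * (φ h * ((φ h)ᴴ * Vᴴ)) = V * Vᴴ := by
        rw [← Matrix.mul_assoc (φ h), hφ2, Matrix.one_mul]
      rw [e2]
      simp only [Matrix.mul_assoc]
      abel
    have hiso : (ρ h * V)ᴴ * (ρ h * V) = 1 := by
      rw [conjTranspose_mul, hconj, Matrix.mul_assoc, ← Matrix.mul_assoc (ρ h⁻¹), hinvl,
        Matrix.one_mul, hV]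
    have hiso2 : (V * φ h)ᴴ * (V * φ h) = 1 := by
      rw [conjTranspose_mul, Matrix.mul_assoc, ← Matrix.mul_assoc Vᴴ, hV, Matrix.one_mul, hφ]
    have h1 : hs ((ρ h * V - V * φ h) * (ρ h * V)ᴴ) = hs (ρ h * V - V * φ h) :=
      hs_mul_coisom hiso _
    have h2 : hs ((ρ h * V - V * φ h) * (φ h)ᴴ * Vᴴ)ᴴ = hs (ρ h * V - V * φ h) := by
      rw [hs_conjTranspose, Matrix.mul_assoc, ← conjTranspose_mul]
      exact hs_mul_coisom hiso2 _
    rw [e1]
    refine (hs_add_le _ _).trans ?_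
    rw [h1, h2]
    have : hs (ρ h * V - V * φ h) ≤ b := hd
    linarith
  have hcard : (0 : ℝ) < Fintype.card G := by exact_mod_cast Fintype.card_pos
  have hcardC : (Fintype.card G : ℂ) ≠ 0 := by exact_mod_cast hcard.ne'
  set q0 : Matrix (G × K) (G × K) ℂ := (Fintype.card G : ℂ)⁻¹ • ∑ h, P h with hq0
  have hn : ‖(Fintype.card G : ℂ)⁻¹‖ = (Fintype.card G : ℝ)⁻¹ := by
    rw [norm_inv, Complex.norm_natCast]
  have hq0near : hs (q0 - p) ≤ 2 * b := by
    have e : q0 - p = (Fintype.card G : ℂ)⁻¹ • ∑ h, (P h - p) := by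
      rw [Finset.sum_sub_distrib, smul_sub, Finset.sum_const, Finset.card_univ, ← Nat.cast_smul_eq_nsmul ℂ,
        smul_smul, inv_mul_cancel₀ hcardC, one_smul]
    rw [e, hs_smul, hn]
    calc (Fintype.card G : ℝ)⁻¹ * hs (∑ h, (P h - p)) ≤ (Fintype.card G : ℝ)⁻¹ * ∑ h : G, 2 * b := by
          refine mul_le_mul_of_nonneg_left ?_ (by positivity)
          exact (hs_sum_le _ _).trans (Finset.sum_le_sum fun h _ => hPnear h)
      _ = 2 * b := by
          rw [Finset.sum_const, Finset.card_univ, nsmul_eq_mul, ← mul_assoc,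
            inv_mul_cancel₀ hcard.ne', one_mul]
  have hq0herm : q0ᴴ = q0 := by
    rw [hq0, conjTranspose_smul, conjTranspose_sum]
    congr 1
    · simp
    · exact Finset.sum_congr rfl fun h _ => (hPproj h).herm
  have hq0inv : ∀ g, ρ g * q0 = q0 * ρ g := by
    intro g
    rw [hq0, Matrix.mul_smul, Matrix.smul_mul, Matrix.mul_sum, Matrix.sum_mul]
    congr 1
    rw [← Equiv.sum_comp (Equiv.mulLeft g) (fun h => P h * ρ g)]
    refine Finset.sum_congr rfl fun h _ => ?_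
    simp only [hP, Equiv.coe_mulLeft, _root_.mul_inv_rev, map_mul]
    simp only [Matrix.mul_assoc, hinvl, Matrix.mul_one]
  have hcontr : ∀ {m : Type _} [Fintype m] (x : Matrix (G × K) m ℂ), hs ((1 - q0) * x) ≤ hs x := by
    intro m _ x
    have e : (1 - q0) * x = (Fintype.card G : ℂ)⁻¹ • ∑ h, ((1 - P h) * x) := by
      have e0 : ∑ h, ((1 - P h) * x) = (Fintype.card G : ℂ) • x - (∑ h, P h) * x := by
        rw [Matrix.sum_mul, Finset.sum_congr rfl fun h _ => Matrix.sub_mul 1 (P h) x,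
          Finset.sum_sub_distrib, Matrix.one_mul, Finset.sum_const, Finset.card_univ,
          ← Nat.cast_smul_eq_nsmul ℂ]
      rw [e0, smul_sub, smul_smul, inv_mul_cancel₀ hcardC, one_smul, hq0, Matrix.sub_mul,
        Matrix.one_mul, Matrix.smul_mul]
    rw [e, hs_smul, hn]
    calc (Fintype.card G : ℝ)⁻¹ * hs (∑ h, ((1 - P h) * x)) ≤
          (Fintype.card G : ℝ)⁻¹ * ∑ h : G, hs x := by
          refine mul_le_mul_of_nonneg_left ?_ (by positivity)
          exact (hs_sum_le _ _).trans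
            (Finset.sum_le_sum fun h _ => hs_proj_mul_le (hPproj h).one_sub x)
      _ = hs x := by
          rw [Finset.sum_const, Finset.card_univ, nsmul_eq_mul, ← mul_assoc,
            inv_mul_cancel₀ hcard.ne', one_mul]
  have hquad : hs (q0 - q0 * q0) ≤ 4 * b := by
    have e : q0 - q0 * q0 = (1 - q0) * (q0 - p) + (p - q0) * p := by
      rw [Matrix.sub_mul (1 : Matrix (G × K) (G × K) ℂ), Matrix.one_mul, Matrix.mul_sub,
        Matrix.sub_mul, hpp.idem]
      abel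
    rw [e]
    refine (hs_add_le _ _).trans ?_
    have h1 := hcontr (q0 - p)
    have h2 := hs_mul_proj_le hpp (p - q0)
    rw [hs_sub_comm p q0] at h2
    linarith
  obtain ⟨q, y, hq, hqy, hqcomm, hqnear⟩ := exists_round q0 hq0herm
  refine ⟨q, hq, fun g => hqcomm _ (hq0inv g), ?_, ?_⟩
  · have h1 := hs_tri q q0 p
    linarith
  · intro E c hE hEV
    have hEp : E * p = c • p := by rw [hp, ← Matrix.mul_assoc, hEV, Matrix.smul_mul]
    have hEq0 : E * q0 = c • q0 := by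
      rw [hq0, Matrix.mul_smul, Matrix.mul_sum, smul_comm, Finset.smul_sum (r := c)]
      congr 1
      refine Finset.sum_congr rfl fun h _ => ?_
      simp only [hP]
      rw [← Matrix.mul_assoc, ← Matrix.mul_assoc, hE, Matrix.mul_assoc (ρ h), hEp, Matrix.mul_smul,
        Matrix.smul_mul]
    rw [hqy, ← Matrix.mul_assoc, hEq0, Matrix.smul_mul]


set_option maxHeartbeats 1000000 in
/-- Dimension count for almost irreducible almost representations. -/
theorem gh_main [Nonempty K] (φ : G → Matrix K K ℂ) (hφ : ∀ g, (φ g)ᴴ * φ g = 1) (c : ℝ)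
    (hc : 0 ≤ c) (hc1 : c ≤ 1 / 100)
    (hmul : ∀ g h, hs (φ (g * h) - φ g * φ h) ≤ c * Real.sqrt (Fintype.card K))
    (Z : Finset G) (hZ1 : Z.Nonempty) (lam : G → ℂ) (hcen : ∀ z ∈ Z, ∀ g, g * z = z * g)
    (hZ : ∀ z ∈ Z, ∀ g, φ (g * z) = lam z • φ g)
    (hnZ : ∀ g, g ∉ Z → ∃ h, ∃ z ∈ Z, lam z ≠ 1 ∧ h * g = g * h * z)
    (hirr : ∀ x : Matrix K K ℂ, xᴴ = x → (∀ z : Matrix K K ℂ, hs (x * z) ≤ hs z) →
      hs (x * x - x) ≤ 10 * (c * Real.sqrt (Fintype.card K)) →
      (∀ g, hs (x * φ g - φ g * x) ≤ 2 * (c * Real.sqrt (Fintype.card K))) →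
      5 / 12 ≤ ‖2 * (trace x / Fintype.card K) - 1‖) :
    ∃ N : ℕ, N ^ 2 * Z.card = Fintype.card G ∧
      |(N : ℝ) - Fintype.card K| ≤ 100 * c ^ 2 * Fintype.card K := by
  set k : ℝ := (Fintype.card K : ℝ) with hk
  have hkpos : 0 < k := by rw [hk]; exact_mod_cast Fintype.card_pos
  have hsk : Real.sqrt k ^ 2 = k := Real.sq_sqrt hkpos.le
  have hb : 0 ≤ c * Real.sqrt k := mul_nonneg hc (Real.sqrt_nonneg _)
  obtain ⟨q, hq, hqinv, hqnear, hqE⟩ := gh_proj φ hφ (c * Real.sqrt k) hb hmul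
  set V := Vm φ with hVdef
  have hV : Vᴴ * V = 1 := Vm_isom φ hφ
  set p : Matrix (G × K) (G × K) ℂ := V * Vᴴ with hp
  have hpp : IsProj p := by
    constructor
    · rw [hp, conjTranspose_mul, conjTranspose_conjTranspose]
    · rw [hp, Matrix.mul_assoc, ← Matrix.mul_assoc Vᴴ, hV, Matrix.one_mul]
  set ρ := rho G K with hρ
  have hinvr : ∀ h : G, ρ h * ρ h⁻¹ = 1 := fun h => by rw [← map_mul, mul_inv_cancel, map_one]
  have hinvl : ∀ h : G, ρ h⁻¹ * ρ h = 1 := fun h => by rw [← map_mul, inv_mul_cancel, map_one]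
  have hconj : ∀ h : G, (ρ h)ᴴ = ρ h⁻¹ := rho_conj
  -- traces
  have hptr : hs p ^ 2 = k := by
    have h1 : trace p = (k : ℂ) := by
      rw [hp, trace_mul_comm, hV, trace_one, hk]; simp
    have h2 := hpp.trace_eq
    rw [h1] at h2
    exact_mod_cast h2.symm
  set η : ℝ := 100 * c ^ 2 with hη
  have hη0 : 0 ≤ η := by positivity
  have hη1 : η ≤ 1 / 100 := by nlinarith
  have hT : hs (q - p) ^ 2 ≤ η * k := by
    calc hs (q - p) ^ 2 ≤ (10 * (c * Real.sqrt k)) ^ 2 :=
          pow_le_pow_left₀ (hs_nonneg _) hqnear 2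
      _ = η * k := by rw [hη, mul_pow, mul_pow, hsk]; ring
  have hqk : |hs q ^ 2 - k| ≤ η * k := by
    rw [← hptr]
    refine (abs_trace_sub_le hq hpp).trans ?_
    rw [hptr]; exact hT
  rw [abs_le] at hqk
  have hq0 : q ≠ 0 := by
    intro h0
    rw [h0, hs_zero] at hqk
    nlinarith [hqk.1]
  -- central elements
  have hZq : ∀ z ∈ Z, ρ z * q = lam z • q := by
    intro z hz
    apply hqE (ρ z) (lam z)
    · intro g
      rw [← map_mul, ← map_mul, hcen z hz g]
    · ext a j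
      rw [hρ, rho_mul_apply, Matrix.smul_apply]
      simp only [hVdef, Vm, Matrix.of_apply, hZ z hz, Matrix.smul_apply, smul_eq_mul]
      ring
  have hnZq : ∀ g, g ∉ Z → ∃ h : G, ∃ ζ : ℂ, ζ ≠ 1 ∧ ρ h * ρ g * q = ζ • (ρ g * ρ h * q) := by
    intro g hg
    obtain ⟨h, z, hz, hlz, hh⟩ := hnZ g hg
    refine ⟨h, lam z, hlz, ?_⟩
    rw [← map_mul, hh, map_mul, map_mul, Matrix.mul_assoc, hZq z hz, Matrix.mul_smul]
  obtain ⟨N, j, hN0, hj0, hNG, hqtr, hall⟩ :=
    splitting (ρ := ρ) hconj Z (Finset.card_pos.2 hZ1) lam hq hqinv hq0 hZq hnZq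
  have hqtr' : hs q ^ 2 = (j : ℝ) * N := by
    have h2 := hq.trace_eq
    rw [hqtr] at h2
    have : ((j * N : ℕ) : ℝ) = hs q ^ 2 := by exact_mod_cast h2
    rw [← this]; push_cast; ring
  refine ⟨N, hNG, ?_⟩
  -- `j = 1`
  have hj1 : j = 1 := by
    by_contra hj1
    have hj2 : 2 ≤ j := by omega
    obtain ⟨e, he, hetr⟩ := hall (j / 2) (Nat.div_le_self _ _)
    have hetr' : hs e ^ 2 = ((j / 2 : ℕ) : ℝ) * N := by
      have h2 := he.proj.trace_eq
      rw [hetr] at h2
      have : ((j / 2 * N : ℕ) : ℝ) = hs e ^ 2 := by exact_mod_cast h2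
      rw [← this]; push_cast; ring
    have hlow : hs q ^ 2 ≤ 3 * hs e ^ 2 := by
      rw [hqtr', hetr']
      have : (j : ℝ) ≤ 3 * ((j / 2 : ℕ) : ℝ) := by
        have : j ≤ 3 * (j / 2) := by omega
        exact_mod_cast this
      have hN : (0 : ℝ) ≤ N := Nat.cast_nonneg _
      nlinarith
    have hupp : 2 * hs e ^ 2 ≤ hs q ^ 2 := by
      rw [hqtr', hetr']
      have : 2 * ((j / 2 : ℕ) : ℝ) ≤ (j : ℝ) := by
        have : 2 * (j / 2) ≤ j := by omega
        exact_mod_cast this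
      have hN : (0 : ℝ) ≤ N := Nat.cast_nonneg _
      nlinarith
    set x : Matrix K K ℂ := Vᴴ * e * V with hx
    have hxherm : xᴴ = x := by
      rw [hx, conjTranspose_mul, conjTranspose_mul, conjTranspose_conjTranspose, he.proj.herm,
        Matrix.mul_assoc]
    -- defect of e
    have hT2 : hs ((1 - p) * e) ≤ hs (q - p) := by
      have e1 : (1 - p) * e = (q - p) * e := by
        rw [Matrix.sub_mul, Matrix.sub_mul, Matrix.one_mul, he.le]
      rw [e1]
      exact hs_mul_proj_le he.proj _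
    have hT3 : hs ((1 - p) * e) ^ 2 ≤ η * k :=
      (pow_le_pow_left₀ (hs_nonneg _) hT2 2).trans hT
    have hpyth := pyth hpp e
    have htrx : trace x = ((hs (p * e) ^ 2 : ℝ) : ℂ) := by
      have t1 : trace x = trace (e * p) := by
        rw [hx, Matrix.mul_assoc, trace_mul_comm, Matrix.mul_assoc]
      have t2 : (p * e)ᴴ * (p * e) = e * p * e := by
        calc (p * e)ᴴ * (p * e) = e * (p * p) * e := by
              rw [conjTranspose_mul, hpp.herm, he.proj.herm]
              simp only [Matrix.mul_assoc]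
          _ = e * p * e := by rw [hpp.idem]
      have t3 : trace (e * p * e) = trace (e * p) := by
        rw [trace_mul_comm (e * p) e, ← Matrix.mul_assoc, he.proj.idem]
      rw [← trace_conjTranspose_mul_self, t2, t3, t1]
    set s : ℝ := hs (p * e) ^ 2 with hs1
    have hxx : hs (x * x - x) ≤ 10 * (c * Real.sqrt k) := by
      have e1 : x * x - x = -(Vᴴ * e * ((1 - p) * e) * V) := by
        have e2 : Vᴴ * e * (1 * e) * V = x := by
          rw [Matrix.one_mul, Matrix.mul_assoc Vᴴ e e, he.proj.idem, hx]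
        rw [Matrix.sub_mul 1 p e, Matrix.mul_sub, Matrix.sub_mul, e2, hx, hp]
        simp only [Matrix.mul_assoc]
        abel
      rw [e1, hs_neg]
      refine (hs_mul_isom_le hV _).trans ?_
      rw [Matrix.mul_assoc Vᴴ e]
      exact (hs_isomT_mul_le hV _).trans ((hs_proj_mul_le he.proj _).trans (hT2.trans hqnear))
    -- almost commutation
    have hcomm : ∀ g, hs (x * φ g - φ g * x) ≤ 2 * (c * Real.sqrt k) := by
      intro g
      have hd := defect φ g (c * Real.sqrt k) hb hmul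
      have hd' : hs (ρ g * V - V * φ g) ≤ c * Real.sqrt k := hd
      have hφ2 : φ g * (φ g)ᴴ = 1 := mul_eq_one_comm.1 (hφ g)
      have e1 : x * φ g - φ g * x = Vᴴ * (e * (V * φ g - ρ g * V)) +
          (Vᴴ * ρ g - φ g * Vᴴ) * (e * V) := by
        have e2 : e * (ρ g * V) = ρ g * (e * V) := by
          rw [← Matrix.mul_assoc, ← he.inv, Matrix.mul_assoc]
        rw [hx, Matrix.mul_sub, Matrix.mul_sub, Matrix.sub_mul, e2]
        simp only [Matrix.mul_assoc]
        abel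
      have h1 : hs (Vᴴ * (e * (V * φ g - ρ g * V))) ≤ c * Real.sqrt k := by
        refine (hs_isomT_mul_le hV _).trans ((hs_proj_mul_le he.proj _).trans ?_)
        rw [hs_sub_comm]; exact hd'
      have h2 : hs ((Vᴴ * ρ g - φ g * Vᴴ) * (e * V)) ≤ c * Real.sqrt k := by
        rw [← Matrix.mul_assoc]
        refine (hs_mul_isom_le hV _).trans ((hs_mul_proj_le he.proj _).trans ?_)
        have e3 : hs (Vᴴ * ρ g - φ g * Vᴴ) = hs (ρ g * V - V * φ g) := by
          have e4 : (Vᴴ * ρ g - φ g * Vᴴ)ᴴ = -(ρ g⁻¹ * ((ρ g * V - V * φ g) * (φ g)ᴴ)) := by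
            rw [conjTranspose_sub, conjTranspose_mul, conjTranspose_mul, conjTranspose_conjTranspose,
              hconj, Matrix.sub_mul, Matrix.mul_sub, Matrix.mul_assoc V, hφ2, Matrix.mul_one,
              ← Matrix.mul_assoc, ← Matrix.mul_assoc, hinvl, Matrix.one_mul]
            abel
          have hiso : (ρ g⁻¹)ᴴ * ρ g⁻¹ = 1 := by rw [hconj, inv_inv]; exact hinvr g
          rw [← hs_conjTranspose, e4, hs_neg, hs_isom_mul hiso, hs_mul_coisom (hφ g)]
        rw [e3]; exact hd'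
      rw [e1]
      refine (hs_add_le _ _).trans ?_
      linarith
    have hcontr : ∀ z : Matrix K K ℂ, hs (x * z) ≤ hs z := by
      intro z
      have e1 : x * z = Vᴴ * (e * (V * z)) := by rw [hx]; simp only [Matrix.mul_assoc]
      rw [e1]
      refine (hs_isomT_mul_le hV _).trans ((hs_proj_mul_le he.proj _).trans ?_)
      rw [hs_isom_mul hV]
    have hfin := hirr x hxherm hcontr hxx hcomm
    -- numerics
    have hs_low : k / 3 - η * k / 3 - η * k ≤ s := by
      have h1 := hqk.1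
      have : hs e ^ 2 = s + hs ((1 - p) * e) ^ 2 := hpyth
      linarith
    have hs_upp : s ≤ k / 2 + η * k / 2 := by
      have h1 := hqk.2
      have : hs e ^ 2 = s + hs ((1 - p) * e) ^ 2 := hpyth
      have h3 := sq_nonneg (hs ((1 - p) * e))
      linarith
    have hdiv : 2 * (trace x / Fintype.card K) - 1 = ((2 * (s / k) - 1 : ℝ) : ℂ) := by
      rw [htrx, hk]; push_cast; ring
    rw [hdiv, Complex.norm_real, Real.norm_eq_abs] at hfin
    set τ : ℝ := s / k with hτ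
    have h1 : 1 / 3 - η * 4 / 3 ≤ τ := by
      rw [hτ, le_div_iff₀ hkpos]; linarith
    have h2 : τ ≤ 1 / 2 + η / 2 := by
      rw [hτ, div_le_iff₀ hkpos]; linarith
    have h3 : |2 * τ - 1| < 5 / 12 := by
      rw [abs_lt]
      constructor <;> linarith
    linarith
  rw [hj1] at hqtr'
  rw [Nat.cast_one, one_mul] at hqtr'
  rw [← hqtr', abs_le]
  exact hqk

end Pool.Agent.FG.GH
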