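import Mathlib

/-!
Hilbert-Schmidt norm of complex matrices, functions of hermitian matrices, projections.
-/

open Matrix

namespace Pool.Agent.FG.GH

section basic

variable {m n p : Type*} [Fintype m] [Fintype n] [Fintype p]

/-- The Hilbert-Schmidt (Frobenius) norm, not normalised. -/
noncomputable def hs (x : Matrix m n ℂ) : ℝ := Real.sqrt (∑ i, ∑ j, ‖x i j‖ ^ 2)

theorem hs_nonneg (x : Matrix m n ℂ) : 0 ≤ hs x := Real.sqrt_nonneg _

theorem hs_sq_eq (x : Matrix m n ℂ) : hs x ^ 2 = ∑ i, ∑ j, ‖x i j‖ ^ 2 := by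
  unfold hs
  rw [Real.sq_sqrt]
  exact Finset.sum_nonneg fun i _ => Finset.sum_nonneg fun j _ => sq_nonneg _

theorem trace_conjTranspose_mul_self (x : Matrix m n ℂ) :
    trace (xᴴ * x) = ((hs x ^ 2 : ℝ) : ℂ) := by
  rw [hs_sq_eq, Finset.sum_comm]
  simp only [trace, diag, mul_apply, conjTranspose_apply]
  push_cast
  refine Finset.sum_congr rfl fun j _ => Finset.sum_congr rfl fun i _ => ?_
  rw [← Complex.conj_mul']
  rfl

theorem hs_sq (x : Matrix m n ℂ) : hs x ^ 2 = (trace (xᴴ * x)).re := by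
  rw [trace_conjTranspose_mul_self, Complex.ofReal_re]

theorem hs_eq_frob (x : Matrix m n ℂ) :
    hs x = @norm _ (Matrix.frobeniusSeminormedAddCommGroup (m := m) (n := n) (α := ℂ)).toNorm x := by
  rw [@Matrix.frobenius_norm_def]
  unfold hs
  rw [Real.sqrt_eq_rpow]
  simp

theorem hs_add_le (x y : Matrix m n ℂ) : hs (x + y) ≤ hs x + hs y := by
  rw [hs_eq_frob, hs_eq_frob, hs_eq_frob]
  exact @norm_add_le _ (Matrix.frobeniusSeminormedAddCommGroup (m := m) (n := n) (α := ℂ)).toSeminormedAddGroup x y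

theorem hs_neg (x : Matrix m n ℂ) : hs (-x) = hs x := by
  unfold hs
  simp

theorem hs_zero : hs (0 : Matrix m n ℂ) = 0 := by
  unfold hs
  simp

theorem hs_sub_comm (x y : Matrix m n ℂ) : hs (x - y) = hs (y - x) := by
  rw [← hs_neg, neg_sub]

theorem hs_sub_le (x y : Matrix m n ℂ) : hs (x - y) ≤ hs x + hs y := by
  rw [sub_eq_add_neg, ← hs_neg y]
  exact hs_add_le _ _

theorem hs_tri (x y z : Matrix m n ℂ) : hs (x - z) ≤ hs (x - y) + hs (y - z) := by
  have h := hs_add_le (x - y) (y - z)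
  rwa [sub_add_sub_cancel] at h

theorem hs_smul (c : ℂ) (x : Matrix m n ℂ) : hs (c • x) = ‖c‖ * hs x := by
  unfold hs
  have : ∑ i, ∑ j, ‖(c • x) i j‖ ^ 2 = ‖c‖ ^ 2 * ∑ i, ∑ j, ‖x i j‖ ^ 2 := by
    rw [Finset.mul_sum]
    refine Finset.sum_congr rfl fun i _ => ?_
    rw [Finset.mul_sum]
    refine Finset.sum_congr rfl fun j _ => ?_
    simp [mul_pow]
  rw [this, Real.sqrt_mul (sq_nonneg _), Real.sqrt_sq (norm_nonneg _)]

theorem hs_sum_le {ι : Type*} (s : Finset ι) (f : ι → Matrix m n ℂ) :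
    hs (∑ i ∈ s, f i) ≤ ∑ i ∈ s, hs (f i) := by
  classical
  induction s using Finset.induction_on with
  | empty => simp [hs_zero]
  | insert a s ha ih =>
    rw [Finset.sum_insert ha, Finset.sum_insert ha]
    exact (hs_add_le _ _).trans (by linarith)

theorem hs_conjTranspose (x : Matrix m n ℂ) : hs xᴴ = hs x := by
  unfold hs
  rw [Finset.sum_comm]
  simp

theorem hs_eq_zero {x : Matrix m n ℂ} (h : hs x = 0) : x = 0 := by
  have h2 := hs_sq_eq x
  rw [h, zero_pow two_ne_zero] at h2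
  ext i j
  have h3 := (Finset.sum_eq_zero_iff_of_nonneg (fun i _ =>
    Finset.sum_nonneg fun j _ => sq_nonneg (‖x i j‖))).1 h2.symm i (Finset.mem_univ i)
  have h4 := (Finset.sum_eq_zero_iff_of_nonneg (fun j _ =>
    sq_nonneg (‖x i j‖))).1 h3 j (Finset.mem_univ j)
  simpa using h4

/-- left multiplication by an isometry keeps the norm. -/
theorem hs_isom_mul [DecidableEq n] {V : Matrix m n ℂ} (hV : Vᴴ * V = 1) (x : Matrix n p ℂ) :
    hs (V * x) = hs x := by
  have h : hs (V * x) ^ 2 = hs x ^ 2 := by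
    rw [hs_sq, hs_sq, conjTranspose_mul, Matrix.mul_assoc, ← Matrix.mul_assoc Vᴴ, hV,
      Matrix.one_mul]
  exact (pow_left_inj₀ (hs_nonneg _) (hs_nonneg _) two_ne_zero).1 h

theorem hs_mul_coisom [DecidableEq n] {V : Matrix m n ℂ} (hV : Vᴴ * V = 1) (x : Matrix p n ℂ) :
    hs (x * Vᴴ) = hs x := by
  rw [← hs_conjTranspose, conjTranspose_mul, conjTranspose_conjTranspose, hs_isom_mul hV,
    hs_conjTranspose]

end basic

section proj

variable {H : Type*} [Fintype H]

/-- Orthogonal projections. -/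
structure IsProj (P : Matrix H H ℂ) : Prop where
  herm : Pᴴ = P
  idem : P * P = P

theorem IsProj.zero : IsProj (0 : Matrix H H ℂ) := ⟨by simp, by simp⟩

theorem IsProj.one_sub [DecidableEq H] {P : Matrix H H ℂ} (hP : IsProj P) : IsProj (1 - P) := by
  constructor
  · rw [conjTranspose_sub, hP.herm, conjTranspose_one]
  · rw [Matrix.mul_sub, Matrix.sub_mul, Matrix.sub_mul, hP.idem]
    simp

theorem IsProj.trace_eq {P : Matrix H H ℂ} (hP : IsProj P) :
    trace P = ((hs P ^ 2 : ℝ) : ℂ) := by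
  rw [← trace_conjTranspose_mul_self, hP.herm, hP.idem]

theorem pyth {p : Type*} [Fintype p] [DecidableEq H] {P : Matrix H H ℂ} (hP : IsProj P)
    (x : Matrix H p ℂ) : hs x ^ 2 = hs (P * x) ^ 2 + hs ((1 - P) * x) ^ 2 := by
  rw [hs_sq, hs_sq, hs_sq, ← Complex.add_re, ← trace_add]
  congr 2
  rw [conjTranspose_mul, conjTranspose_mul, hP.herm, hP.one_sub.herm, Matrix.mul_assoc,
    Matrix.mul_assoc, ← Matrix.mul_assoc P, ← Matrix.mul_assoc (1 - P), hP.idem,
    hP.one_sub.idem, ← Matrix.mul_add, ← Matrix.add_mul]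
  simp

theorem hs_proj_mul_le {p : Type*} [Fintype p] [DecidableEq H] {P : Matrix H H ℂ} (hP : IsProj P)
    (x : Matrix H p ℂ) : hs (P * x) ≤ hs x := by
  have h := pyth hP x
  have h1 := sq_nonneg (hs ((1 - P) * x))
  exact (pow_le_pow_iff_left₀ (hs_nonneg _) (hs_nonneg _) two_ne_zero).1 (by linarith)

theorem hs_mul_proj_le {p : Type*} [Fintype p] [DecidableEq H] {P : Matrix H H ℂ} (hP : IsProj P)
    (x : Matrix p H ℂ) : hs (x * P) ≤ hs x := by
  rw [← hs_conjTranspose, conjTranspose_mul, hP.herm, ← hs_conjTranspose x]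
  exact hs_proj_mul_le hP _

variable [DecidableEq H]

/-- Diagonalisation of a hermitian matrix. -/
theorem exists_diag (x : Matrix H H ℂ) (hx : xᴴ = x) :
    ∃ (U : Matrix H H ℂ) (l : H → ℝ), Uᴴ * U = 1 ∧ U * Uᴴ = 1 ∧
      x = U * diagonal (fun i => (l i : ℂ)) * Uᴴ := by
  have hx' : x.IsHermitian := hx
  refine ⟨(hx'.eigenvectorUnitary : Matrix H H ℂ), hx'.eigenvalues, ?_, ?_, ?_⟩
  · have := Unitary.coe_star_mul_self hx'.eigenvectorUnitary
    rwa [star_eq_conjTranspose] at this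
  · exact Unitary.coe_mul_star_self hx'.eigenvectorUnitary
  · have h := hx'.spectral_theorem
    rw [Unitary.conjStarAlgAut_apply] at h
    exact h

/-- Function of a matrix given in diagonal form. -/
noncomputable def fdiag (U : Matrix H H ℂ) (l : H → ℝ) (f : ℝ → ℝ) : Matrix H H ℂ :=
  U * diagonal (fun i => ((f (l i) : ℝ) : ℂ)) * Uᴴ

theorem fdiag_herm (U : Matrix H H ℂ) (l : H → ℝ) (f : ℝ → ℝ) :
    (fdiag U l f)ᴴ = fdiag U l f := by
  unfold fdiag
  rw [conjTranspose_mul, conjTranspose_mul, conjTranspose_conjTranspose, diagonal_conjTranspose,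
    ← Matrix.mul_assoc]
  congr 3
  ext i
  simp

theorem fdiag_mul {U : Matrix H H ℂ} (hU : Uᴴ * U = 1) (l : H → ℝ) (f g : ℝ → ℝ) :
    fdiag U l f * fdiag U l g = fdiag U l (fun t => f t * g t) := by
  unfold fdiag
  have : U * diagonal (fun i => ((f (l i) : ℝ) : ℂ)) * Uᴴ *
      (U * diagonal (fun i => ((g (l i) : ℝ) : ℂ)) * Uᴴ) =
      U * (diagonal (fun i => ((f (l i) : ℝ) : ℂ)) * (Uᴴ * U) *
        diagonal (fun i => ((g (l i) : ℝ) : ℂ))) * Uᴴ := by
    simp only [Matrix.mul_assoc]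
  rw [this, hU, Matrix.mul_one, diagonal_mul_diagonal]
  congr 3
  ext i
  push_cast
  rfl

theorem fdiag_sub (U : Matrix H H ℂ) (l : H → ℝ) (f g : ℝ → ℝ) :
    fdiag U l f - fdiag U l g = fdiag U l (fun t => f t - g t) := by
  unfold fdiag
  rw [← Matrix.sub_mul, ← Matrix.mul_sub, diagonal_sub]
  congr 3
  ext i
  push_cast
  rfl

theorem fdiag_comm {U : Matrix H H ℂ} (hU : Uᴴ * U = 1) (hU2 : U * Uᴴ = 1) (l : H → ℝ)
    (f : ℝ → ℝ) (y : Matrix H H ℂ)
    (hy : y * fdiag U l id = fdiag U l id * y) : y * fdiag U l f = fdiag U l f * y := by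
  unfold fdiag at *
  set w : Matrix H H ℂ := Uᴴ * y * U with hw
  have h1 : w * diagonal (fun i => ((l i : ℝ) : ℂ)) = diagonal (fun i => ((l i : ℝ) : ℂ)) * w := by
    have h := congrArg (fun z => Uᴴ * z * U) hy
    simp only [id] at h
    have e1 : Uᴴ * (y * (U * diagonal (fun i => ((l i : ℝ) : ℂ)) * Uᴴ)) * U =
        w * diagonal (fun i => ((l i : ℝ) : ℂ)) * (Uᴴ * U) := by
      rw [hw]; simp only [Matrix.mul_assoc]
    have e2 : Uᴴ * (U * diagonal (fun i => ((l i : ℝ) : ℂ)) * Uᴴ * y) * U =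
        (Uᴴ * U) * diagonal (fun i => ((l i : ℝ) : ℂ)) * w := by
      rw [hw]; simp only [Matrix.mul_assoc]
    rw [e1, e2, hU, Matrix.mul_one, Matrix.one_mul] at h
    exact h
  have h2 : w * diagonal (fun i => ((f (l i) : ℝ) : ℂ)) =
      diagonal (fun i => ((f (l i) : ℝ) : ℂ)) * w := by
    ext i j
    have h3 := congrFun (congrFun h1 i) j
    rw [mul_diagonal, diagonal_mul] at h3 ⊢
    by_cases hwij : w i j = 0
    · simp [hwij]
    · have : ((l j : ℝ) : ℂ) = ((l i : ℝ) : ℂ) := by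
        have h4 : w i j * (((l j : ℝ) : ℂ) - ((l i : ℝ) : ℂ)) = 0 := by
          rw [mul_sub, h3]; ring
        rcases mul_eq_zero.1 h4 with h5 | h5
        · exact absurd h5 hwij
        · exact sub_eq_zero.1 h5
      have h6 : l j = l i := by exact_mod_cast this
      rw [h6, mul_comm]
  have e3 : y * (U * diagonal (fun i => ((f (l i) : ℝ) : ℂ)) * Uᴴ) =
      U * (w * diagonal (fun i => ((f (l i) : ℝ) : ℂ))) * Uᴴ := by
    have : U * (w * diagonal (fun i => ((f (l i) : ℝ) : ℂ))) * Uᴴ =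
        (U * Uᴴ) * y * (U * diagonal (fun i => ((f (l i) : ℝ) : ℂ)) * Uᴴ) := by
      rw [hw]; simp only [Matrix.mul_assoc]
    rw [this, hU2, Matrix.one_mul]
  have e4 : (U * diagonal (fun i => ((f (l i) : ℝ) : ℂ)) * Uᴴ) * y =
      U * (diagonal (fun i => ((f (l i) : ℝ) : ℂ)) * w) * Uᴴ := by
    have : U * (diagonal (fun i => ((f (l i) : ℝ) : ℂ)) * w) * Uᴴ =
        (U * diagonal (fun i => ((f (l i) : ℝ) : ℂ)) * Uᴴ) * y * (U * Uᴴ) := by
      rw [hw]; simp only [Matrix.mul_assoc]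
    rw [this, hU2, Matrix.mul_one]
  rw [e3, e4, h2]

theorem fdiag_hs_sq {U : Matrix H H ℂ} (hU : Uᴴ * U = 1) (l : H → ℝ) (f : ℝ → ℝ) :
    hs (fdiag U l f) ^ 2 = ∑ i, f (l i) ^ 2 := by
  rw [hs_sq, fdiag_herm, fdiag_mul hU]
  unfold fdiag
  rw [trace_mul_comm, ← Matrix.mul_assoc, hU, Matrix.one_mul, trace_diagonal, Complex.re_sum]
  refine Finset.sum_congr rfl fun i _ => ?_
  rw [Complex.ofReal_re, sq]

theorem fdiag_trace {U : Matrix H H ℂ} (hU : Uᴴ * U = 1) (l : H → ℝ) (f : ℝ → ℝ) :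
    trace (fdiag U l f) = ((∑ i, f (l i) : ℝ) : ℂ) := by
  unfold fdiag
  rw [trace_mul_comm, ← Matrix.mul_assoc, hU, Matrix.one_mul, trace_diagonal]
  push_cast
  rfl

/-- the trace of a projection is a natural number. -/
theorem IsProj.trace_nat {P : Matrix H H ℂ} (hP : IsProj P) : ∃ n : ℕ, trace P = (n : ℂ) := by
  obtain ⟨U, l, hU, hU2, hx⟩ := exists_diag P hP.herm
  have hx' : P = fdiag U l id := hx
  have h01 : ∀ i, l i = 0 ∨ l i = 1 := by
    have h1 : fdiag U l (fun t => t * t - t) = 0 := by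
      have := fdiag_sub U l (fun t => id t * id t) id
      rw [← fdiag_mul hU, ← hx', hP.idem, sub_self] at this
      exact this.symm
    have h2 := fdiag_hs_sq hU l (fun t => t * t - t)
    rw [h1, hs_zero] at h2
    intro i
    have h3 := (Finset.sum_eq_zero_iff_of_nonneg (fun i _ =>
      sq_nonneg (l i * l i - l i))).1 (by simpa using h2.symm) i (Finset.mem_univ i)
    have h4 : l i * (l i - 1) = 0 := by
      have := pow_eq_zero_iff (two_ne_zero) |>.1 h3
      linarith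
    rcases mul_eq_zero.1 h4 with h | h
    · exact Or.inl h
    · exact Or.inr (by linarith)
  refine ⟨(Finset.univ.filter fun i => l i = 1).card, ?_⟩
  rw [hx', fdiag_trace hU]
  have : ∑ i, id (l i) = ((Finset.univ.filter fun i => l i = 1).card : ℝ) := by
    rw [Finset.card_filter]
    push_cast
    refine Finset.sum_congr rfl fun i _ => ?_
    rcases h01 i with h | h <;> simp [h]
  rw [this]
  simp

omit [DecidableEq H] in
theorem IsProj.eq_zero_of_trace {P : Matrix H H ℂ} (hP : IsProj P) (h : trace P = 0) : P = 0 := by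
  rw [hP.trace_eq] at h
  have : hs P ^ 2 = 0 := by exact_mod_cast h
  exact hs_eq_zero (by simpa using this)

/-- spectral rounding: every hermitian matrix is near a projection commuting with everything
that commutes with it, and multiple of it. -/
theorem exists_round (x : Matrix H H ℂ) (hx : xᴴ = x) :
    ∃ P y : Matrix H H ℂ, IsProj P ∧ P = x * y ∧
      (∀ z : Matrix H H ℂ, z * x = x * z → z * P = P * z) ∧ hs (P - x) ≤ 2 * hs (x - x * x) := by
  obtain ⟨U, l, hU, hU2, hx0⟩ := exists_diag x hx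
  have hx' : x = fdiag U l id := hx0
  classical
  let f : ℝ → ℝ := fun t => if 1 / 2 ≤ t then 1 else 0
  let g : ℝ → ℝ := fun t => if 1 / 2 ≤ t then t⁻¹ else 0
  refine ⟨fdiag U l f, fdiag U l g, ⟨fdiag_herm _ _ _, ?_⟩, ?_, ?_, ?_⟩
  · rw [fdiag_mul hU]
    congr 1
    ext t
    simp only [f]
    split_ifs <;> simp
  · rw [hx', fdiag_mul hU]
    congr 1
    ext t
    simp only [f, g, id]
    split_ifs with h
    · rw [mul_inv_cancel₀ (by linarith)]
    · simp
  · intro z hz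
    rw [hx'] at hz
    exact fdiag_comm hU hU2 l f z hz
  · have h1 : hs (fdiag U l f - x) ^ 2 ≤ (2 * hs (x - x * x)) ^ 2 := by
      rw [mul_pow, hx', fdiag_mul hU, fdiag_sub, fdiag_sub, fdiag_hs_sq hU, fdiag_hs_sq hU,
        Finset.mul_sum]
      refine Finset.sum_le_sum fun i _ => ?_
      simp only [f, id]
      generalize l i = t
      split_ifs with h
      · nlinarith [sq_nonneg (1 - t), mul_nonneg (sub_nonneg.2 h) (sq_nonneg (1 - t)),
          mul_nonneg (by linarith : (0:ℝ) ≤ 2 * t - 1) (sq_nonneg (1 - t)),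
          mul_nonneg (mul_nonneg (by linarith : (0:ℝ) ≤ 2 * t - 1) (by linarith : (0:ℝ) ≤ 2 * t + 1))
            (sq_nonneg (1 - t))]
      · have h : t < 1 / 2 := lt_of_not_ge h
        nlinarith [sq_nonneg t, mul_nonneg (mul_nonneg (by linarith : (0:ℝ) ≤ 1 - 2 * t)
          (by linarith : (0:ℝ) ≤ 3 - 2 * t)) (sq_nonneg t)]
    exact (pow_le_pow_iff_left₀ (hs_nonneg _) (by have := hs_nonneg (x - x * x); positivity)
      two_ne_zero).1 h1

end proj

end Pool.Agent.FG.GH
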