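import Pool.Agent.FG.HSBasic

/-!
Invariant projections of a unitary representation in which non central elements are moved by
a scalar: minimal invariant projections have trace `N` with `N ^ 2 * |Z| = |G|`, and every
invariant projection is a sum of such.
-/

open Matrix

namespace Pool.Agent.FG.GH

variable {H : Type*} [Fintype H] [DecidableEq H] {G : Type*} [Group G] [Fintype G]

/-- Invariant projections below `q`. -/
structure IProj (ρ : G →* Matrix H H ℂ) (q P : Matrix H H ℂ) : Prop where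
  proj : IsProj P
  inv : ∀ g, ρ g * P = P * ρ g
  le : q * P = P

variable {ρ : G →* Matrix H H ℂ}

omit [DecidableEq H] in
theorem herm_le {q P : Matrix H H ℂ} (hq : qᴴ = q) (hP : Pᴴ = P) (h : q * P = P) : P * q = P := by
  have := congrArg conjTranspose h
  rwa [conjTranspose_mul, hq, hP] at this

omit [Fintype G] in
/-- Schur: hermitian invariant elements of the corner of a minimal projection are scalars. -/
theorem schur_herm {f : Matrix H H ℂ} (hf : IsProj f)
    (hmin : ∀ P, IProj ρ f P → P = 0 ∨ P = f) (x : Matrix H H ℂ) (hx : xᴴ = x)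
    (hinv : ∀ g, ρ g * x = x * ρ g) (hle : f * x = x) : ∃ μ : ℝ, x = (μ : ℂ) • f := by
  classical
  by_cases hx0 : x = 0
  · exact ⟨0, by simp [hx0]⟩
  obtain ⟨U, l, hU, hU2, hxd⟩ := exists_diag x hx
  have hx' : x = fdiag U l id := hxd
  have : ∃ i, l i ≠ 0 := by
    by_contra hcon
    push Not at hcon
    apply hx0
    apply hs_eq_zero
    have h1 : hs x ^ 2 = 0 := by
      rw [hx', fdiag_hs_sq hU]
      exact Finset.sum_eq_zero fun i _ => by simp [hcon i]
    simpa using h1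
  obtain ⟨i, hi⟩ := this
  let e : ℝ → ℝ := fun t => if t = l i then 1 else 0
  let g : ℝ → ℝ := fun t => if t = l i then (l i)⁻¹ else 0
  have hP : IsProj (fdiag U l e) := by
    refine ⟨fdiag_herm _ _ _, ?_⟩
    rw [fdiag_mul hU]
    congr 1
    ext t
    simp only [e]
    split_ifs <;> simp
  have hPx : fdiag U l e = x * fdiag U l g := by
    rw [hx', fdiag_mul hU]
    congr 1
    ext t
    simp only [e, g, id]
    split_ifs with h
    · rw [h, mul_inv_cancel₀ hi]
    · simp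
  have hxP : x * fdiag U l e = ((l i : ℝ) : ℂ) • fdiag U l e := by
    have h1 : x * fdiag U l e = fdiag U l (fun t => l i * e t) := by
      rw [hx', fdiag_mul hU]
      congr 1
      ext t
      simp only [e, id]
      split_ifs with h
      · rw [h]
      · simp
    rw [h1]
    unfold fdiag
    have h2 : diagonal (fun j => (((l i * e (l j) : ℝ)) : ℂ)) =
        ((l i : ℝ) : ℂ) • diagonal (fun j => ((e (l j) : ℝ) : ℂ)) := by
      rw [← diagonal_smul]
      congr 1
      ext j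
      simp
    rw [h2, Matrix.mul_smul, Matrix.smul_mul]
  have hIP : IProj ρ f (fdiag U l e) := by
    refine ⟨hP, ?_, ?_⟩
    · intro g'
      apply fdiag_comm hU hU2
      rw [← hx']
      exact hinv g'
    · rw [hPx, ← Matrix.mul_assoc, hle]
  have hne : fdiag U l e ≠ 0 := by
    intro h0
    have h1 := fdiag_hs_sq hU l e
    rw [h0, hs_zero] at h1
    have h2 := (Finset.sum_eq_zero_iff_of_nonneg (fun j _ =>
      sq_nonneg (e (l j)))).1 (by simpa using h1.symm) i (Finset.mem_univ i)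
    simp [e] at h2
  rcases hmin _ hIP with h | h
  · exact absurd h hne
  · refine ⟨l i, ?_⟩
    rw [← h, ← hxP, h]
    exact (herm_le hf.herm hx hle).symm

/-- The averaging of the corner of `f`. -/
noncomputable def avg (ρ : G →* Matrix H H ℂ) (f y : Matrix H H ℂ) : Matrix H H ℂ :=
  ∑ g, ρ g * (f * y * f) * ρ g⁻¹

theorem avg_inv (f y : Matrix H H ℂ) (h : G) : ρ h * avg ρ f y = avg ρ f y * ρ h := by
  unfold avg
  rw [Matrix.mul_sum, Matrix.sum_mul]
  rw [← Equiv.sum_comp (Equiv.mulLeft h) (fun g => ρ g * (f * y * f) * ρ g⁻¹ * ρ h)]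
  refine Finset.sum_congr rfl fun g _ => ?_
  simp only [Equiv.coe_mulLeft, _root_.mul_inv_rev, map_mul]
  have : ρ h⁻¹ * ρ h = 1 := by rw [← map_mul, inv_mul_cancel, map_one]
  simp only [Matrix.mul_assoc, this, Matrix.mul_one]

theorem avg_trace (f y : Matrix H H ℂ) (hf : IsProj f) :
    trace (avg ρ f y) = (Fintype.card G : ℂ) * trace (f * y) := by
  unfold avg
  rw [trace_sum]
  have : ∀ g : G, trace (ρ g * (f * y * f) * ρ g⁻¹) = trace (f * y) := by
    intro g
    rw [trace_mul_comm, ← Matrix.mul_assoc, ← map_mul, inv_mul_cancel, map_one, Matrix.one_mul,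
      trace_mul_comm, ← Matrix.mul_assoc, hf.idem]
  simp [this]

theorem avg_le {f y : Matrix H H ℂ} (hf : IsProj f) (hinv : ∀ g, ρ g * f = f * ρ g) :
    f * avg ρ f y = avg ρ f y := by
  unfold avg
  rw [Matrix.mul_sum]
  refine Finset.sum_congr rfl fun g _ => ?_
  calc f * (ρ g * (f * y * f) * ρ g⁻¹) = (f * ρ g) * (f * y * f) * ρ g⁻¹ := by
        simp only [Matrix.mul_assoc]
    _ = ρ g * (f * (f * y * f)) * ρ g⁻¹ := by rw [← hinv]; simp only [Matrix.mul_assoc]
    _ = ρ g * (f * y * f) * ρ g⁻¹ := by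
        congr 2
        rw [← Matrix.mul_assoc, ← Matrix.mul_assoc, hf.idem]

theorem avg_herm {f y : Matrix H H ℂ} (hρ : ∀ g, (ρ g)ᴴ = ρ g⁻¹) (hf : IsProj f) (hy : yᴴ = y) :
    (avg ρ f y)ᴴ = avg ρ f y := by
  unfold avg
  rw [conjTranspose_sum]
  refine Finset.sum_congr rfl fun g _ => ?_
  rw [conjTranspose_mul, conjTranspose_mul, conjTranspose_mul, conjTranspose_mul, hρ, hρ, hf.herm,
    hy, inv_inv]
  simp only [Matrix.mul_assoc]

theorem avg_add (f y z : Matrix H H ℂ) : avg ρ f (y + z) = avg ρ f y + avg ρ f z := by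
  unfold avg
  rw [← Finset.sum_add_distrib]
  refine Finset.sum_congr rfl fun g _ => ?_
  simp only [Matrix.mul_add, Matrix.add_mul]

theorem avg_smul (c : ℂ) (f y : Matrix H H ℂ) : avg ρ f (c • y) = c • avg ρ f y := by
  unfold avg
  rw [Finset.smul_sum]
  refine Finset.sum_congr rfl fun g _ => ?_
  simp only [Matrix.mul_smul, Matrix.smul_mul]

theorem avg_scalar_herm (hρ : ∀ g, (ρ g)ᴴ = ρ g⁻¹) {f : Matrix H H ℂ} (hf : IsProj f)
    (hinv : ∀ g, ρ g * f = f * ρ g)
    (hmin : ∀ P, IProj ρ f P → P = 0 ∨ P = f) (y : Matrix H H ℂ) (hy : yᴴ = y) :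
    trace f • avg ρ f y = ((Fintype.card G : ℂ) * trace (f * y)) • f := by
  obtain ⟨μ, hμ⟩ := schur_herm (ρ := ρ) hf hmin (avg ρ f y) (avg_herm hρ hf hy)
    (avg_inv f y) (avg_le hf hinv)
  have ht := avg_trace (ρ := ρ) f y hf
  rw [hμ, trace_smul] at ht
  rw [hμ, smul_smul, ← ht, smul_eq_mul, mul_comm]

theorem avg_scalar (hρ : ∀ g, (ρ g)ᴴ = ρ g⁻¹) {f : Matrix H H ℂ} (hf : IsProj f)
    (hinv : ∀ g, ρ g * f = f * ρ g)
    (hmin : ∀ P, IProj ρ f P → P = 0 ∨ P = f) (y : Matrix H H ℂ) :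
    trace f • avg ρ f y = ((Fintype.card G : ℂ) * trace (f * y)) • f := by
  have h1 := avg_scalar_herm hρ hf hinv hmin (y + yᴴ) (by
    rw [conjTranspose_add, conjTranspose_conjTranspose, add_comm])
  have h2 := avg_scalar_herm hρ hf hinv hmin (Complex.I • (yᴴ - y)) (by
    rw [conjTranspose_smul, conjTranspose_sub, conjTranspose_conjTranspose]
    simp only [Complex.star_def, Complex.conj_I, neg_smul, smul_sub]
    abel)
  have hy : y = (1 / 2 : ℂ) • (y + yᴴ) + (Complex.I / 2) • (Complex.I • (yᴴ - y)) := by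
    rw [smul_smul]
    have : Complex.I / 2 * Complex.I = -(1 / 2) := by
      rw [div_mul_eq_mul_div, Complex.I_mul_I]; norm_num
    rw [this]
    ext i j
    simp only [Matrix.add_apply, Matrix.smul_apply, Matrix.sub_apply, smul_eq_mul]
    ring
  have e1 : trace f • avg ρ f y = (1 / 2 : ℂ) • (trace f • avg ρ f (y + yᴴ)) +
      (Complex.I / 2) • (trace f • avg ρ f (Complex.I • (yᴴ - y))) := by
    conv_lhs => rw [hy, avg_add, avg_smul, avg_smul, smul_add]
    rw [smul_comm (trace f) (1 / 2 : ℂ), smul_comm (trace f) (Complex.I / 2)]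
  have e2 : trace (f * y) = (1 / 2 : ℂ) * trace (f * (y + yᴴ)) +
      (Complex.I / 2) * trace (f * (Complex.I • (yᴴ - y))) := by
    conv_lhs => rw [hy, Matrix.mul_add, Matrix.mul_smul, Matrix.mul_smul, trace_add, trace_smul,
      trace_smul]
    simp only [smul_eq_mul]
  rw [e1, h1, h2, smul_smul, smul_smul, ← add_smul, e2]
  congr 1
  ring

omit [Fintype G] [Group G] in
theorem single_corner (A B : Matrix H H ℂ) (k l : H) :
    (A * Matrix.single k l (1 : ℂ) * B) k l = A k k * B l l := by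
  simp [Matrix.mul_apply, Matrix.single, ite_and, Finset.sum_ite_eq]

theorem sum_char (hρ : ∀ g, (ρ g)ᴴ = ρ g⁻¹) {f : Matrix H H ℂ} (hf : IsProj f)
    (hinv : ∀ g, ρ g * f = f * ρ g)
    (hmin : ∀ P, IProj ρ f P → P = 0 ∨ P = f) (hf0 : trace f ≠ 0) :
    ∑ g, trace (ρ g * f) * trace (f * ρ g⁻¹) = Fintype.card G := by
  have key : ∀ k l : H, trace f * ∑ g, (ρ g * f) k k * (f * ρ g⁻¹) l l =
      (Fintype.card G : ℂ) * (f l k * f k l) := by
    intro k l
    have h := congrFun (congrFun (avg_scalar hρ hf hinv hmin (Matrix.single k l 1)) k) l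
    rw [Matrix.smul_apply, Matrix.smul_apply, smul_eq_mul, smul_eq_mul] at h
    have e1 : avg ρ f (Matrix.single k l 1) k l = ∑ g, (ρ g * f) k k * (f * ρ g⁻¹) l l := by
      unfold avg
      rw [Matrix.sum_apply]
      refine Finset.sum_congr rfl fun g _ => ?_
      have : ρ g * (f * Matrix.single k l 1 * f) * ρ g⁻¹ =
          (ρ g * f) * Matrix.single k l 1 * (f * ρ g⁻¹) := by simp only [Matrix.mul_assoc]
      rw [this, single_corner]
    have e2 : trace (f * Matrix.single k l 1) = f l k := by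
      simp [trace, Matrix.mul_apply, Matrix.single, diag, ite_and]
    rw [e1, e2] at h
    rw [h]
    ring
  have h1 : trace f * ∑ g, trace (ρ g * f) * trace (f * ρ g⁻¹) =
      (Fintype.card G : ℂ) * trace (f * f) := by
    calc trace f * ∑ g, trace (ρ g * f) * trace (f * ρ g⁻¹)
        = ∑ k, ∑ l, trace f * ∑ g, (ρ g * f) k k * (f * ρ g⁻¹) l l := by
          have h0 : ∀ g : G, trace (ρ g * f) * trace (f * ρ g⁻¹) =
              ∑ k, ∑ l, (ρ g * f) k k * (f * ρ g⁻¹) l l := by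
            intro g
            rw [← Finset.sum_mul_sum]
            rfl
          rw [Finset.sum_congr rfl fun g _ => h0 g, Finset.sum_comm, Finset.mul_sum]
          refine Finset.sum_congr rfl fun k _ => ?_
          rw [Finset.sum_comm, Finset.mul_sum]
      _ = ∑ k, ∑ l, (Fintype.card G : ℂ) * (f l k * f k l) := by
          refine Finset.sum_congr rfl fun k _ => Finset.sum_congr rfl fun l _ => key k l
      _ = (Fintype.card G : ℂ) * trace (f * f) := by
          simp only [trace, diag, Matrix.mul_apply, Finset.mul_sum]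
          refine Finset.sum_congr rfl fun k _ => Finset.sum_congr rfl fun l _ => ?_
          ring
  rw [hf.idem, mul_comm] at h1
  exact mul_right_cancel₀ hf0 h1


omit [DecidableEq H] in
theorem mul_left_of_le {q f : Matrix H H ℂ} (hle : q * f = f) (A : Matrix H H ℂ) :
    A * q * f = A * f := by
  rw [Matrix.mul_assoc, hle]

/-- the trace of a minimal invariant projection. -/
theorem min_trace (hρ : ∀ g, (ρ g)ᴴ = ρ g⁻¹) (Z : Finset G) (lam : G → ℂ) {q : Matrix H H ℂ}
    (hZ : ∀ z ∈ Z, ρ z * q = lam z • q)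
    (hnZ : ∀ g, g ∉ Z → ∃ h : G, ∃ ζ : ℂ, ζ ≠ 1 ∧ ρ h * ρ g * q = ζ • (ρ g * ρ h * q))
    {f : Matrix H H ℂ} (hf : IProj ρ q f) (hmin : ∀ P, IProj ρ f P → P = 0 ∨ P = f)
    (hf0 : trace f ≠ 0) : (trace f) ^ 2 * (Z.card : ℂ) = Fintype.card G := by
  classical
  have hsum := sum_char hρ hf.proj hf.inv hmin hf0
  have hin : ∀ z ∈ Z, trace (ρ z * f) * trace (f * ρ z⁻¹) = (trace f) ^ 2 := by
    intro z hz
    have h1 : ρ z * f = lam z • f := by
      rw [← mul_left_of_le hf.le, hZ z hz, Matrix.smul_mul, hf.le]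
    have h2 : f * ρ z⁻¹ = (starRingEnd ℂ) (lam z) • f := by
      have := congrArg conjTranspose h1
      rw [conjTranspose_mul, hρ, conjTranspose_smul, hf.proj.herm] at this
      exact this
    have h3 : lam z * (starRingEnd ℂ) (lam z) * trace f = trace f := by
      have h4 : f = (lam z * (starRingEnd ℂ) (lam z)) • f := by
        calc f = ρ z⁻¹ * (ρ z * f) := by
              rw [← Matrix.mul_assoc, ← map_mul, inv_mul_cancel, map_one, Matrix.one_mul]
          _ = lam z • (ρ z⁻¹ * f) := by rw [h1, Matrix.mul_smul]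
          _ = lam z • (f * ρ z⁻¹) := by rw [hf.inv]
          _ = (lam z * (starRingEnd ℂ) (lam z)) • f := by rw [h2, smul_smul]
      conv_rhs => rw [h4]
      rw [trace_smul, smul_eq_mul]
    rw [h1, h2, trace_smul, trace_smul, smul_eq_mul, smul_eq_mul]
    calc lam z * trace f * ((starRingEnd ℂ) (lam z) * trace f)
        = (lam z * (starRingEnd ℂ) (lam z) * trace f) * trace f := by ring
      _ = (trace f) ^ 2 := by rw [h3]; ring
  have hout : ∀ g, g ∉ Z → trace (ρ g * f) * trace (f * ρ g⁻¹) = 0 := by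
    intro g hg
    obtain ⟨h, ζ, hζ, hh⟩ := hnZ g hg
    have h1 : ρ h * ρ g * f = ζ • (ρ g * ρ h * f) := by
      rw [← mul_left_of_le hf.le, hh, Matrix.smul_mul, mul_left_of_le hf.le]
    have h2 : ρ h * (ρ g * f) * ρ h⁻¹ = ζ • (ρ g * f) := by
      calc ρ h * (ρ g * f) * ρ h⁻¹ = (ρ h * ρ g * f) * ρ h⁻¹ := by rw [Matrix.mul_assoc (ρ h) (ρ g)]
        _ = ζ • (ρ g * (ρ h * f) * ρ h⁻¹) := by
            rw [h1, Matrix.smul_mul, Matrix.mul_assoc (ρ g)]
        _ = ζ • (ρ g * (f * ρ h) * ρ h⁻¹) := by rw [hf.inv]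
        _ = ζ • (ρ g * f * (ρ h * ρ h⁻¹)) := by simp only [Matrix.mul_assoc]
        _ = ζ • (ρ g * f) := by rw [← map_mul, mul_inv_cancel, map_one, Matrix.mul_one]
    have h3 := congrArg trace h2
    rw [trace_mul_comm, ← Matrix.mul_assoc, ← map_mul, inv_mul_cancel, map_one, Matrix.one_mul,
      trace_smul, smul_eq_mul] at h3
    have h4 : (ζ - 1) * trace (ρ g * f) = 0 := by rw [sub_mul, ← h3]; ring
    rcases mul_eq_zero.1 h4 with h5 | h5
    · exact absurd (sub_eq_zero.1 h5) hζ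
    · rw [h5, zero_mul]
  rw [← hsum, ← Finset.sum_filter_add_sum_filter_not Finset.univ (fun g => g ∈ Z),
    Finset.sum_congr rfl (fun g hg => hin g (Finset.mem_filter.1 hg).2),
    Finset.sum_congr (s₁ := Finset.univ.filter fun g => g ∉ Z) rfl
      (fun g hg => hout g (Finset.mem_filter.1 hg).2)]
  simp [mul_comm]

omit [Fintype G] in
theorem IProj.trans {q q' f : Matrix H H ℂ} (h1 : IProj ρ q q') (h2 : IProj ρ q' f) :
    IProj ρ q f :=
  ⟨h2.proj, h2.inv, by rw [← h2.le, ← Matrix.mul_assoc, h1.le]⟩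

omit [Fintype G] in
theorem IProj.sub {q q' f : Matrix H H ℂ} (h1 : IProj ρ q q') (h2 : IProj ρ q' f) :
    IProj ρ q (q' - f) := by
  have h3 := herm_le h1.proj.herm h2.proj.herm h2.le
  refine ⟨⟨?_, ?_⟩, ?_, ?_⟩
  · rw [conjTranspose_sub, h1.proj.herm, h2.proj.herm]
  · rw [Matrix.mul_sub, Matrix.sub_mul, Matrix.sub_mul, h1.proj.idem, h2.le, h3, h2.proj.idem]
    simp
  · intro g
    rw [Matrix.mul_sub, Matrix.sub_mul, h1.inv, h2.inv]
  · rw [Matrix.mul_sub, h1.le, (h1.trans h2).le]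

omit [Fintype G] in
theorem exists_min {q q' : Matrix H H ℂ} (hq' : IProj ρ q q') (h0 : q' ≠ 0) :
    ∃ f, IProj ρ q' f ∧ f ≠ 0 ∧ ∀ P, IProj ρ f P → P = 0 ∨ P = f := by
  classical
  have hex : ∃ n : ℕ, ∃ f, IProj ρ q' f ∧ f ≠ 0 ∧ trace f = (n : ℂ) := by
    obtain ⟨n, hn⟩ := hq'.proj.trace_nat
    exact ⟨n, q', ⟨hq'.proj, hq'.inv, hq'.proj.idem⟩, h0, hn⟩
  obtain ⟨f, hf, hf0, hft⟩ := Nat.find_spec hex
  refine ⟨f, hf, hf0, ?_⟩
  intro P hP
  by_cases hP0 : P = 0
  · exact Or.inl hP0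
  right
  obtain ⟨n, hn⟩ := hP.proj.trace_nat
  have h1 : Nat.find hex ≤ n := Nat.find_min' hex ⟨P, hf.trans hP, hP0, hn⟩
  have h2 : IProj ρ f (f - P) := by
    have := IProj.sub (q := f) (q' := f) ⟨hf.proj, hf.inv, hf.proj.idem⟩ hP
    exact this
  obtain ⟨k, hk⟩ := h2.proj.trace_nat
  rw [trace_sub, hft, hn] at hk
  have h3 : (Nat.find hex : ℤ) - n = k := by exact_mod_cast hk
  have h4 : k = 0 := by omega
  have h5 : f - P = 0 := by
    apply h2.proj.eq_zero_of_trace
    rw [trace_sub, hft, hn, hk, h4]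
    simp
  exact (sub_eq_zero.1 h5).symm

omit [Fintype G] in
/-- every invariant projection below `q` is a sum of minimal ones. -/
theorem decomp {q : Matrix H H ℂ} (N : ℕ) 
    (hN : ∀ f, IProj ρ q f → f ≠ 0 → (∀ P, IProj ρ f P → P = 0 ∨ P = f) → trace f = (N : ℂ)) :
    ∀ n : ℕ, ∀ q', IProj ρ q q' → trace q' = (n : ℂ) →
      ∃ j : ℕ, n = j * N ∧ ∀ j' ≤ j, ∃ e, IProj ρ q' e ∧ trace e = ((j' * N : ℕ) : ℂ) := by
  intro n
  induction n using Nat.strong_induction_on with
  | _ n ih =>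
  intro q' hq' hn
  by_cases h0 : q' = 0
  · refine ⟨0, ?_, ?_⟩
    · rw [h0, trace_zero] at hn
      have : n = 0 := by exact_mod_cast hn.symm
      simp [this]
    · intro j' hj'
      obtain rfl : j' = 0 := Nat.le_zero.1 hj'
      exact ⟨0, ⟨IsProj.zero, by simp, by simp⟩, by simp⟩
  obtain ⟨f, hf, hf0, hmin⟩ := exists_min hq' h0
  have hfN := hN f (hq'.trans hf) hf0 hmin
  have hNpos : 0 < N := by
    rcases Nat.eq_zero_or_pos N with h | h
    · exfalso
      apply hf0
      apply hf.proj.eq_zero_of_trace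
      rw [hfN, h]; simp
    · exact h
  have hsub := hq'.sub hf
  obtain ⟨m, hm⟩ := hsub.proj.trace_nat
  have hmn : m + N = n := by
    have h1 := hm
    rw [trace_sub, hn, hfN] at h1
    have h2 : (n : ℤ) - N = m := by exact_mod_cast h1
    omega
  obtain ⟨j, hj, hall⟩ := ih m (by omega) (q' - f) hsub hm
  refine ⟨j + 1, by rw [← hmn, hj]; ring, ?_⟩
  intro j' hj'
  rcases Nat.eq_zero_or_pos j' with h | h
  · refine ⟨0, ⟨IsProj.zero, by simp, by simp⟩, by simp [h]⟩
  obtain ⟨i, rfl⟩ : ∃ i, j' = i + 1 := ⟨j' - 1, by omega⟩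
  obtain ⟨e, he, het⟩ := hall i (by omega)
  have h3 := herm_le hq'.proj.herm hf.proj.herm hf.le
  have hfe : f * e = 0 := by
    rw [← he.le, ← Matrix.mul_assoc, Matrix.mul_sub, h3, hf.proj.idem, sub_self, Matrix.zero_mul]
  have hef : e * f = 0 := by
    have := congrArg conjTranspose hfe
    rwa [conjTranspose_mul, he.proj.herm, hf.proj.herm, conjTranspose_zero] at this
  refine ⟨f + e, ⟨⟨?_, ?_⟩, ?_, ?_⟩, ?_⟩
  · rw [conjTranspose_add, hf.proj.herm, he.proj.herm]
  · rw [Matrix.mul_add, Matrix.add_mul, Matrix.add_mul, hf.proj.idem, he.proj.idem, hfe, hef]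
    simp
  · intro g
    rw [Matrix.mul_add, Matrix.add_mul, hf.inv, he.inv]
  · rw [Matrix.mul_add, hf.le]
    congr 1
    have h4 : q' * (q' - f) = q' - f := by rw [Matrix.mul_sub, hq'.proj.idem, hf.le]
    calc q' * e = q' * ((q' - f) * e) := by rw [he.le]
      _ = (q' - f) * e := by rw [← Matrix.mul_assoc, h4]
      _ = e := he.le
  · rw [trace_add, hfN, het]
    push_cast
    ring

/-- Summary of the splitting step. -/
theorem splitting (hρ : ∀ g, (ρ g)ᴴ = ρ g⁻¹) (Z : Finset G) (hZ1 : 0 < Z.card) (lam : G → ℂ)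
    {q : Matrix H H ℂ} (hq : IsProj q) (hqinv : ∀ g, ρ g * q = q * ρ g) (hq0 : q ≠ 0)
    (hZ : ∀ z ∈ Z, ρ z * q = lam z • q)
    (hnZ : ∀ g, g ∉ Z → ∃ h : G, ∃ ζ : ℂ, ζ ≠ 1 ∧ ρ h * ρ g * q = ζ • (ρ g * ρ h * q)) :
    ∃ N j : ℕ, 0 < N ∧ 0 < j ∧ N ^ 2 * Z.card = Fintype.card G ∧ trace q = ((j * N : ℕ) : ℂ) ∧
      ∀ j' ≤ j, ∃ e, IProj ρ q e ∧ trace e = ((j' * N : ℕ) : ℂ) := by
  have hqq : IProj ρ q q := ⟨hq, hqinv, hq.idem⟩
  have hall : ∀ f, IProj ρ q f → f ≠ 0 → (∀ P, IProj ρ f P → P = 0 ∨ P = f) →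
      (trace f) ^ 2 * (Z.card : ℂ) = Fintype.card G := by
    intro f hf hf0 hmin
    exact min_trace hρ Z lam hZ hnZ hf hmin (fun h => hf0 (hf.proj.eq_zero_of_trace h))
  obtain ⟨f, hf, hf0, hmin⟩ := exists_min hqq hq0
  obtain ⟨N, hN⟩ := hf.proj.trace_nat
  have h1 := hall f hf hf0 hmin
  rw [hN] at h1
  have h2 : N ^ 2 * Z.card = Fintype.card G := by exact_mod_cast h1
  have hNpos : 0 < N := by
    rcases Nat.eq_zero_or_pos N with h | h
    · exfalso
      rw [h] at h2
      have := Fintype.card_pos (α := G)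
      simp at h2
      omega
    · exact h
  have hN' : ∀ f, IProj ρ q f → f ≠ 0 → (∀ P, IProj ρ f P → P = 0 ∨ P = f) →
      trace f = (N : ℂ) := by
    intro f' hf' hf0' hmin'
    obtain ⟨N', hN'⟩ := hf'.proj.trace_nat
    have h3 := hall f' hf' hf0' hmin'
    rw [hN'] at h3
    have h4 : N' ^ 2 * Z.card = Fintype.card G := by exact_mod_cast h3
    have h5 : N' ^ 2 = N ^ 2 := by
      apply Nat.eq_of_mul_eq_mul_right hZ1
      rw [h4, h2]
    have h6 : N' = N := Nat.pow_left_injective (n := 2) (by norm_num) h5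
    rw [hN', h6]
  obtain ⟨n, hn⟩ := hq.trace_nat
  obtain ⟨j, hj, hall'⟩ := decomp N hN' n q hqq hn
  refine ⟨N, j, hNpos, ?_, h2, by rw [hn, hj], hall'⟩
  rcases Nat.eq_zero_or_pos j with h | h
  · exfalso
    apply hq0
    apply hq.eq_zero_of_trace
    rw [hn, hj, h]
    simp
  · exact h

end Pool.Agent.FG.GH
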