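import Pool.Agent.FG.FDDefs
import Pool.Agent.FG.Tr
import Pool.Agent.FG.Char

/-!
Project FG, block FD, row FD-08: the two shears.
-/

set_option autoImplicit false

namespace Pool.Agent.FG

/-! ### permutation matrices -/

section perm
variable {n : Type*} [Fintype n] [DecidableEq n]

/-- the matrix of a permutation. -/
private def shear_P (σ : n ≃ n) : Matrix n n ℂ := fun y z => if z = σ y then 1 else 0

private theorem shear_P_conj (σ : n ≃ n) (x : Matrix n n ℂ) :
    star (shear_P σ) * x * shear_P σ = fun y z => x (σ.symm y) (σ.symm z) := by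
  have h1 : ∀ (y : Matrix n n ℂ), star (shear_P σ) * y = fun i j => y (σ.symm i) j := by
    intro y
    ext i j
    rw [Matrix.mul_apply, Finset.sum_eq_single (σ.symm i)]
    · simp [shear_P, Matrix.star_apply]
    · intro b _ hb
      have h2 : i ≠ σ b := by
        intro h
        exact hb (by rw [h, Equiv.symm_apply_apply])
      simp [shear_P, Matrix.star_apply, h2]
    · intro h
      exact absurd (Finset.mem_univ _) h
  rw [h1]
  ext i j
  rw [Matrix.mul_apply, Finset.sum_eq_single (σ.symm j)]
  · simp [shear_P]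
  · intro b _ hb
    have h2 : j ≠ σ b := by
      intro h
      exact hb (by rw [h, Equiv.symm_apply_apply])
    simp [shear_P, h2]
  · intro h
    exact absurd (Finset.mem_univ _) h

private theorem shear_P_mem (σ : n ≃ n) : shear_P σ ∈ Matrix.unitaryGroup n ℂ := by
  rw [Matrix.mem_unitaryGroup_iff']
  have h := shear_P_conj σ 1
  rw [mul_one] at h
  rw [h]
  ext y z
  simp [Matrix.one_apply]

end perm

/-- the two permutations. -/
private def shear_e (a : ℕ) : Fin 2 → (Y a × Y a ≃ Y a × Y a) :=
  ![{ toFun := fun y => (y.1, y.2 - y.1)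
      invFun := fun y => (y.1, y.2 + y.1)
      left_inv := fun y => by ext <;> simp
      right_inv := fun y => by ext <;> simp },
    { toFun := fun y => (y.1 - y.2, y.2)
      invFun := fun y => (y.1 + y.2, y.2)
      left_inv := fun y => by ext <;> simp
      right_inv := fun y => by ext <;> simp }]

private theorem shear_UU (a : ℕ) (i : Fin 2) : UU a i = shear_P (shear_e a i) := by
  fin_cases i <;> rfl

theorem UU_mem (a : ℕ) (i : Fin 2) : UU a i ∈ Matrix.unitaryGroup (Y a × Y a) ℂ := by
  rw [shear_UU]
  exact shear_P_mem _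

theorem UU_conj {a : ℕ} (i : Fin 2) (u v : Y a) :
    star (UU a i) * tt (We u v) 1 * UU a i = tt (We u v) (RR i u v) := by
  rw [shear_UU, shear_P_conj]
  funext y z
  obtain ⟨y1, y2⟩ := y
  obtain ⟨z1, z2⟩ := z
  fin_cases i
  · show We u v y1 z1 * (1 : Matrix (Y a) (Y a) ℂ) (y2 + y1) (z2 + z1)
      = We u v y1 z1 * We (-u) 0 y2 z2
    simp only [We]
    by_cases h : z1 = y1 - u
    · subst h
      have h3 : (z2 = y2 - -u) ↔ (y2 + y1 = z2 + (y1 - u)) := by
        constructor
        · intro h; rw [h]; abel
        · intro h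
          have : z2 = z2 + (y1 - u) - (y1 - u) := by abel
          rw [this, ← h]; abel
      rw [if_pos rfl, Matrix.one_apply, pr_zero_left, chi_zero]
      simp only [h3]
    · rw [if_neg h, zero_mul, zero_mul]
  · show We u v (y1 + y2) (z1 + z2) * (1 : Matrix (Y a) (Y a) ℂ) y2 z2
      = We u v y1 z1 * We 0 v y2 z2
    simp only [We, sub_zero, Matrix.one_apply]
    by_cases h : y2 = z2
    · subst h
      have h3 : (z1 + y2 = y1 + y2 - u) ↔ (z1 = y1 - u) := by
        constructor
        · intro h
          have : z1 = z1 + y2 - y2 := by abel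
          rw [this, h]; abel
        · intro h; rw [h]; abel
      rw [if_pos rfl, if_pos rfl, mul_one]
      simp only [h3]
      by_cases h4 : z1 = y1 - u
      · rw [if_pos h4, if_pos h4, pr_add_right, chi_add]
      · rw [if_neg h4, if_neg h4, zero_mul]
    · have h' : ¬ z2 = y2 := fun h' => h h'.symm
      rw [if_neg h, if_neg h', mul_zero, mul_zero]

theorem fl_UU (a : ℕ) (i : Fin 2) : fl (UU a i) = UU a (1 - i) := by
  funext y z
  obtain ⟨y1, y2⟩ := y
  obtain ⟨z1, z2⟩ := z
  fin_cases i
  · show (if (z2, z1) = (y2, y1 - y2) then (1 : ℂ) else 0)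
      = if (z1, z2) = (y1 - y2, y2) then 1 else 0
    have h : ((z2, z1) = (y2, y1 - y2)) ↔ ((z1, z2) = (y1 - y2, y2)) := by
      simp only [Prod.mk.injEq]
      exact and_comm
    simp only [h]
  · show (if (z2, z1) = (y2 - y1, y1) then (1 : ℂ) else 0)
      = if (z1, z2) = (y1, y2 - y1) then 1 else 0
    have h : ((z2, z1) = (y2 - y1, y1)) ↔ ((z1, z2) = (y1, y2 - y1)) := by
      simp only [Prod.mk.injEq]
      exact and_comm
    simp only [h]

private theorem shear_We_mem {a : ℕ} (u v : Y a) : We u v ∈ Matrix.unitaryGroup (Y a) ℂ := by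
  rw [Matrix.mem_unitaryGroup_iff']
  ext y z
  rw [Matrix.mul_apply, Finset.sum_eq_single (y + u)]
  · simp only [Matrix.star_apply, We, add_sub_cancel_right, if_true]
    by_cases h : z = y
    · subst h
      rw [if_pos rfl, star_mul_chi, Matrix.one_apply_eq]
    · rw [if_neg h, mul_zero, Matrix.one_apply_ne (fun h' => h h'.symm)]
  · intro b _ hb
    have h2 : y ≠ b - u := by
      intro h
      exact hb (by rw [h]; abel)
    simp [We, Matrix.star_apply, h2]
  · intro h
    exact absurd (Finset.mem_univ _) h

theorem RR_mem {a : ℕ} (i : Fin 2) (u v : Y a) : RR i u v ∈ Matrix.unitaryGroup (Y a) ℂ := by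
  unfold RR
  split_ifs
  · exact shear_We_mem _ _
  · exact shear_We_mem _ _

end Pool.Agent.FG
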