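import Pool.Agent.FG.FDDefs
import Pool.Agent.FG.Tr
import Pool.Agent.FG.Weyl
import Pool.Agent.FG.Tensor
import Pool.Agent.FG.Shear

/-!
Project FG, block FD, row FD-09: mass.
-/

set_option autoImplicit false

namespace Pool.Agent.FG

theorem mass_slice_sum {a : ℕ} (y : Y a → Y a → Matrix (Y a) (Y a) ℂ) (i j : Y a) :
    slice (∑ p, ∑ q, tt (We p q) (y p q)) i j = ∑ p, ∑ q, y p q i j • We p q := by
  ext b c
  simp only [slice, Matrix.sum_apply, Matrix.smul_apply, tt, smul_eq_mul]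
  refine Finset.sum_congr rfl fun p _ => Finset.sum_congr rfl fun q _ => ?_
  ring

theorem mass_ip_sum {a : ℕ} (c : Y a → Y a → ℂ) (u v : Y a) :
    ip (We u v) (∑ p, ∑ q, c p q • We p q) = c u v := by
  have h1 : ip (We u v) (∑ p, ∑ q, c p q • We p q) = ∑ p, ∑ q, c p q * ip (We u v) (We p q) := by
    unfold ip
    rw [Finset.mul_sum, map_sum]
    refine Finset.sum_congr rfl fun p _ => ?_
    rw [Finset.mul_sum, map_sum]
    refine Finset.sum_congr rfl fun q _ => ?_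
    rw [mul_smul_comm, map_smul, smul_eq_mul]
  rw [h1, Finset.sum_eq_single u, Finset.sum_eq_single v]
  · rw [ip_We, if_pos ⟨rfl, rfl⟩, mul_one]
  · intro q _ hq
    rw [ip_We, if_neg (fun h => hq h.2.symm), mul_zero]
  · intro h
    exact absurd (Finset.mem_univ _) h
  · intro p _ hp
    apply Finset.sum_eq_zero
    intro q _
    rw [ip_We, if_neg (fun h => hp h.1.symm), mul_zero]
  · intro h
    exact absurd (Finset.mem_univ _) h

/-- Pythagoras in the basis `We p q` with matrix coefficients -/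
theorem n2_We_sum {a : ℕ} (y : Y a → Y a → Matrix (Y a) (Y a) ℂ) :
    n2 (mtr (Y a × Y a)) (∑ p, ∑ q, tt (We p q) (y p q)) ^ 2 =
      ∑ p, ∑ q, n2 (mtr (Y a)) (y p q) ^ 2 := by
  have h1 : ∀ i j : Y a, n2 (mtr (Y a)) (slice (∑ p, ∑ q, tt (We p q) (y p q)) i j) ^ 2 =
      ∑ p, ∑ q, ‖y p q i j‖ ^ 2 := by
    intro i j
    rw [mass_slice_sum, ← parseval]
    refine Finset.sum_congr rfl fun p _ => Finset.sum_congr rfl fun q _ => ?_
    rw [mass_ip_sum (fun p q => y p q i j)]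
  rw [n2_slice]
  simp only [h1]
  have h2 : ∀ p q : Y a, n2 (mtr (Y a)) (y p q) ^ 2 =
      (∑ i, ∑ j, ‖y p q i j‖ ^ 2) / Fintype.card (Y a) := fun p q => n2_mtr_sq (Y a) (y p q)
  simp only [h2]
  simp only [← Finset.sum_div]
  congr 1
  calc ∑ i : Y a, ∑ j : Y a, ∑ p : Y a, ∑ q : Y a, ‖y p q i j‖ ^ 2
      = ∑ i : Y a, ∑ p : Y a, ∑ q : Y a, ∑ j : Y a, ‖y p q i j‖ ^ 2 := by
        refine Finset.sum_congr rfl fun i _ => ?_
        rw [Finset.sum_comm]
        refine Finset.sum_congr rfl fun p _ => ?_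
        rw [Finset.sum_comm]
    _ = ∑ p : Y a, ∑ q : Y a, ∑ i : Y a, ∑ j : Y a, ‖y p q i j‖ ^ 2 := by
        rw [Finset.sum_comm]
        refine Finset.sum_congr rfl fun p _ => ?_
        rw [Finset.sum_comm]

theorem mass {a : ℕ} (i : Fin 2) (u z : Matrix (Y a × Y a) (Y a × Y a) ℂ)
    (A : Matrix (Y a) (Y a) ℂ) (ε : ℝ)
    (hu : u ∈ Matrix.unitaryGroup (Y a × Y a) ℂ)
    (hz : z = star (UU a i) * u * UU a i * star u)
    (h1 : n2 (mtr (Y a × Y a)) (u - tt A 1) ≤ ε)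
    (h2 : n2 (mtr (Y a × Y a)) (z - tt 1 (ptl z)) ≤ ε) :
    ∑ p, ∑ q, ‖ip (We p q) A‖ ^ 2 * n2 (mtr (Y a)) (ptl z - RR i p q) ^ 2 ≤ (3 * ε) ^ 2 := by
  have hτ := isTr_mtr (Y a × Y a)
  have hτ1 := isTr_mtr (Y a)
  have hU : UU a i ∈ unitary (Matrix (Y a × Y a) (Y a × Y a) ℂ) := UU_mem a i
  have hu' : u ∈ unitary (Matrix (Y a × Y a) (Y a × Y a) ℂ) := hu
  have hzu : z * u = star (UU a i) * u * UU a i := by
    rw [hz, mul_assoc, Unitary.star_mul_self_of_mem hu', mul_one]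
  have hzm : z ∈ Matrix.unitaryGroup (Y a × Y a) ℂ := by
    rw [hz]
    have hsU : star (UU a i) ∈ unitary (Matrix (Y a × Y a) (Y a × Y a) ℂ) :=
      Unitary.star_mem hU
    have hsu : star u ∈ unitary (Matrix (Y a × Y a) (Y a × Y a) ℂ) := Unitary.star_mem hu'
    exact mul_mem (mul_mem (mul_mem hsU hu') hU) hsu
  -- the conjugate of `A tensor 1`
  have hA : tt A 1 = ∑ p, ∑ q, ip (We p q) A • tt (We p q) (1 : Matrix (Y a) (Y a) ℂ) := by
    have h := We_expand A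
    ext b c
    have h' : A b.1 c.1 = (∑ p, ∑ q, ip (We p q) A • We p q) b.1 c.1 := by rw [h]
    simp only [Matrix.sum_apply, Matrix.smul_apply, smul_eq_mul] at h'
    simp only [Matrix.sum_apply, Matrix.smul_apply, tt, smul_eq_mul]
    rw [h', Finset.sum_mul]
    refine Finset.sum_congr rfl fun p _ => ?_
    rw [Finset.sum_mul]
    refine Finset.sum_congr rfl fun q _ => ?_
    ring
  have hT : star (UU a i) * tt A 1 * UU a i =
      ∑ p, ∑ q, ip (We p q) A • tt (We p q) (RR i p q) := by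
    rw [hA, Finset.mul_sum, Finset.sum_mul]
    refine Finset.sum_congr rfl fun p _ => ?_
    rw [Finset.mul_sum, Finset.sum_mul]
    refine Finset.sum_congr rfl fun q _ => ?_
    rw [mul_smul_comm, smul_mul_assoc, UU_conj]
  have hAB : tt 1 (ptl z) * tt A 1 = ∑ p, ∑ q, ip (We p q) A • tt (We p q) (ptl z) := by
    rw [hA, Finset.mul_sum]
    refine Finset.sum_congr rfl fun p _ => ?_
    rw [Finset.mul_sum]
    refine Finset.sum_congr rfl fun q _ => ?_
    rw [mul_smul_comm, tt_mul, one_mul, mul_one]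
  have hdiff : tt 1 (ptl z) * tt A 1 - star (UU a i) * tt A 1 * UU a i =
      ∑ p, ∑ q, tt (We p q) (ip (We p q) A • (ptl z - RR i p q)) := by
    rw [hT, hAB, ← Finset.sum_sub_distrib]
    refine Finset.sum_congr rfl fun p _ => ?_
    rw [← Finset.sum_sub_distrib]
    refine Finset.sum_congr rfl fun q _ => ?_
    rw [tt_smul_right, tt_sub_right, smul_sub]
  have e1 : n2 (mtr (Y a × Y a)) (star (UU a i) * tt A 1 * UU a i - z * u) ≤ ε := by
    have : star (UU a i) * tt A 1 * UU a i - z * u =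
        star (UU a i) * (tt A 1 - u) * UU a i := by
      rw [hzu, mul_sub, sub_mul]
    rw [this, n2_mul_unitary hτ hU, n2_star_unitary_mul _ hU, n2_sub_comm]
    exact h1
  have e2 : n2 (mtr (Y a × Y a)) (z * u - tt 1 (ptl z) * u) ≤ ε := by
    rw [← sub_mul, n2_mul_unitary hτ hu']
    exact h2
  have e3 : n2 (mtr (Y a × Y a)) (tt 1 (ptl z) * u - tt 1 (ptl z) * tt A 1) ≤ ε := by
    rw [← mul_sub]
    exact (n2_tt_ptl_mul_le z hzm _).trans h1
  have e4 : n2 (mtr (Y a × Y a)) (tt 1 (ptl z) * tt A 1 - star (UU a i) * tt A 1 * UU a i) ≤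
      3 * ε := by
    rw [n2_sub_comm]
    have f1 := n2_sub_le_add hτ (star (UU a i) * tt A 1 * UU a i) (z * u)
      (tt 1 (ptl z) * tt A 1)
    have f2 := n2_sub_le_add hτ (z * u) (tt 1 (ptl z) * u) (tt 1 (ptl z) * tt A 1)
    linarith
  have e5 := pow_le_pow_left₀ (n2_nonneg _ _) e4 2
  rw [hdiff, n2_We_sum] at e5
  refine le_trans (le_of_eq ?_) e5
  refine Finset.sum_congr rfl fun p _ => Finset.sum_congr rfl fun q _ => ?_
  rw [n2_smul hτ1, mul_pow]

theorem mass_dist {a : ℕ} (u v u' v' : Y a) (h : ¬ (u = u' ∧ v = v')) :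
    n2 (mtr (Y a)) (We u v - We u' v') ^ 2 = 2 := by
  have hτ := isTr_mtr (Y a)
  have h1 := n2_sub_smul_sq hτ (We u v) (We u' v') 1
  have h2 : mtr (Y a) (star (We u v) * We u' v') = 0 := by
    have := ip_We u v u' v'
    rw [if_neg h] at this
    exact this
  rw [one_smul, n2_unitary hτ (We_mem u v), n2_unitary hτ (We_mem u' v'), h2, norm_one] at h1
  rw [h1]
  norm_num

/-- a distribution concentrated near `RR i` is concentrated on one value of the coordinate -/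
theorem conc {a : ℕ} (i : Fin 2) (A B : Matrix (Y a) (Y a) ℂ) (ε : ℝ)
    (hA : 1 / 2 ≤ n2 (mtr (Y a)) A ^ 2) (hε : 3 * ε ≤ 1 / 4) (hε0 : 0 ≤ ε)
    (h : ∑ p, ∑ q, ‖ip (We p q) A‖ ^ 2 * n2 (mtr (Y a)) (B - RR i p q) ^ 2 ≤ (3 * ε) ^ 2) :
    ∃ w : Y a, ∑ p, ∑ q, (if (if i = 0 then p else q) = w then 0 else ‖ip (We p q) A‖ ^ 2) ≤
      (3 * ε) ^ 2 := by
  have hτ := isTr_mtr (Y a)
  have hw : 1 / 2 ≤ ∑ p, ∑ q, ‖ip (We p q) A‖ ^ 2 := by
    rw [parseval]
    exact hA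
  have hex : ∃ p1 q1 : Y a, n2 (mtr (Y a)) (B - RR i p1 q1) ^ 2 ≤ 1 / 8 := by
    by_contra hcon
    push Not at hcon
    have hsmall : (3 * ε) ^ 2 ≤ 1 / 16 := by nlinarith
    have hle : ∑ p, ∑ q, ‖ip (We p q) A‖ ^ 2 * (1 / 8) ≤
        ∑ p, ∑ q, ‖ip (We p q) A‖ ^ 2 * n2 (mtr (Y a)) (B - RR i p q) ^ 2 := by
      refine Finset.sum_le_sum fun p _ => Finset.sum_le_sum fun q _ => ?_
      exact mul_le_mul_of_nonneg_left (hcon p q).le (sq_nonneg _)
    have hlt : ∑ p, ∑ q, ‖ip (We p q) A‖ ^ 2 * (1 / 8) <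
        ∑ p, ∑ q, ‖ip (We p q) A‖ ^ 2 * n2 (mtr (Y a)) (B - RR i p q) ^ 2 := by
      refine lt_of_le_of_ne hle ?_
      intro heq
      have hz : ∀ p q, ‖ip (We p q) A‖ ^ 2 = 0 := by
        intro p q
        have h1 := (Finset.sum_eq_sum_iff_of_le (fun p _ => Finset.sum_le_sum fun q _ =>
          mul_le_mul_of_nonneg_left (hcon p q).le (sq_nonneg ‖ip (We p q) A‖))).mp heq p
          (Finset.mem_univ p)
        have h2 := (Finset.sum_eq_sum_iff_of_le (fun q _ =>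
          mul_le_mul_of_nonneg_left (hcon p q).le (sq_nonneg ‖ip (We p q) A‖))).mp h1 q
          (Finset.mem_univ q)
        have h3 := hcon p q
        have h4 : ‖ip (We p q) A‖ ^ 2 * (n2 (mtr (Y a)) (B - RR i p q) ^ 2 - 1 / 8) = 0 := by
          linarith
        rcases mul_eq_zero.mp h4 with h5 | h5
        · exact h5
        · linarith
      have hzero : ∑ p : Y a, ∑ q : Y a, ‖ip (We p q) A‖ ^ 2 = 0 :=
        Finset.sum_eq_zero fun p _ => Finset.sum_eq_zero fun q _ => hz p q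
      linarith
    simp only [← Finset.sum_mul] at hlt
    linarith
  obtain ⟨p1, q1, h1⟩ := hex
  refine ⟨if i = 0 then p1 else q1, ?_⟩
  refine le_trans (Finset.sum_le_sum fun p _ => Finset.sum_le_sum fun q _ => ?_) h
  by_cases hpq : (if i = 0 then p else q) = (if i = 0 then p1 else q1)
  · rw [if_pos hpq]
    positivity
  · rw [if_neg hpq]
    have hd : n2 (mtr (Y a)) (RR i p q - RR i p1 q1) ^ 2 = 2 := by
      unfold RR
      by_cases hi : i = 0
      · rw [if_pos hi, if_pos hi] at hpq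
        rw [if_pos hi, if_pos hi]
        exact mass_dist _ _ _ _ (fun hh => hpq (neg_injective hh.1))
      · rw [if_neg hi, if_neg hi] at hpq
        rw [if_neg hi, if_neg hi]
        exact mass_dist _ _ _ _ (fun hh => hpq hh.2)
    have htri : n2 (mtr (Y a)) (RR i p q - RR i p1 q1) ≤
        n2 (mtr (Y a)) (B - RR i p q) + n2 (mtr (Y a)) (B - RR i p1 q1) := by
      have := n2_sub_le_add hτ (RR i p q) B (RR i p1 q1)
      rwa [n2_sub_comm _ (RR i p q) B] at this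
    have hr : 1 ≤ n2 (mtr (Y a)) (B - RR i p q) := by
      by_contra hlt
      rw [not_le] at hlt
      have hn1 := n2_nonneg (mtr (Y a)) (B - RR i p1 q1)
      have hn2 := n2_nonneg (mtr (Y a)) (B - RR i p q)
      have hn3 := n2_nonneg (mtr (Y a)) (RR i p q - RR i p1 q1)
      have hs : n2 (mtr (Y a)) (B - RR i p1 q1) ≤ 3 / 8 := by nlinarith
      nlinarith
    have hr2 : 1 ≤ n2 (mtr (Y a)) (B - RR i p q) ^ 2 := by nlinarith
    nlinarith [sq_nonneg ‖ip (We p q) A‖]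

end Pool.Agent.FG
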