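import Pool.Agent.FG.Tr

/-!
Project FG, row ISO6: `M_r(M)` is modelled by the matrices over `Fin r × n i`.
-/

set_option autoImplicit false

open Filter Topology
open scoped ComplexOrder

namespace Pool.Agent.FG

/-- the normalised trace on `M_r(M)` -/
noncomputable def trM {M : Type*} [Ring M] [Algebra ℂ M] (r : ℕ) (τ : M →ₗ[ℂ] ℂ) :
    Matrix (Fin r) (Fin r) M →ₗ[ℂ] ℂ :=
  (r : ℂ)⁻¹ • (τ ∘ₗ Matrix.traceLinearMap (Fin r) ℂ M)

theorem iso6_trM_apply {M : Type*} [Ring M] [Algebra ℂ M] (r : ℕ) (τ : M →ₗ[ℂ] ℂ)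
    (x : Matrix (Fin r) (Fin r) M) : trM r τ x = (r : ℂ)⁻¹ * ∑ a, τ (x a a) := by
  simp [trM, Matrix.trace]

theorem isTr_trM {M : Type*} [Ring M] [StarRing M] [Algebra ℂ M] [StarModule ℂ M]
    {τ : M →ₗ[ℂ] ℂ} (hτ : IsTr τ) {r : ℕ} (hr : 0 < r) : IsTr (trM r τ) where
  one := by
    rw [iso6_trM_apply]
    have h1 : ∀ a : Fin r, τ ((1 : Matrix (Fin r) (Fin r) M) a a) = 1 := fun a => by
      rw [Matrix.one_apply_eq, hτ.one]
    simp only [h1, Finset.sum_const, Finset.card_univ, Fintype.card_fin, nsmul_eq_mul, mul_one]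
    exact inv_mul_cancel₀ (by exact_mod_cast hr.ne')
  comm x y := by
    rw [iso6_trM_apply, iso6_trM_apply]
    congr 1
    simp only [Matrix.mul_apply, map_sum]
    rw [Finset.sum_comm]
    exact Finset.sum_congr rfl fun a _ => Finset.sum_congr rfl fun b _ => hτ.comm _ _
  pos x := by
    rw [iso6_trM_apply]
    refine mul_nonneg ?_ (Finset.sum_nonneg fun a _ => ?_)
    · rw [inv_nonneg]
      exact_mod_cast Nat.zero_le r
    · rw [Matrix.mul_apply, map_sum]
      refine Finset.sum_nonneg fun b _ => ?_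
      rw [Matrix.star_apply]
      exact hτ.pos _

section Norm

open scoped Matrix.Norms.L2Operator

/-- the embedding of the block number `a` -/
def iso6_E (r : ℕ) (n : Type*) [DecidableEq n] (a : Fin r) : Matrix (Fin r × n) n ℂ :=
  Matrix.of fun p k => if p = (a, k) then 1 else 0

theorem iso6_norm_E (r : ℕ) (n : Type*) [Fintype n] [DecidableEq n] (a : Fin r) :
    ‖iso6_E r n a‖ ≤ 1 := by
  have h1 : (iso6_E r n a).conjTranspose * iso6_E r n a = 1 := by
    ext j k
    rw [Matrix.mul_apply, Fintype.sum_prod_type]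
    simp only [Matrix.conjTranspose_apply, iso6_E, Matrix.of_apply, Prod.mk.injEq]
    rw [Finset.sum_eq_single a]
    · rw [Finset.sum_eq_single j]
      · by_cases hjk : j = k
        · subst hjk; simp
        · simp [hjk]
      · intro l _ hl
        simp [hl]
      · intro h; exact absurd (Finset.mem_univ j) h
    · intro b _ hb
      refine Finset.sum_eq_zero fun l _ => ?_
      simp [hb]
    · intro h; exact absurd (Finset.mem_univ a) h
  have h2 := Matrix.l2_opNorm_conjTranspose_mul_self (iso6_E r n a)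
  rw [h1] at h2
  have h3 : ‖(1 : Matrix n n ℂ)‖ ≤ 1 := by
    rcases isEmpty_or_nonempty n with h | h
    · have : (1 : Matrix n n ℂ) = 0 := Subsingleton.elim _ _
      rw [this, norm_zero]; exact zero_le_one
    · exact (CStarRing.norm_one).le
  have h4 : 0 ≤ ‖iso6_E r n a‖ := norm_nonneg _
  nlinarith

/-- the block `(a, b)` -/
def iso6_blk {r : ℕ} {n : Type*} (X : Matrix (Fin r × n) (Fin r × n) ℂ) (a b : Fin r) :
    Matrix n n ℂ :=
  Matrix.of fun j k => X (a, j) (b, k)

theorem iso6_blk_eq {r : ℕ} {n : Type*} [Fintype n] [DecidableEq n]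
    (X : Matrix (Fin r × n) (Fin r × n) ℂ) (a b : Fin r) :
    iso6_blk X a b = (iso6_E r n a).conjTranspose * X * iso6_E r n b := by
  ext j k
  rw [Matrix.mul_apply, Finset.sum_eq_single (b, k)]
  · rw [Matrix.mul_apply, Finset.sum_eq_single (a, j)]
    · simp [iso6_blk, iso6_E]
    · intro p _ hp
      simp [iso6_E, hp]
    · intro h; exact absurd (Finset.mem_univ _) h
  · intro p _ hp
    simp [iso6_E, hp]
  · intro h; exact absurd (Finset.mem_univ _) h

theorem iso6_norm_conj {r : ℕ} {n : Type*} [Fintype n] [DecidableEq n] (a : Fin r) :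
    ‖(iso6_E r n a).conjTranspose‖ ≤ 1 := by
  rw [Matrix.l2_opNorm_conjTranspose]
  exact iso6_norm_E r n a

theorem iso6_norm_blk {r : ℕ} {n : Type*} [Fintype n] [DecidableEq n]
    (X : Matrix (Fin r × n) (Fin r × n) ℂ) (a b : Fin r) : ‖iso6_blk X a b‖ ≤ ‖X‖ := by
  rw [iso6_blk_eq]
  have h1 := Matrix.l2_opNorm_mul ((iso6_E r n a).conjTranspose * X) (iso6_E r n b)
  have h2 := Matrix.l2_opNorm_mul (iso6_E r n a).conjTranspose X
  have h3 := iso6_norm_E r n b
  have h4 := iso6_norm_conj (r := r) (n := n) a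
  calc _ ≤ _ := h1
    _ ≤ ‖(iso6_E r n a).conjTranspose * X‖ * 1 := mul_le_mul_of_nonneg_left h3 (norm_nonneg _)
    _ = ‖(iso6_E r n a).conjTranspose * X‖ := mul_one _
    _ ≤ ‖(iso6_E r n a).conjTranspose‖ * ‖X‖ := h2
    _ ≤ 1 * ‖X‖ := mul_le_mul_of_nonneg_right h4 (norm_nonneg _)
    _ = ‖X‖ := one_mul _

/-- a matrix from its blocks -/
def iso6_asm {r : ℕ} {n : Type*} (Y : Fin r → Fin r → Matrix n n ℂ) :
    Matrix (Fin r × n) (Fin r × n) ℂ :=
  Matrix.of fun p q => Y p.1 q.1 p.2 q.2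

theorem iso6_asm_eq {r : ℕ} {n : Type*} [Fintype n] [DecidableEq n]
    (Y : Fin r → Fin r → Matrix n n ℂ) :
    iso6_asm Y = ∑ a, ∑ b, iso6_E r n a * Y a b * (iso6_E r n b).conjTranspose := by
  ext p q
  rw [Matrix.sum_apply, Finset.sum_eq_single p.1]
  · rw [Matrix.sum_apply, Finset.sum_eq_single q.1]
    · rw [Matrix.mul_apply, Finset.sum_eq_single q.2]
      · rw [Matrix.mul_apply, Finset.sum_eq_single p.2]
        · simp [iso6_asm, iso6_E]
        · intro l _ hl
          have : p ≠ (p.1, l) := fun h => hl (congrArg Prod.snd h).symm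
          simp [iso6_E, this]
        · intro h; exact absurd (Finset.mem_univ _) h
      · intro l _ hl
        have : q ≠ (q.1, l) := fun h => hl (congrArg Prod.snd h).symm
        simp [iso6_E, this]
      · intro h; exact absurd (Finset.mem_univ _) h
    · intro b _ hb
      rw [Matrix.mul_apply]
      refine Finset.sum_eq_zero fun l _ => ?_
      have : q ≠ (b, l) := fun h => hb (congrArg Prod.fst h).symm
      simp [iso6_E, this]
    · intro h; exact absurd (Finset.mem_univ _) h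
  · intro a _ ha
    rw [Matrix.sum_apply]
    refine Finset.sum_eq_zero fun b _ => ?_
    rw [Matrix.mul_apply]
    refine Finset.sum_eq_zero fun l _ => ?_
    rw [Matrix.mul_apply]
    have : (∑ j, iso6_E r n a p j * Y a b j l) = 0 := by
      refine Finset.sum_eq_zero fun j _ => ?_
      have : p ≠ (a, j) := fun h => ha (congrArg Prod.fst h).symm
      simp [iso6_E, this]
    rw [this, zero_mul]
  · intro h; exact absurd (Finset.mem_univ _) h

theorem iso6_norm_asm {r : ℕ} {n : Type*} [Fintype n] [DecidableEq n]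
    (Y : Fin r → Fin r → Matrix n n ℂ) : ‖iso6_asm Y‖ ≤ ∑ a, ∑ b, ‖Y a b‖ := by
  rw [iso6_asm_eq]
  refine (norm_sum_le _ _).trans (Finset.sum_le_sum fun a _ => (norm_sum_le _ _).trans
    (Finset.sum_le_sum fun b _ => ?_))
  have h1 := Matrix.l2_opNorm_mul (iso6_E r n a * Y a b) (iso6_E r n b).conjTranspose
  have h2 := Matrix.l2_opNorm_mul (iso6_E r n a) (Y a b)
  have h3 := iso6_norm_E r n a
  have h4 := iso6_norm_conj (r := r) (n := n) b
  calc _ ≤ _ := h1
    _ ≤ ‖iso6_E r n a * Y a b‖ * 1 := mul_le_mul_of_nonneg_left h4 (norm_nonneg _)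
    _ = ‖iso6_E r n a * Y a b‖ := mul_one _
    _ ≤ ‖iso6_E r n a‖ * ‖Y a b‖ := h2
    _ ≤ 1 * ‖Y a b‖ := mul_le_mul_of_nonneg_right h3 (norm_nonneg _)
    _ = ‖Y a b‖ := one_mul _

variable {I : Type} {n : I → Type} [∀ i, Fintype (n i)] [∀ i, DecidableEq (n i)]

/-- the block `(a, b)` of a bounded family -/
def iso6_blkF {r : ℕ} (x : BF (fun i => Fin r × n i)) (a b : Fin r) : BF n :=
  ⟨fun i => iso6_blk (x.1 i) a b, by
    obtain ⟨C, hC⟩ := x.2
    exact ⟨C, fun i => (iso6_norm_blk _ a b).trans (hC i)⟩⟩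

/-- a bounded family from its blocks -/
def iso6_asmF {r : ℕ} (y : Fin r → Fin r → BF n) : BF (fun i => Fin r × n i) :=
  ⟨fun i => iso6_asm fun a b => (y a b).1 i, by
    choose C hC using fun a b => (y a b).2
    exact ⟨∑ a, ∑ b, C a b, fun i => (iso6_norm_asm _).trans
      (Finset.sum_le_sum fun a _ => Finset.sum_le_sum fun b _ => hC a b i)⟩⟩

theorem iso6_blk_asm {r : ℕ} (y : Fin r → Fin r → BF n) (a b : Fin r) :
    iso6_blkF (iso6_asmF y) a b = y a b := rfl

end Norm

section Model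
variable {I : Type} {n : I → Type} [∀ i, Fintype (n i)] [∀ i, DecidableEq (n i)]

theorem iso6_blk_one {r : ℕ} (a b : Fin r) :
    iso6_blkF (1 : BF (fun i => Fin r × n i)) a b = if a = b then 1 else 0 := by
  refine Subtype.ext (funext fun i => ?_)
  ext j k
  by_cases hab : a = b
  · subst hab
    rw [if_pos rfl]
    show (1 : Matrix (Fin r × n i) (Fin r × n i) ℂ) (a, j) (a, k) = (1 : Matrix (n i) (n i) ℂ) j k
    by_cases hjk : j = k
    · subst hjk
      rw [Matrix.one_apply_eq, Matrix.one_apply_eq]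
    · rw [Matrix.one_apply_ne hjk, Matrix.one_apply_ne (fun h => hjk (congrArg Prod.snd h))]
  · rw [if_neg hab]
    show (1 : Matrix (Fin r × n i) (Fin r × n i) ℂ) (a, j) (b, k) = 0
    exact Matrix.one_apply_ne fun h => hab (congrArg Prod.fst h)

theorem iso6_blk_mul {r : ℕ} (x y : BF (fun i => Fin r × n i)) (a b : Fin r) :
    iso6_blkF (x * y) a b = ∑ c, iso6_blkF x a c * iso6_blkF y c b := by
  refine Subtype.ext (funext fun i => ?_)
  ext j k
  have h1 : (((∑ c, iso6_blkF x a c * iso6_blkF y c b : BF n) : ∀ i, Matrix (n i) (n i) ℂ) i) =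
      ∑ c, iso6_blk (x.1 i) a c * iso6_blk (y.1 i) c b := by
    rw [AddSubmonoidClass.coe_finsetSum, Finset.sum_apply]
    rfl
  rw [h1, Matrix.sum_apply]
  show (x.1 i * y.1 i) (a, j) (b, k) = _
  rw [Matrix.mul_apply, Fintype.sum_prod_type]
  exact Finset.sum_congr rfl fun c _ => by rw [Matrix.mul_apply]; rfl

theorem iso6_blk_algebraMap {r : ℕ} (c : ℂ) (a b : Fin r) :
    iso6_blkF (algebraMap ℂ (BF (fun i => Fin r × n i)) c) a b =
      if a = b then algebraMap ℂ (BF n) c else 0 := by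
  have h0 : algebraMap ℂ (BF (fun i => Fin r × n i)) c = c • 1 := Algebra.algebraMap_eq_smul_one c
  have h1 : algebraMap ℂ (BF n) c = c • 1 := Algebra.algebraMap_eq_smul_one c
  have h2 : iso6_blkF (c • (1 : BF (fun i => Fin r × n i))) a b =
      c • iso6_blkF (1 : BF (fun i => Fin r × n i)) a b := rfl
  rw [h0, h1, h2, iso6_blk_one]
  split_ifs
  · rfl
  · exact smul_zero c

theorem iso6_n2_sq {r : ℕ} {m : Type} [Fintype m] [DecidableEq m]
    (X : Matrix (Fin r × m) (Fin r × m) ℂ) :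
    n2 (mtr (Fin r × m)) X ^ 2 = (r : ℝ)⁻¹ * ∑ a, ∑ b, n2 (mtr m) (iso6_blk X a b) ^ 2 := by
  rw [n2_mtr_sq]
  simp only [n2_mtr_sq, Fintype.card_prod, Fintype.card_fin, Nat.cast_mul]
  simp only [← Finset.sum_div]
  rw [div_eq_inv_mul, mul_inv, div_eq_inv_mul, mul_assoc]
  congr 2
  rw [Fintype.sum_prod_type]
  refine Finset.sum_congr rfl fun a _ => ?_
  have h1 : ∀ j, ∑ q, ‖X (a, j) q‖ ^ 2 = ∑ b, ∑ k, ‖X (a, j) (b, k)‖ ^ 2 := fun j =>
    Fintype.sum_prod_type _
  simp only [h1]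
  rw [Finset.sum_comm]
  rfl

theorem iso6_mtr {r : ℕ} {m : Type} [Fintype m] [DecidableEq m]
    (X : Matrix (Fin r × m) (Fin r × m) ℂ) :
    mtr (Fin r × m) X = (r : ℂ)⁻¹ * ∑ a, mtr m (iso6_blk X a a) := by
  simp only [mtr, LinearMap.smul_apply, Matrix.traceLinearMap_apply, smul_eq_mul,
    Fintype.card_prod, Fintype.card_fin, Nat.cast_mul]
  rw [← Finset.mul_sum, mul_inv, mul_assoc]
  congr 2
  simp only [Matrix.trace, Matrix.diag]
  rw [Fintype.sum_prod_type]
  rfl

theorem matrix_model {I : Type} {n : I → Type} [∀ i, Fintype (n i)] [∀ i, DecidableEq (n i)]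
    {M : Type*} [Ring M] [StarRing M] [Algebra ℂ M] [StarModule ℂ M]
    {τ : M →ₗ[ℂ] ℂ} {W : Ultrafilter I} (mod : Model n τ W) {r : ℕ} (hr : 0 < r) :
    Nonempty (Model (fun i => Fin r × n i) (trM r τ) W) := by
  refine ⟨{
    pi := {
      toFun := fun x => Matrix.of fun a b => mod.pi (iso6_blkF x a b)
      map_one' := ?_
      map_mul' := ?_
      map_zero' := ?_
      map_add' := ?_
      commutes' := ?_
      map_star' := ?_ }
    surj := ?_
    tr := ?_
    ker := ?_ }⟩
  · ext a b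
    rw [Matrix.of_apply, iso6_blk_one]
    by_cases hab : a = b
    · subst hab
      rw [if_pos rfl, map_one, Matrix.one_apply_eq]
    · rw [if_neg hab, map_zero, Matrix.one_apply_ne hab]
  · intro x y
    ext a b
    rw [Matrix.of_apply, iso6_blk_mul, map_sum, Matrix.mul_apply]
    exact Finset.sum_congr rfl fun c _ => by rw [map_mul]; rfl
  · ext a b
    have h1 : iso6_blkF (0 : BF (fun i => Fin r × n i)) a b = 0 := rfl
    rw [Matrix.of_apply, h1, map_zero]
    rfl
  · intro x y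
    ext a b
    have h1 : iso6_blkF (x + y) a b = iso6_blkF x a b + iso6_blkF y a b := rfl
    rw [Matrix.of_apply, h1, map_add]
    rfl
  · intro c
    ext a b
    rw [Matrix.of_apply]
    have h1 := iso6_blk_algebraMap (n := n) c a b
    rw [h1, Matrix.algebraMap_matrix_apply]
    split_ifs
    · exact AlgHomClass.commutes mod.pi c
    · exact map_zero _
  · intro x
    ext a b
    have h1 : iso6_blkF (star x) a b = star (iso6_blkF x b a) := rfl
    rw [Matrix.of_apply, h1, map_star]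
    rfl
  · intro m
    choose y hy using fun a b => mod.surj (m a b)
    refine ⟨iso6_asmF y, ?_⟩
    ext a b
    exact hy a b
  · intro x
    have h1 : ∀ i, mtr (Fin r × n i) (x.1 i) =
        (r : ℂ)⁻¹ * ∑ a, mtr (n i) ((iso6_blkF x a a).1 i) := fun i => iso6_mtr (x.1 i)
    simp only [h1]
    rw [iso6_trM_apply]
    refine Tendsto.const_mul _ (tendsto_finsetSum _ fun a _ => ?_)
    exact mod.tr (iso6_blkF x a a)
  · intro x
    have h1 : ∀ i, n2 (mtr (Fin r × n i)) (x.1 i) ^ 2 =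
        (r : ℝ)⁻¹ * ∑ a, ∑ b, n2 (mtr (n i)) ((iso6_blkF x a b).1 i) ^ 2 := fun i =>
      iso6_n2_sq (x.1 i)
    have hr' : (0 : ℝ) < r := by exact_mod_cast hr
    constructor
    · intro h
      have h2 : ∀ a b, Tendsto (fun i => n2 (mtr (n i)) ((iso6_blkF x a b).1 i)) W (𝓝 0) :=
        fun a b => (mod.ker _).1 (congrFun (congrFun h a) b)
      have h3 : Tendsto (fun i => n2 (mtr (Fin r × n i)) (x.1 i) ^ 2) W (𝓝 0) := by
        simp only [h1]
        have h4 : Tendsto (fun i => (r : ℝ)⁻¹ *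
            ∑ a, ∑ b, n2 (mtr (n i)) ((iso6_blkF x a b).1 i) ^ 2) W
            (𝓝 ((r : ℝ)⁻¹ * ∑ a : Fin r, ∑ b : Fin r, (0 : ℝ) ^ 2)) :=
          Tendsto.const_mul _ (tendsto_finsetSum _ fun a _ => tendsto_finsetSum _ fun b _ =>
            (h2 a b).pow 2)
        simpa using h4
      have h4 := (Real.continuous_sqrt.tendsto 0).comp h3
      rw [Real.sqrt_zero] at h4
      refine h4.congr fun i => ?_
      exact Real.sqrt_sq (n2_nonneg _ _)
    · intro h
      ext a b
      refine (mod.ker (iso6_blkF x a b)).2 ?_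
      have h2 : ∀ i, n2 (mtr (n i)) ((iso6_blkF x a b).1 i) ≤
          Real.sqrt r * n2 (mtr (Fin r × n i)) (x.1 i) := fun i => by
        refine le_of_sq_le_sq ?_ (mul_nonneg (Real.sqrt_nonneg _) (n2_nonneg _ _))
        rw [mul_pow, Real.sq_sqrt hr'.le, h1, ← mul_assoc, mul_inv_cancel₀ hr'.ne', one_mul]
        exact (Finset.single_le_sum (f := fun b => n2 (mtr (n i)) ((iso6_blkF x a b).1 i) ^ 2)
          (fun _ _ => sq_nonneg _) (Finset.mem_univ b)).trans
          (Finset.single_le_sum (f := fun a => ∑ b, n2 (mtr (n i)) ((iso6_blkF x a b).1 i) ^ 2)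
            (fun _ _ => Finset.sum_nonneg fun _ _ => sq_nonneg _) (Finset.mem_univ a))
      have h3 := h.const_mul (Real.sqrt r)
      rw [mul_zero] at h3
      exact squeeze_zero (fun i => n2_nonneg _ _) h2 h3

end Model

end Pool.Agent.FG
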