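import Pool.Agent.FG.Weyl
import Pool.Agent.FG.Cov
import Pool.Agent.FG.Tensor
import Pool.Agent.FG.Shear

/-!
Project FG (MP_0c7c15_an), row FG-FD-10: the parameters and the two Heisenberg groups.
-/

set_option autoImplicit false

namespace Pool.Agent.FG

section par
variable {a : ℕ}

theorem par_c_mem (j : Fin 2) (s : Fin 4) :
    (par a).c j s ∈ Matrix.unitaryGroup (Y a × Y a) ℂ := by
  show (if j = 0 then tt (cc a s) 1 else tt 1 (cc a s)) ∈ Matrix.unitaryGroup (Y a × Y a) ℂ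
  by_cases hj : j = 0
  · rw [if_pos hj]
    exact tt_mem (cc_mem a s) (one_mem _)
  · rw [if_neg hj]
    exact tt_mem (one_mem _) (cc_mem a s)

theorem par_U_mem (i : Fin 2) : (par a).U i ∈ Matrix.unitaryGroup (Y a × Y a) ℂ :=
  UU_mem a i

private theorem par_fl_c (j : Fin 2) (s : Fin 4) : fl ((par a).c j s) = (par a).c (1 - j) s := by
  show fl (if j = 0 then tt (cc a s) 1 else tt 1 (cc a s)) =
    (if 1 - j = 0 then tt (cc a s) 1 else tt 1 (cc a s))
  fin_cases j
  · rw [if_pos (by rfl), if_neg (by decide), fl_tt]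
  · rw [if_neg (by decide), if_pos (by rfl), fl_tt]

theorem Phi_flip (u : Matrix (Y a × Y a) (Y a × Y a) ℂ) :
    Phi (mtr (Y a × Y a)) (par a) 1 u = Phi (mtr (Y a × Y a)) (par a) 0 (fl u) := by
  have hc0 : ∀ s, fl ((par a).c 0 s) = (par a).c 1 s := fun s => par_fl_c 0 s
  have hc1 : ∀ s, fl ((par a).c 1 s) = (par a).c 0 s := fun s => par_fl_c 1 s
  have hz : ∀ i, fl (zed (par a) i u) = zed (par a) (1 - i) (fl u) := by
    intro i
    unfold zed
    rw [fl_mul, fl_mul, fl_mul, star_fl, star_fl]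
    show star (fl (UU a i)) * fl u * fl (UU a i) * star (fl u) =
      star (UU a (1 - i)) * fl u * UU a (1 - i) * star (fl u)
    rw [fl_UU]
  have e1 : (1 : Fin 2) - 1 = 0 := rfl
  have e0 : (1 : Fin 2) - 0 = 1 := rfl
  have A : ∑ s : Fin 4, n2 (mtr (Y a × Y a)) ((par a).c 0 s * u - u * (par a).c 0 s) =
      ∑ s : Fin 4, n2 (mtr (Y a × Y a)) ((par a).c 1 s * fl u - fl u * (par a).c 1 s) := by
    refine Finset.sum_congr rfl fun s _ => ?_
    rw [← n2_fl ((par a).c 0 s * u - u * (par a).c 0 s), fl_sub, fl_mul, fl_mul, hc0]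
  have h1 : ∀ i s, n2 (mtr (Y a × Y a)) ((par a).c 1 s * zed (par a) i u
        - zed (par a) i u * (par a).c 1 s) =
        n2 (mtr (Y a × Y a)) ((par a).c 0 s * zed (par a) (1 - i) (fl u)
        - zed (par a) (1 - i) (fl u) * (par a).c 0 s) := by
    intro i s
    rw [← n2_fl ((par a).c 1 s * zed (par a) i u - zed (par a) i u * (par a).c 1 s), fl_sub,
      fl_mul, fl_mul, hc1, hz]
  have B : ∑ i : Fin 2, ∑ s : Fin 4, n2 (mtr (Y a × Y a)) ((par a).c 1 s * zed (par a) i u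
        - zed (par a) i u * (par a).c 1 s) =
      ∑ i : Fin 2, ∑ s : Fin 4, n2 (mtr (Y a × Y a)) ((par a).c 0 s * zed (par a) i (fl u)
        - zed (par a) i (fl u) * (par a).c 0 s) := by
    rw [Fin.sum_univ_two, Fin.sum_univ_two, add_comm]
    have h2 := fun s => h1 0 s
    have h3 := fun s => h1 1 s
    rw [e0] at h2
    rw [e1] at h3
    rw [Finset.sum_congr rfl fun s _ => h2 s, Finset.sum_congr rfl fun s _ => h3 s]
  have C : n2 (mtr (Y a × Y a)) (u ^ 3 - 1) = n2 (mtr (Y a × Y a)) (fl u ^ 3 - 1) := by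
    rw [← n2_fl (u ^ 3 - 1), fl_sub, fl_one, pow_three, fl_mul, fl_mul, ← pow_three]
  unfold Phi
  rw [e1, e0, A, B, C]

theorem HP_flip (u : Matrix (Y a × Y a) (Y a × Y a) ℂ) :
    u ∈ HP a 1 ↔ fl u ∈ HP a 0 := by
  constructor
  · rintro ⟨k, p, q, rfl⟩
    refine ⟨k, p, q, ?_⟩
    rw [if_neg (by decide), if_pos rfl, fl_smul, fl_tt]
  · rintro ⟨k, p, q, h⟩
    refine ⟨k, p, q, ?_⟩
    rw [if_pos rfl] at h
    rw [if_neg (by decide), ← fl_fl u, h, fl_smul, fl_tt]

theorem HP_mem {j : Fin 2} {u : Matrix (Y a × Y a) (Y a × Y a) ℂ} (hu : u ∈ HP a j) :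
    u ∈ Matrix.unitaryGroup (Y a × Y a) ℂ := by
  obtain ⟨k, p, q, rfl⟩ := hu
  have h1 : (if j = 0 then tt (We p q) 1 else tt 1 (We p q)) ∈
      Matrix.unitaryGroup (Y a × Y a) ℂ := by
    by_cases hj : j = 0
    · rw [if_pos hj]
      exact tt_mem (We_mem p q) (one_mem _)
    · rw [if_neg hj]
      exact tt_mem (one_mem _) (We_mem p q)
  rw [Unitary.mem_iff] at h1 ⊢
  constructor
  · rw [star_smul, smul_mul_smul_comm, h1.1, star_mul_chi, one_smul]
  · rw [star_smul, smul_mul_smul_comm, h1.2, chi_mul_star, one_smul]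

private theorem par_chi_cube (k : ZMod 3) : chi k ^ 3 = 1 := by
  have h : k + (k + k) = 0 := by
    revert k
    decide
  rw [pow_three, ← chi_add, ← chi_add, h, chi_zero]

private theorem par_Phi_zero (k : ZMod 3) (p q : Y a) :
    Phi (mtr (Y a × Y a)) (par a) 0 (chi k • tt (We p q) 1) = 0 := by
  have hc : ∀ s, (par a).c 0 s = tt (cc a s) 1 := fun _ => rfl
  have hc' : ∀ s, (par a).c 1 s = tt 1 (cc a s) := fun _ => rfl
  have hz : ∀ i, zed (par a) i (chi k • tt (We p q) 1) = tt 1 (RR i p q) := by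
    intro i
    unfold zed
    show star (UU a i) * (chi k • tt (We p q) 1) * UU a i * star (chi k • tt (We p q) 1) = _
    have hW := (Unitary.mem_iff.mp (We_mem p q)).2
    rw [mul_smul_comm, smul_mul_assoc, UU_conj, star_smul, smul_mul_smul_comm, chi_mul_star,
      one_smul, star_tt, tt_mul, star_one, mul_one, hW]
  unfold Phi
  have e0 : (1 : Fin 2) - 0 = 1 := rfl
  rw [e0]
  have h1 : ∑ s : Fin 4, n2 (mtr (Y a × Y a)) ((par a).c 1 s * chi k • tt (We p q) 1
      - chi k • tt (We p q) 1 * (par a).c 1 s) = 0 := by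
    refine Finset.sum_eq_zero fun s _ => ?_
    rw [hc', mul_smul_comm, smul_mul_assoc, tt_mul, tt_mul, one_mul, mul_one, one_mul, mul_one,
      sub_self, n2_zero]
  have h2 : ∑ i : Fin 2, ∑ s : Fin 4, n2 (mtr (Y a × Y a))
      ((par a).c 0 s * zed (par a) i (chi k • tt (We p q) 1)
      - zed (par a) i (chi k • tt (We p q) 1) * (par a).c 0 s) = 0 := by
    refine Finset.sum_eq_zero fun i _ => Finset.sum_eq_zero fun s _ => ?_
    rw [hz, hc, tt_mul, tt_mul, one_mul, mul_one, one_mul, mul_one, sub_self, n2_zero]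
  have h3 : (chi k • tt (We p q) (1 : Matrix (Y a) (Y a) ℂ)) ^ 3 = 1 := by
    rw [smul_pow, par_chi_cube, one_smul, pow_three, tt_mul, tt_mul, one_mul, one_mul,
      ← pow_three, We_cube, tt_one]
  rw [h1, h2, h3, sub_self, n2_zero]
  norm_num

theorem Phi_HP {j : Fin 2} {u : Matrix (Y a × Y a) (Y a × Y a) ℂ} (hu : u ∈ HP a j) :
    Phi (mtr (Y a × Y a)) (par a) j u = 0 := by
  fin_cases j
  · obtain ⟨k, p, q, rfl⟩ := hu
    exact par_Phi_zero k p q
  · have h1 : fl u ∈ HP a 0 := (HP_flip u).mp hu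
    have h2 := Phi_flip u
    obtain ⟨k, p, q, h3⟩ := h1
    rw [if_pos rfl] at h3
    rw [h3, par_Phi_zero] at h2
    exact h2

end par

end Pool.Agent.FG
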