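import Pool.Agent.FG.Char
import Pool.Agent.FG.Weyl
import Pool.Agent.FG.Tensor
import Pool.Agent.FG.Expander
import Pool.Agent.FG.Mass
import Pool.Agent.FG.Par

/-!
Project FG (MP_0c7c15_an), block FD, row FD-11: definability of the two Heisenberg groups.
-/

set_option autoImplicit false

namespace Pool.Agent.FG

theorem fd11_Phi_nonneg {M : Type*} [Ring M] [StarRing M] [Algebra ℂ M] (τ : M →ₗ[ℂ] ℂ)
    (b : Par M) (j : Fin 2) (u : M) : 0 ≤ Phi τ b j u := by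
  unfold Phi
  have h1 : 0 ≤ ∑ s : Fin 4, n2 τ (b.c (1 - j) s * u - u * b.c (1 - j) s) :=
    Finset.sum_nonneg fun _ _ => n2_nonneg _ _
  have h2 : 0 ≤ ∑ i : Fin 2, ∑ s : Fin 4, n2 τ (b.c j s * zed b i u - zed b i u * b.c j s) :=
    Finset.sum_nonneg fun _ _ => Finset.sum_nonneg fun _ _ => n2_nonneg _ _
  have h3 := n2_nonneg τ (u ^ 3 - 1)
  linarith

/-- every summand of `Phi` is at most `Phi` -/
theorem fd11_Phi_le {M : Type*} [Ring M] [StarRing M] [Algebra ℂ M] (τ : M →ₗ[ℂ] ℂ)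
    (b : Par M) (j : Fin 2) (u : M) (δ : ℝ) (h : Phi τ b j u ≤ δ) :
    (∀ s, n2 τ (b.c (1 - j) s * u - u * b.c (1 - j) s) ≤ δ) ∧
    (∀ i s, n2 τ (b.c j s * zed b i u - zed b i u * b.c j s) ≤ δ) ∧
    n2 τ (u ^ 3 - 1) ≤ δ := by
  unfold Phi at h
  have h1 : ∀ s, n2 τ (b.c (1 - j) s * u - u * b.c (1 - j) s)
      ≤ ∑ s : Fin 4, n2 τ (b.c (1 - j) s * u - u * b.c (1 - j) s) := fun s =>
    Finset.single_le_sum (f := fun s : Fin 4 => n2 τ (b.c (1 - j) s * u - u * b.c (1 - j) s))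
      (fun _ _ => n2_nonneg _ _) (Finset.mem_univ s)
  have h2 : ∀ i s, n2 τ (b.c j s * zed b i u - zed b i u * b.c j s)
      ≤ ∑ i : Fin 2, ∑ s : Fin 4, n2 τ (b.c j s * zed b i u - zed b i u * b.c j s) := fun i s =>
    (Finset.single_le_sum (f := fun s : Fin 4 =>
      n2 τ (b.c j s * zed b i u - zed b i u * b.c j s))
      (fun _ _ => n2_nonneg _ _) (Finset.mem_univ s)).trans
    (Finset.single_le_sum (f := fun i : Fin 2 => ∑ s : Fin 4,
      n2 τ (b.c j s * zed b i u - zed b i u * b.c j s))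
      (fun _ _ => Finset.sum_nonneg fun _ _ => n2_nonneg _ _) (Finset.mem_univ i))
  have h3 := n2_nonneg τ (u ^ 3 - 1)
  have p1 : 0 ≤ ∑ s : Fin 4, n2 τ (b.c (1 - j) s * u - u * b.c (1 - j) s) :=
    Finset.sum_nonneg fun _ _ => n2_nonneg _ _
  have p2 : 0 ≤ ∑ i : Fin 2, ∑ s : Fin 4, n2 τ (b.c j s * zed b i u - zed b i u * b.c j s) :=
    Finset.sum_nonneg fun _ _ => Finset.sum_nonneg fun _ _ => n2_nonneg _ _
  exact ⟨fun s => by linarith [h1 s], fun i s => by linarith [h2 i s], by linarith⟩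

theorem fd11_ip_sub_smul {n : Type*} [Fintype n] (x y z : Matrix n n ℂ) (c : ℂ) :
    ip x (y - c • z) = ip x y - c * ip x z := by
  unfold ip
  rw [mul_sub, map_sub, mul_smul_comm, map_smul, smul_eq_mul]

/-- the distance of `A` to the line of `We p0 q0` -/
theorem fd11_dist {a : ℕ} (A : Matrix (Y a) (Y a) ℂ) (p0 q0 : Y a) (ε : ℝ)
    (hp : ∑ p, ∑ q, (if p = p0 then 0 else ‖ip (We p q) A‖ ^ 2) ≤ ε)
    (hq : ∑ p, ∑ q, (if q = q0 then 0 else ‖ip (We p q) A‖ ^ 2) ≤ ε) :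
    n2 (mtr (Y a)) (A - ip (We p0 q0) A • We p0 q0) ^ 2 ≤ 2 * ε := by
  rw [← parseval]
  have h : ∀ p q : Y a, ‖ip (We p q) (A - ip (We p0 q0) A • We p0 q0)‖ ^ 2
      ≤ (if p = p0 then 0 else ‖ip (We p q) A‖ ^ 2)
        + (if q = q0 then 0 else ‖ip (We p q) A‖ ^ 2) := by
    intro p q
    rw [fd11_ip_sub_smul, ip_We]
    by_cases h1 : p = p0
    · by_cases h2 : q = q0
      · subst h1 h2
        simp
      · simp [h1, h2]
    · by_cases h2 : q = q0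
      · simp [h1, h2]
      · simp only [h1, h2, false_and, if_false, mul_zero, sub_zero]
        have := sq_nonneg ‖ip (We p q) A‖
        linarith
  calc ∑ p, ∑ q, ‖ip (We p q) (A - ip (We p0 q0) A • We p0 q0)‖ ^ 2
      ≤ ∑ p, ∑ q, ((if p = p0 then 0 else ‖ip (We p q) A‖ ^ 2)
        + (if q = q0 then 0 else ‖ip (We p q) A‖ ^ 2)) :=
        Finset.sum_le_sum fun p _ => Finset.sum_le_sum fun q _ => h p q
    _ = (∑ p, ∑ q, (if p = p0 then 0 else ‖ip (We p q) A‖ ^ 2))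
        + ∑ p, ∑ q, (if q = q0 then 0 else ‖ip (We p q) A‖ ^ 2) := by
        simp only [Finset.sum_add_distrib]
    _ ≤ 2 * ε := by linarith

theorem near0 {a : ℕ} (u : Matrix (Y a × Y a) (Y a × Y a) ℂ) (δ : ℝ)
    (hu : u ∈ Matrix.unitaryGroup (Y a × Y a) ℂ)
    (h : Phi (mtr (Y a × Y a)) (par a) 0 u ≤ δ) :
    ∃ s ∈ HP a 0, n2 (mtr (Y a × Y a)) (u - s) ≤ 400 * δ := by
  have hτ : IsTr (mtr (Y a × Y a)) := isTr_mtr (Y a × Y a)
  have hτ1 : IsTr (mtr (Y a)) := isTr_mtr (Y a)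
  have hu' : u ∈ unitary (Matrix (Y a × Y a) (Y a × Y a) ℂ) := hu
  have hδ0 : 0 ≤ δ := (fd11_Phi_nonneg _ _ _ _).trans h
  rcases lt_or_ge (1 / 200) δ with hδ | hδ
  · refine ⟨1, ⟨0, 0, 0, ?_⟩, ?_⟩
    · rw [if_pos rfl, We_zero, tt_one, chi_zero, one_smul]
    · have h1 := n2_sub_le hτ u 1
      rw [n2_unitary hτ hu', n2_one hτ] at h1
      linarith
  · obtain ⟨h1, h2, h3⟩ := fd11_Phi_le _ _ _ _ _ h
    set A := ptr u with hA
    have e1 : n2 (mtr (Y a × Y a)) (u - tt A 1) ≤ 12 * δ := expander' u δ h1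
    have e2 : ∀ i : Fin 2, n2 (mtr (Y a × Y a)) (zed (par a) i u - tt 1 (ptl (zed (par a) i u)))
        ≤ 12 * δ := fun i => expander (zed (par a) i u) δ (h2 i)
    have n1 : n2 (mtr (Y a)) (1 : Matrix (Y a) (Y a) ℂ) = 1 := n2_one hτ1
    have nA : n2 (mtr (Y a × Y a)) (tt A (1 : Matrix (Y a) (Y a) ℂ)) = n2 (mtr (Y a)) A := by
      rw [n2_tt, n1, mul_one]
    have nA_lo : 1 - 12 * δ ≤ n2 (mtr (Y a)) A := by
      have h4 := n2_add_le hτ (u - tt A 1) (tt A 1)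
      rw [sub_add_cancel, n2_unitary hτ hu', nA] at h4
      linarith
    have nA_hi : n2 (mtr (Y a)) A ≤ 1 := by
      have h4 := n2_ptl_le (fl u)
      rw [n2_fl, n2_unitary hτ hu'] at h4
      exact h4
    have nA2 : 1 / 2 ≤ n2 (mtr (Y a)) A ^ 2 := by nlinarith
    have m : ∀ i : Fin 2, ∃ w : Y a,
        ∑ p, ∑ q, (if (if i = 0 then p else q) = w then 0 else ‖ip (We p q) A‖ ^ 2)
          ≤ (3 * (12 * δ)) ^ 2 := by
      intro i
      apply conc i A (ptl (zed (par a) i u)) (12 * δ) nA2 (by linarith) (by linarith)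
      exact mass i u (zed (par a) i u) A (12 * δ) hu rfl e1 (e2 i)
    obtain ⟨p0, hp0⟩ := m 0
    obtain ⟨q0, hq0⟩ := m 1
    simp only at hp0
    have h10 : ¬ ((1 : Fin 2) = 0) := by decide
    simp only [if_neg h10] at hq0
    set y0 := ip (We p0 q0) A with hy0
    set W := tt (We p0 q0) (1 : Matrix (Y a) (Y a) ℂ) with hW
    have hWu : W ∈ unitary (Matrix (Y a × Y a) (Y a × Y a) ℂ) :=
      tt_mem (We_mem p0 q0) (one_mem _)
    have d1 : n2 (mtr (Y a)) (A - y0 • We p0 q0) ≤ 51 * δ := by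
      have h4 := fd11_dist A p0 q0 ((3 * (12 * δ)) ^ 2) hp0 hq0
      have h5 : n2 (mtr (Y a)) (A - y0 • We p0 q0) ^ 2 ≤ (51 * δ) ^ 2 := by
        refine h4.trans ?_
        nlinarith [sq_nonneg δ]
      exact (sq_le_sq₀ (n2_nonneg _ _) (by positivity)).1 h5
    have d2 : n2 (mtr (Y a × Y a)) (u - y0 • W) ≤ 63 * δ := by
      have h4 := n2_sub_le_add hτ u (tt A 1) (y0 • W)
      have h5 : tt A (1 : Matrix (Y a) (Y a) ℂ) - y0 • W = tt (A - y0 • We p0 q0) 1 := by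
        rw [tt_sub_left, tt_smul_left]
      rw [h5, n2_tt, n1, mul_one] at h4
      linarith
    have ny0 : ‖y0‖ ≤ 1 := by
      have h4 := norm_tr_star_mul_le hτ1 (We p0 q0) A
      rw [n2_unitary hτ1 (We_mem p0 q0), one_mul] at h4
      exact h4.trans nA_hi
    -- the cube
    set d := n2 (mtr (Y a × Y a)) (u - y0 • W) with hd
    have hd0 : 0 ≤ d := n2_nonneg _ _
    have c1 : n2 (mtr (Y a × Y a)) ((u - y0 • W) * u * u) = d := by
      rw [n2_mul_unitary hτ hu', n2_mul_unitary hτ hu']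
    have c2 : n2 (mtr (Y a × Y a)) ((y0 • W) * (u - y0 • W) * u) ≤ d := by
      rw [n2_mul_unitary hτ hu', smul_mul_assoc, n2_smul hτ, n2_unitary_mul _ hWu]
      exact mul_le_of_le_one_left hd0 ny0
    have c3 : n2 (mtr (Y a × Y a)) ((y0 • W) * ((y0 • W) * (u - y0 • W))) ≤ d := by
      rw [smul_mul_assoc, n2_smul hτ, n2_unitary_mul _ hWu, smul_mul_assoc, n2_smul hτ,
        n2_unitary_mul _ hWu]
      have h4 : ‖y0‖ * d ≤ d := mul_le_of_le_one_left hd0 ny0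
      exact (mul_le_mul_of_nonneg_left h4 (norm_nonneg _)).trans h4
    have W3 : W ^ 3 = 1 := by
      have h4 : W ^ 3 = tt (We p0 q0 ^ 3) 1 := by
        rw [hW, pow_succ, pow_succ, pow_one, tt_mul, tt_mul, mul_one, mul_one, pow_succ, pow_succ,
          pow_one]
      rw [h4, We_cube, tt_one]
    have cube : u ^ 3 - y0 ^ 3 • (1 : Matrix (Y a × Y a) (Y a × Y a) ℂ)
        = (u - y0 • W) * u * u + (y0 • W) * (u - y0 • W) * u
          + (y0 • W) * ((y0 • W) * (u - y0 • W)) := by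
      have h4 : y0 ^ 3 • (1 : Matrix (Y a × Y a) (Y a × Y a) ℂ) = (y0 • W) ^ 3 := by
        rw [smul_pow, W3]
      rw [h4]
      noncomm_ring
    have r1 : ‖y0 ^ 3 - 1‖ ≤ 190 * δ := by
      have h4 : (y0 ^ 3 - 1) • (1 : Matrix (Y a × Y a) (Y a × Y a) ℂ)
          = (u ^ 3 - 1) - (u ^ 3 - y0 ^ 3 • 1) := by
        rw [sub_smul, one_smul]
        abel
      have h5 : ‖y0 ^ 3 - 1‖ = n2 (mtr (Y a × Y a))
          ((y0 ^ 3 - 1) • (1 : Matrix (Y a × Y a) (Y a × Y a) ℂ)) := by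
        rw [n2_smul hτ, n2_one hτ, mul_one]
      rw [h5, h4]
      have h6 := n2_sub_le hτ (u ^ 3 - 1) (u ^ 3 - y0 ^ 3 • (1 : Matrix (Y a × Y a) (Y a × Y a) ℂ))
      have h7 : n2 (mtr (Y a × Y a)) (u ^ 3 - y0 ^ 3 • (1 : Matrix (Y a × Y a) (Y a × Y a) ℂ))
          ≤ d + d + d := by
        rw [cube]
        refine (n2_add_le hτ _ _).trans (add_le_add ((n2_add_le hτ _ _).trans ?_) c3)
        rw [c1]
        linarith
      linarith
    obtain ⟨k, hk⟩ := exists_root y0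
    refine ⟨chi k • W, ⟨k, p0, q0, ?_⟩, ?_⟩
    · rw [if_pos rfl]
    · have h4 := n2_sub_le_add hτ u (y0 • W) (chi k • W)
      have h5 : y0 • W - chi k • W = (y0 - chi k) • W := by rw [sub_smul]
      rw [h5, n2_smul hτ, n2_unitary hτ hWu, mul_one] at h4
      linarith

theorem HP_near {a : ℕ} (j : Fin 2) (u : Matrix (Y a × Y a) (Y a × Y a) ℂ)
    (hu : u ∈ Matrix.unitaryGroup (Y a × Y a) ℂ) :
    ∃ s ∈ HP a j, n2 (mtr (Y a × Y a)) (u - s) ≤ 400 * Phi (mtr (Y a × Y a)) (par a) j u := by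
  have hj : j = 0 ∨ j = 1 := by omega
  rcases hj with rfl | rfl
  · exact near0 u _ hu le_rfl
  · obtain ⟨s, hs, hs'⟩ := near0 (fl u) _ (fl_mem hu) le_rfl
    refine ⟨fl s, (HP_flip _).2 (by rwa [fl_fl]), ?_⟩
    rw [Phi_flip, ← n2_fl, fl_sub, fl_fl]
    exact hs'

end Pool.Agent.FG
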