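import Mathlib

/-!
MP_0c7c15_an: the definitions of the statement.  II_1 factors (von Neumann algebras on a Hilbert
space), tracial ultrapowers, fundamental groups.
-/

set_option autoImplicit false

open Filter Topology
open scoped InnerProductSpace

namespace Pool.Agent.FG.St

/-- The normal functional `x ↦ ∑ ⟨ξ i, x (ξ i)⟩` on the bounded operators. -/
noncomputable def vecTrace {H : Type} [NormedAddCommGroup H] [InnerProductSpace ℂ H] (ξ : ℕ → H)
    (x : H →L[ℂ] H) : ℂ := ∑' i, ⟪ξ i, x (ξ i)⟫_ℂ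

/-- A II_1 factor on the Hilbert space `H`: a von Neumann algebra `N` with trivial centre, of
infinite dimension, with a faithful normal tracial state `τ`.  (Every normal state is of the form
`x ↦ ∑ ⟨ξ i, x (ξ i)⟩` with `∑ ‖ξ i‖ ^ 2 = 1`, and a II_1 factor has only one tracial state.) -/
structure IIOneFactor (H : Type) [NormedAddCommGroup H] [InnerProductSpace ℂ H]
    [CompleteSpace H] where
  /-- the von Neumann algebra -/
  N : VonNeumannAlgebra H
  /-- the centre is trivial -/
  factor : ∀ x ∈ N, x ∈ N.commutant → ∃ c : ℂ, x = c • (1 : H →L[ℂ] H)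
  /-- the dimension is infinite -/
  infinite : ∀ n : ℕ, ∃ x : Fin n → (H →L[ℂ] H), (∀ i, x i ∈ N) ∧ LinearIndependent ℂ x
  /-- the vectors that give the trace -/
  ξ : ℕ → H
  hasSum_one : HasSum (fun i => ‖ξ i‖ ^ 2) 1
  comm : ∀ x ∈ N, ∀ y ∈ N, vecTrace ξ (x * y) = vecTrace ξ (y * x)
  faithful : ∀ x ∈ N, vecTrace ξ (star x * x) = 0 → x = 0

/-- the trace of a II_1 factor -/
noncomputable def IIOneFactor.τ {H : Type} [NormedAddCommGroup H] [InnerProductSpace ℂ H]
    [CompleteSpace H] (F : IIOneFactor H) (x : H →L[ℂ] H) : ℂ := vecTrace F.ξ x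

/-- the norm-bounded sequences in a II_1 factor -/
def IIOneFactor.Bdd {H : Type} [NormedAddCommGroup H] [InnerProductSpace ℂ H] [CompleteSpace H]
    (F : IIOneFactor H) (x : ℕ → (H →L[ℂ] H)) : Prop :=
  (∀ k, x k ∈ F.N) ∧ ∃ C : ℝ, ∀ k, ‖x k‖ ≤ C

/-- `IsUltrapower F U tr q` says that the *-algebra `M` with the trace `tr` is the tracial
ultrapower `N^U` of the II_1 factor `N`: the map `q` from the norm-bounded sequences in `N` to `M`
is a surjective unital *-homomorphism whose kernel is the ideal of all sequences with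
`lim ‖x k‖_2 = 0` along `U`, and `tr (q x)` is the limit of `τ (x k)` along `U`. -/
structure IsUltrapower {H : Type} [NormedAddCommGroup H] [InnerProductSpace ℂ H] [CompleteSpace H]
    (F : IIOneFactor H) (U : Ultrafilter ℕ) {M : Type} [Ring M] [StarRing M] [Algebra ℂ M]
    (tr : M →ₗ[ℂ] ℂ) (q : (ℕ → (H →L[ℂ] H)) → M) : Prop where
  surjective : ∀ a : M, ∃ x, F.Bdd x ∧ q x = a
  map_one : q (fun _ => 1) = 1
  map_add : ∀ x y, F.Bdd x → F.Bdd y → q (fun k => x k + y k) = q x + q y
  map_mul : ∀ x y, F.Bdd x → F.Bdd y → q (fun k => x k * y k) = q x * q y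
  map_smul : ∀ (c : ℂ) x, F.Bdd x → q (fun k => c • x k) = c • q x
  map_star : ∀ x, F.Bdd x → q (fun k => star (x k)) = star (q x)
  kernel : ∀ x, F.Bdd x → (q x = 0 ↔ Tendsto (fun k => F.τ (star (x k) * x k)) U (𝓝 0))
  trace : ∀ x, F.Bdd x → Tendsto (fun k => F.τ (x k)) U (𝓝 (tr (q x)))

/-- The fundamental group of a *-algebra `M` with trace `tr` (used for II_1 factors): all `t > 0`
such that `M` is *-isomorphic to an amplification `M^t = p (M_k(C) ⊗ M) p`, where `p` is a
projection in `M_k(C) ⊗ M = M_k(M)` with `(tr_k ⊗ tr) (p) = t / k`, that is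
`∑ i, tr (p i i) = t`.  The isomorphism is written as an injective *-homomorphism
`θ : M → M_k(M)` with image `p M_k(M) p`. -/
def fundamentalGroup {M : Type} [Ring M] [StarRing M] [Algebra ℂ M] (tr : M →ₗ[ℂ] ℂ) : Set ℝ :=
  {t | 0 < t ∧ ∃ (k : ℕ) (p : Matrix (Fin k) (Fin k) M), p * p = p ∧ star p = p ∧
    ∑ i, tr (p i i) = (t : ℂ) ∧
    ∃ θ : M →⋆ₙₐ[ℂ] Matrix (Fin k) (Fin k) M,
      Function.Injective θ ∧ Set.range θ = {x | p * x * p = x}}

end Pool.Agent.FG.St
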