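import Pool.Agent.FG.St
import Pool.Agent.FG.Statement

/-!
Project FG: the definitions of `FG/St.lean` (used in the hand-in) and those of `Statement.lean`.
-/

set_option autoImplicit false

open Filter Topology
open scoped ComplexOrder InnerProductSpace

namespace Pool.Agent.FG.St

variable {H : Type} [NormedAddCommGroup H] [InnerProductSpace ℂ H] [CompleteSpace H]

theorem st_infinite (F : FG.IIOneFactor H) (n : ℕ) :
    ∃ x : Fin n → (H →L[ℂ] H), (∀ i, x i ∈ F.N) ∧ LinearIndependent ℂ x := by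
  have h1 : (n : Cardinal) ≤ Module.rank ℂ F.N.toStarSubalgebra := by
    refine (Cardinal.natCast_le_aleph0 (n := n)).trans ?_
    rw [← not_lt, Module.rank_lt_aleph0_iff]
    exact F.infinite
  obtain ⟨v, hv⟩ := exists_linearIndependent_of_le_rank h1
  refine ⟨fun i => (v i : H →L[ℂ] H), fun i => (v i).2, ?_⟩
  exact hv.map' (F.N.toStarSubalgebra.subtype.toAlgHom.toLinearMap)
    (LinearMap.ker_eq_bot.2 Subtype.val_injective)

theorem st_vecTrace (F : FG.IIOneFactor H) {ξ : ℕ → H}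
    (hs : ∀ x : F.N.toStarSubalgebra,
      HasSum (fun i => ⟪ξ i, (x : H →L[ℂ] H) (ξ i)⟫_ℂ) (F.τ x))
    (x : H →L[ℂ] H) (hx : x ∈ F.N) : vecTrace ξ x = F.τ ⟨x, hx⟩ :=
  (hs ⟨x, hx⟩).tsum_eq

theorem st_tau_ofReal (F : FG.IIOneFactor H) (x : F.Alg) :
    F.τ (star x * x) = ((F.sq2 x : ℝ) : ℂ) := by
  have h := F.τ_pos x
  rw [Complex.le_def] at h
  exact Complex.ext rfl (by rw [Complex.ofReal_im]; exact h.2.symm)

theorem st_mul (F : FG.IIOneFactor H) {x y : H →L[ℂ] H} (hx : x ∈ F.N) (hy : y ∈ F.N) :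
    x * y ∈ F.N := mul_mem hx hy

theorem st_star (F : FG.IIOneFactor H) {x : H →L[ℂ] H} (hx : x ∈ F.N) : star x ∈ F.N :=
  star_mem hx

/-- the same II_1 factor -/
noncomputable def ofOld (F : FG.IIOneFactor H) : IIOneFactor H where
  N := F.N
  factor := F.factor
  infinite := st_infinite F
  ξ := F.τ_normal.choose
  hasSum_one := by
    have h := Complex.hasSum_re (F.τ_normal.choose_spec.2 1)
    rw [F.τ_one, Complex.one_re] at h
    convert h using 2 with i
    have h2 : ((1 : F.N.toStarSubalgebra) : H →L[ℂ] H) (F.τ_normal.choose i)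
        = F.τ_normal.choose i := rfl
    rw [h2, inner_self_eq_norm_sq_to_K]
    norm_cast
  comm := by
    intro x hx y hy
    rw [st_vecTrace F F.τ_normal.choose_spec.2 _ (st_mul F hx hy),
      st_vecTrace F F.τ_normal.choose_spec.2 _ (st_mul F hy hx)]
    exact F.τ_comm ⟨x, hx⟩ ⟨y, hy⟩
  faithful := by
    intro x hx h
    rw [st_vecTrace F F.τ_normal.choose_spec.2 _ (st_mul F (st_star F hx) hx)] at h
    exact congrArg Subtype.val (F.τ_faithful ⟨x, hx⟩ h)

theorem ofOld_tau (F : FG.IIOneFactor H) (x : H →L[ℂ] H) (hx : x ∈ F.N) :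
    (ofOld F).τ x = F.τ ⟨x, hx⟩ := st_vecTrace F F.τ_normal.choose_spec.2 x hx

/-- a bounded sequence of operators as an element of `BddSeq` -/
def toSeq (F : FG.IIOneFactor H) (x : ℕ → (H →L[ℂ] H)) (h : (ofOld F).Bdd x) : F.BddSeq :=
  ⟨fun k => ⟨x k, h.1 k⟩, h.2⟩

open Classical in
/-- the quotient map -/
noncomputable def qMap (F : FG.IIOneFactor H) (U : Ultrafilter ℕ) (x : ℕ → (H →L[ℂ] H)) :
    F.Ultrapower U :=
  if h : (ofOld F).Bdd x then Ideal.Quotient.mk (F.nullIdeal U) (toSeq F x h) else 0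

theorem qMap_of (F : FG.IIOneFactor H) (U : Ultrafilter ℕ) {x : ℕ → (H →L[ℂ] H)}
    (h : (ofOld F).Bdd x) : qMap F U x = Ideal.Quotient.mk (F.nullIdeal U) (toSeq F x h) :=
  dif_pos h

theorem bdd_add (F : FG.IIOneFactor H) {x y : ℕ → (H →L[ℂ] H)}
    (hx : (ofOld F).Bdd x) (hy : (ofOld F).Bdd y) : (ofOld F).Bdd (fun k => x k + y k) := by
  have h := (toSeq F x hx + toSeq F y hy).2
  exact ⟨fun k => add_mem (S := StarSubalgebra ℂ (H →L[ℂ] H)) (s := F.N.toStarSubalgebra)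
    (hx.1 k) (hy.1 k), h⟩

theorem bdd_mul (F : FG.IIOneFactor H) {x y : ℕ → (H →L[ℂ] H)}
    (hx : (ofOld F).Bdd x) (hy : (ofOld F).Bdd y) : (ofOld F).Bdd (fun k => x k * y k) := by
  have h := (toSeq F x hx * toSeq F y hy).2
  exact ⟨fun k => st_mul F (hx.1 k) (hy.1 k), h⟩

theorem bdd_smul (F : FG.IIOneFactor H) (c : ℂ) {x : ℕ → (H →L[ℂ] H)}
    (hx : (ofOld F).Bdd x) : (ofOld F).Bdd (fun k => c • x k) := by
  have h := (c • toSeq F x hx).2
  exact ⟨fun k => F.N.toStarSubalgebra.smul_mem (hx.1 k) c, h⟩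

theorem bdd_star (F : FG.IIOneFactor H) {x : ℕ → (H →L[ℂ] H)}
    (hx : (ofOld F).Bdd x) : (ofOld F).Bdd (fun k => star (x k)) := by
  have h := (star (toSeq F x hx)).2
  exact ⟨fun k => st_star F (hx.1 k), h⟩

theorem bdd_one (F : FG.IIOneFactor H) : (ofOld F).Bdd (fun _ => 1) :=
  ⟨fun _ => one_mem (S := StarSubalgebra ℂ (H →L[ℂ] H)) F.N.toStarSubalgebra,
    (1 : F.BddSeq).2⟩

theorem isUltrapower_qMap (F : FG.IIOneFactor H) (U : Ultrafilter ℕ) :
    IsUltrapower (ofOld F) U (F.ultraTrace U) (qMap F U) where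
  surjective a := by
    obtain ⟨x, rfl⟩ := Ideal.Quotient.mk_surjective a
    have hx : (ofOld F).Bdd (fun k => ((x.1 k : F.Alg) : H →L[ℂ] H)) :=
      ⟨fun k => (x.1 k).2, x.2⟩
    exact ⟨_, hx, qMap_of F U hx⟩
  map_one := by
    rw [qMap_of F U (bdd_one F)]
    exact map_one _
  map_add x y hx hy := by
    rw [qMap_of F U hx, qMap_of F U hy, qMap_of F U (bdd_add F hx hy), ← map_add]
    rfl
  map_mul x y hx hy := by
    rw [qMap_of F U hx, qMap_of F U hy, qMap_of F U (bdd_mul F hx hy), ← map_mul]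
    rfl
  map_smul c x hx := by
    rw [qMap_of F U hx, qMap_of F U (bdd_smul F c hx)]
    rfl
  map_star x hx := by
    rw [qMap_of F U hx, qMap_of F U (bdd_star F hx), FG.IIOneFactor.star_mk]
    rfl
  kernel x hx := by
    rw [qMap_of F U hx, Ideal.Quotient.eq_zero_iff_mem, FG.IIOneFactor.mem_nullIdeal]
    have h1 : ∀ k, (ofOld F).τ (star (x k) * x k) = ((F.sq2 ((toSeq F x hx).1 k) : ℝ) : ℂ) := by
      intro k
      rw [ofOld_tau F _ (st_mul F (st_star F (hx.1 k)) (hx.1 k))]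
      exact st_tau_ofReal F ((toSeq F x hx).1 k)
    simp only [h1]
    rw [← Complex.ofReal_zero]
    exact Complex.isUniformEmbedding_ofReal.isEmbedding.tendsto_nhds_iff
  trace x hx := by
    rw [qMap_of F U hx]
    have h1 : ∀ k, (ofOld F).τ (x k) = F.τ ((toSeq F x hx).1 k) := fun k =>
      ofOld_tau F _ (hx.1 k)
    simp only [h1]
    exact F.tendsto_tau U (toSeq F x hx)

theorem fundamentalGroup_eq {M : Type} [Ring M] [StarRing M] [Algebra ℂ M] (tr : M →ₗ[ℂ] ℂ) :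
    fundamentalGroup tr = FG.fundamentalGroup tr := rfl

end Pool.Agent.FG.St
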