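import Pool.Agent.FG.Tr

/-!
Project FG: finite precision properties with two thresholds, and ultraproducts of unitary groups
with their traces.  (Used for `transfer` and for the separable version.)
-/

set_option autoImplicit false

open Filter Topology

namespace Pool.Agent.FG

/-- finite precision properties of the parameters `b`, with two thresholds `δ₁ ≤ δ₂`:
universal quantifiers range over `Phi < δ₂`, existential quantifiers over `Phi < δ₁` -/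
structure AxT {M : Type*} [Ring M] [StarRing M] [Algebra ℂ M] (τ : M →ₗ[ℂ] ℂ) (b : Par M)
    (ε δ₁ δ₂ : ℝ) : Prop where
  unitary_c : ∀ j s, b.c j s ∈ unitary M
  unitary_U : ∀ i, b.U i ∈ unitary M
  mul : ∀ j, ∀ u ∈ unitary M, ∀ v ∈ unitary M, Phi τ b j u < δ₂ → Phi τ b j v < δ₂ →
    ∃ w ∈ unitary M, Phi τ b j w < δ₁ ∧ n2 τ (u * v - w) ≤ ε
  sep : ∀ j, ∀ u ∈ unitary M, ∀ v ∈ unitary M, Phi τ b j u < δ₂ → Phi τ b j v < δ₂ →
    n2 τ (u - v) ≤ ε ∨ 6 / 5 - ε ≤ n2 τ (u - v)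
  comm : ∀ j, ∀ u ∈ unitary M, ∀ v ∈ unitary M, Phi τ b j u < δ₂ → Phi τ b j v < δ₂ →
    ∃ s : Fin 3, n2 τ (u * v - om ^ (s : ℕ) • (v * u)) ≤ ε
  nondeg : ∀ j, ∀ u ∈ unitary M, Phi τ b j u < δ₂ →
    (∃ s : Fin 3, n2 τ (u - om ^ (s : ℕ) • 1) ≤ ε) ∨
      ∃ v ∈ unitary M, Phi τ b j v < δ₁ ∧ 6 / 5 - ε ≤ n2 τ (u * v - v * u)
  cross : ∀ u ∈ unitary M, ∀ v ∈ unitary M, Phi τ b 0 u < δ₂ → Phi τ b 1 v < δ₂ →
    n2 τ (u * v - v * u) ≤ ε
  irr : ∀ x ∈ unitary M,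
    (∀ j, ∀ p ∈ unitary M, Phi τ b j p < δ₁ → n2 τ (x * p - p * x) ≤ 1 / 4 - ε) →
    6 / 10 - ε ≤ ‖τ x‖

/-- `unitary M` with the trace is the ultraproduct of the unitary groups of the `A k` -/
structure UModel {K : Type} (A : K → Type) [∀ k, Ring (A k)] [∀ k, StarRing (A k)]
    [∀ k, Algebra ℂ (A k)] (σ : ∀ k, A k →ₗ[ℂ] ℂ) {M : Type*} [Ring M] [StarRing M]
    [Algebra ℂ M] (τ : M →ₗ[ℂ] ℂ) (U : Ultrafilter K) where
  lam : (∀ k, unitary (A k)) →* unitary M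
  surj : Function.Surjective lam
  tr : ∀ u, Tendsto (fun k => σ k (u k : A k)) U (𝓝 (τ (lam u : M)))

/-- ten parameters given by unitaries -/
def mkPar {A : Type*} [Monoid A] [StarMul A] (c : Fin 2 → Fin 4 → unitary A)
    (U : Fin 2 → unitary A) : Par A := ⟨fun j s => (c j s : A), fun i => (U i : A)⟩

end Pool.Agent.FG
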