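import Pool.Agent.FG.UPDefs

/-!
# FG-UP7: the part of an element where it is large (helper78)
-/

set_option autoImplicit false

open scoped ENNReal ComplexOrder Topology Matrix.Norms.L2Operator

namespace Pool.Agent.FG.UP

theorem exists_cut_high {A : Type*} [CStarAlgebra A] [TracialState A] (x : A) (K : ℝ)
    (hK : 0 < K) :
    ∃ h : A, star h = h ∧ ‖h‖ ≤ 1 ∧ ‖x * (1 - h)‖ ≤ K ∧ K * nrm2 h ≤ nrm2 (x * h) := by
  let _ := CStarAlgebra.spectralOrder A
  let _ := CStarAlgebra.spectralOrderedRing A
  set c : ℝ := K ^ 2 with hcK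
  have hc : 0 < c := by positivity
  set y : A := star x * x with hy
  have hys : IsSelfAdjoint y := IsSelfAdjoint.star_mul_self x
  have hy0 : 0 ≤ y := star_mul_self_nonneg x
  have hmax : ∀ t : ℝ, 0 < max t c := fun t => lt_of_lt_of_le hc (le_max_right _ _)
  have hcont : Continuous fun t : ℝ => (max t c)⁻¹ :=
    (continuous_id.max continuous_const).inv₀ fun t => (hmax t).ne'
  have hcontg : Continuous fun t : ℝ => c * (max t c)⁻¹ := continuous_const.mul hcont
  set H : ℝ → ℝ := fun t => max (t - c) 0 * (max t c)⁻¹ with hH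
  have hcontH : Continuous H :=
    ((continuous_id.sub continuous_const).max continuous_const).mul hcont
  have hH0 : ∀ t, 0 ≤ H t := fun t =>
    mul_nonneg (le_max_right _ _) (inv_nonneg.2 (hmax t).le)
  have hH1 : ∀ t, H t ≤ 1 := by
    intro t
    change max (t - c) 0 * (max t c)⁻¹ ≤ 1
    rw [← div_eq_mul_inv, div_le_one (hmax t)]
    refine max_le ((sub_le_self t hc.le).trans (le_max_left _ _)) (hmax t).le
  set h : A := cfc H y with hh
  set g : A := cfc (fun t : ℝ => c * (max t c)⁻¹) y with hg
  have hgs : star g = g := (cfc_predicate (fun t : ℝ => c * (max t c)⁻¹) y)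
  have hhs : star h = h := (cfc_predicate H y)
  have h1h : 1 - h = g := by
    rw [hg, hh, ← cfc_const_one ℝ y,
      ← cfc_sub (fun _ : ℝ => (1 : ℝ)) H y (by fun_prop) hcontH.continuousOn]
    refine cfc_congr fun t _ => ?_
    rcases le_total t c with ht | ht
    · simp only [hH, max_eq_right ht, max_eq_right (sub_nonpos.2 ht)]
      field_simp
      ring
    · have ht0 : (0 : ℝ) < t := lt_of_lt_of_le hc ht
      simp only [hH, max_eq_left ht, max_eq_left (sub_nonneg.2 ht)]
      field_simp
      ring
  refine ⟨h, hhs, ?_, ?_, ?_⟩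
  · refine norm_cfc_le zero_le_one fun t _ => ?_
    rw [Real.norm_of_nonneg (hH0 t)]
    exact hH1 t
  · rw [h1h]
    have e : star (x * g) * (x * g)
        = cfc (fun t : ℝ => (c * (max t c)⁻¹) * t * (c * (max t c)⁻¹)) y := by
      rw [cfc_mul (fun t : ℝ => (c * (max t c)⁻¹) * t) (fun t : ℝ => c * (max t c)⁻¹) y
        (hcontg.mul continuous_id).continuousOn hcontg.continuousOn,
        cfc_mul (fun t : ℝ => c * (max t c)⁻¹) (fun t : ℝ => t) y hcontg.continuousOn
        (by fun_prop), cfc_id' ℝ y, ← hg, star_mul, hgs, hy]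
      noncomm_ring
    have h2 : ‖x * g‖ * ‖x * g‖ ≤ c := by
      rw [← CStarRing.norm_star_mul_self, e]
      refine norm_cfc_le hc.le fun t ht => ?_
      have ht0 : 0 ≤ t := spectrum_nonneg_of_nonneg hy0 ht
      rw [Real.norm_of_nonneg (by have := hmax t; positivity)]
      have hle : c * (max t c)⁻¹ ≤ 1 := by
        rw [← div_eq_mul_inv, div_le_one (hmax t)]
        exact le_max_right _ _
      have hle2 : (c * (max t c)⁻¹) * t ≤ c := by
        have : (max t c)⁻¹ * t ≤ 1 := by
          rw [inv_mul_le_iff₀ (hmax t), mul_one]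
          exact le_max_left _ _
        calc (c * (max t c)⁻¹) * t = c * ((max t c)⁻¹ * t) := by ring
          _ ≤ c * 1 := mul_le_mul_of_nonneg_left this hc.le
          _ = c := mul_one c
      calc (c * (max t c)⁻¹) * t * (c * (max t c)⁻¹) ≤ c * 1 :=
            mul_le_mul hle2 hle (by have := hmax t; positivity) hc.le
        _ = c := mul_one c
    rw [hcK, ← sq] at h2
    exact (sq_le_sq₀ (norm_nonneg _) hK.le).1 h2
  · set r : ℝ → ℝ := fun t => Real.sqrt (max (t - c) 0) with hr
    have hcontr : Continuous r :=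
      Real.continuous_sqrt.comp ((continuous_id.sub continuous_const).max continuous_const)
    set b : A := cfc (fun t : ℝ => H t * r t) y with hb
    have hbs : star b = b := (cfc_predicate (fun t : ℝ => H t * r t) y)
    have e1 : star (x * h) * (x * h) = cfc (fun t : ℝ => H t * t * H t) y := by
      rw [cfc_mul (fun t : ℝ => H t * t) H y (hcontH.mul continuous_id).continuousOn
        hcontH.continuousOn, cfc_mul H (fun t : ℝ => t) y hcontH.continuousOn
        (by fun_prop), cfc_id' ℝ y, ← hh, star_mul, hhs, hy]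
      noncomm_ring
    have e2 : star b * b = cfc (fun t : ℝ => (H t * r t) * (H t * r t)) y := by
      rw [cfc_mul (fun t : ℝ => H t * r t) (fun t : ℝ => H t * r t) y
        (hcontH.mul hcontr).continuousOn (hcontH.mul hcontr).continuousOn, ← hb, hbs]
    have e3 : star h * h = cfc (fun t : ℝ => H t * H t) y := by
      rw [cfc_mul H H y hcontH.continuousOn hcontH.continuousOn, ← hh, hhs]
    have hcs : Continuous fun t : ℝ => c • (H t * H t) := (hcontH.mul hcontH).const_smul c
    have e4 : star (x * h) * (x * h) = star b * b + (c : ℂ) • (star h * h) := by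
      rw [e1, e2, e3, Complex.coe_smul, ← cfc_smul c (fun t : ℝ => H t * H t) y
        (hcontH.mul hcontH).continuousOn,
        ← cfc_add y (fun t : ℝ => (H t * r t) * (H t * r t)) (fun t : ℝ => c • (H t * H t))
          ((hcontH.mul hcontr).mul (hcontH.mul hcontr)).continuousOn
          hcs.continuousOn]
      refine cfc_congr fun t _ => ?_
      rcases le_total t c with ht | ht
      · have h0 : H t = 0 := by
          simp only [hH, max_eq_right (sub_nonpos.2 ht), zero_mul]
        simp [h0]
      · have hrr : r t * r t = t - c := by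
          simp only [hr, max_eq_left (sub_nonneg.2 ht)]
          exact Real.mul_self_sqrt (sub_nonneg.2 ht)
        simp only [smul_eq_mul]
        linear_combination -(H t * H t) * hrr
    have e5 : nrm2 (x * h) ^ 2 = (tau (star b * b)).re + c * nrm2 h ^ 2 := by
      rw [nrm2_sq, nrm2_sq, e4, map_add, map_smul, Complex.add_re, smul_eq_mul,
        Complex.re_ofReal_mul]
    have e6 := tau_star_mul_self_re_nonneg b
    have e7 : (K * nrm2 h) ^ 2 ≤ nrm2 (x * h) ^ 2 := by
      rw [e5, mul_pow, ← hcK]
      linarith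
    exact (sq_le_sq₀ (mul_nonneg hK.le (nrm2_nonneg _)) (nrm2_nonneg _)).1 e7

end Pool.Agent.FG.UP
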