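import Pool.Agent.FG.UPDefs

/-!
# The Hilbert space `L²(A, τ)` and the von Neumann algebra of the left multiplications

Block UP of project FG (MP_0c7c15_an).
-/

set_option autoImplicit false

open scoped ComplexOrder Topology InnerProductSpace

namespace Pool.Agent.FG.UP

section L2

variable (A : Type*) [CStarAlgebra A] [TracialState A]

/-- `A` with the inner product `τ(x* y)`. -/
def PreL2 : Type _ := A

noncomputable instance : AddCommGroup (PreL2 A) := inferInstanceAs (AddCommGroup A)

noncomputable instance : Module ℂ (PreL2 A) := inferInstanceAs (Module ℂ A)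

/-- The identity map from `A` to the pre-Hilbert space. -/
noncomputable def toPre : A ≃ₗ[ℂ] PreL2 A := LinearEquiv.refl ℂ A

/-- The inner product `τ(x* y)`. -/
@[instance_reducible] noncomputable def preL2Core : InnerProductSpace.Core ℂ (PreL2 A) where
  inner x y := tau (star ((toPre A).symm x) * (toPre A).symm y)
  conj_inner_symm x y := by
    rw [← Complex.star_def, ← tau_star, star_mul, star_star]
  re_inner_nonneg x := tau_star_mul_self_re_nonneg _
  add_left x y z := by
    rw [map_add, star_add, add_mul, map_add]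
  smul_left x y r := by
    rw [map_smul, star_smul, smul_mul_assoc, map_smul, smul_eq_mul]
    rfl
  definite x hx := by
    have h := TracialState.tau_faithful _ hx
    rwa [LinearEquiv.map_eq_zero_iff] at h

noncomputable instance : NormedAddCommGroup (PreL2 A) :=
  (preL2Core A).toNormedAddCommGroup

noncomputable instance : InnerProductSpace ℂ (PreL2 A) :=
  InnerProductSpace.ofCore (preL2Core A).toCore

variable {A}

theorem inner_toPre (x y : A) : ⟪toPre A x, toPre A y⟫_ℂ = tau (star x * y) := rfl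

theorem norm_toPre (x : A) : ‖toPre A x‖ = nrm2 x := by
  rw [@norm_eq_sqrt_re_inner ℂ, inner_toPre]
  rfl

variable (A)

/-- The Hilbert space `L²(A, τ)`. -/
abbrev L2 : Type _ := UniformSpace.Completion (PreL2 A)

/-- The inclusion `A → L²(A, τ)`. -/
noncomputable def hat : A →ₗ[ℂ] L2 A :=
  (UniformSpace.Completion.toComplₗᵢ (𝕜 := ℂ) (E := PreL2 A)).toLinearMap ∘ₗ (toPre A).toLinearMap

variable {A}

theorem norm_hat (x : A) : ‖hat A x‖ = nrm2 x := by
  rw [← norm_toPre]
  exact UniformSpace.Completion.norm_coe _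

theorem inner_hat (x y : A) : ⟪hat A x, hat A y⟫_ℂ = tau (star x * y) := by
  rw [← inner_toPre]
  exact UniformSpace.Completion.inner_coe _ _

theorem denseRange_hat : DenseRange (hat A) := by
  have h : DenseRange ((↑) : PreL2 A → L2 A) := UniformSpace.Completion.denseRange_coe
  exact h

theorem hat_injective : Function.Injective (hat A) := by
  rw [← LinearMap.ker_eq_bot, LinearMap.ker_eq_bot']
  intro x hx
  rw [← nrm2_eq_zero_iff, ← norm_hat, hx, norm_zero]

theorem exists_hat_near (ξ : L2 A) {ε : ℝ} (hε : 0 < ε) : ∃ x : A, ‖hat A x - ξ‖ < ε := by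
  obtain ⟨x, hx⟩ := denseRange_hat.exists_dist_lt ξ hε
  exact ⟨x, by rwa [dist_comm, dist_eq_norm] at hx⟩

theorem ext_of_hat {T S : L2 A →L[ℂ] L2 A} (h : ∀ x : A, T (hat A x) = S (hat A x)) :
    T = S := by
  apply ContinuousLinearMap.ext
  intro ξ
  have h1 : (fun ξ => T ξ) = fun ξ => S ξ :=
    denseRange_hat.equalizer T.continuous S.continuous (funext h)
  exact congrFun h1 ξ

/-- A linear map of `A` that is bounded for the 2-norm, extended to `L²`. -/
noncomputable def extL2 (f : A →ₗ[ℂ] A) (C : ℝ) (hf : ∀ x, nrm2 (f x) ≤ C * nrm2 x) :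
    L2 A →L[ℂ] L2 A :=
  ContinuousLinearMap.completion
    (LinearMap.mkContinuous ((toPre A).toLinearMap ∘ₗ f ∘ₗ (toPre A).symm.toLinearMap) C
      (fun x => by
        obtain ⟨x, rfl⟩ := (toPre A).surjective x
        simpa [norm_toPre] using hf x))

theorem extL2_hat (f : A →ₗ[ℂ] A) (C : ℝ) (hf : ∀ x, nrm2 (f x) ≤ C * nrm2 x) (x : A) :
    extL2 f C hf (hat A x) = hat A (f x) :=
  ContinuousLinearMap.completion_apply_coe _ _

theorem opNorm_le_of_hat (T : L2 A →L[ℂ] L2 A) (C : ℝ) (hC : 0 ≤ C)
    (h : ∀ x : A, ‖T (hat A x)‖ ≤ C * nrm2 x) : ‖T‖ ≤ C := by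
  refine ContinuousLinearMap.opNorm_le_bound T hC fun ξ => ?_
  refine denseRange_hat.induction_on (p := fun ξ => ‖T ξ‖ ≤ C * ‖ξ‖) ξ ?_ ?_
  · exact isClosed_le (by fun_prop) (by fun_prop)
  · intro x
    rw [norm_hat]
    exact h x

/-- Left multiplication. -/
noncomputable def lam (a : A) : L2 A →L[ℂ] L2 A :=
  extL2 (LinearMap.mulLeft ℂ a) ‖a‖ (fun x => nrm2_mul_le_left a x)

/-- Right multiplication. -/
noncomputable def rho (a : A) : L2 A →L[ℂ] L2 A :=
  extL2 (LinearMap.mulRight ℂ a) ‖a‖ (fun x => by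
    rw [mul_comm]
    exact nrm2_mul_le_right x a)

theorem lam_hat (a x : A) : lam a (hat A x) = hat A (a * x) := extL2_hat _ _ _ x

theorem rho_hat (a x : A) : rho a (hat A x) = hat A (x * a) := extL2_hat _ _ _ x

theorem norm_lam_le (a : A) : ‖lam a‖ ≤ ‖a‖ :=
  opNorm_le_of_hat _ _ (norm_nonneg a) fun x => by
    rw [lam_hat, norm_hat]
    exact nrm2_mul_le_left a x

theorem norm_rho_le (a : A) : ‖rho a‖ ≤ ‖a‖ :=
  opNorm_le_of_hat _ _ (norm_nonneg a) fun x => by
    rw [rho_hat, norm_hat, mul_comm]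
    exact nrm2_mul_le_right x a

theorem inner_ext {ξ η : L2 A} (h : ∀ x : A, ⟪hat A x, ξ⟫_ℂ = ⟪hat A x, η⟫_ℂ) : ξ = η := by
  refine ext_inner_left ℂ fun ζ => ?_
  refine denseRange_hat.induction_on (p := fun ζ => ⟪ζ, ξ⟫_ℂ = ⟪ζ, η⟫_ℂ) ζ ?_ h
  exact isClosed_eq (by fun_prop) (by fun_prop)

theorem star_lam (a : A) : star (lam a) = lam (star a) := by
  refine ext_of_hat fun x => inner_ext fun y => ?_
  rw [ContinuousLinearMap.star_eq_adjoint, ContinuousLinearMap.adjoint_inner_right, lam_hat,
    lam_hat, inner_hat, inner_hat, star_mul, mul_assoc]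

theorem star_rho (a : A) : star (rho a) = rho (star a) := by
  refine ext_of_hat fun x => inner_ext fun y => ?_
  rw [ContinuousLinearMap.star_eq_adjoint, ContinuousLinearMap.adjoint_inner_right, rho_hat,
    rho_hat, inner_hat, inner_hat, star_mul, mul_assoc, tau_mul_comm, mul_assoc]

theorem lam_mul_rho (a b : A) : lam a * rho b = rho b * lam a := by
  refine ext_of_hat fun x => ?_
  change lam a (rho b (hat A x)) = rho b (lam a (hat A x))
  rw [rho_hat, lam_hat, lam_hat, rho_hat, mul_assoc]

variable (A)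

/-- The left regular representation of `A` on `L²(A, τ)`. -/
noncomputable def lamHom : A →⋆ₐ[ℂ] (L2 A →L[ℂ] L2 A) where
  toFun := lam
  map_one' := ext_of_hat fun x => by rw [lam_hat, one_mul]; rfl
  map_mul' a b := ext_of_hat fun x => by
    change _ = lam a (lam b (hat A x))
    rw [lam_hat, lam_hat, lam_hat, mul_assoc]
  map_zero' := ext_of_hat fun x => by
    rw [lam_hat, zero_mul, map_zero]; rfl
  map_add' a b := ext_of_hat fun x => by
    change _ = lam a (hat A x) + lam b (hat A x)
    rw [lam_hat, lam_hat, lam_hat, add_mul, map_add]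
  commutes' c := ext_of_hat fun x => by
    rw [lam_hat, Algebra.algebraMap_eq_smul_one, smul_mul_assoc, one_mul, map_smul,
      Algebra.algebraMap_eq_smul_one]
    rfl
  map_star' a := (star_lam a).symm

/-- The von Neumann algebra on `L²(A, τ)` of all operators that commute with the right
multiplications by elements of `A`. -/
noncomputable def vn : VonNeumannAlgebra (L2 A) where
  toStarSubalgebra := StarSubalgebra.centralizer ℂ (Set.range (rho : A → L2 A →L[ℂ] L2 A))
  centralizer_centralizer' := by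
    have hstar : Set.range (rho : A → L2 A →L[ℂ] L2 A) ∪
        star (Set.range (rho : A → L2 A →L[ℂ] L2 A)) =
        Set.range (rho : A → L2 A →L[ℂ] L2 A) := by
      rw [Set.union_eq_left]
      rintro T ⟨a, ha⟩
      refine ⟨star a, ?_⟩
      rw [← star_rho, ha, star_star]
    change Set.centralizer (Set.centralizer (Set.centralizer _)) = Set.centralizer _
    rw [Set.centralizer_centralizer_centralizer]

variable {A}

theorem mem_vn {T : L2 A →L[ℂ] L2 A} : T ∈ vn A ↔ ∀ a : A, T * rho a = rho a * T := by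
  change T ∈ StarSubalgebra.centralizer ℂ (Set.range (rho : A → L2 A →L[ℂ] L2 A)) ↔ _
  rw [StarSubalgebra.mem_centralizer_iff]
  constructor
  · intro h a
    exact (h _ ⟨a, rfl⟩).1.symm
  · rintro h _ ⟨a, rfl⟩
    refine ⟨(h a).symm, ?_⟩
    rw [star_rho]
    exact (h (star a)).symm

theorem lam_mem_vn (a : A) : lam a ∈ vn A := mem_vn.2 fun b => lam_mul_rho a b

theorem apply_hat_of_mem_vn {T : L2 A →L[ℂ] L2 A} (hT : T ∈ vn A) (a : A) :
    T (hat A a) = rho a (T (hat A 1)) := by
  have h := congrArg (fun S : L2 A →L[ℂ] L2 A => S (hat A 1)) (mem_vn.1 hT a)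
  change T (rho a (hat A 1)) = rho a (T (hat A 1)) at h
  rwa [rho_hat, one_mul] at h

end L2

end Pool.Agent.FG.UP
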