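import Pool.Agent.FG.UTransfer

/-!
Project FG / FGS (MP_0c7c15_an): the finite precision properties `AxT` pass from most of the
factors to an ultraproduct of unitary groups (helper39).
-/

set_option autoImplicit false

open Filter Topology

namespace Pool.Agent.FG

section

variable {K : Type} {A : K → Type} [∀ k, Ring (A k)] [∀ k, StarRing (A k)]
    [∀ k, Algebra ℂ (A k)] [∀ k, StarModule ℂ (A k)] {σ : ∀ k, A k →ₗ[ℂ] ℂ} {M : Type*} [Ring M]
    [StarRing M] [Algebra ℂ M] [StarModule ℂ M] {τ : M →ₗ[ℂ] ℂ} {U : Ultrafilter K}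

theorem axT_up (hσ : ∀ k, IsTr (σ k)) (hτ : IsTr τ) (mod : UModel A σ τ U)
    (c : Fin 2 → Fin 4 → ∀ k, unitary (A k)) (V : Fin 2 → ∀ k, unitary (A k))
    {ε ε' δ₁ δ₁' δ₂ δ₂' : ℝ} (h1 : ε < ε') (h2 : δ₁ < δ₁') (h3 : δ₂' < δ₂)
    (h : ∀ᶠ k in (U : Filter K),
      AxT (σ k) (mkPar (fun j s => c j s k) (fun i => V i k)) ε δ₁ δ₂) :
    AxT τ (mkPar (fun j s => mod.lam (c j s)) (fun i => mod.lam (V i))) ε' δ₁' δ₂' := by
  classical
  have hlam : ∀ (u : M), u ∈ unitary M → ∃ x : ∀ k, unitary (A k), (mod.lam x : M) = u := by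
    intro u hu
    obtain ⟨x, hx⟩ := mod.surj ⟨u, hu⟩
    exact ⟨x, by rw [hx]⟩
  set b : Par M := mkPar (fun j s => mod.lam (c j s)) (fun i => mod.lam (V i)) with hb
  have hPhi : ∀ (j : Fin 2) (u : ∀ k, unitary (A k)), Phi τ b j (mod.lam u : M) < δ₂' →
      ∀ᶠ k in (U : Filter K),
        Phi (σ k) (mkPar (fun j s => c j s k) (fun i => V i k)) j (u k : A k) < δ₂ := by
    intro j u hu
    exact (ax2_Phi hσ hτ mod c V j u).eventually_lt_const (hu.trans h3)
  have hPhi' : ∀ (j : Fin 2) (u : ∀ k, unitary (A k)),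
      (∀ᶠ k in (U : Filter K),
        Phi (σ k) (mkPar (fun j s => c j s k) (fun i => V i k)) j (u k : A k) < δ₁) →
      Phi τ b j (mod.lam u : M) < δ₁' := by
    intro j u hu
    refine lt_of_le_of_lt ?_ h2
    exact le_of_tendsto (ax2_Phi hσ hτ mod c V j u) (hu.mono fun k hk => hk.le)
  -- choice of witnesses
  have hchoose : ∀ (Q : ∀ k, unitary (A k) → Prop), (∀ᶠ k in (U : Filter K), ∃ w, Q k w) →
      ∃ w : ∀ k, unitary (A k), ∀ᶠ k in (U : Filter K), Q k (w k) := by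
    intro Q hQ
    refine ⟨fun k => if hk : ∃ w, Q k w then hk.choose else 1, ?_⟩
    filter_upwards [hQ] with k hk
    simp only [dif_pos hk]
    exact hk.choose_spec
  refine
    { unitary_c := fun j s => (mod.lam (c j s)).2
      unitary_U := fun i => (mod.lam (V i)).2
      mul := ?_
      sep := ?_
      comm := ?_
      nondeg := ?_
      cross := ?_
      irr := ?_ }
  · intro j u hu v hv hPu hPv
    obtain ⟨u, rfl⟩ := hlam u hu
    obtain ⟨v, rfl⟩ := hlam v hv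
    obtain ⟨w, hw⟩ := hchoose (fun k w =>
      Phi (σ k) (mkPar (fun j s => c j s k) (fun i => V i k)) j (w : A k) < δ₁ ∧
        n2 (σ k) ((u k : A k) * (v k : A k) - w) ≤ ε) (by
      filter_upwards [h, hPhi j u hPu, hPhi j v hPv] with k hk hk1 hk2
      obtain ⟨w, hw, hw1, hw2⟩ := hk.mul j _ (u k).2 _ (v k).2 hk1 hk2
      exact ⟨⟨w, hw⟩, hw1, hw2⟩)
    refine ⟨mod.lam w, (mod.lam w).2, hPhi' j w (hw.mono fun k hk => hk.1), ?_⟩
    have h5 := ax2_n2 hσ hτ mod (u * v) w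
    rw [map_mul] at h5
    refine le_trans (le_of_tendsto h5 (hw.mono fun k hk => hk.2)) h1.le
  · intro j u hu v hv hPu hPv
    obtain ⟨u, rfl⟩ := hlam u hu
    obtain ⟨v, rfl⟩ := hlam v hv
    have h5 := ax2_n2 hσ hτ mod u v
    by_cases hc : ∀ᶠ k in (U : Filter K), n2 (σ k) ((u k : A k) - (v k : A k)) ≤ ε
    · exact Or.inl (le_trans (le_of_tendsto h5 hc) h1.le)
    · rw [← Ultrafilter.eventually_not] at hc
      right
      have h6 : 6 / 5 - ε ≤ n2 τ ((mod.lam u : M) - (mod.lam v : M)) := by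
        refine ge_of_tendsto h5 ?_
        filter_upwards [h, hPhi j u hPu, hPhi j v hPv, hc] with k hk hk1 hk2 hk3
        exact (hk.sep j _ (u k).2 _ (v k).2 hk1 hk2).resolve_left hk3
      linarith
  · intro j u hu v hv hPu hPv
    obtain ⟨u, rfl⟩ := hlam u hu
    obtain ⟨v, rfl⟩ := hlam v hv
    have h4 : ∃ s : Fin 3, ∀ᶠ k in (U : Filter K),
        n2 (σ k) ((u k : A k) * (v k : A k) - om ^ (s : ℕ) • ((v k : A k) * (u k : A k))) ≤ ε := by
      by_contra hn
      push Not at hn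
      have h6 : ∀ s : Fin 3, ∀ᶠ k in (U : Filter K),
          ¬ n2 (σ k) ((u k : A k) * (v k : A k)
            - om ^ (s : ℕ) • ((v k : A k) * (u k : A k))) ≤ ε := fun s =>
        (hn s).mono fun k hk => not_le.mpr hk
      obtain ⟨k, ⟨⟨⟨⟨hk, hk1⟩, hk2⟩, k0⟩, k1⟩, k2⟩ :=
        (((((h.and (hPhi j u hPu)).and (hPhi j v hPv)).and (h6 0)).and (h6 1)).and (h6 2)).exists
      obtain ⟨s, hs⟩ := hk.comm j _ (u k).2 _ (v k).2 hk1 hk2
      fin_cases s
      · exact k0 hs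
      · exact k1 hs
      · exact k2 hs
    obtain ⟨s, hs⟩ := h4
    refine ⟨s, ?_⟩
    have h5 := ax2_n2_smul hσ hτ mod (u * v) (v * u) (om ^ (s : ℕ))
    rw [map_mul, map_mul] at h5
    exact le_trans (le_of_tendsto h5 hs) h1.le
  · intro j u hu hPu
    obtain ⟨u, rfl⟩ := hlam u hu
    by_cases hc : ∃ s : Fin 3, ∀ᶠ k in (U : Filter K),
        n2 (σ k) ((u k : A k) - om ^ (s : ℕ) • 1) ≤ ε
    · left
      obtain ⟨s, hs⟩ := hc
      refine ⟨s, ?_⟩
      have h5 := ax2_n2_smul hσ hτ mod u 1 (om ^ (s : ℕ))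
      rw [map_one] at h5
      exact le_trans (le_of_tendsto h5 hs) h1.le
    · right
      push Not at hc
      have h6 : ∀ s : Fin 3, ∀ᶠ k in (U : Filter K),
          ¬ n2 (σ k) ((u k : A k) - om ^ (s : ℕ) • 1) ≤ ε := fun s =>
        (hc s).mono fun k hk => not_le.mpr hk
      obtain ⟨v, hv⟩ := hchoose (fun k v =>
        Phi (σ k) (mkPar (fun j s => c j s k) (fun i => V i k)) j (v : A k) < δ₁ ∧
          6 / 5 - ε ≤ n2 (σ k) ((u k : A k) * (v : A k) - (v : A k) * (u k : A k))) (by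
        filter_upwards [h, hPhi j u hPu, h6 0, h6 1, h6 2] with k hk hk1 k0 k1 k2
        rcases hk.nondeg j _ (u k).2 hk1 with ⟨s, hs⟩ | ⟨v, hv, hv1, hv2⟩
        · exfalso
          fin_cases s
          · exact k0 hs
          · exact k1 hs
          · exact k2 hs
        · exact ⟨⟨v, hv⟩, hv1, hv2⟩)
      refine ⟨mod.lam v, (mod.lam v).2, hPhi' j v (hv.mono fun k hk => hk.1), ?_⟩
      have h5 := ax2_n2 hσ hτ mod (u * v) (v * u)
      rw [map_mul, map_mul] at h5
      have h7 := ge_of_tendsto h5 (hv.mono fun k hk => hk.2)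
      refine le_trans ?_ h7
      linarith
  · intro u hu v hv hPu hPv
    obtain ⟨u, rfl⟩ := hlam u hu
    obtain ⟨v, rfl⟩ := hlam v hv
    have h5 := ax2_n2 hσ hτ mod (u * v) (v * u)
    rw [map_mul, map_mul] at h5
    refine le_trans (le_of_tendsto h5 ?_) h1.le
    filter_upwards [h, hPhi 0 u hPu, hPhi 1 v hPv] with k hk hk1 hk2
    exact hk.cross _ (u k).2 _ (v k).2 hk1 hk2
  · intro x hx hxp
    obtain ⟨x, rfl⟩ := hlam x hx
    by_contra hn
    push Not at hn
    have h4 : ∀ᶠ k in (U : Filter K), ‖σ k (x k : A k)‖ < 6 / 10 - ε :=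
      (mod.tr x).norm.eventually_lt_const (by linarith)
    -- a witness of the failure of the hypothesis of irr
    have h6 : ∃ j : Fin 2, ∀ᶠ k in (U : Filter K), ∃ p : unitary (A k),
        Phi (σ k) (mkPar (fun j s => c j s k) (fun i => V i k)) j (p : A k) < δ₁ ∧
          1 / 4 - ε < n2 (σ k) ((x k : A k) * (p : A k) - (p : A k) * (x k : A k)) := by
      by_contra hn2
      push Not at hn2
      have h7 : ∀ j : Fin 2, ∀ᶠ k in (U : Filter K), ¬ ∃ p : unitary (A k),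
          Phi (σ k) (mkPar (fun j s => c j s k) (fun i => V i k)) j (p : A k) < δ₁ ∧
          1 / 4 - ε < n2 (σ k) ((x k : A k) * (p : A k) - (p : A k) * (x k : A k)) := fun j =>
        (hn2 j).mono fun k hk => by
          rintro ⟨p, hp1, hp2⟩
          exact absurd (hk p hp1) (not_le.mpr hp2)
      obtain ⟨k, ⟨⟨hk, hk1⟩, k0⟩, k1⟩ := (((h.and h4).and (h7 0)).and (h7 1)).exists
      refine absurd (hk.irr _ (x k).2 fun j p hp hp1 => ?_) (not_le.mpr hk1)
      by_contra hc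
      push Not at hc
      fin_cases j
      · exact k0 ⟨⟨p, hp⟩, hp1, hc⟩
      · exact k1 ⟨⟨p, hp⟩, hp1, hc⟩
    obtain ⟨j, hj⟩ := h6
    obtain ⟨p, hp⟩ := hchoose _ hj
    have h8 := hxp j (mod.lam p : M) (mod.lam p).2 (hPhi' j p (hp.mono fun k hk => hk.1))
    have h5 := ax2_n2 hσ hτ mod (x * p) (p * x)
    rw [map_mul, map_mul] at h5
    have h9 : 1 / 4 - ε ≤ n2 τ (((mod.lam x * mod.lam p : unitary M) : M)
        - ((mod.lam p * mod.lam x : unitary M) : M)) :=
      ge_of_tendsto h5 (hp.mono fun k hk => hk.2.le)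
    have h10 : n2 τ (((mod.lam x * mod.lam p : unitary M) : M)
        - ((mod.lam p * mod.lam x : unitary M) : M)) ≤ 1 / 4 - ε' := h8
    linarith

end

end Pool.Agent.FG
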